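import Mathlib

namespace Pool.Agent.P.MP_5ee5b4_al

open CategoryTheory

/-- `G` is of type FP: the trivial module has a finite-length resolution by finitely generated
projective modules over the integral group ring. -/
def IsFP (G : Type) [Group G] : Prop :=
  ∃ P : ProjectiveResolution (Rep.trivial ℤ G ℤ),
    (∀ n : ℕ, Module.Finite (MonoidAlgebra ℤ G)
      (Rep.toModuleMonoidAlgebra.obj (P.complex.X n))) ∧
      ∃ N : ℕ, ∀ n : ℕ, N < n → Limits.IsZero (P.complex.X n)

/-- `G` is a Poincare duality group of dimension three. -/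
def IsPD3 (G : Type) [Group G] : Prop :=
  IsFP G ∧ (∀ i : ℕ, i ≠ 3 → Limits.IsZero (groupCohomology (Rep.leftRegular ℤ G) i)) ∧
    Nonempty (groupCohomology (Rep.leftRegular ℤ G) 3 ≃+ ℤ)

/-- The subgroup `L` contains no nonabelian free subgroup. -/
def NoFree {G : Type} [Group G] (L : Subgroup G) : Prop :=
  ∀ F : Subgroup G, F ≤ L → IsFreeGroup F → ∀ a b : F, a * b = b * a

end Pool.Agent.P.MP_5ee5b4_al
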