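import Pool.Agent.P.MP_5ee5b4_al.Dich2
import Pool.Agent.P.MP_6e40fc_al.MainB

/-! From the ascending alternative to finite generation of the kernel. -/

namespace Pool.Agent.P.MP_5ee5b4_al

open Pool.Agent.P.MP_6e40fc_al Matrix
open scoped MonoidAlgebra

noncomputable section

variable {Γ : Type} [Group Γ]

theorem conj_closure_mem {T : Set Γ} {B : Subgroup Γ} {u : Γ} (h : ∀ x ∈ T, u * x * u⁻¹ ∈ B)
    {x : Γ} (hx : x ∈ Subgroup.closure T) : u * x * u⁻¹ ∈ B :=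
  (Subgroup.closure_le (B.comap (MulAut.conj u).toMonoidHom)).2 h hx

theorem conj_pow_mem {B : Subgroup Γ} {u : Γ} (h : ∀ x ∈ B, u * x * u⁻¹ ∈ B) (m : ℕ) {x : Γ}
    (hx : x ∈ B) : u ^ m * x * (u ^ m)⁻¹ ∈ B := by
  induction m with
  | zero => simpa using hx
  | succ m ih =>
    convert h _ ih using 1
    group

theorem ascending (χ : Γ →* Multiplicative ℤ) (t : Γ) (ht : lv χ t = 1) (v : Γ) (B : Subgroup Γ)
    (hv : 0 < lv χ v) (hB : B.FG) (hB' : B ≤ χ.ker)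
    (h : ∀ h, lv χ h = 0 → ∃ n0 : ℕ, ∀ n ≥ n0, v ^ n * h * v⁻¹ ^ n ∈ B) :
    ∃ B' : Subgroup Γ, B'.FG ∧ B' ≤ χ.ker ∧ (∀ x ∈ B', t * x * t⁻¹ ∈ B') ∧
      ∀ h, lv χ h = 0 → ∃ m : ℕ, t ^ m * h * (t ^ m)⁻¹ ∈ B' := by
  obtain ⟨T, rfl, hT⟩ := (Subgroup.fg_iff _).1 hB
  choose! n0 hn0 using h
  obtain ⟨n1, hn1⟩ := (hT.image n0).bddAbove
  set V := v ^ (n1 + 1) with hV
  have hTk : ∀ x ∈ T, lv χ x = 0 := fun x hx =>
    (lv_eq_zero χ).2 (hB' (Subgroup.subset_closure hx))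
  have h1 : ∀ x ∈ T, V * x * V⁻¹ ∈ Subgroup.closure T := fun x hx => by
    have := hn0 x (hTk x hx) (n1 + 1) (by have : n0 x ≤ n1 := hn1 ⟨x, hx, rfl⟩; omega)
    rwa [inv_pow] at this
  have h2 : ∀ x, lv χ x = 0 → ∃ k : ℕ, V ^ k * x * (V ^ k)⁻¹ ∈ Subgroup.closure T := fun x hx =>
    ⟨n0 x, by
      have := hn0 x hx ((n1 + 1) * n0 x) (Nat.le_mul_of_pos_left _ (by omega))
      rwa [inv_pow, pow_mul] at this⟩
  obtain ⟨a, ha⟩ : ∃ a : ℕ, lv χ V = (a + 1 : ℕ) :=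
    ⟨(lv χ V - 1).toNat, by
      have : 0 < lv χ V := by rw [hV, lv_pow]; positivity
      omega⟩
  set h0 := V * (t ^ (a + 1))⁻¹ with hh0
  have hl0 : lv χ h0 = 0 := by simp [hh0, ha, ht]
  obtain ⟨k0, hk0⟩ := h2 h0 hl0
  let T1 : Set Γ := T ∪ (fun j : ℕ => V ^ j * h0 * (V ^ j)⁻¹) '' Set.Iic k0
  have hT1 : T1.Finite := hT.union ((Set.finite_Iic k0).image _)
  have hTT1 : Subgroup.closure T ≤ Subgroup.closure T1 := Subgroup.closure_mono Set.subset_union_left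
  have h3 : ∀ x ∈ T1, V * x * V⁻¹ ∈ Subgroup.closure T1 := by
    rintro x (hx | ⟨j, hj, rfl⟩)
    · exact hTT1 (h1 x hx)
    · rcases (Set.mem_Iic.1 hj).lt_or_eq with hj | rfl
      · refine Subgroup.subset_closure (Or.inr ⟨j + 1, hj, ?_⟩)
        group
      · exact hTT1 (conj_closure_mem h1 hk0)
  have h4 : h0 ∈ Subgroup.closure T1 := Subgroup.subset_closure (Or.inr ⟨0, Nat.zero_le _, by simp⟩)
  let T2 : Set Γ := Set.image2 (fun (i : ℕ) x => t ^ i * x * (t ^ i)⁻¹) (Set.Iic a) T1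
  have hT12 : Subgroup.closure T1 ≤ Subgroup.closure T2 :=
    Subgroup.closure_mono fun x hx => ⟨0, Nat.zero_le _, x, hx, by simp⟩
  have h5 : ∀ x ∈ Subgroup.closure T2, t * x * t⁻¹ ∈ Subgroup.closure T2 := by
    refine fun x hx => conj_closure_mem ?_ hx
    rintro _ ⟨i, hi, x, hx, rfl⟩
    rcases (Set.mem_Iic.1 hi).lt_or_eq with hi | rfl
    · refine Subgroup.subset_closure ⟨i + 1, hi, x, hx, ?_⟩
      group
    · refine hT12 ?_
      convert Subgroup.mul_mem _ (Subgroup.mul_mem _ (Subgroup.inv_mem _ h4) (h3 x hx)) h4 using 1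
      rw [hh0]
      group
  refine ⟨Subgroup.closure T2, (Subgroup.fg_iff _).2 ⟨_, rfl, (Set.finite_Iic a).image2 _ hT1⟩,
    (Subgroup.closure_le _).2 ?_, h5, fun x hx => ?_⟩
  · rintro _ ⟨i, -, x, hx | ⟨j, -, rfl⟩, rfl⟩
    · exact (lv_eq_zero χ).1 (by simp [hTk x hx])
    · exact (lv_eq_zero χ).1 (by simp [hl0])
  · obtain ⟨k, hk⟩ := h2 x hx
    have hk' := hT12 (hTT1 hk)
    clear hk hx
    induction k generalizing x with
    | zero => exact ⟨0, by simpa using hk'⟩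
    | succ k ih =>
      obtain ⟨m, hm⟩ := ih (V * x * V⁻¹) (by convert hk' using 1; group)
      have h6 := conj_pow_mem h5 m (hT12 h4)
      refine ⟨m + (a + 1), ?_⟩
      convert Subgroup.mul_mem _ (Subgroup.mul_mem _ (Subgroup.inv_mem _ h6) hm) h6 using 1
      rw [hh0]
      group

variable {n0 n1 n2 m0 : Type} [Fintype n0] [Fintype n1] [Fintype n2] [Fintype m0]
  [DecidableEq n0] [DecidableEq n1] [DecidableEq n2] [DecidableEq m0]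

theorem ker_fg_of_asc (P : PRes Γ n0 n1 n2) (P' : PRes Γ m0 n2 n1) (w : Γ →* ℤˣ)
    (hP : P'.d2 = (P.d2.map (conj w))ᵀ) (χ : Γ →* Multiplicative ℤ) (t : Γ) (ht : lv χ t = 1)
    (B : Subgroup Γ) (hB : B.FG) (hB' : B ≤ χ.ker) (hc : ∀ x ∈ B, t * x * t⁻¹ ∈ B)
    (h : ∀ h, lv χ h = 0 → ∃ m : ℕ, t ^ m * h * (t ^ m)⁻¹ ∈ B) :
    χ.ker.FG ∧ AllPrinc (iota χ) ∧ AllPrinc (iota χ⁻¹) := by
  let φ : B →* B := ((MulAut.conj t).toMonoidHom.comp B.subtype).codRestrict B fun x => hc x x.2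
  have ht' : χ t = Multiplicative.ofAdd 1 := Multiplicative.toAdd.injective ht
  have hnf : ∀ g : Γ, ∃ (m n : ℕ) (x : B), g = (t ^ m)⁻¹ * B.subtype x * t ^ n := by
    intro g
    obtain ⟨m, hm⟩ := h (g * t ^ (-lv χ g)) (by simp [ht])
    obtain ⟨n, hn⟩ : ∃ n : ℕ, (n : ℤ) = (lv χ g).natAbs + m + lv χ g :=
      ⟨((lv χ g).natAbs + m + lv χ g).toNat, by omega⟩
    refine ⟨(lv χ g).natAbs + m, n, ⟨_, conj_pow_mem hc (lv χ g).natAbs hm⟩, ?_⟩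
    rw [← zpow_natCast t n, hn]
    simp only [Subgroup.coe_subtype]
    generalize (lv χ g).natAbs = b
    group
  have h1 := allPrinc_plus φ B.subtype t χ ht' (fun x => hB' x.2) (fun _ => rfl) hnf
    ((Group.fg_iff_subgroup_fg B).2 hB)
  have h2 := allPrinc_symm P P' w hP χ t ht' h1
  have h3 := surjective_of_allPrinc φ B.subtype t χ ht' (fun x => hB' x.2) (fun _ => rfl) hnf
    B.subtype_injective h2
  refine ⟨?_, h2, h1⟩
  suffices χ.ker = B from this ▸ hB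
  refine le_antisymm (fun x hx => ?_) hB'
  obtain ⟨m, hm⟩ := h x ((lv_eq_zero χ).2 hx)
  clear hx
  induction m with
  | zero => simpa using hm
  | succ m ih =>
    obtain ⟨y, hy⟩ := h3 ⟨_, hm⟩
    have hy' : t * y * t⁻¹ = t ^ (m + 1) * x * (t ^ (m + 1))⁻¹ := congrArg Subtype.val hy
    refine ih ?_
    have : t ^ m * x * (t ^ m)⁻¹ = t⁻¹ * (t * y * t⁻¹) * t := by rw [hy']; group
    rw [this]
    simp [mul_assoc]

theorem ker_fg (P : PRes Γ n0 n1 n2) (P' : PRes Γ m0 n2 n1) (w : Γ →* ℤˣ)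
    (hP : P'.d2 = (P.d2.map (conj w))ᵀ) (χ : Γ →* Multiplicative ℤ) (t : Γ) (ht : lv χ t = 1)
    (v : Γ) (B : Subgroup Γ) (hv : lv χ v ≠ 0) (hB : B.FG) (hB' : B ≤ χ.ker)
    (h : ∀ h, lv χ h = 0 → ∃ n0 : ℕ, ∀ n ≥ n0, v ^ n * h * v⁻¹ ^ n ∈ B) :
    χ.ker.FG ∧ AllPrinc (iota χ) ∧ AllPrinc (iota χ⁻¹) := by
  rcases lt_or_gt_of_ne hv with hv | hv
  · have hk : χ⁻¹.ker = χ.ker := by ext; simp
    obtain ⟨B', h1, h2, h3, h4⟩ := ascending χ⁻¹ t⁻¹ (by simp [ht]) v B (by simpa using hv) hB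
      (hk ▸ hB') fun x hx => h x (by simpa using hx)
    obtain ⟨h5, h6, h7⟩ := ker_fg_of_asc P P' w hP χ⁻¹ t⁻¹ (by simp [ht]) B' h1 h2 h3 h4
    exact ⟨hk ▸ h5, by rwa [inv_inv] at h7, h6⟩
  · obtain ⟨B', h1, h2, h3, h4⟩ := ascending χ t ht v B hv hB hB' h
    exact ker_fg_of_asc P P' w hP χ t ht B' h1 h2 h3 h4

end

end Pool.Agent.P.MP_5ee5b4_al
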