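import Pool.Agent.P.MP_5ee5b4_al.Dich2

/-! The trace of an idempotent matrix over the integral group ring. -/

namespace Pool.Agent.P.MP_5ee5b4_al

open Pool.Agent.P.MP_6e40fc_al Polynomial
open scoped MonoidAlgebra

noncomputable section

theorem frob_add {R : Type} [Ring R] {p : ℕ} [hp : Fact p.Prime] (T : R →+ ZMod p)
    (hT : ∀ x y, T (x * y) = T (y * x)) (a b : R) : T ((a + b) ^ p) = T (a ^ p) + T (b ^ p) := by
  have h1 : ∀ (P Q : R[X]) k, T ((P * Q).coeff k) = T ((Q * P).coeff k) := fun P Q k => by
    rw [coeff_mul, coeff_mul, map_sum, map_sum, ← Finset.Nat.sum_antidiagonal_swap]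
    exact Finset.sum_congr rfl fun ij _ => hT _ _
  set g : R[X] := C a + C b * X with hg
  have h2 : ∀ k n m, T ((derivative (g ^ (n + 1)) * g ^ m).coeff k) =
      (n + 1 : ℕ) * T ((derivative g * g ^ (n + m)).coeff k) := by
    intro k n
    induction n with
    | zero => simp
    | succ n ih =>
      intro m
      rw [pow_succ, derivative_mul, add_mul, coeff_add, map_add, mul_assoc, ← pow_succ', ih,
        mul_assoc, h1 (g ^ (n + 1)), mul_assoc, ← pow_add, show m + (n + 1) = n + (m + 1) by omega,
        show n + 1 + m = n + (m + 1) by omega]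
      push_cast
      ring
  have h3 : ∀ k, k + 1 < p → T ((g ^ p).coeff (k + 1)) = 0 := fun k hk => by
    have := h2 k (p - 1) 0
    rw [Nat.sub_add_cancel hp.out.pos, ZMod.natCast_self, zero_mul, pow_zero, mul_one,
      coeff_derivative, ← Nat.cast_add_one, ← Nat.cast_comm, ← nsmul_eq_mul, map_nsmul,
      nsmul_eq_mul, mul_eq_zero, ZMod.natCast_eq_zero_iff] at this
    exact this.resolve_left fun h => absurd (Nat.le_of_dvd (by omega) h) (by omega)
  have hd : g.natDegree ≤ 1 := (natDegree_add_le _ _).trans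
    (max_le (by simp) ((natDegree_C_mul_le _ _).trans natDegree_X_le))
  have h4 : (a + b) ^ p = ∑ k ∈ Finset.range (p + 1), (g ^ p).coeff k := by
    have := eval₂_eq_sum_range' (RingHom.id R) (p := g ^ p) (n := p + 1)
      (Nat.lt_succ_of_le ((natDegree_pow_le_of_le p hd).trans (mul_one p).le)) 1
    simp only [RingHom.id_apply, one_pow, mul_one] at this
    rw [← this]
    have e := map_pow (eval₂RingHom' (RingHom.id R) 1 fun a => Commute.one_right _) g p
    refine Eq.trans ?_ e.symm
    congr 1
    rw [hg, map_add, map_mul]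
    change _ = eval₂ _ _ _ + eval₂ _ _ _ * eval₂ _ _ _
    simp
  have h5 : (g ^ p).coeff 0 = a ^ p := by
    rw [← constantCoeff_apply, map_pow, constantCoeff_apply]
    simp [hg]
  have h6 : (g ^ p).coeff p = b ^ p := by
    have := coeff_pow_of_natDegree_le (m := p) hd
    rw [mul_one] at this
    rw [this]
    simp [hg]
  obtain ⟨q, hq⟩ : ∃ q, p = q + 1 := ⟨p - 1, (Nat.sub_add_cancel hp.out.pos).symm⟩
  rw [h4, Finset.sum_range_succ, h6, map_add, map_sum]
  congr 1
  rw [Finset.sum_eq_single 0, h5]
  · intro k hk hk0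
    obtain ⟨k, rfl⟩ := Nat.exists_eq_succ_of_ne_zero hk0
    exact h3 k (Finset.mem_range.1 hk)
  · exact fun h => absurd (Finset.mem_range.2 hp.out.pos) h

variable {H : Type} [Group H]

theorem extAdd_comm {M : Type} [AddCommGroup M] (f : H → M) (hf : ∀ x y, f (x * y) = f (y * x))
    (a b : ℤ[H]) : extAdd f (a * b) = extAdd f (b * a) := by
  induction a using zg_induction with
  | ho x =>
    induction b using zg_induction with
    | ho y => rw [o_mul, o_mul, extAdd_o, extAdd_o, hf]
    | hadd c d hc hd => rw [mul_add, add_mul, map_add, map_add, hc, hd]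
    | hsmul n c hc => rw [mul_smul_comm, smul_mul_assoc, map_zsmul, map_zsmul, hc]
  | hadd c d hc hd => rw [mul_add, add_mul, map_add, map_add, hc, hd]
  | hsmul n c hc => rw [mul_smul_comm, smul_mul_assoc, map_zsmul, map_zsmul, hc]

theorem trace_pow {n : Type} [Fintype n] [DecidableEq n] {p : ℕ} [hp : Fact p.Prime]
    (f : H → ZMod p) (hf : ∀ x y, f (x * y) = f (y * x)) (A : Matrix n n ℤ[H]) :
    extAdd f (A ^ p).trace = extAdd (fun x => f (x ^ p)) A.trace := by
  let T : Matrix n n ℤ[H] →+ ZMod p := (extAdd f).comp (Matrix.traceAddMonoidHom n ℤ[H])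
  have hT : ∀ X Y, T (X * Y) = T (Y * X) := fun X Y => by
    change extAdd f (X * Y).trace = extAdd f (Y * X).trace
    simp only [Matrix.trace, Matrix.diag, Matrix.mul_apply, map_sum]
    rw [Finset.sum_comm]
    exact Finset.sum_congr rfl fun i _ => Finset.sum_congr rfl fun j _ => extAdd_comm f hf _ _
  let Φ : Matrix n n ℤ[H] →+ ZMod p := AddMonoidHom.mk' (fun A => T (A ^ p)) (frob_add T hT)
  change Φ A = _
  induction A using Matrix.induction_on' with
  | h_zero => simp
  | h_add A B hA hB => rw [map_add, Matrix.trace_add, map_add, hA, hB]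
  | h_std_basis i j r =>
    induction r using zg_induction with
    | ho g =>
      change extAdd f (Matrix.single i j (o g) ^ p).trace = _
      by_cases hij : i = j
      · subst hij
        have : ∀ k : ℕ, Matrix.single i i (o g) ^ (k + 1) = Matrix.single i i (o (g ^ (k + 1))) := by
          intro k
          induction k with
          | zero => simp
          | succ k ih => rw [pow_succ, ih, Matrix.single_mul_single_same, o_mul, ← pow_succ]
        have e := this (p - 1)
        rw [Nat.sub_add_cancel hp.out.pos] at e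
        rw [e, Matrix.trace_single_eq_same, Matrix.trace_single_eq_same, extAdd_o, extAdd_o]
      · rw [pow_eq_zero_of_le hp.out.two_le (by
          rw [sq, Matrix.single_mul_single_of_ne _ _ _ _ (Ne.symm hij)]),
          Matrix.trace_single_eq_of_ne _ _ _ hij]
        simp
    | hadd a b ha hb => rw [Matrix.single_add, map_add, Matrix.trace_add, map_add, ha, hb]
    | hsmul k a ha =>
      rw [← Matrix.smul_single, map_zsmul, Matrix.trace_smul, map_zsmul, ha]

theorem bass {n : Type} [Fintype n] [DecidableEq n] (e : Matrix n n ℤ[H]) (he : e * e = e)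
    (hH : ∀ (x g : H) (q : ℕ), 2 ≤ q → g * x * g⁻¹ = x ^ q → x = 1) :
    aug ℤ H e.trace = e.trace.coeff 1 := by
  classical
  let cl : ℤ[H] →+ (ConjClasses H →₀ ℤ) := extAdd fun g => Finsupp.single (ConjClasses.mk g) 1
  have hcl : ∀ {M : Type} [AddCommGroup M] (φ : ConjClasses H → M) (a : ℤ[H]),
      extAdd (fun g => φ (ConjClasses.mk g)) a = Finsupp.linearCombination ℤ φ (cl a) := by
    intro M _ φ a
    induction a using zg_induction with
    | ho g => simp [cl]
    | hadd a b ha hb => rw [map_add, map_add, map_add, ha, hb]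
    | hsmul k a ha => rw [map_zsmul, map_zsmul, map_zsmul, ha]
  set r := cl e.trace with hr
  have h1 : ∀ C, C ≠ 1 → r C = 0 := by
    intro C0 hC0
    by_contra h0
    obtain ⟨p, hp1, hp⟩ := Nat.exists_infinite_primes ((r C0).natAbs + 1)
    haveI := Fact.mk hp
    let pw : ConjClasses H → ConjClasses H := fun C => ConjClasses.mk (C.out ^ p)
    have hpw : ∀ g, pw (ConjClasses.mk g) = ConjClasses.mk (g ^ p) := fun g =>
      ConjClasses.mk_eq_mk_iff_isConj.2 (IsConj.pow p (ConjClasses.mk_eq_mk_iff_isConj.1
        (Quotient.out_eq (ConjClasses.mk g))))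
    have h2 : ∀ C, ((r C : ℤ) : ZMod p) ≠ 0 → ∃ C', ((r C' : ℤ) : ZMod p) ≠ 0 ∧ pw C' = C := by
      intro C hC
      by_contra hcon
      have e1 := trace_pow (fun g => if ConjClasses.mk g = C then (1 : ZMod p) else 0)
        (fun x y => by
          rw [ConjClasses.mk_eq_mk_iff_isConj.2 (isConj_iff.2 ⟨y, by group⟩ : IsConj (x * y) (y * x))])
        e
      rw [(show IsIdempotentElem e from he).pow_eq hp.ne_zero,
        hcl (fun D => if D = C then (1 : ZMod p) else 0)] at e1
      simp only [← hpw] at e1
      rw [hcl (fun D => if pw D = C then (1 : ZMod p) else 0), ← hr,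
        Finsupp.linearCombination_apply, Finsupp.linearCombination_apply, Finsupp.sum, Finsupp.sum,
        Finset.sum_eq_single C, Finset.sum_eq_zero] at e1
      · exact hC (by simpa using e1)
      · intro D _
        split_ifs with h
        · rw [zsmul_one, not_not.1 fun h' => hcon ⟨D, h', h⟩]
        · simp
      · intro D _ hD
        simp [hD]
      · intro h
        simp [Finsupp.notMem_support_iff.1 h]
    haveI : Finite {C // ((r C : ℤ) : ZMod p) ≠ 0} := (r.support.finite_toSet.subset
      (t := {C | ((r C : ℤ) : ZMod p) ≠ 0}) fun C hC =>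
        Finsupp.mem_support_iff.2 fun h => hC (by rw [h, Int.cast_zero])).to_subtype
    choose f hf1 hf2 using h2
    let F : {C // ((r C : ℤ) : ZMod p) ≠ 0} → {C // ((r C : ℤ) : ZMod p) ≠ 0} :=
      fun C => ⟨f C.1 C.2, hf1 _ _⟩
    have hF : ∀ C, pw (F C).1 = C.1 := fun C => hf2 _ _
    have hinj : Function.Injective F := fun C D h => Subtype.ext (by rw [← hF C, h, hF])
    have hC0' : ((r C0 : ℤ) : ZMod p) ≠ 0 := fun h => by
      have := Int.natAbs_dvd_natAbs.2 ((ZMod.intCast_zmod_eq_zero_iff_dvd _ _).1 h)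
      have := Nat.le_of_dvd (Int.natAbs_pos.2 h0) this
      simp at this
      omega
    obtain ⟨k, hk, hk'⟩ := hinj.mem_periodicPts ⟨C0, hC0'⟩
    have h3 : ∀ (k : ℕ) C x, (F^[k] C).1 = ConjClasses.mk x → C.1 = ConjClasses.mk (x ^ p ^ k) := by
      intro k
      induction k with
      | zero => intro C x h; simpa using h
      | succ k ih =>
        intro C x h
        rw [Function.iterate_succ_apply'] at h
        rw [pow_succ', pow_mul]
        exact ih C _ (by rw [← hF, h, hpw])
    obtain ⟨x, rfl⟩ := ConjClasses.mk_surjective C0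
    obtain ⟨g, hg⟩ := isConj_iff.1 (ConjClasses.mk_eq_mk_iff_isConj.1
      (h3 k _ x (congrArg Subtype.val hk')))
    exact hC0 (by
      rw [hH x g (p ^ k) (hp.two_le.trans (Nat.le_self_pow hk.ne' p)) hg]; rfl)
  have h4 : aug ℤ H e.trace = extAdd (fun g : H => (fun _ => (1 : ℤ)) (ConjClasses.mk g)) e.trace :=
    DFunLike.congr_fun (addHom_ext (f := (aug ℤ H).toRingHom.toAddMonoidHom) fun g => by
      rw [extAdd_o]; exact aug_o g) _
  have h5 : ∀ a : ℤ[H], a.coeff 1 =
      extAdd (fun g : H => (fun C => if C = 1 then (1 : ℤ) else 0) (ConjClasses.mk g)) a := by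
    intro a
    induction a using zg_induction with
    | ho g =>
      rw [extAdd_o]
      simp only [o, MonoidAlgebra.of_apply, MonoidAlgebra.coeff_single, Finsupp.single_apply]
      exact if_congr (by rw [ConjClasses.one_eq_mk_one, ConjClasses.mk_eq_mk_iff_isConj,
        isConj_one_left]) rfl rfl
    | hadd a b ha hb => rw [map_add, ← ha, ← hb]; rfl
    | hsmul k a ha => rw [map_zsmul, ← ha]; rfl
  rw [h4, h5, hcl fun _ => (1 : ℤ), hcl fun C => if C = 1 then (1 : ℤ) else 0, ← hr,
    Finsupp.linearCombination_apply, Finsupp.linearCombination_apply]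
  refine Finsupp.sum_congr fun C hC => ?_
  rw [if_pos (by_contra fun h => Finsupp.mem_support_iff.1 hC (h1 C h))]

end

end Pool.Agent.P.MP_5ee5b4_al
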