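import Pool.Agent.P.MP_6e40fc_al.Rank

/-! Further properties of the rank function. -/

namespace Pool.Agent.P.MP_5ee5b4_al

open Pool.Agent.P.MP_6e40fc_al Matrix Filter Topology TrAlg

noncomputable section

variable {A : Type} [Ring A] [Algebra ℝ A] [StarRing A] [StarModule ℝ A] [TrAlg A]
variable {l m n p : Type} [Fintype l] [Fintype m] [Fintype n] [Fintype p]
variable [DecidableEq l] [DecidableEq m] [DecidableEq n] [DecidableEq p]

theorem rk_orth (B : Matrix m n A) (C : Matrix n p A) (h : B * C = 0) :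
    rk B + rk C ≤ Fintype.card n := by
  have key : ∀ (X : Matrix n m A) (Y : Matrix n p A),
      (Fintype.card n : ℝ) ≤ nn (1 - X * B) + nn (1 - Y * Cᴴ) := by
    intro X Y
    have h0 : ip (X * B) (Y * Cᴴ) = 0 := by
      rw [ip, conjTranspose_mul, conjTranspose_conjTranspose, Matrix.mul_assoc, ← Matrix.mul_assoc B,
        h, Matrix.zero_mul, Matrix.mul_zero, tr, trace_zero, map_zero]
    have h1 := nn_comb 1 (-1) (1 : Matrix n n A) (X * B)
    have h2 := nn_comb 1 (-1) (1 : Matrix n n A) (Y * Cᴴ)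
    have h3 := nn_comb 1 (-1) (1 : Matrix n n A) (X * B + Y * Cᴴ)
    have h4 := nn_comb 1 1 (X * B) (Y * Cᴴ)
    have h5 := nn_nonneg ((1 : ℝ) • (1 : Matrix n n A) + (-1 : ℝ) • (X * B + Y * Cᴴ))
    rw [ip_add_right] at h3
    simp only [one_smul, neg_smul, ← sub_eq_add_neg, nn_one] at h1 h2 h3 h4 h5
    linarith
  have h1 : (Fintype.card n : ℝ) - cork Cᴴ ≤ cork B := le_cork fun X => by
    have : (Fintype.card n : ℝ) - nn (1 - X * B) ≤ cork Cᴴ := le_cork fun Y => by
      linarith [key X Y]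
    linarith
  rw [← rk_star C, rk, rk]
  linarith

theorem tr_le_rk (f : Matrix n n A) (hf : f * f = f) : tr f ≤ rk f := by
  obtain ⟨K, hK, h⟩ := exists_bound f
  have hc : (0 : ℝ) < K⁻¹ := by positivity
  have hcK : K⁻¹ * K ≤ 1 := by rw [inv_mul_cancel₀ hK.ne']
  have t1 := tendsto_cork f K K⁻¹ hc hcK h
  set Q : Matrix n n A := 1 - K⁻¹ • (fᴴ * f) with hQ
  have hQs : Qᴴ = Q := by simp [hQ, conjTranspose_mul]
  have h0 : Tendsto (fun k : ℕ => nn (f * Q ^ k)) atTop (𝓝 0) := by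
    have h1 : Tendsto (fun k : ℕ => K * (nn (Q ^ k) - nn (Q ^ (k + 1)))) atTop
        (𝓝 (K * (cork f - cork f))) :=
      (t1.sub (t1.comp (tendsto_add_atTop_nat 1))).const_mul _
    rw [sub_self, mul_zero] at h1
    refine squeeze_zero (fun k => nn_nonneg _) (fun k => ?_) h1
    rw [← nn_star, conjTranspose_mul, conjTranspose_pow, hQs, ← inv_mul_le_iff₀ hK]
    have := nn_step f K K⁻¹ hc hcK h (Q ^ k)
    rw [← hQ, ← pow_succ] at this
    linarith
  have h1 : ∀ k : ℕ, (1 - Q ^ k) * f = 1 - Q ^ k := by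
    intro k
    induction k with
    | zero => simp
    | succ k ih =>
      have e : 1 - Q ^ (k + 1) = 1 - Q ^ k + K⁻¹ • (Q ^ k * fᴴ * f) := by
        rw [pow_succ, hQ, Matrix.mul_sub, Matrix.mul_one, Matrix.mul_smul, Matrix.mul_assoc]
        abel
      rw [e, Matrix.add_mul, ih, Matrix.smul_mul, Matrix.mul_assoc _ f, hf]
  have h2 : ∀ k : ℕ, tr f = Fintype.card n - nn (Q ^ k) + ip (f * Q ^ k) (Q ^ k) := by
    intro k
    have := congrArg tr (h1 (k + k))
    rw [tr_comm, Matrix.mul_sub, Matrix.mul_one, tr_sub, tr_sub, tr_one] at this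
    rw [nn, ip, ip, conjTranspose_pow, hQs, Matrix.mul_assoc, ← pow_add]
    linarith
  refine le_of_forall_pos_le_add fun ε hε => ?_
  obtain ⟨δ, hδ, hδ'⟩ : ∃ δ : ℝ, 0 < δ ∧ δ * cork f ≤ ε := by
    have : 0 ≤ cork f := le_cork fun X => nn_nonneg _
    refine ⟨ε / (cork f + 1), by positivity, ?_⟩
    rw [div_mul_eq_mul_div, div_le_iff₀ (by positivity)]
    nlinarith
  have h3 : Tendsto (fun k : ℕ => Fintype.card n - nn (Q ^ k) +
      (δ * nn (Q ^ k) + δ⁻¹ * nn (f * Q ^ k))) atTop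
      (𝓝 (Fintype.card n - cork f + (δ * cork f + δ⁻¹ * 0))) :=
    (t1.const_sub _).add ((t1.const_mul _).add (h0.const_mul _))
  have h4 := ge_of_tendsto' h3 (b := tr f) fun k => by
    rw [h2 k]
    have a1 := nn_add_le δ hδ (Q ^ k) (f * Q ^ k)
    have a2 := nn_comb 1 1 (Q ^ k) (f * Q ^ k)
    have a3 := nn_nonneg (Q ^ k)
    have a4 := nn_nonneg (f * Q ^ k)
    have a5 : 0 ≤ δ * nn (Q ^ k) := by positivity
    have a6 : 0 ≤ δ⁻¹ * nn (f * Q ^ k) := by positivity
    simp only [one_smul] at a2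
    rw [ip_comm]
    nlinarith
  rw [rk]
  linarith

theorem one_le_rk (u : A) (hu : ∀ k j : ℕ, τ (u ^ k * star (u ^ j)) = if k = j then 1 else 0) :
    1 ≤ rk (Matrix.of fun _ _ : Unit => u - 1) := by
  have key : ∀ N : ℕ, cork (Matrix.of fun _ _ : Unit => u - 1) ≤ 1 / ((N : ℝ) + 1) := by
    intro N
    have h1 := cork_le (Matrix.of fun _ _ : Unit => u - 1) (Matrix.of fun _ _ : Unit =>
      -((1 / ((N : ℝ) + 1)) • ∑ k ∈ Finset.range (N + 1), ∑ i ∈ Finset.range k, u ^ i))
    refine h1.trans (le_of_eq ?_)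
    have e : (1 - (Matrix.of fun _ _ : Unit =>
        -((1 / ((N : ℝ) + 1)) • ∑ k ∈ Finset.range (N + 1), ∑ i ∈ Finset.range k, u ^ i)) *
        (Matrix.of fun _ _ : Unit => u - 1) : Matrix Unit Unit A) () () =
        (1 / ((N : ℝ) + 1)) • ∑ k ∈ Finset.range (N + 1), u ^ k := by
      rw [Matrix.sub_apply, one_apply_eq, mul_apply, Fintype.sum_unique, of_apply, of_apply, neg_mul,
        sub_neg_eq_add, smul_mul_assoc, Finset.sum_mul]
      simp only [geom_sum_mul]
      rw [Finset.sum_sub_distrib, Finset.sum_const, Finset.card_range, smul_sub,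
        ← Nat.cast_smul_eq_nsmul ℝ, smul_smul]
      push_cast
      rw [one_div_mul_cancel (by positivity), one_smul, add_sub_cancel]
    rw [nn_eq, Fintype.sum_unique, Fintype.sum_unique]
    simp only [PUnit.default_eq_unit, e, star_smul, star_trivial, smul_mul_assoc, mul_smul_comm,
      map_smul, smul_eq_mul]
    rw [star_sum, Finset.sum_mul_sum]
    simp only [map_sum, hu, Finset.sum_ite_eq]
    rw [Finset.sum_congr rfl fun k hk => by rw [if_pos hk]]
    simp only [Finset.sum_const, Finset.card_range, nsmul_eq_mul]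
    push_cast
    field_simp
  have : cork (Matrix.of fun _ _ : Unit => u - 1) ≤ 0 :=
    ge_of_tendsto' tendsto_one_div_add_atTop_nhds_zero_nat key
  rw [rk, Fintype.card_unit]
  push_cast
  linarith

theorem one_lt_tr (e : Matrix n n A) (c : Matrix n Unit A) (x : Matrix Unit n A) (hee : e * e = e)
    (hec : e * c = c) (hxe : x * e = x) (hxc : x * c = 0) (hx : x ≠ 0) (hc : 1 ≤ rk c) :
    1 < tr e := by
  have h1 := rk_orth (fromRows x (1 - e)) c (by
    rw [fromRows_mul, hxc, Matrix.sub_mul, Matrix.one_mul, hec, sub_self, fromRows_zero])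
  have h2 := rk_mul_le_left (fromRows x (1 - e)) (fromCols e (1 - e))
  have h3 : (1 - e) * (1 - e) = 1 - e := by simp [mul_sub, sub_mul, hee]
  rw [fromRows_mul_fromCols, hxe, Matrix.mul_sub, Matrix.mul_one, hxe, sub_self, h3, Matrix.sub_mul,
    Matrix.one_mul, hee, sub_self, rk_fromBlocks] at h2
  have h4 := tr_le_rk _ h3
  rw [tr_sub, tr_one] at h4
  linarith [rk_pos hx]

end

end Pool.Agent.P.MP_5ee5b4_al
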