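import Pool.Agent.P.MP_5ee5b4_al.Strebel
import Pool.Agent.P.MP_5ee5b4_al.Bass
import Pool.Agent.P.MP_5ee5b4_al.Rank2

/-! A group with two-dimensional duality data has a nonzero character. -/

namespace Pool.Agent.P.MP_5ee5b4_al

open Pool.Agent.P.MP_6e40fc_al Matrix
open scoped MonoidAlgebra

noncomputable section

variable {H : Type} [Group H]

theorem conj_pow_pow {x g : H} {q : ℕ} (h : g * x * g⁻¹ = x ^ q) (i : ℕ) :
    g ^ i * x * (g ^ i)⁻¹ = x ^ q ^ i := by
  induction i with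
  | zero => simp
  | succ i ih =>
    have : g ^ (i + 1) * x * (g ^ (i + 1))⁻¹ = g * (g ^ i * x * (g ^ i)⁻¹) * g⁻¹ := by group
    rw [this, ih, ← conj_pow, h, ← pow_mul, pow_succ']

theorem no_bs (hH : Group.FG H) (h2 : PD2 H) [Infinite H] (x g : H) (q : ℕ) (hq : 2 ≤ q)
    (h : g * x * g⁻¹ = x ^ q) : x = 1 := by
  by_contra hx
  have hz : ∀ y ∈ Subgroup.zpowers x, g * y * g⁻¹ ∈ Subgroup.zpowers x := by
    rintro _ ⟨k, rfl⟩
    exact ⟨q * k, by simp only [← conj_zpow, h, _root_.zpow_mul, zpow_natCast]⟩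
  have hup : ∀ y (i j : ℕ), g ^ i * y * (g ^ i)⁻¹ ∈ Subgroup.zpowers x →
      g ^ (j + i) * y * (g ^ (j + i))⁻¹ ∈ Subgroup.zpowers x := fun y i j hy => by
    induction j with
    | zero => simpa using hy
    | succ j ih =>
      convert hz _ ih using 1
      group
  let A : Subgroup H :=
    { carrier := {y | ∃ i : ℕ, g ^ i * y * (g ^ i)⁻¹ ∈ Subgroup.zpowers x}
      mul_mem' := by
        rintro a b ⟨i, hi⟩ ⟨j, hj⟩
        refine ⟨j + i, ?_⟩
        have := Subgroup.mul_mem _ (hup a i j hi) (hup b j i hj)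
        rw [add_comm i] at this
        convert this using 1
        group
      one_mem' := ⟨0, by simp⟩
      inv_mem' := by
        rintro a ⟨i, hi⟩
        refine ⟨i, ?_⟩
        convert Subgroup.inv_mem _ hi using 1
        group }
  have hc : ∀ a b : A, a * b = b * a := by
    rintro ⟨a, i, hi⟩ ⟨b, j, hj⟩
    obtain ⟨m, hm⟩ := hup a i j hi
    obtain ⟨n, hn⟩ := hup b j i hj
    rw [add_comm i] at hn
    apply Subtype.ext
    apply (MulAut.conj (g ^ (j + i))).injective
    simp only [Subgroup.coe_mul, map_mul, MulAut.conj_apply] at hm hn ⊢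
    rw [← hm, ← hn, zpow_mul_comm]
  have hxA : x ∈ A := ⟨0, by simp⟩
  have hA : ¬ A.FiniteIndex := fun hA => by
    obtain ⟨k, hk, -, hk'⟩ := Subgroup.exists_pow_mem_of_index_ne_zero hA.index_ne_zero g
    have h3 : g ^ k * x = x * g ^ k := congrArg Subtype.val (hc ⟨_, hk'⟩ ⟨x, hxA⟩)
    have h4 := conj_pow_pow h k
    have h5 : 2 ≤ q ^ k := hq.trans (Nat.le_self_pow hk.ne' q)
    rw [h3, mul_inv_cancel_right] at h4
    refine hx (torsionFree hH h2 x (q ^ k - 1) (by omega) ?_)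
    apply mul_right_cancel (b := x)
    rw [← pow_succ, Nat.sub_add_cancel (by omega), ← h4, one_mul]
  obtain ⟨D, hD⟩ := (strebel hH h2 A.subtype Subtype.val_injective (by
    rwa [Subgroup.range_subtype])).sep hc ⟨x, hxA⟩ fun h => hx (congrArg Subtype.val h)
  set i := (lv D ⟨x, hxA⟩).natAbs with hi
  have h3 : (⟨x, hxA⟩ : A) = (⟨(g ^ i)⁻¹ * x * g ^ i, i, by simp [mul_assoc]⟩ : A) ^ q ^ i := by
    apply Subtype.ext
    have := conj_pow (a := (g ^ i)⁻¹) (b := x) (i := q ^ i)
    rw [inv_inv] at this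
    change x = ((g ^ i)⁻¹ * x * g ^ i) ^ q ^ i
    rw [this, ← conj_pow_pow h]
    group
  have h4 := congrArg (fun y => (lv D y).natAbs) h3
  simp only [lv_pow, Int.natAbs_mul, Int.natAbs_natCast, ← hi] at h4
  have h5 : i ≠ 0 := fun h0 => hD ((lv_eq_zero D).1 (by omega))
  have h6 := Nat.le_of_dvd (Nat.pos_of_ne_zero h5) ⟨_, h4⟩
  have h7 : i < q ^ i := Nat.lt_pow_self (by omega)
  omega

theorem tr_toRG {n : Type} [Fintype n] (X : Matrix n n ℤ[H]) :
    tr (X.map toRG) = (X.trace.coeff 1 : ℤ) := by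
  rw [tr, ← AddMonoidHom.map_trace]
  exact MonoidAlgebra.coeff_mapRingHom (Int.castRingHom ℝ) X.trace 1

theorem one_le_rk_o (h : H) (hh : ∀ n : ℕ, n ≠ 0 → h ^ n ≠ 1) :
    1 ≤ rk (Matrix.of fun _ _ : Unit => toRG (o h) - 1) := by
  classical
  refine one_le_rk _ fun k j => ?_
  have e : ∀ k : ℕ, toRG (o h) ^ k = (MonoidAlgebra.single (h ^ k) 1 : ℝ[H]) := fun k => by
    have : o h ^ k = MonoidAlgebra.single (h ^ k) 1 := by simp [o, MonoidAlgebra.single_pow]
    rw [← map_pow, this]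
    exact (MonoidAlgebra.mapRingHom_single (Int.castRingHom ℝ) _ _).trans (by simp)
  rw [e, e]
  change ((MonoidAlgebra.single (h ^ k) 1 : ℝ[H]) * rgStar (MonoidAlgebra.single (h ^ j) 1)).coeff 1
    = _
  rw [rgStar_single, MonoidAlgebra.single_mul_single, MonoidAlgebra.coeff_single,
    Finsupp.single_apply, mul_one]
  refine if_congr ?_ rfl rfl
  rw [mul_inv_eq_one]
  exact (injective_pow_iff_not_isOfFinOrder.2 fun hf => by
    obtain ⟨n, hn, hn'⟩ := isOfFinOrder_iff_pow_eq_one.1 hf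
    exact hh n hn.ne' hn').eq_iff

theorem exists_hom (hH : Group.FG H) (h2 : PD2 H) [Infinite H] :
    ∃ ψ : H →* Multiplicative ℤ, ∃ x, lv ψ x ≠ 0 := by
  classical
  obtain ⟨T, hT⟩ := hH.1
  have hs : Subgroup.closure (Set.range (Subtype.val : T → H)) = ⊤ := by simpa using hT
  obtain ⟨w, hw⟩ := id h2
  obtain ⟨θ, m0, g, h3, -⟩ := hw T Subtype.val hs
  let J : LinearMap.ker (dS (Subtype.val : T → H)) →ₗ[ℤ[H]] (Option T → ℤ[H]) :=
    LinearMap.pi fun a => a.elim θ fun i => LinearMap.proj i ∘ₗ Submodule.subtype _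
  let Φ : (Option T → ℤ[H]) →ₗ[ℤ[H]] LinearMap.ker (dS (Subtype.val : T → H)) :=
    LinearMap.toSpanSingleton _ _ m0 ∘ₗ LinearMap.proj none + g ∘ₗ LinearMap.funLeft _ _ some
  have hΦJ : ∀ k, Φ (J k) = k := fun k => (h3 k).symm
  let E : Matrix (Option T) (Option T) ℤ[H] := Matrix.of fun a => J (Φ (Pi.single a 1))
  have hE : ∀ v, v ᵥ* E = J (Φ v) := fun v =>
    LinearMap.congr_fun (lin_ext (f := E.vecMulLinear) (g := J ∘ₗ Φ) fun a => by
      rw [vecMulLinear_apply, single_one_vecMul]; rfl) v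
  have hEE : E * E = E := Matrix.ext fun a b => by
    rw [← row_vecMul, hE]
    change J (Φ (J _)) b = _
    rw [hΦJ]
    rfl
  let c : Matrix (Option T) Unit ℤ[H] := Matrix.of fun a _ => a.elim 0 fun i => o (i : H) - 1
  have hc : ∀ v : Option T → ℤ[H], (v ᵥ* c) () = dS Subtype.val (v ∘ some) := fun v => by
    simp [vecMul, dotProduct, dS_apply, c]
  have hEc : E * c = 0 := Matrix.ext fun a b => by
    rw [← row_vecMul, hc]
    exact (Φ (Pi.single a 1)).2
  have he : (1 - E) * (1 - E) = 1 - E := by simp [mul_sub, sub_mul, hEE]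
  have hec : (1 - E) * c = c := by rw [Matrix.sub_mul, Matrix.one_mul, hEc, sub_zero]
  let x : Matrix Unit (Option T) ℤ[H] := Matrix.of fun _ => (1 - E) none
  have hx : ∀ {p : Type} (X : Matrix (Option T) p ℤ[H]) b, 
      (x * X) () b = ((1 - E) * X : Matrix (Option T) p ℤ[H]) none b :=
    fun X b => rfl
  have hx0 : x ≠ 0 := fun h => by
    have h4 : ∀ a, (1 - E) none a = 0 := fun a => congrFun (congrFun h ()) a
    have h5 : Φ (Pi.single none 1) = m0 := by
      have : LinearMap.funLeft ℤ[H] ℤ[H] some (Pi.single (none : Option T) (1 : ℤ[H])) = 0 := by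
        funext i; simp [LinearMap.funLeft]
      simp [Φ, this]
    have h6 : m0 = 0 := Subtype.ext (funext fun i => by
      have := h4 (some i)
      rw [Matrix.sub_apply, one_apply_ne (by simp), zero_sub, neg_eq_zero] at this
      rw [← h5]
      exact this)
    have := h4 none
    rw [Matrix.sub_apply, one_apply_eq, sub_eq_zero] at this
    change 1 = θ (Φ _) at this
    rw [h5, h6, map_zero] at this
    exact one_ne_zero this
  obtain ⟨h, hh⟩ := exists_ne (1 : H)
  obtain ⟨v, hv⟩ := exists_dS hs h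
  have h4 := one_lt_tr ((1 - E).map toRG) (c.map toRG) (x.map toRG)
    (by rw [← Matrix.map_mul, he]) (by rw [← Matrix.map_mul, hec])
    (by rw [← Matrix.map_mul]; congr 1; exact Matrix.ext fun _ b => by rw [hx, he]; rfl)
    (by
      rw [← Matrix.map_mul, ← Matrix.map_zero toRG (map_zero _)]
      congr 1
      exact Matrix.ext fun _ b => by rw [hx, hec]; rfl)
    (fun h => hx0 (Matrix.ext fun a b => toRG_injective
      ((congrFun (congrFun h a) b).trans (map_zero _).symm)))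
    ((one_le_rk_o h fun n hn e => hh (torsionFree hH h2 h n hn e)).trans (by
      refine le_trans (le_of_eq ?_) (rk_mul_le_right
        ((Matrix.of fun (_ : Unit) (a : Option T) => a.elim 0 v).map toRG) (c.map toRG))
      rw [← Matrix.map_mul]
      congr 1
      refine Matrix.ext fun _ b => ?_
      rw [map_apply, ← row_vecMul, hc, of_apply, ← map_one toRG, ← map_sub, ← hv]
      rfl))
  rw [tr_toRG, ← bass _ he (no_bs hH h2), trace_sub, trace_one, map_sub, map_natCast,
    Fintype.card_option] at h4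
  let E' : Matrix (Option T) (Option T) ℤ := E.map (aug ℤ H)
  have hE' : E' * E' = E' := by rw [← Matrix.map_mul, hEE]
  have h5 : aug ℤ H E.trace = Module.finrank ℤ (LinearMap.range (Matrix.toLin' E')) := by
    rw [← LinearMap.IsProj.trace (LinearMap.IsIdempotentElem.isProj_range _ (by
      rw [IsIdempotentElem, Module.End.mul_eq_comp, ← Matrix.toLin'_mul, hE'])), trace_toLin'_eq, AddMonoidHom.map_trace]
  let L : (T → ℤ) →ₗ[ℤ] (Option T → ℤ) := LinearMap.pi fun a => a.elim 0 LinearMap.proj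
  obtain ⟨φ, hφ, hφ0⟩ : ∃ φ, E' *ᵥ L φ = 0 ∧ φ ≠ 0 := by
    by_contra hcon
    have := LinearMap.finrank_le_finrank_of_injective
      (f := (Matrix.toLin' E').rangeRestrict ∘ₗ L) ((injective_iff_map_eq_zero _).2 fun φ h =>
        by_contra fun h' => hcon ⟨φ, congrArg Subtype.val h, h'⟩)
    rw [Module.finrank_fintype_fun_eq_card] at this
    rw [h5, ← Int.cast_one, Int.cast_lt] at h4
    omega
  let Ψ : (T → ℤ[H]) →+ ℤ :=
    { toFun := fun v => ∑ i, aug ℤ H (v i) * φ i
      map_zero' := by simp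
      map_add' := fun a b => by simp [add_mul, Finset.sum_add_distrib] }
  have hΨ : ∀ v, dS Subtype.val v = 0 → Ψ v = 0 := fun v hv => by
    have h6 := hE (J ⟨v, hv⟩)
    rw [hΦJ] at h6
    have h7 : (aug ℤ H ∘ J ⟨v, hv⟩) ᵥ* E' = aug ℤ H ∘ J ⟨v, hv⟩ := funext fun a =>
      (RingHom.map_vecMul (aug ℤ H : ℤ[H] →+* ℤ) E _ a).symm.trans
        (congrArg (fun z : Option T → ℤ[H] => aug ℤ H (z a)) h6)
    have h8 : (aug ℤ H ∘ J ⟨v, hv⟩) ⬝ᵥ L φ = 0 := by
      rw [← h7, ← dotProduct_mulVec, hφ, dotProduct_zero]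
    rw [dotProduct, Fintype.sum_option] at h8
    simpa [L, J, Ψ] using h8
  choose u hu using exists_dS hs
  obtain ⟨i, hi⟩ := Function.ne_iff.1 hφ0
  refine ⟨MonoidHom.mk' (fun h => Multiplicative.ofAdd (Ψ (u h))) fun a b => ?_, i, ?_⟩
  · have := hΨ (u (a * b) - (u a + o a • u b)) (by
      rw [map_sub, map_add, map_smul, hu, hu, hu, smul_eq_mul, mul_sub, o_mul]; simp)
    rw [map_sub, sub_eq_zero, map_add] at this
    rw [← ofAdd_add, this]
    congr 2
    simp [Ψ]
  · have := hΨ (u i - Pi.single i 1) (by rw [map_sub, hu, dS_single, one_mul, sub_self])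
    rw [map_sub, sub_eq_zero] at this
    change Ψ (u i) ≠ 0
    rw [this]
    simpa [Ψ, Pi.single_apply] using hi

end

end Pool.Agent.P.MP_5ee5b4_al
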