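import Pool.Agent.P.MP_5ee5b4_al.Tame

/-! Bounded elementary abelian sections. -/

namespace Pool.Agent.P.MP_5ee5b4_al

open Pool.Agent.P.MP_6e40fc_al
open scoped MonoidAlgebra

noncomputable section

variable {Γ K : Type} [Group Γ] [Group K] {p C : ℕ}

theorem DerLift.cl (h : DerLift K) : CL K := fun p _ c hc => by
  let mk : ∀ {X : Type} [AddCommGroup X], (K → X) → Co (1 : Unit →* K) (Triv Unit X) :=
    fun f => Co.mk f fun k x => by rw [Triv.o_smul, MonoidHom.one_apply, one_mul]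
  let π : Co (1 : Unit →* K) (Triv Unit (ZMod p)) →ₗ[ℤ[K]]
      Co (1 : Unit →* K) (Triv Unit (K → ZMod p)) :=
    mkLin (AddMonoidHom.mk' (fun f => mk fun x y => un _ _ (f (y * x)) - un _ _ (f x))
      fun f g => Co.ext fun x => funext fun y => add_sub_add_comm _ _ _ _)
      fun g f => Co.ext fun x => by
        rw [Co.o_smul]
        exact funext fun y => by
          change un _ _ ((o g • f) (y * x)) - un _ _ ((o g • f) x) =
            un _ _ (f (y * (x * g))) - un _ _ (f (x * g))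
          rw [Co.o_smul, Co.o_smul, mul_assoc]
  obtain ⟨D, h1, h2⟩ := h _ _ π.rangeRestrict π.surjective_rangeRestrict
    (fun g => π.rangeRestrict (mk fun x => c x g)) fun g k => by
      rw [← map_smul, ← map_add]
      refine Subtype.ext (Co.ext fun x => funext fun y => ?_)
      change c (y * x) (g * k) - c x (g * k) = c (y * x) g + un _ _ ((o g • mk fun x => c x k)
        (y * x)) - (c x g + un _ _ ((o g • mk fun x => c x k) x))
      rw [Co.o_smul, Co.o_smul]
      change _ = c (y * x) g + c (y * x * g) k - (c x g + c (x * g) k)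
      rw [hc, hc]
      ring
  refine ⟨fun g => c 1 1 - un _ _ (D g 1), fun g k => ?_⟩
  have h3 : un _ _ (D k (g * 1)) - un _ _ (D k 1) = c (g * 1) k - c 1 k :=
    congrFun (congrArg (fun f : LinearMap.range π => f.1 1) (h2 k)) g
  have h4 := hc 1 1 k
  simp only [h1, Co.add_apply, Co.o_smul, map_add, one_mul, mul_one] at h3 h4 ⊢
  linear_combination -h3 - h4

/-- elementary abelian sections have bounded order -/
def RB (p : ℕ) (Γ : Type) [Group Γ] (C : ℕ) : Prop :=
  ∀ (K : Type) [Group K] (j : K →* Γ), Function.Injective j → ∀ (P : Type) [CommGroup P]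
    [Finite P], (∀ x : P, x ^ p = 1) → ∀ φ : K →* P, Function.Surjective φ → Nat.card P ≤ C

theorem card_le_of_cyclic (hp : p ≠ 0) (P : Type) [Group P] [IsCyclic P]
    (h : ∀ x : P, x ^ p = 1) : Nat.card P ≤ p :=
  IsCyclic.exponent_eq_card (α := P) ▸ Nat.le_of_dvd (Nat.pos_of_ne_zero hp)
    (Monoid.exponent_dvd_of_forall_pow_eq_one h)

theorem Tame.rb (hp : p ≠ 0) (h : Tame Γ) : RB p Γ p := fun K _ j hj P _ _ hP φ hφ =>
  have := Tame.cyclic (K := K) (fun L _ i hi => h L (j.comp i) (hj.comp hi)) P φ hφ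
  card_le_of_cyclic hp P hP

theorem RB.card {M : Subgroup Γ} (h : RB p M C) (j : K →* Γ) (hj : Function.Injective j)
    {P : Type} [CommGroup P] [Finite P] (hP : ∀ x : P, x ^ p = 1) (φ : K →* P) {n : ℕ}
    (hn : ((M.comap j).map φ).index ≤ n) : Nat.card P ≤ C * n :=
  ((M.comap j).map φ).card_mul_index ▸ Nat.mul_le_mul (h _ (j.subgroupComap M)
    (fun _ _ e => Subtype.ext (hj (congrArg Subtype.val e))) _ (fun x => Subtype.ext (hP x))
    _ (φ.subgroupMap_surjective _)) hn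

theorem RB.of_finiteIndex {M : Subgroup Γ} [hM : M.FiniteIndex] (h : RB p M C) :
    RB p Γ (C * M.index) := fun K _ j hj P _ _ hP φ hφ => by
  have h1 : (M.comap j).index ≤ M.index := by
    rw [Subgroup.index_comap, ← Subgroup.relIndex_top_right]
    exact Subgroup.relIndex_le_of_le_right le_top (by simpa using hM.index_ne_zero)
  have : (M.comap j).FiniteIndex := ⟨by
    rw [Subgroup.index_comap]; exact Subgroup.FiniteIndex.index_ne_zero⟩
  exact h.card j hj hP φ ((Nat.le_of_dvd (Nat.pos_of_ne_zero this.index_ne_zero)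
    (Subgroup.index_map_dvd _ hφ)).trans h1)

theorem RB.of_ker (hp : p ≠ 0) (χ : Γ →* Multiplicative ℤ) (h : RB p χ.ker C) :
    RB p Γ (C * p) := fun K _ j hj P _ _ hP φ hφ => by
  have : IsCyclic (K ⧸ (χ.comp j).ker) :=
    isCyclic_of_surjective _ (QuotientGroup.quotientKerEquivRange (χ.comp j)).symm.surjective
  have : IsCyclic (P ⧸ (χ.ker.comap j).map φ) := isCyclic_of_surjective
    (QuotientGroup.map (χ.comp j).ker ((χ.ker.comap j).map φ) φ fun x hx => ⟨x, hx, rfl⟩) fun q => by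
      obtain ⟨q, rfl⟩ := QuotientGroup.mk_surjective q
      obtain ⟨q, rfl⟩ := hφ q
      exact ⟨q, rfl⟩
  exact h.card j hj hP φ (card_le_of_cyclic hp _ fun q => by
    obtain ⟨q, rfl⟩ := QuotientGroup.mk_surjective q
    rw [← QuotientGroup.mk_pow, hP, QuotientGroup.mk_one])

theorem pd2_ker (hG : IsPD 3 Γ) (hN : NF (⊤ : Subgroup Γ)) (χ0 : Γ →* Multiplicative ℤ) (ν : Γ)
    (hχ : lv χ0 ν ≠ 0) : χ0.ker.FG ∧ PD2 χ0.ker := by
  obtain ⟨χ, t, ht, hker⟩ := exists_normalized χ0 hχ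
  obtain ⟨n0, n1, n2, m0, P, P', w, hP, ex2⟩ := exists_pres2 hG
  obtain ⟨T, hT, htT⟩ := exists_family (fg_of_pres P) t
  obtain ⟨v, B, h1, h2, h3, h4⟩ := dichotomy hT (fp2 P hT) χ t ht htT ⊤ hN ν trivial fun h =>
    hχ ((lv_eq_zero _).2 (hker ▸ (lv_eq_zero _).1 h))
  obtain ⟨h5, h6, h7⟩ := ker_fg P P' w hP χ t ht v B h1 h2 h3 h4
  exact hker ▸ ⟨h5, pd2 (j := χ.ker.subtype)
    { t := t
      ht := ht
      inj := Subtype.val_injective
      hj := fun k => (lv_eq_zero χ).2 k.2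
      κ := fun x => ⟨x * t ^ (-lv χ x), (lv_eq_zero χ).1 (by simp [ht])⟩
      hκ := fun x => by simp } P P' w hP ex2 h6 h7⟩

theorem rb_of_char (hp : p ≠ 0) (hG : IsPD 3 Γ) (hN : NF (⊤ : Subgroup Γ))
    (χ : Γ →* Multiplicative ℤ) (ν : Γ) (hχ : lv χ ν ≠ 0) : ∃ C, RB p Γ C := by
  obtain ⟨h1, h2⟩ := pd2_ker hG hN χ ν hχ
  rcases finite_or_infinite χ.ker with hf | hf
  · exact ⟨_, RB.of_ker hp χ (C := Nat.card χ.ker) fun K _ j hj P _ _ _ φ hφ =>
      have := Finite.of_injective j hj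
      (Nat.card_le_card_of_surjective φ hφ).trans (Nat.card_le_card_of_injective j hj)⟩
  have h3 := (Group.fg_iff_subgroup_fg _).2 h1
  obtain ⟨ψ, x, hx⟩ := exists_hom h3 h2
  refine ⟨_, RB.of_ker hp χ (RB.of_ker hp ψ (Tame.rb hp fun K _ j hj => ?_))⟩
  have hi : Function.Injective (ψ.ker.subtype.comp j) := Subtype.val_injective.comp hj
  refine ⟨(strebel h3 h2 _ hi fun h => hx ?_).cl,
    hN.comap (χ.ker.subtype.comp (ψ.ker.subtype.comp j)) (Subtype.val_injective.comp hi)⟩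
  obtain ⟨k, hk, -, y, hy⟩ := Subgroup.exists_pow_mem_of_index_ne_zero h.index_ne_zero x
  have := (lv_eq_zero ψ).2 (hy ▸ (j y).2 : x ^ k ∈ ψ.ker)
  rw [lv_pow] at this
  exact (mul_eq_zero.1 this).resolve_left (by omega)

end

end Pool.Agent.P.MP_5ee5b4_al
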