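import Pool.Agent.P.MP_5ee5b4_al.Dich2
import Pool.Agent.P.MP_6e40fc_al.Deriv

/-! Coinduced modules and comparison with the standard presentation. -/

namespace Pool.Agent.P.MP_5ee5b4_al

open Pool.Agent.P.MP_6e40fc_al Matrix
open scoped MonoidAlgebra

noncomputable section

set_option linter.unusedSectionVars false

variable {K Γ : Type} [Group K] [Group Γ] (j : K →* Γ) (M : Type) [AddCommGroup M] [Module ℤ[K] M]

/-- equivariant functions -/
def coSub : AddSubgroup (Γ → M) where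
  carrier := {f | ∀ k x, f (j k * x) = o k • f x}
  add_mem' := fun {f g} hf hg k x => by
    rw [Pi.add_apply, Pi.add_apply, hf, hg, smul_add]
  zero_mem' := fun k x => by simp
  neg_mem' := fun {f} hf k x => by rw [Pi.neg_apply, Pi.neg_apply, hf, smul_neg]

/-- the coinduced module -/
def Co : Type := coSub j M

instance : AddCommGroup (Co j M) := inferInstanceAs (AddCommGroup (coSub j M))

variable {j M}

/-- the underlying function -/
def Co.val (f : Co j M) : Γ → M := Subtype.val (show coSub j M from f)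

instance : CoeFun (Co j M) (fun _ => Γ → M) := ⟨Co.val⟩

/-- constructor -/
def Co.mk (f : Γ → M) (h : ∀ k x, f (j k * x) = o k • f x) : Co j M := show coSub j M from ⟨f, h⟩

@[simp] theorem Co.mk_apply (f : Γ → M) (h : ∀ k x, f (j k * x) = o k • f x) (x : Γ) :
    Co.mk f h x = f x := rfl

theorem Co.equiv (f : Co j M) (k : K) (x : Γ) : f (j k * x) = o k • f x :=
  Subtype.prop (show coSub j M from f) k x

@[ext] theorem Co.ext {f g : Co j M} (h : ∀ x, f x = g x) : f = g := Subtype.ext (funext h)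

@[simp] theorem Co.add_apply (f g : Co j M) (x : Γ) : (f + g) x = f x + g x := rfl
@[simp] theorem Co.sub_apply (f g : Co j M) (x : Γ) : (f - g) x = f x - g x := rfl
@[simp] theorem Co.neg_apply (f : Co j M) (x : Γ) : (-f) x = -f x := rfl
@[simp] theorem Co.zero_apply (x : Γ) : (0 : Co j M) x = 0 := rfl
@[simp] theorem Co.zsmul_apply (n : ℤ) (f : Co j M) (x : Γ) : (n • f) x = n • f x := rfl

/-- evaluation -/
def Co.ev (x : Γ) : Co j M →+ M where
  toFun f := f x
  map_zero' := rfl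
  map_add' _ _ := rfl

theorem Co.sum_apply {ι : Type} (s : Finset ι) (f : ι → Co j M) (x : Γ) :
    (∑ i ∈ s, f i) x = ∑ i ∈ s, f i x := map_sum (Co.ev x) f s

variable (j M) in
/-- right translation -/
def coAct : Γ →* AddMonoid.End (Co j M) where
  toFun g :=
    { toFun := fun f => Co.mk (fun x => f (x * g)) fun k x => by rw [mul_assoc, f.equiv]
      map_zero' := rfl
      map_add' := fun _ _ => rfl }
  map_one' := by
    refine AddMonoidHom.ext fun f => Co.ext fun x => ?_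
    change f (x * 1) = f x
    rw [mul_one]
  map_mul' g h := by
    refine AddMonoidHom.ext fun f => Co.ext fun x => ?_
    change f (x * (g * h)) = f (x * g * h)
    rw [mul_assoc]

instance : Module ℤ[Γ] (Co j M) :=
  Module.compHom (Co j M) (MonoidAlgebra.lift ℤ (AddMonoid.End (Co j M)) Γ (coAct j M)).toRingHom

theorem Co.o_smul (g : Γ) (f : Co j M) (x : Γ) : (o g • f) x = f (x * g) := by
  change (MonoidAlgebra.lift ℤ (AddMonoid.End (Co j M)) Γ (coAct j M)
    (MonoidAlgebra.of ℤ Γ g)) f x = _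
  rw [MonoidAlgebra.lift_of]
  rfl

variable (j) in
/-- the induced map of group rings -/
def jr : ℤ[K] →+* ℤ[Γ] := MonoidAlgebra.mapDomainRingHom ℤ j

@[simp] theorem jr_o (k : K) : jr j (o k) = o (j k) := by simp [jr, o]

theorem jr_id (r : ℤ[Γ]) : jr (MonoidHom.id Γ) r = r := by
  induction r using zg_induction with
  | ho g => rw [jr_o]; rfl
  | hadd a b ha hb => rw [map_add, ha, hb]
  | hsmul n a ha => rw [map_zsmul, ha]

theorem Co.jr_smul (r : ℤ[K]) (f : Co j M) : (jr j r • f) 1 = r • f 1 := by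
  induction r using zg_induction with
  | ho g => rw [jr_o, Co.o_smul, one_mul, ← f.equiv, mul_one]
  | hadd a b ha hb => rw [map_add, add_smul, add_smul, Co.add_apply, ha, hb]
  | hsmul n a ha => rw [map_zsmul, smul_assoc, smul_assoc, Co.zsmul_apply, ha]

variable {M' : Type} [AddCommGroup M'] [Module ℤ[K] M']

/-- an additive map commuting with the group action is linear -/
def mkLin {A B : Type} [AddCommGroup A] [Module ℤ[Γ] A] [AddCommGroup B] [Module ℤ[Γ] B]
    (f : A →+ B) (h : ∀ (g : Γ) a, f (o g • a) = o g • f a) : A →ₗ[ℤ[Γ]] B where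
  toFun := f
  map_add' := map_add f
  map_smul' r a := by
    induction r using zg_induction with
    | ho g => exact h g a
    | hadd r s hr hs => simp only [add_smul, map_add, hr, hs, RingHom.id_apply]
    | hsmul n r hr => simp only [smul_assoc, map_zsmul, hr, RingHom.id_apply]

variable (j) in
/-- functoriality -/
def Co.map (φ : M →ₗ[ℤ[K]] M') : Co j M →ₗ[ℤ[Γ]] Co j M' :=
  mkLin { toFun := fun f => Co.mk (fun x => φ (f x)) fun k x => by rw [f.equiv, map_smul]
          map_zero' := Co.ext fun _ => map_zero φ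
          map_add' := fun _ _ => Co.ext fun _ => map_add φ _ _ }
    fun g f => Co.ext fun x => by
      rw [Co.o_smul]
      change φ ((o g • f) x) = φ (f (x * g))
      rw [Co.o_smul]

@[simp] theorem Co.map_apply (φ : M →ₗ[ℤ[K]] M') (f : Co j M) (x : Γ) :
    Co.map j φ f x = φ (f x) := rfl

variable (j) in
/-- an equivariant retraction -/
structure Sec where
  κ : Γ → K
  κ_mul : ∀ k x, κ (j k * x) = k * κ x
  κ_one : κ 1 = 1

theorem exists_sec (hj : Function.Injective j) : Nonempty (Sec j) := by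
  let τ : Γ → Γ := fun x => (Quotient.mk (QuotientGroup.rightRel j.range) x).out
  have h1 : ∀ x, ∃ k, j k = x * (τ x)⁻¹ := fun x =>
    QuotientGroup.rightRel_apply.1 (Quotient.exact (Quotient.out_eq
      (Quotient.mk (QuotientGroup.rightRel j.range) x)))
  have h2 : ∀ k x, τ (j k * x) = τ x := fun k x => congrArg Quotient.out
    (Quotient.sound (QuotientGroup.rightRel_apply.2 ⟨k⁻¹, by simp⟩))
  choose κ hκ using h1
  exact ⟨⟨fun x => κ x * (κ 1)⁻¹, fun k x => by
    rw [← mul_assoc]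
    congr 1
    exact hj (by rw [map_mul, hκ, hκ, h2, mul_assoc]), mul_inv_cancel _⟩⟩

theorem Sec.κ_j (σ : Sec j) (k : K) : σ.κ (j k) = k := by
  have := σ.κ_mul k 1
  rwa [mul_one, σ.κ_one, mul_one] at this

theorem Sec.lift (σ : Sec j) (φ : M →ₗ[ℤ[K]] M') (f : Co j M') (h : ∀ x, ∃ m, φ m = f x) :
    ∃ g, Co.map j φ g = f := by
  choose m hm using h
  refine ⟨Co.mk (fun x => o (σ.κ x) • m ((j (σ.κ x))⁻¹ * x)) fun k x => ?_, Co.ext fun x => ?_⟩
  · rw [σ.κ_mul, ← mul_smul, o_mul]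
    congr 2
    rw [map_mul]
    group
  · change φ (o (σ.κ x) • m ((j (σ.κ x))⁻¹ * x)) = _
    rw [map_smul, hm, ← f.equiv, mul_inv_cancel_left]

theorem lin_ext {R A n : Type} [Ring R] [AddCommGroup A] [Module R A] [Fintype n] [DecidableEq n]
    {f g : (n → R) →ₗ[R] A} (h : ∀ i, f (Pi.single i 1) = g (Pi.single i 1)) : f = g :=
  (Pi.basisFun R n).ext fun i => by simpa using h i

theorem lc_single {R A n : Type} [Ring R] [AddCommGroup A] [Module R A] [Fintype n] [DecidableEq n]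
    (y : n → A) (i : n) : Fintype.linearCombination R y (Pi.single i 1) = y i := by
  simp [Fintype.linearCombination_apply_single]

theorem Sec.liftLin (σ : Sec j) (φ : M →ₗ[ℤ[K]] M') {n : Type} [Fintype n]
    (f : (n → ℤ[Γ]) →ₗ[ℤ[Γ]] Co j M') (h : ∀ y x, ∃ m, φ m = f y x) :
    ∃ g : (n → ℤ[Γ]) →ₗ[ℤ[Γ]] Co j M, ∀ y x, φ (g y x) = f y x := by
  classical
  choose g hg using fun i => σ.lift φ (f (Pi.single i 1)) (h _)
  refine ⟨Fintype.linearCombination ℤ[Γ] g, fun y x => ?_⟩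
  have : Co.map j φ ∘ₗ Fintype.linearCombination ℤ[Γ] g = f := lin_ext fun i => by
    rw [LinearMap.comp_apply, lc_single, hg]
  rw [← this]
  rfl

variable {ι n : Type} [Fintype ι]

/-- evaluation at the identity of a cochain pulled back along a matrix -/
def evl (η : (n → ℤ[Γ]) →ₗ[ℤ[Γ]] Co j M) (B : Matrix ι n ℤ[Γ]) : (ι → ℤ[K]) →ₗ[ℤ[K]] M where
  toFun v := η ((jr j ∘ v) ᵥ* B) 1
  map_add' v w := by
    have : jr j ∘ (v + w) = jr j ∘ v + jr j ∘ w := funext fun i => map_add _ _ _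
    rw [this, add_vecMul, map_add, Co.add_apply]
  map_smul' r v := by
    have : jr j ∘ (r • v) = jr j r • (jr j ∘ v) := funext fun i => map_mul _ _ _
    rw [this, smul_vecMul, map_smul, Co.jr_smul, RingHom.id_apply]

theorem evl_apply (η : (n → ℤ[Γ]) →ₗ[ℤ[Γ]] Co j M) (B : Matrix ι n ℤ[Γ]) (v : ι → ℤ[K]) :
    evl η B v = η ((jr j ∘ v) ᵥ* B) 1 := rfl

variable {n0 n1 n2 : Type} [Fintype n0] [Fintype n1] [Fintype n2]
  [DecidableEq n0] [DecidableEq n1] [DecidableEq n2]

theorem compare (P : PRes Γ n0 n1 n2) (σ : Sec j) {s : ι → K}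
    (hs : Subgroup.closure (Set.range s) = ⊤) :
    ∃ (B : Matrix ι n1 ℤ[Γ]) (α : (n1 → ℤ[Γ]) →ₗ[ℤ[Γ]] Co j (ι → ℤ[K]))
      (γ : (ι → ℤ[K]) →ₗ[ℤ[K]] LinearMap.ker (dS s)), B * P.e1 = B ∧
      (∀ v, dS s v = 0 → ((jr j ∘ v) ᵥ* B) ᵥ* P.d1 = 0) ∧
      (∀ y x, y ᵥ* P.d1 = 0 → dS s (α y x) = 0) ∧
      ∀ v, dS s v = 0 → v = evl α B v - γ v := by
  obtain ⟨p, hp, hp1⟩ := P.surj
  choose y hy using fun i => P.ex_sub (j (s i)) hp
  let B : Matrix ι n1 ℤ[Γ] := Matrix.of y * P.e1
  have hB : ∀ v : ι → ℤ[K], ((jr j ∘ v) ᵥ* B) ᵥ* P.d1 = jr j (dS s v) • p := by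
    intro v
    rw [vecMul_vecMul, Matrix.mul_assoc, P.e1d1, vecMul_eq_sum_smul, dS_apply, map_sum,
      Finset.sum_smul]
    refine Finset.sum_congr rfl fun i _ => ?_
    rw [← row_vecMul]
    change _ • y i ᵥ* P.d1 = _
    rw [hy, map_mul, mul_smul, map_sub, map_one, jr_o]
    rfl
  let κ : Co j ℤ[K] := Co.mk (fun x => o (σ.κ x)) fun k x => by rw [σ.κ_mul, smul_eq_mul, o_mul]
  have hκ : ∀ (r : ℤ[Γ]) x, aug ℤ K ((r • κ) x) = aug ℤ Γ r := by
    intro r x
    induction r using zg_induction with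
    | ho g => rw [Co.o_smul, aug_o g]; exact aug_o _
    | hadd a b ha hb => rw [add_smul, Co.add_apply, map_add, map_add, ha, hb]
    | hsmul n a ha => rw [smul_assoc, Co.zsmul_apply, map_zsmul, map_zsmul, ha]
  let α0 : (n0 → ℤ[Γ]) →ₗ[ℤ[Γ]] Co j ℤ[K] :=
    Fintype.linearCombination ℤ[Γ] fun i => P.ε (P.e0 i) • κ
  have hα0 : ∀ y x, aug ℤ K (α0 y x) = P.ε (y ᵥ* P.e0) := by
    intro y x
    have : α0 y = (∑ i, P.ε (P.e0 i) • y i) • κ := by
      rw [Fintype.linearCombination_apply, Finset.sum_smul]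
      exact Finset.sum_congr rfl fun i _ => by rw [smul_assoc, smul_comm]
    rw [this, hκ, P.aug_beta]
  obtain ⟨α, hα⟩ := σ.liftLin (dS s) (α0 ∘ₗ P.d1.vecMulLinear) fun y x => exists_dS' hs (by
    rw [LinearMap.comp_apply, hα0, vecMulLinear_apply, vecMul_vecMul, P.d1e0, P.ε_d1])
  obtain ⟨γ0, hγ0⟩ := exists_dS' hs (r := α0 p 1 - 1) (by rw [map_sub, hα0, hp, hp1, map_one, sub_self])
  refine ⟨B, α, LinearMap.codRestrict _ (evl α B - LinearMap.id -
    (LinearMap.toSpanSingleton _ _ γ0) ∘ₗ dS s) fun v => ?_, ?_, fun v hv => ?_, fun y x h => ?_,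
    fun v hv => ?_⟩
  · rw [LinearMap.mem_ker, LinearMap.sub_apply, LinearMap.sub_apply, map_sub, map_sub, evl_apply,
      hα, LinearMap.comp_apply, vecMulLinear_apply, hB, map_smul, Co.jr_smul, LinearMap.comp_apply,
      LinearMap.toSpanSingleton_apply, map_smul, hγ0, LinearMap.id_apply]
    simp [mul_sub]
  · rw [Matrix.mul_assoc, P.e1e1]
  · rw [hB, hv, map_zero, zero_smul]
  · rw [hα, LinearMap.comp_apply, vecMulLinear_apply, h, map_zero, Co.zero_apply]
  · simp [hv]

theorem fp2 (P : PRes Γ n0 n1 n2) {s : ι → Γ} (hs : Subgroup.closure (Set.range s) = ⊤) :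
    (LinearMap.ker (dS s)).FG := by
  obtain ⟨σ⟩ := exists_sec (j := MonoidHom.id Γ) Function.injective_id
  obtain ⟨B, α, γ, h1, h2, h3, h4⟩ := compare P σ hs
  have : LinearMap.ker (dS s) = LinearMap.range (evl α P.d2) ⊔
      LinearMap.range ((LinearMap.ker (dS s)).subtype ∘ₗ γ) := by
    refine le_antisymm (fun v hv => ?_) (sup_le ?_ ?_)
    · obtain ⟨z, hz⟩ := P.ex1 _ (by rw [vecMul_vecMul, h1]) (h2 v hv)
      rw [h4 v hv]
      refine Submodule.sub_mem _ (Submodule.mem_sup_left ⟨z, ?_⟩) (Submodule.mem_sup_right ⟨v, rfl⟩)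
      rw [evl_apply, evl_apply, ← hz]
      rw [show jr (MonoidHom.id Γ) ∘ z = z from funext fun i => jr_id _]
    · rintro _ ⟨z, rfl⟩
      exact h3 _ _ (by rw [vecMul_vecMul, P.d2d1, vecMul_zero])
    · rintro _ ⟨v, rfl⟩
      exact (γ v).2
  rw [this]
  exact (Submodule.fg_range _).sup (Submodule.fg_range _)

theorem fg_of_pres (P : PRes Γ n0 n1 n2) : Group.FG Γ := by
  classical
  obtain ⟨p, hp, hp1⟩ := P.surj
  let β : (n0 → ℤ[Γ]) →ₗ[ℤ[Γ]] ℤ[Γ] := Fintype.linearCombination ℤ[Γ] fun i => P.ε (P.e0 i) • 1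
  have hβ : ∀ x, aug ℤ Γ (β x) = P.ε (x ᵥ* P.e0) := fun x => by
    rw [← P.aug_beta, Fintype.linearCombination_apply]
    simp [mul_comm]
  let S : Finset Γ := (β p).coeff.support ∪ Finset.univ.biUnion fun i => (β (P.d1 i)).coeff.support
  let L := Subgroup.closure (S : Set Γ)
  let π : ℤ[Γ] →+ ((Γ ⧸ L) →₀ ℤ) := extAdd fun g => Finsupp.single (QuotientGroup.mk g) 1
  have hπ : ∀ r : ℤ[Γ], r.coeff.support ⊆ S → ∀ a, π (a * r) = aug ℤ Γ r • π a := by
    intro r hr a
    induction a using zg_induction with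
    | ho g =>
      rw [extAdd_o_mul, extAdd_o, extAdd_congr (g := fun _ => Finsupp.single (QuotientGroup.mk g) 1)
        fun y hy => by rw [QuotientGroup.mk_mul_of_mem _ (Subgroup.subset_closure (hr hy))]]
      clear hr
      induction r using zg_induction with
      | ho x => simp
      | hadd a b ha hb => rw [map_add, map_add, add_smul, ha, hb]
      | hsmul n a ha => rw [map_zsmul, map_zsmul, smul_assoc, ha]
    | hadd a b ha hb => rw [add_mul, map_add, map_add, smul_add, ha, hb]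
    | hsmul n a ha => rw [smul_mul_assoc, map_zsmul, map_zsmul, ha, smul_comm]
  refine ⟨S, eq_top_iff.2 fun g _ => ?_⟩
  obtain ⟨y, hy⟩ := P.ex_sub g hp
  have h1 := congrArg (fun x => π (β x)) hy
  simp only [vecMul_eq_sum_smul, map_sum, map_smul, smul_eq_mul] at h1
  rw [hπ _ Finset.subset_union_left, hβ, hp, hp1, one_smul, Finset.sum_eq_zero fun i _ => by
    rw [hπ _ ((Finset.subset_biUnion_of_mem
      (fun i => (β (P.d1 i)).coeff.support) (Finset.mem_univ i)).trans Finset.subset_union_right), hβ, row_vecMul, P.d1e0,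
      P.ε_row, zero_smul], map_sub, ← o_one, extAdd_o, extAdd_o, eq_comm, sub_eq_zero,
    Finsupp.single_left_inj one_ne_zero, QuotientGroup.eq, mul_one] at h1
  exact (Subgroup.inv_mem_iff _).1 h1

end

end Pool.Agent.P.MP_5ee5b4_al
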