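import Pool.Agent.P.MP_5ee5b4_al.Dualize

/-! Two-cocycles with trivial coefficients. -/

namespace Pool.Agent.P.MP_5ee5b4_al

open Pool.Agent.P.MP_6e40fc_al
open scoped MonoidAlgebra

noncomputable section

set_option linter.unusedSectionVars false

variable {Γ : Type} [Group Γ] {ι : Type} [Fintype ι] [DecidableEq ι] {H V : Type} [Group H]
  [AddCommGroup V]

/-- two-cocycles with trivial action -/
def IsCoc (c : H → H → V) : Prop := ∀ a b d, c a b + c (a * b) d = c a (b * d) + c b d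

/-- coboundaries -/
def IsCob (c : H → H → V) : Prop := ∃ b : H → V, ∀ x y, c x y = b x + b y - b (x * y)

/-- central extensions by a group of prime order split -/
def CL (H : Type) [Group H] : Prop :=
  ∀ (p : ℕ) [Fact p.Prime] (c : H → H → ZMod p), IsCoc c → IsCob c

/-- homomorphisms to an additive group -/
def IsHom (f : H → V) : Prop := ∀ a b, f (a * b) = f a + f b

/-- forget the trivial action -/
def un (H X : Type) [Group H] [AddCommGroup X] : Triv H X →+ X := AddMonoidHom.id X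

theorem extAdd_sub {M : Type} [AddCommGroup M] (f g : Γ → M) (r : ℤ[Γ]) :
    extAdd (fun y => f y - g y) r = extAdd f r - extAdd g r := by
  induction r using zg_induction with
  | ho g => simp only [extAdd_o]
  | hadd a b ha hb => simp only [map_add, ha, hb]; abel
  | hsmul n a ha => simp only [map_zsmul, ha, smul_sub]

theorem cocycle_lam {s : ι → Γ} (hs : Subgroup.closure (Set.range s) = ⊤) (j : H →* Γ)
    (hj : Function.Injective j) (c : H → H → V) (hc : IsCoc c) :
    ∃ f : LinearMap.ker (dS s) →ₗ[ℤ[Γ]] Co j (Triv H V), ∀ (V' : Type) [AddCommGroup V']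
      (q : V →+ V'), Extends (Co.map j (trivMap H q) ∘ₗ f) → IsCob fun x y => q (c x y) := by
  obtain ⟨σ⟩ := exists_sec hj
  let D : ι → Γ → V := fun i x => c (σ.κ x) ((σ.κ x)⁻¹ * σ.κ (x * s i))
  let L : (ι → ℤ[Γ]) → Γ → V := fun v x => ∑ i, extAdd (fun y => D i (x * y)) (v i)
  have hL1 : ∀ v v' x, L (v + v') x = L v x + L v' x := fun v v' x => by
    simp [L, Finset.sum_add_distrib]
  have hL2 : ∀ g v x, L (o g • v) x = L v (x * g) := fun g v x => by
    simp only [L, Pi.smul_apply, smul_eq_mul, extAdd_o_mul, mul_assoc]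
  have hL3 : ∀ v k x, L v (j k * x) - L v x = extAdd (fun y => c k (σ.κ (x * y))) (dS s v) := by
    intro v k x
    rw [extAdd_dS]
    simp only [L, ← Finset.sum_sub_distrib, ← extAdd_sub]
    refine Finset.sum_congr rfl fun i _ => congrArg (fun f => extAdd f (v i)) (funext fun y => ?_)
    have := hc k (σ.κ (x * y)) ((σ.κ (x * y))⁻¹ * σ.κ (x * y * s i))
    rw [mul_inv_cancel_left] at this
    simp only [D, mul_assoc, σ.κ_mul, mul_inv_rev, inv_mul_cancel_left] at this ⊢
    rw [sub_eq_sub_iff_add_eq_add, add_comm, this, add_comm]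
  let f0 : LinearMap.ker (dS s) → Co j (Triv H V) := fun v => Co.mk (L v) fun k x => by
    rw [Triv.o_smul]
    exact sub_eq_zero.1 ((hL3 v k x).trans (by rw [show dS s v = 0 from v.2]; exact map_zero _))
  refine ⟨mkLin (AddMonoidHom.mk' f0 fun a b => Co.ext fun x => hL1 _ _ x) fun g a =>
    Co.ext fun x => by rw [Co.o_smul]; exact hL2 g a x, fun V' _ q ⟨F, hF⟩ => ?_⟩
  have hF' : ∀ v, dS s v = 0 → ∀ x, un H V' (F v x) = q (L v x) := fun v hv x =>
    congrArg (fun f => f x) (hF ⟨v, hv⟩)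
  choose v hv using exists_dS hs
  let E : Γ → Γ → V' := fun g x => q (L (v g) x) - un H V' (F (v g) x)
  have hE : ∀ g h x, E (g * h) x = E g x + E h (x * g) := fun g h x => by
    have h1 := hF' (v (g * h) - (v g + o g • v h)) (by
      rw [map_sub, map_add, map_smul, hv, hv, hv, smul_eq_mul, mul_sub, o_mul]; simp) x
    have h2 := hL1 (v (g * h) - (v g + o g • v h)) (v g + o g • v h) x
    rw [sub_add_cancel, hL1, hL2] at h2
    rw [map_sub, map_add, map_smul, Co.sub_apply, Co.add_apply, Co.o_smul, map_sub, map_add] at h1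
    simp only [E, h2, map_add, ← h1]
    abel
  have h11 : ∀ k, c k 1 = c 1 1 := fun k => by simpa using hc k 1 1
  refine ⟨fun k => q (c 1 1) - E (j k) 1, fun x y => ?_⟩
  have h3 := hL3 (v (j y)) x 1
  rw [hv, map_sub, ← o_one, extAdd_o, extAdd_o, one_mul, one_mul, σ.κ_j, σ.κ_one, h11,
    mul_one] at h3
  have h4 : F (v (j y)) (j x) = F (v (j y)) 1 := by
    have := (F (v (j y))).equiv x 1
    rwa [Triv.o_smul, mul_one] at this
  have h5 : E (j y) (j x) = E (j y) 1 + q (c x y) - q (c 1 1) := by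
    simp only [E, h4, eq_add_of_sub_eq h3, map_add, map_sub]
    abel
  simp only [map_mul, hE, one_mul, h5]
  abel

theorem cact_map {m n A A' : Type} [Fintype n] [AddCommGroup A] [Module ℤ[Γ] A] [AddCommGroup A']
    [Module ℤ[Γ] A'] (g : A →ₗ[ℤ[Γ]] A') (X : Matrix m n ℤ[Γ]) (u : n → A) :
    cact X (g ∘ u) = g ∘ cact X u := by
  funext a
  simp [cact_apply]

theorem DD.cl {w : Γ →* ℤˣ} {s : ι → Γ} (D : DD w s) (hs : Subgroup.closure (Set.range s) = ⊤)
    (hfg : (LinearMap.ker (dS s)).FG) (N : Subgroup Γ) [N.Normal] [Infinite (Γ ⧸ N)]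
    (hN : OE N (Set.range s)) (K : Subgroup Γ) (hK : K ≤ N) : CL K := by
  intro p _ c hc
  obtain ⟨f, hf⟩ := cocycle_lam hs K.subtype Subtype.val_injective c hc
  exact hf _ (AddMonoidHom.id _) ((D.ext _ _).1 (h1_triv p w hs hfg N hN hK _ (D.cyc _ _)))

theorem DD.h2c {w : Γ →* ℤˣ} {s : ι → Γ} (D : DD w s) (hs : Subgroup.closure (Set.range s) = ⊤)
    (hfg : (LinearMap.ker (dS s)).FG) (K : Subgroup Γ) [K.FiniteIndex] {p : ℕ} [Fact p.Prime]
    (hw : ∀ (k : K) (a : ZMod p), (w k : ℤ) • a = a) {d : ℕ}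
    (χ : Fin d → K → ZMod p) (hχ0 : ∀ t, IsHom (χ t))
    (hχ : ∀ ψ : K → ZMod p, IsHom ψ → ∃ a : Fin d → ZMod p, ∀ k, ψ k = ∑ t, a t * χ t k)
    {V : Type} [AddCommGroup V] [Module (ZMod p) V] (c : K → K → V) (hc : IsCoc c) :
    ∃ v : Fin d → V, IsCob fun x y => (Submodule.span (ZMod p) (Set.range v)).mkQ (c x y) := by
  obtain ⟨f, hf⟩ := cocycle_lam hs K.subtype Subtype.val_injective c hc
  obtain ⟨σ⟩ := exists_sec (j := K.subtype) Subtype.val_injective
  obtain ⟨R, hR⟩ := hfg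
  have hσ : ∀ (k : K) x, σ.κ (k * x) = k * σ.κ x := σ.κ_mul
  choose φ hφ using fun (t : Fin d) (i : ι) => exists_til2 (K := K) w
    (fun x => χ t (σ.κ (x * s i)) - χ t (σ.κ x)) (fun k x => by
      rw [hw, mul_assoc, hσ, hσ, hχ0, hχ0]; ring) (Set.toFinite _)
  let z := cact D.X (f ∘ D.ρ)
  let v : Fin d → V := fun t => ∑ i, pair p (z i) (φ t i)
  let q := (Submodule.span (ZMod p) (Set.range v)).mkQ
  refine ⟨v, hf _ q.toAddMonoidHom ((D.ext _ _).1 (dualize (p := p) w R (fun r hr => ?_) _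
    fun ψ hψ => ?_))⟩
  · exact (hR ▸ Submodule.subset_span hr : r ∈ LinearMap.ker (dS s))
  · obtain ⟨F, hF1, hF⟩ := integral_til2 w hs R hR ψ hψ
    have h1 : ∀ (k : K) x, F (k * x) = F k + F x := fun k x => by
      have := const_of_edges' hs (fun x => F (k * x) - F x) (fun x i => by
        simp only [← mul_assoc, hF, til2_equiv, hw]; ring) x 1
      rw [mul_one, hF1, sub_zero] at this
      exact eq_add_of_sub_eq this
    obtain ⟨a, ha⟩ := hχ (fun k => F k) fun k k' => h1 k k'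
    obtain ⟨u, hu⟩ := exists_til2 (K := K) w (fun x => F x - ∑ t, a t * χ t (σ.κ x))
      (fun k x => by
        simp only [hw, h1, hσ, hχ0 _ k, mul_add, Finset.sum_add_distrib, ha]; ring)
      (Set.toFinite _)
    have h2 : ∀ i, ψ i = Tw p w K (o (s i) - 1) u + ∑ t, a t • φ t i := fun i =>
      til2_inj w fun x => by
        rw [til2_add, til2_Tw, map_sub, ← o_one, extAdd_o, extAdd_o, hu, hu, mul_one, hF, til2_sum]
        simp only [til2_smul, hφ, mul_sub, Finset.sum_sub_distrib]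
        ring
    have h3 : cact D.X ((Co.map K.subtype (trivMap K q.toAddMonoidHom) ∘ₗ f) ∘ D.ρ) =
        Co.map K.subtype (trivMap K q.toAddMonoidHom) ∘ z :=
      cact_map (Co.map K.subtype (trivMap K q.toAddMonoidHom)) D.X (f ∘ D.ρ)
    simp only [h3, Function.comp_apply, pair_map, LinearMap.comp_apply, ← map_sum]
    rw [Submodule.mkQ_apply, Submodule.Quotient.mk_eq_zero]
    simp only [h2, map_add, Finset.sum_add_distrib, map_sum, map_smul]
    rw [(D.cyc _ f).pair w u, zero_add, Finset.sum_comm]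
    simp only [← Finset.smul_sum]
    exact Submodule.sum_mem _ fun t _ => Submodule.smul_mem _ _ (Submodule.subset_span ⟨t, rfl⟩)

theorem derLift_of_ext {s : ι → Γ} (hs : Subgroup.closure (Set.range s) = ⊤) (j : H →* Γ)
    (hj : Function.Injective j) {A B : Type} [AddCommGroup A] [Module ℤ[H] A] [AddCommGroup B]
    [Module ℤ[H] B] (π : A →ₗ[ℤ[H]] B) (δ : H → B) (hπ : ∀ g, ∃ a, π a = δ g)
    (hδ : ∀ g h, δ (g * h) = δ g + o g • δ h)
    (hext : ∀ f : LinearMap.ker (dS s) →ₗ[ℤ[Γ]] Co j (LinearMap.ker π), Extends f) :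
    ∃ D : H → A, (∀ g h, D (g * h) = D g + o g • D h) ∧ ∀ g, π (D g) = δ g := by
  obtain ⟨σ⟩ := exists_sec hj
  have hδ1 : δ 1 = 0 := by simpa using hδ 1 1
  let Δ : (ι → ℤ[Γ]) →ₗ[ℤ[Γ]] Co j B := Fintype.linearCombination ℤ[Γ] fun i =>
    Co.mk (fun x => δ (σ.κ (x * s i)) - δ (σ.κ x)) fun k x => by
      rw [mul_assoc, σ.κ_mul, σ.κ_mul, hδ, hδ, smul_sub]; abel
  have hΔ : ∀ v x, Δ v x = extAdd (fun y => δ (σ.κ (x * y))) (dS s v) := fun v x => by
    rw [extAdd_dS, Fintype.linearCombination_apply, Co.sum_apply]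
    simp only [Co.smul_apply, Co.mk_apply, mul_assoc]
  obtain ⟨Λ, hΛ⟩ := σ.liftLin π Δ fun y x => by
    rw [hΔ]
    choose a ha using hπ
    exact ⟨extAdd (fun y => a (σ.κ (x * y))) (dS s y), by
      rw [← LinearMap.toAddMonoidHom_coe, map_extAdd]; simp only [LinearMap.toAddMonoidHom_coe, ha]⟩
  have hΛ0 : ∀ (k : LinearMap.ker (dS s)) x, π (Λ k x) = 0 := fun k x => by
    rw [hΛ, hΔ, k.2, map_zero]
  let f0 : LinearMap.ker (dS s) → Co j (LinearMap.ker π) := fun k =>
    Co.mk (fun x => ⟨Λ k x, hΛ0 k x⟩) fun h x => Subtype.ext ((Λ k).equiv h x)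
  obtain ⟨F, hF⟩ := hext (mkLin (AddMonoidHom.mk' f0 fun a b => Co.ext fun x => Subtype.ext (by
    change Λ (a + b) x = Λ a x + Λ b x
    rw [map_add]; rfl)) fun g a => Co.ext fun x => Subtype.ext (by
      rw [Co.o_smul]
      change Λ (o g • a) x = Λ a (x * g)
      rw [map_smul, Co.o_smul]))
  let Λ' : (ι → ℤ[Γ]) →ₗ[ℤ[Γ]] Co j A := Λ - Co.map j (LinearMap.ker π).subtype ∘ₗ F
  have h5 : ∀ v, dS s v = 0 → Λ' v = 0 := fun v hv => Co.ext fun x => by
    change Λ v x - (F v x : A) = 0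
    rw [hF ⟨v, hv⟩]
    exact sub_self _
  have h6 : ∀ v x, π (Λ' v x) = Δ v x := fun v x => by
    change π (Λ v x - (F v x : A)) = _
    rw [map_sub, hΛ, (F v x).2, sub_zero]
  choose v hv using exists_dS hs
  refine ⟨fun k => Λ' (v (j k)) 1, fun a b => ?_, fun a => ?_⟩
  · have := h5 (v (j (a * b)) - (v (j a) + o (j a) • v (j b))) (by
      rw [map_sub, map_add, map_smul, hv, hv, hv, smul_eq_mul, mul_sub, o_mul, map_mul]; simp)
    rw [map_sub, sub_eq_zero] at this
    simp only [this, map_add, map_smul, Co.add_apply]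
    rw [← jr_o, Co.jr_smul]
  · rw [h6, hΔ, hv, map_sub, ← o_one, extAdd_o, extAdd_o, one_mul, one_mul, σ.κ_j, σ.κ_one, hδ1,
      sub_zero]

end

end Pool.Agent.P.MP_5ee5b4_al
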