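import Mathlib

/-! Cuts of Cayley graphs, nestedness and ping-pong. -/

namespace Pool.Agent.P.MP_5ee5b4_al

open scoped Pointwise

variable {Γ : Type} [Group Γ]

theorem const_of_edges {S : Set Γ} (hS : Subgroup.closure S = ⊤) (f : Γ → Prop)
    (h : ∀ x, ∀ s ∈ S, (f x ↔ f (x * s))) (x : Γ) : f x ↔ f 1 := by
  have hx : x ∈ Subgroup.closure S := hS ▸ Subgroup.mem_top x
  induction hx using Subgroup.closure_induction_right with
  | one => rfl
  | mul_right x _ y hy ih => exact (h x y hy).symm.trans ih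
  | mul_inv_cancel x _ y hy ih =>
    have := h (x * y⁻¹) y hy
    rw [inv_mul_cancel_right] at this
    exact this.trans ih

/-- a cut of the Cayley graph -/
structure Cut (S : Set Γ) where
  Y : Set Γ
  C : Set Γ
  gen : Subgroup.closure S = ⊤
  one_mem : 1 ∈ C
  conn : ∀ f : Γ → Prop, (∀ x ∈ C, ∀ s ∈ S, x * s ∈ C → (f x ↔ f (x * s))) →
    ∀ x ∈ C, (f x ↔ f 1)
  bdry : ∀ x, ∀ s ∈ S, ¬ (x ∈ Y ↔ x * s ∈ Y) → x ∈ C ∧ x * s ∈ C

namespace Cut

variable {S : Set Γ} (c : Cut S)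

/-- the opposite cut -/
def symm : Cut S where
  Y := c.Yᶜ
  C := c.C
  gen := c.gen
  one_mem := c.one_mem
  conn := c.conn
  bdry x s hs h := c.bdry x s hs fun h' => h (not_congr h')

/-- elements moving the core off itself -/
def Gen (g : Γ) : Prop := ∀ x ∈ c.C, g * x ∉ c.C

variable {c}

theorem Gen.inv {g : Γ} (h : c.Gen g) : c.Gen g⁻¹ := fun x hx hx' =>
  h _ hx' (by rwa [mul_inv_cancel_left])

theorem Gen.side {g : Γ} (h : c.Gen g) {x : Γ} (hx : x ∈ c.C) : g * x ∈ c.Y ↔ g ∈ c.Y := by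
  have := c.conn (fun x => g * x ∈ c.Y) (fun x hx s hs _ => by
    by_contra h'
    rw [← mul_assoc] at h'
    exact h x hx (c.bdry _ s hs h').1) x hx
  simpa using this

theorem Gen.nest {g : Γ} (h : c.Gen g) (x : Γ) :
    (x ∈ c.Y ↔ g ∈ c.Y) ∨ (g⁻¹ * x ∈ c.Y ↔ g⁻¹ ∈ c.Y) := by
  have key : ∀ x, ∀ s ∈ S, (((x ∈ c.Y ↔ g ∈ c.Y) ∨ (g⁻¹ * x ∈ c.Y ↔ g⁻¹ ∈ c.Y)) ↔
      ((x * s ∈ c.Y ↔ g ∈ c.Y) ∨ (g⁻¹ * (x * s) ∈ c.Y ↔ g⁻¹ ∈ c.Y))) := by
    intro x s hs
    by_cases h1 : x ∈ c.Y ↔ x * s ∈ c.Y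
    · by_cases h2 : g⁻¹ * x ∈ c.Y ↔ g⁻¹ * x * s ∈ c.Y
      · rw [h1, h2, mul_assoc]
      · obtain ⟨h3, h4⟩ := c.bdry _ s hs h2
        have h5 := h.side h3
        have h6 := h.side h4
        rw [mul_inv_cancel_left] at h5
        rw [mul_assoc, mul_inv_cancel_left] at h6
        exact iff_of_true (Or.inl h5) (Or.inl h6)
    · obtain ⟨h3, h4⟩ := c.bdry _ s hs h1
      exact iff_of_true (Or.inr (h.inv.side h3)) (Or.inr (h.inv.side h4))
  exact (const_of_edges c.gen _ key x).2 (Or.inr (by rw [mul_one]))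

variable (c) in
/-- elements pushing the cut into itself -/
structure Hyp (g : Γ) : Prop where
  gen : c.Gen g
  mem : g ∈ c.Y
  inv_notMem : g⁻¹ ∉ c.Y

theorem Hyp.symm {g : Γ} (h : c.Hyp g) : c.symm.Hyp g⁻¹ :=
  ⟨h.gen.inv, h.inv_notMem, by rw [inv_inv]; exact fun h' => h' h.mem⟩

theorem Hyp.mul_mem {g : Γ} (h : c.Hyp g) {x : Γ} (hx : x ∈ c.Y) : g * x ∈ c.Y := by
  rcases h.gen.nest (g * x) with h1 | h1
  · exact h1.2 h.mem
  · rw [inv_mul_cancel_left] at h1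
    exact absurd (h1.1 hx) h.inv_notMem

theorem Hyp.pow_mul_mem {g : Γ} (h : c.Hyp g) {x : Γ} (hx : x ∈ c.Y) (k : ℕ) :
    g ^ k * x ∈ c.Y := by
  induction k with
  | zero => simpa using hx
  | succ k ih => rw [pow_succ', mul_assoc]; exact h.mul_mem ih

theorem Hyp.attract {g : Γ} (h : c.Hyp g) (x : Γ) : ∃ k0 : ℕ, ∀ k ≥ k0, g ^ k * x ∈ c.Y := by
  have key : ∀ x, ∀ s ∈ S, ((∃ k : ℕ, g ^ k * x ∈ c.Y) ↔ ∃ k : ℕ, g ^ k * (x * s) ∈ c.Y) := by
    intro x s hs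
    have aux : ∀ z, z ∈ c.Y → g * z ∉ c.C := fun z hz hz' => by
      have := h.gen.inv.side hz'
      rw [inv_mul_cancel_left] at this
      exact h.inv_notMem (this.1 hz)
    constructor
    · rintro ⟨k, hk⟩
      refine ⟨k + 1, ?_⟩
      by_contra h'
      refine aux _ hk (c.bdry _ s hs fun e => h' ?_).1
      rw [pow_succ', ← mul_assoc, mul_assoc g]
      exact e.1 (h.mul_mem hk)
    · rintro ⟨k, hk⟩
      refine ⟨k + 1, ?_⟩
      by_contra h'
      refine aux _ hk ?_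
      have := (c.bdry (g ^ (k + 1) * x) s hs fun e => h' (e.2 ?_)).2
      · rwa [pow_succ', mul_assoc, mul_assoc] at this
      · rw [pow_succ', mul_assoc, mul_assoc]
        exact h.mul_mem hk
  obtain ⟨k0, hk0⟩ := (const_of_edges c.gen _ key x).2 ⟨1, by simpa using h.mem⟩
  refine ⟨k0, fun k hk => ?_⟩
  obtain ⟨j, rfl⟩ := Nat.exists_eq_add_of_le' hk
  rw [pow_add, mul_assoc]
  exact h.pow_mul_mem hk0 j

theorem Hyp.repel {g : Γ} (h : c.Hyp g) (x : Γ) : ∃ k0 : ℕ, ∀ k ≥ k0, g⁻¹ ^ k * x ∉ c.Y :=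
  h.symm.attract x

theorem Hyp.pow_injective {g : Γ} (h : c.Hyp g) {k : ℕ} (hk : g ^ k = 1) : k = 0 := by
  by_contra h0
  obtain ⟨k0, hk0⟩ := h.attract g⁻¹
  have := hk0 (k * k0) (Nat.le_mul_of_pos_left _ (Nat.pos_of_ne_zero h0))
  rw [pow_mul, hk, one_pow, one_mul] at this
  exact h.inv_notMem this

/-- ping-pong -/
theorem Hyp.pingpong {g : Γ} (hg : c.Hyp g) (h : Γ) (k : ℕ)
    (H : ∀ a b : ℤ, (a = k ∨ a = -k) → (b = k ∨ b = -k) →
      c.Gen (g ^ (-a) * h * g ^ b) ∧ (g ^ (-a) * h * g ^ b ∈ c.Y ↔ a < 0) ∧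
        ((g ^ (-a) * h * g ^ b)⁻¹ ∈ c.Y ↔ b < 0)) (hk : 0 < k) :
    Function.Injective (FreeGroup.lift ![g ^ (2 * k), (h * g * h⁻¹) ^ (2 * k)]) := by
  let u : Fin 2 → Γ := ![1, h]
  let X : Fin 2 → Set Γ := fun i => {x | g ^ (-(k : ℤ)) * ((u i)⁻¹ * x) ∈ c.Y}
  let Z : Fin 2 → Set Γ := fun i => {x | g ^ (k : ℤ) * ((u i)⁻¹ * x) ∉ c.Y}
  have ha : ∀ i, ![g ^ (2 * k), (h * g * h⁻¹) ^ (2 * k)] i = u i * g ^ (2 * k) * (u i)⁻¹ := by
    intro i
    fin_cases i <;> simp [u]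
  have key : ∀ a b : ℤ, (a = k ∨ a = -k) → (b = k ∨ b = -k) → ∀ x,
      (g ^ (-a) * x ∈ c.Y ↔ a < 0) ∨ (g ^ (-b) * (h⁻¹ * x) ∈ c.Y ↔ b < 0) := by
    intro a b ha hb x
    obtain ⟨h1, h2, h3⟩ := H a b ha hb
    have := h1.nest (g ^ (-a) * x)
    rw [h2, h3] at this
    have e : (g ^ (-a) * h * g ^ b)⁻¹ * (g ^ (-a) * x) = g ^ (-b) * (h⁻¹ * x) := by group
    rwa [e] at this
  have hk1 : ¬ ((k : ℤ) < 0) := by omega
  have hk2 : -(k : ℤ) < 0 := by omega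
  have hsame : ∀ i, Disjoint (X i) (Z i) := fun i => Set.disjoint_left.2 fun x hx hx' => by
    refine hx' ?_
    have := hg.pow_mul_mem hx (2 * k)
    rw [← mul_assoc, ← zpow_natCast, ← zpow_add] at this
    convert this using 3
    push_cast; ring
  refine FreeGroup.injective_lift_of_ping_pong _ X Z (fun i => ⟨u i * g ^ (k + 1), ?_⟩) ?_ ?_ ?_
    (fun i => ?_) (fun i => ?_)
  · change _ ∈ c.Y
    convert hg.mem using 1
    group
  · have : Disjoint (X 0) (X 1) := Set.disjoint_left.2 fun x hx hx' => by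
      have := key k k (Or.inl rfl) (Or.inl rfl) x
      simp only [X, u, Set.mem_ofPred_eq, Matrix.cons_val_zero, inv_one, one_mul,
        Matrix.cons_val_one] at hx hx'
      tauto
    intro i j hij
    fin_cases i <;> fin_cases j
    · exact absurd rfl hij
    · exact this
    · exact this.symm
    · exact absurd rfl hij
  · have : Disjoint (Z 0) (Z 1) := Set.disjoint_left.2 fun x hx hx' => by
      have := key (-k) (-k) (Or.inr rfl) (Or.inr rfl) x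
      simp only [Z, u, Set.mem_ofPred_eq, Matrix.cons_val_zero, inv_one, one_mul,
        Matrix.cons_val_one] at hx hx'
      rw [neg_neg] at this
      tauto
    intro i j hij
    fin_cases i <;> fin_cases j
    · exact absurd rfl hij
    · exact this
    · exact this.symm
    · exact absurd rfl hij
  · intro i j
    fin_cases i <;> fin_cases j
    · exact hsame 0
    · refine Set.disjoint_left.2 fun x hx hx' => ?_
      have := key k (-k) (Or.inl rfl) (Or.inr rfl) x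
      simp only [X, Z, u, Set.mem_ofPred_eq, Matrix.cons_val_zero, inv_one, one_mul,
        Matrix.cons_val_one, Fin.zero_eta, Fin.mk_one] at hx hx'
      rw [neg_neg] at this
      tauto
    · refine Set.disjoint_left.2 fun x hx hx' => ?_
      have := key (-k) k (Or.inr rfl) (Or.inl rfl) x
      simp only [X, Z, u, Set.mem_ofPred_eq, Matrix.cons_val_zero, inv_one, one_mul,
        Matrix.cons_val_one, Fin.zero_eta, Fin.mk_one] at hx hx'
      rw [neg_neg] at this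
      tauto
    · exact hsame 1
  · rintro _ ⟨x, hx, rfl⟩
    have hx' : g ^ (k : ℤ) * ((u i)⁻¹ * x) ∈ c.Y := not_not.1 hx
    change g ^ (-(k : ℤ)) * ((u i)⁻¹ * (_ * x)) ∈ c.Y
    rw [ha]
    convert hx' using 1
    group
  · rintro _ ⟨x, hx, rfl⟩
    have hx' : g ^ (-(k : ℤ)) * ((u i)⁻¹ * x) ∉ c.Y := hx
    change g ^ (k : ℤ) * ((u i)⁻¹ * (_ * x)) ∉ c.Y
    rw [Pi.inv_apply, ha]
    convert hx' using 2
    group

end Cut

end Pool.Agent.P.MP_5ee5b4_al
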