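import Pool.Agent.P.MP_5ee5b4_al.Ends
import Pool.Agent.P.MP_6e40fc_al.GR

/-! The ascending alternative for a character of a group of type FP2. -/

namespace Pool.Agent.P.MP_5ee5b4_al

open Pool.Agent.P.MP_6e40fc_al
open scoped MonoidAlgebra

noncomputable section

variable {Γ : Type} [Group Γ]

/-- the level of a group element -/
def lv (χ : Γ →* Multiplicative ℤ) (x : Γ) : ℤ := (χ x).toAdd

section lv
variable (χ : Γ →* Multiplicative ℤ)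

@[simp] theorem lv_mul (x y : Γ) : lv χ (x * y) = lv χ x + lv χ y := by simp [lv]
@[simp] theorem lv_one : lv χ 1 = 0 := by simp [lv]
@[simp] theorem lv_inv (x : Γ) : lv χ x⁻¹ = -lv χ x := by simp [lv]
@[simp] theorem lv_pow (x : Γ) (n : ℕ) : lv χ (x ^ n) = n * lv χ x := by simp [lv]
@[simp] theorem lv_zpow (x : Γ) (n : ℤ) : lv χ (x ^ n) = n * lv χ x := by simp [lv]
theorem lv_eq_zero {x : Γ} : lv χ x = 0 ↔ x ∈ χ.ker := by simp [lv]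
@[simp] theorem lv_inv_hom (x : Γ) : lv χ⁻¹ x = -lv χ x := by simp [lv]

end lv

theorem far {S : Set Γ} (hS : Subgroup.closure S = ⊤) (χ : Γ →* Multiplicative ℤ) {α : Type}
    (F : Γ → α) (D : ℤ) (hF : ∀ x, ∀ s ∈ S, D < |lv χ x| → F (x * s) = F x) (g : Γ) :
    ∃ R : ℕ, ∀ x, (R : ℤ) < |lv χ x| → F (x * g) = F x := by
  have hg : g ∈ Subgroup.closure S := hS ▸ Subgroup.mem_top g
  induction hg using Subgroup.closure_induction with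
  | mem s hs => exact ⟨D.natAbs, fun x hx => hF x s hs (by omega)⟩
  | one => exact ⟨0, fun x _ => by rw [mul_one]⟩
  | mul a b _ _ ha hb =>
    obtain ⟨R, hR⟩ := ha
    obtain ⟨R', hR'⟩ := hb
    refine ⟨R + R' + (lv χ a).natAbs, fun x hx => ?_⟩
    rw [← mul_assoc, hR' _ (by rw [lv_mul]; push_cast at hx; simp only [abs_eq_max_neg] at *; omega),
      hR _ (by omega)]
  | inv a _ ha =>
    obtain ⟨R, hR⟩ := ha
    refine ⟨R + (lv χ a).natAbs, fun x hx => ?_⟩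
    rw [← hR (x * a⁻¹) (by
      rw [lv_mul, lv_inv]; push_cast at hx; simp only [abs_eq_max_neg] at *; omega),
      inv_mul_cancel_right]

theorem far_pow {χ : Γ →* Multiplicative ℤ} {α : Type} {F : Γ → α} {R : ℤ} {g : Γ}
    (h : ∀ x, R < |lv χ x| → F (x * g) = F x) (x : Γ) (n : ℕ)
    (hx : ∀ j : ℕ, R < |lv χ x + j * lv χ g|) : F (x * g ^ n) = F x := by
  induction n with
  | zero => simp
  | succ n ih => rw [pow_succ, ← mul_assoc, h _ (by simpa using hx n), ih]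

theorem abs_lt_aux {a b : ℤ} {R n j : ℕ} (ha : a ≠ 0) (hn : R + b.natAbs < n) :
    (R : ℤ) < |(n : ℤ) * -a + b + j * -a| := by
  have h1 : ((n + j : ℕ) : ℤ) ≤ |((n + j : ℕ) : ℤ) * -a| := by
    rw [abs_mul, abs_neg, Nat.abs_cast]
    exact le_mul_of_one_le_right (by positivity) (Int.one_le_abs ha)
  have e : (n : ℤ) * -a + b + j * -a = ((n + j : ℕ) : ℤ) * -a + b := by push_cast; ring
  rw [e]
  generalize ((n + j : ℕ) : ℤ) * -a = z at h1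
  simp only [abs_eq_max_neg] at *
  omega

theorem Cut.Hyp.types {S : Set Γ} {c : Cut S} {μ : Γ} (hμ : c.Hyp μ) (χ : Γ →* Multiplicative ℤ)
    (D : ℤ) (hC : ∀ x ∈ c.C, |lv χ x| ≤ D) (ha : lv χ μ ≠ 0) (h : Γ) (hh : lv χ h = 0) :
    ∃ n0 : ℕ, ∀ n ≥ n0, μ⁻¹ ^ n * h * μ⁻¹ ^ n ∉ c.Y ∧
      (c.Gen (μ⁻¹ ^ n * h * μ ^ n) → μ⁻¹ ^ n * h * μ ^ n ∉ c.Y) := by
  have hfar := far c.gen χ (· ∈ c.Y) D fun x s hs hx => propext (by
    by_contra h'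
    exact absurd (hC x (c.bdry x s hs fun e => h' e.symm).1) (not_le.2 hx))
  obtain ⟨R1, hR1⟩ := hfar μ⁻¹
  obtain ⟨R2, hR2⟩ := hfar h
  obtain ⟨k1, hk1⟩ := hμ.repel h
  obtain ⟨k2, hk2⟩ := hμ.repel h⁻¹
  obtain ⟨k3, hk3⟩ := hμ.repel 1
  refine ⟨R1 + R2 + k1 + k2 + k3 + 1, fun n hn => ⟨?_, fun hg hg' => ?_⟩⟩
  · have := far_pow hR1 (μ⁻¹ ^ n * h) n fun j => by
      have := abs_lt_aux (b := 0) (R := R1) (n := n) (j := j) ha (by simp; omega)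
      simpa [hh] using this
    rw [this]
    exact hk1 n (by omega)
  · have h3 := hk3 n (by omega)
    rw [mul_one] at h3
    by_cases hg2 : (μ⁻¹ ^ n * h * μ ^ n)⁻¹ ∈ c.Y
    · rcases hg.nest (μ⁻¹ ^ n) with h4 | h4
      · exact h3 (h4.2 hg')
      · refine hk2 n (by omega) ?_
        convert h4.2 hg2 using 1
        group
    · obtain ⟨k, hk⟩ := Cut.Hyp.attract ⟨hg, hg', hg2⟩ (μ⁻¹ ^ n)
      have h4 := hk k le_rfl
      have e : (μ⁻¹ ^ n * h * μ ^ n) ^ k * μ⁻¹ ^ n = μ⁻¹ ^ n * h ^ k := by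
        have := conj_pow (a := μ⁻¹ ^ n) (b := h) (i := k)
        rw [inv_pow, inv_inv] at this
        rw [inv_pow, this]
        group
      have := far_pow hR2 (μ⁻¹ ^ n) k fun j => by
        have := abs_lt_aux (b := 0) (R := R2) (n := n) (j := 0) ha (by simp; omega)
        simpa [hh] using this
      rw [e, this] at h4
      exact h3 h4

theorem Cut.Hyp.ev {S : Set Γ} {c : Cut S} {μ : Γ} (hμ : c.Hyp μ) (χ : Γ →* Multiplicative ℤ)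
    (D : ℤ) (hC : ∀ x ∈ c.C, |lv χ x| ≤ D) (ha : lv χ μ ≠ 0) (h : Γ) (hh : lv χ h = 0) :
    (∃ n0 : ℕ, ∀ n ≥ n0, ¬ c.Gen (μ⁻¹ ^ n * h * μ ^ n)) ∨
      ∃ n0 : ℕ, ∀ n ≥ n0, c.Gen (μ⁻¹ ^ n * h * μ ^ n) := by
  obtain ⟨n1, h1⟩ := hμ.types χ D hC ha h hh
  obtain ⟨n2, h2⟩ := hμ.types χ D hC ha h⁻¹ (by simp [hh])
  by_cases hex : ∃ n ≥ n1 + n2, c.Gen (μ⁻¹ ^ n * h * μ ^ n)
  · obtain ⟨n, hn, hg⟩ := hex
    refine Or.inr ⟨n + 1, fun k hk x hx hx' => ?_⟩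
    obtain ⟨j, rfl⟩ := Nat.exists_eq_add_of_le hk
    have e0 : (μ⁻¹ ^ n * h * μ ^ n)⁻¹ = μ⁻¹ ^ n * h⁻¹ * μ ^ n := by group
    have h3 := (h1 n (by omega)).2 hg
    have h4 := (h2 n (by omega)).2 (e0 ▸ hg.inv)
    have h5 := hμ.pow_mul_mem ((hμ.gen.side hx).2 hμ.mem) j
    have h6 := hμ.pow_mul_mem ((hμ.gen.side hx').2 hμ.mem) j
    rcases hg.nest (μ ^ j * (μ * (μ⁻¹ ^ (n + 1 + j) * h * μ ^ (n + 1 + j) * x))) with h7 | h7
    · exact h3 (h7.1 h6)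
    · refine h4 (e0 ▸ h7.1 ?_)
      convert h5 using 1
      group
  · exact Or.inl ⟨n1 + n2, fun n hn hg => hex ⟨n, hn, hg⟩⟩

theorem Cut.Hyp.dich {S : Set Γ} {c : Cut S} {μ : Γ} (hμ : c.Hyp μ) (χ : Γ →* Multiplicative ℤ)
    (D : ℤ) (hC : ∀ x ∈ c.C, |lv χ x| ≤ D) (ha : lv χ μ ≠ 0) (B : Subgroup Γ)
    (hB : ∀ g, lv χ g = 0 → ¬ c.Gen g → g ∈ B) (N : Subgroup Γ) [hN : N.Normal] (hNF : NF N)
    (hμN : μ ∈ N) : ∃ v : Γ, lv χ v ≠ 0 ∧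
      ∀ h, lv χ h = 0 → ∃ n0 : ℕ, ∀ n ≥ n0, v ^ n * h * v⁻¹ ^ n ∈ B := by
  have key : ∀ h, lv χ h = 0 → (∃ n0 : ℕ, ∀ n ≥ n0, μ⁻¹ ^ n * h * μ⁻¹⁻¹ ^ n ∈ B) ∨
      ∃ n0 : ℕ, ∀ n ≥ n0, μ ^ n * h * μ⁻¹ ^ n ∈ B := by
    intro h hh
    have hh' : lv χ h⁻¹ = 0 := by simp [hh]
    have ha' : lv χ μ⁻¹ ≠ 0 := by simpa using ha
    rcases hμ.ev χ D hC ha h hh with ⟨n0, h1⟩ | ⟨n1, h1⟩
    · exact Or.inl ⟨n0, fun n hn => by rw [inv_inv]; exact hB _ (by simp [hh]) (h1 n hn)⟩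
    rcases hμ.symm.ev χ D hC ha' h hh with ⟨n0, h2⟩ | ⟨n2, h2⟩
    · exact Or.inr ⟨n0, fun n hn => by
        have := h2 n hn
        rw [inv_inv] at this
        exact hB _ (by simp [hh]) this⟩
    exfalso
    obtain ⟨n3, h3⟩ := hμ.types χ D hC ha h hh
    obtain ⟨n4, h4⟩ := hμ.types χ D hC ha h⁻¹ hh'
    obtain ⟨n5, h5⟩ := hμ.symm.types χ D hC ha' h hh
    obtain ⟨n6, h6⟩ := hμ.symm.types χ D hC ha' h⁻¹ hh'
    obtain ⟨k, hk, hk'⟩ := hNF μ hμN _ (hN.conj_mem μ hμN h)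
      (n1 + n2 + n3 + n4 + n5 + n6 + D.natAbs + 1)
    have hgen : ∀ g, lv χ g = 2 * k * lv χ μ → c.Gen g := fun g hg x hx hx' => by
      have a1 := hC _ hx
      have a2 := hC _ hx'
      rw [lv_mul, hg] at a2
      have a3 : (k : ℤ) ≤ |k * lv χ μ| := by
        rw [abs_mul, Nat.abs_cast]
        exact le_mul_of_one_le_right (by positivity) (Int.one_le_abs ha)
      rw [mul_assoc] at a2
      generalize (k : ℤ) * lv χ μ = z at a2 a3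
      simp only [abs_eq_max_neg] at *
      omega
    have hk1 : ¬ ((k : ℤ) < 0) := by omega
    have hk2 : -(k : ℤ) < 0 := by omega
    simp only [inv_inv] at h2 h5 h6
    refine hk' (hμ.pingpong h k (fun a b ha hb => ?_) (by omega))
    rcases ha with rfl | rfl <;> rcases hb with rfl | rfl <;>
      simp only [zpow_neg, zpow_natCast, neg_neg, mul_inv_rev, inv_inv, ← inv_pow, ← mul_assoc]
    · have e0 : (μ⁻¹ ^ k * h * μ ^ k)⁻¹ = μ⁻¹ ^ k * h⁻¹ * μ ^ k := by group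
      exact ⟨h1 k (by omega), iff_of_false ((h3 k (by omega)).2 (h1 k (by omega))) hk1,
        iff_of_false ((h4 k (by omega)).2 (e0 ▸ (h1 k (by omega)).inv)) hk1⟩
    · refine ⟨?_, iff_of_false (h3 k (by omega)).1 hk1,
        iff_of_true (not_not.1 (h6 k (by omega)).1) hk2⟩
      rw [← inv_inv (μ⁻¹ ^ k * h * μ⁻¹ ^ k)]
      exact (hgen _ (by simp [hh]; ring)).inv
    · exact ⟨hgen _ (by simp [hh]; ring), iff_of_true (not_not.1 (h5 k (by omega)).1) hk2,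
        iff_of_false (h4 k (by omega)).1 hk1⟩
    · have e0 : (μ ^ k * h * μ⁻¹ ^ k)⁻¹ = μ ^ k * h⁻¹ * μ⁻¹ ^ k := by group
      exact ⟨h2 k (by omega), iff_of_true (not_not.1 ((h5 k (by omega)).2 (h2 k (by omega)))) hk2,
        iff_of_true (not_not.1 ((h6 k (by omega)).2 (e0 ▸ (h2 k (by omega)).inv))) hk2⟩
  have hsub : ∀ v x y : Γ, (∃ n0 : ℕ, ∀ n ≥ n0, v ^ n * (x * y) * v⁻¹ ^ n ∈ B) →
      ((∃ n0 : ℕ, ∀ n ≥ n0, v ^ n * x * v⁻¹ ^ n ∈ B) ↔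
        ∃ n0 : ℕ, ∀ n ≥ n0, v ^ n * y * v⁻¹ ^ n ∈ B) := by
    rintro v x y ⟨n0, h0⟩
    have e : ∀ n : ℕ, v ^ n * (x * y) * v⁻¹ ^ n =
        (v ^ n * x * v⁻¹ ^ n) * (v ^ n * y * v⁻¹ ^ n) := fun n => by group
    constructor
    · rintro ⟨n1, h1⟩
      exact ⟨n0 + n1, fun n hn => (B.mul_mem_cancel_left (h1 n (by omega))).1
        (e n ▸ h0 n (by omega))⟩
    · rintro ⟨n1, h1⟩
      exact ⟨n0 + n1, fun n hn => (B.mul_mem_cancel_right (h1 n (by omega))).1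
        (e n ▸ h0 n (by omega))⟩
  by_cases hp : ∀ h, lv χ h = 0 → ∃ n0 : ℕ, ∀ n ≥ n0, μ ^ n * h * μ⁻¹ ^ n ∈ B
  · exact ⟨μ, ha, hp⟩
  · refine ⟨μ⁻¹, by simpa using ha, fun y hy => ?_⟩
    obtain ⟨x, hx'⟩ := not_forall.1 hp
    obtain ⟨hx, hx'⟩ := Classical.not_imp.1 hx'
    by_contra hy'
    have h1 := (key x hx).resolve_right hx'
    have h2 := (key y hy).resolve_left hy'
    rcases key (x * y) (by simp [hx, hy]) with h3 | h3
    · exact hy' ((hsub _ _ _ h3).1 h1)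
    · exact hx' ((hsub _ _ _ h3).2 h2)

end

end Pool.Agent.P.MP_5ee5b4_al
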