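import Pool.Agent.P.MP_5ee5b4_al.Dich

/-! Construction of the cut from a finite presentation of the augmentation ideal. -/

namespace Pool.Agent.P.MP_5ee5b4_al

open Pool.Agent.P.MP_6e40fc_al
open scoped MonoidAlgebra

noncomputable section

variable {Γ : Type} [Group Γ] {ι : Type} [Fintype ι]

/-- the first boundary map attached to a family of group elements -/
def dS (s : ι → Γ) : (ι → ℤ[Γ]) →ₗ[ℤ[Γ]] ℤ[Γ] :=
  Fintype.linearCombination ℤ[Γ] fun i => o (s i) - 1

theorem dS_apply (s : ι → Γ) (v : ι → ℤ[Γ]) : dS s v = ∑ i, v i * (o (s i) - 1) := by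
  simp [dS, Fintype.linearCombination_apply]

theorem dS_single [DecidableEq ι] (s : ι → Γ) (i : ι) (r : ℤ[Γ]) :
    dS s (Pi.single i r) = r * (o (s i) - 1) := by
  simp [dS, Fintype.linearCombination_apply_single]

theorem exists_dS {s : ι → Γ} (hs : Subgroup.closure (Set.range s) = ⊤) (g : Γ) :
    ∃ v, dS s v = o g - 1 := by
  classical
  refine o_sub_one_mem (LinearMap.range (dS s)) (Set.range s) ?_ (hs ▸ Subgroup.mem_top g)
  rintro _ ⟨i, rfl⟩
  exact ⟨Pi.single i 1, by rw [dS_single, one_mul]⟩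

theorem exists_dS' {s : ι → Γ} (hs : Subgroup.closure (Set.range s) = ⊤) {r : ℤ[Γ]}
    (hr : aug ℤ Γ r = 0) : ∃ v, dS s v = r := by
  have := sub_aug_mem (LinearMap.range (dS s)) (exists_dS hs) r
  rwa [hr, zero_smul, sub_zero] at this

theorem aug_dS (s : ι → Γ) (v : ι → ℤ[Γ]) : aug ℤ Γ (dS s v) = 0 := by
  simp [dS_apply]

theorem extAdd_congr {M : Type} [AddCommGroup M] {f g : Γ → M} {r : ℤ[Γ]}
    (h : ∀ x ∈ r.coeff.support, f x = g x) : extAdd f r = extAdd g r := by
  simp only [extAdd, LinearMap.toAddMonoidHom_coe, LinearMap.comp_apply,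
    Finsupp.linearCombination_apply, Finsupp.sum]
  exact Finset.sum_congr rfl fun x hx => by rw [h x hx]

theorem extAdd_o_mul {M : Type} [AddCommGroup M] (f : Γ → M) (x : Γ) (r : ℤ[Γ]) :
    extAdd f (o x * r) = extAdd (fun y => f (x * y)) r := by
  induction r using zg_induction with
  | ho g => rw [o_mul, extAdd_o, extAdd_o]
  | hadd a b ha hb => rw [mul_add, map_add, map_add, ha, hb]
  | hsmul n a ha => rw [mul_smul_comm, map_zsmul, map_zsmul, ha]

theorem map_extAdd {M M' : Type} [AddCommGroup M] [AddCommGroup M'] (φ : M →+ M') (f : Γ → M)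
    (r : ℤ[Γ]) : φ (extAdd f r) = extAdd (fun y => φ (f y)) r := by
  induction r using zg_induction with
  | ho g => rw [extAdd_o, extAdd_o]
  | hadd a b ha hb => rw [map_add, map_add, map_add, ha, hb]
  | hsmul n a ha => rw [map_zsmul, map_zsmul, map_zsmul, ha]

theorem extAdd_dS {M : Type} [AddCommGroup M] (f : Γ → M) (s : ι → Γ) (v : ι → ℤ[Γ]) :
    extAdd f (dS s v) = ∑ i, extAdd (fun y => f (y * s i) - f y) (v i) := by
  rw [dS_apply, map_sum]
  refine Finset.sum_congr rfl fun i _ => ?_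
  induction v i using zg_induction with
  | ho g => rw [mul_sub, mul_one, o_mul, map_sub, extAdd_o, extAdd_o, extAdd_o]
  | hadd a b ha hb => rw [add_mul, map_add, map_add, ha, hb]
  | hsmul n a ha => rw [smul_mul_assoc, map_zsmul, map_zsmul, ha]

/-- integration of a cochain that kills the translates of the generating relations -/
theorem exists_integral {s : ι → Γ} (hs : Subgroup.closure (Set.range s) = ⊤)
    {M : Type} [AddCommGroup M] (c : ι → Γ → M) (R : Set (ι → ℤ[Γ]))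
    (hR : Submodule.span ℤ[Γ] R = LinearMap.ker (dS s))
    (hc : ∀ r ∈ R, ∀ x, ∑ i, extAdd (fun y => c i (x * y)) (r i) = 0) :
    ∃ F : Γ → M, F 1 = 0 ∧ ∀ x i, F (x * s i) = F x + c i x := by
  classical
  let Φ : (ι → ℤ[Γ]) →+ M :=
    { toFun := fun v => ∑ i, extAdd (c i) (v i)
      map_zero' := by simp
      map_add' := fun v w => by simp [Finset.sum_add_distrib] }
  have hΦ : ∀ v, dS s v = 0 → Φ v = 0 := by
    intro v hv
    have hv' : v ∈ Submodule.span ℤ[Γ] R := hR ▸ hv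
    have : ∀ a : ℤ[Γ], Φ (a • v) = 0 := by
      clear hv
      induction hv' using Submodule.span_induction with
      | mem r hr =>
        intro a
        induction a using zg_induction with
        | ho x =>
          rw [← hc r hr x]
          exact Finset.sum_congr rfl fun i _ => extAdd_o_mul _ _ _
        | hadd a b ha hb => rw [add_smul, map_add, ha, hb, add_zero]
        | hsmul n a ha => rw [smul_assoc, map_zsmul, ha, smul_zero]
      | zero => simp
      | add v w _ _ hv hw => intro a; rw [smul_add, map_add, hv, hw, add_zero]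
      | smul b v _ hv => intro a; rw [← mul_smul, hv]
    simpa using this 1
  choose v hv using exists_dS hs
  refine ⟨fun x => Φ (v x), hΦ _ (by rw [hv, o_one, sub_self]), fun x i => ?_⟩
  have h1 := hΦ (v (x * s i) - v x - Pi.single i (o x)) (by
    rw [map_sub, map_sub, hv, hv, dS_single, mul_sub, o_mul]; simp)
  have h2 : Φ (Pi.single i (o x)) = c i x := by
    change ∑ j, extAdd (c j) ((Pi.single i (o x) : ι → ℤ[Γ]) j) = _
    rw [Finset.sum_eq_single i]
    · simp
    · intro j _ hj; simp [Pi.single_eq_of_ne hj]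
    · simp
  rw [map_sub, map_sub, h2, sub_sub, sub_eq_zero] at h1
  exact h1

theorem exists_lv_bound (χ : Γ →* Multiplicative ℤ) {C : Set Γ} (hC : C.Finite) :
    ∃ L : ℕ, ∀ x ∈ C, |lv χ x| ≤ L := by
  obtain ⟨L, hL⟩ := (hC.image fun x => (lv χ x).natAbs).bddAbove
  refine ⟨L, fun x hx => ?_⟩
  have : (lv χ x).natAbs ≤ L := hL ⟨x, hx, rfl⟩
  rw [abs_eq_max_neg]
  omega

theorem dichotomy {s : ι → Γ} (hs : Subgroup.closure (Set.range s) = ⊤)
    (hK : (LinearMap.ker (dS s)).FG) (χ : Γ →* Multiplicative ℤ) (t : Γ) (ht : lv χ t = 1)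
    (hts : t ∈ Set.range s) (N : Subgroup Γ) [hN : N.Normal] (hNF : NF N) (ν : Γ) (hν : ν ∈ N)
    (ha : lv χ ν ≠ 0) : ∃ (v : Γ) (B : Subgroup Γ), lv χ v ≠ 0 ∧ B.FG ∧ B ≤ χ.ker ∧
      ∀ h, lv χ h = 0 → ∃ n0 : ℕ, ∀ n ≥ n0, v ^ n * h * v⁻¹ ^ n ∈ B := by
  classical
  obtain ⟨R, hR⟩ := hK
  set S := Set.range s with hSdef
  obtain ⟨C0, hC0, ⟨hC1, hC2⟩, hC3⟩ := exists_conn_finite hs
    (B := S ∪ ⋃ r ∈ R, ⋃ i, ((r i).coeff.support : Set Γ))
    ((Set.finite_range s).union (R.finite_toSet.biUnion fun r _ =>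
      Set.finite_iUnion fun i => Finset.finite_toSet _))
  obtain ⟨L, hL⟩ := exists_lv_bound χ hC0
  have hLs : ∀ i, |lv χ (s i)| ≤ L := fun i => hL _ (hC3 (Or.inl ⟨i, rfl⟩))
  let slab : Γ → Prop := fun x => |lv χ x| ≤ 3 * L
  let Rel : Setoid Γ :=
    { r := fun x y => ∀ f : Γ → Prop,
        (∀ a, ∀ b ∈ S, slab a → slab (a * b) → (f a ↔ f (a * b))) → (f x ↔ f y)
      iseqv := ⟨fun _ _ _ => Iff.rfl, fun h f hf => (h f hf).symm,
        fun h h' f hf => (h f hf).trans (h' f hf)⟩ }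
  have hedge : ∀ a, ∀ b ∈ S, slab a → slab (a * b) → Rel a (a * b) :=
    fun a b hb h1 h2 f hf => hf a b hb h1 h2
  have htr : ∀ g, lv χ g = 0 → ∀ x y, Rel x y → Rel (g * x) (g * y) := fun g hg x y h f hf =>
    h (fun z => f (g * z)) fun a b hb h1 h2 => by
      rw [← mul_assoc]
      exact hf _ b hb (by simpa [slab, hg] using h1) (by simpa [slab, hg, mul_assoc] using h2)
  let lam : Γ → ZMod 2 := fun x => if 0 < lv χ x then 1 else 0
  have hcross : ∀ x i, lam (x * s i) - lam x ≠ 0 → |lv χ x| ≤ L ∧ |lv χ (x * s i)| ≤ L := by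
    intro x i h
    have := hLs i
    simp only [lam, lv_mul, abs_eq_max_neg] at h this ⊢
    split_ifs at h <;> first | exact absurd rfl h | omega
  obtain ⟨F, hF1, hF⟩ := exists_integral hs
    (fun i x => (Finsupp.single (Quotient.mk Rel x) (lam (x * s i) - lam x) :
      Quotient Rel →₀ ZMod 2)) R hR fun r hr x => by
    have hr0 : dS s r = 0 := by
      have : r ∈ Submodule.span ℤ[Γ] (R : Set (ι → ℤ[Γ])) := Submodule.subset_span hr
      rwa [hR] at this
    have hsupp : ∀ i, ∀ y ∈ (r i).coeff.support, y ∈ C0 := fun i y hy =>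
      hC3 (Or.inr (Set.mem_biUnion hr (Set.mem_iUnion.2 ⟨i, hy⟩)))
    by_cases hex : ∃ i, ∃ y ∈ C0, lam (x * y * s i) - lam (x * y) ≠ 0
    · obtain ⟨i0, y0, hy0, h0⟩ := hex
      have h1 := (hcross _ _ h0).1
      have hslab : ∀ y ∈ C0, slab (x * y) := fun y hy => by
        have h2 := hL _ hy0
        have h3 := hL _ hy
        simp only [slab, lv_mul, abs_eq_max_neg] at *
        omega
      have hrel : ∀ y ∈ C0, Rel (x * y) x := fun y hy f hf => by
        have := hC2 (fun z => f (x * z)) (fun a ha b hb hab => by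
          rw [← mul_assoc]
          exact hf _ b hb (hslab a ha) (by rw [mul_assoc]; exact hslab _ hab)) y hy
        simpa using this
      have h2 := extAdd_dS (fun y => lam (x * y)) s r
      rw [hr0, map_zero] at h2
      have h3 := congrArg (Finsupp.singleAddHom (Quotient.mk Rel x)) h2
      rw [map_zero, map_sum] at h3
      rw [h3]
      refine Finset.sum_congr rfl fun i _ => ?_
      rw [map_extAdd]
      refine extAdd_congr fun y hy => ?_
      rw [Quotient.sound (hrel y (hsupp i y hy)), mul_assoc]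
      rfl
    · refine Finset.sum_eq_zero fun i _ => ?_
      rw [extAdd_congr (g := fun _ => 0) fun y hy => ?_]
      · induction r i using zg_induction with
        | ho g => rw [extAdd_o]
        | hadd a b ha hb => rw [map_add, ha, hb, add_zero]
        | hsmul n a ha => rw [map_zsmul, ha, smul_zero]
      · rw [not_not.1 fun h => hex ⟨i, y, hsupp i y hy, h⟩, Finsupp.single_zero]
  have hsum : ∀ x, (F x).sum (fun _ a => a) = lam x := by
    intro x
    refine (const_of_edges hs (fun x => (F x).sum (fun _ a => a) = lam x) ?_ x).2 ?_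
    · rintro x _ ⟨i, rfl⟩
      rw [hF, Finsupp.sum_add_index' (fun _ => rfl) (fun _ _ _ => rfl),
        Finsupp.sum_single_index rfl, ← eq_sub_iff_add_eq, sub_sub_cancel]
    · simp [hF1, lam]
  have hfar := far hs χ F L (by
    rintro x _ ⟨i, rfl⟩ hx
    rw [hF, not_not.1 fun h => absurd (hcross x i h).1 (not_le.2 hx), Finsupp.single_zero, add_zero])
  obtain ⟨R1, hR1⟩ := hfar ν
  obtain ⟨R2, hR2⟩ := hfar ν⁻¹
  have hstab : ∀ (u : Γ) (R : ℕ), lv χ u ≠ 0 → (∀ x, (R : ℤ) < |lv χ x| → F (x * u) = F x) →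
      ∀ k0 > R, ∀ k ≥ k0, F (u ^ k) = F (u ^ k0) := by
    intro u R hu hR k0 hk0 k hk
    obtain ⟨j, rfl⟩ := Nat.exists_eq_add_of_le hk
    rw [pow_add]
    refine far_pow hR _ j fun j => ?_
    have := abs_lt_aux (a := -lv χ u) (b := 0) (R := R) (n := k0) (j := j) (by simpa using hu)
      (by simpa using hk0)
    simpa using this
  set k0 := R1 + R2 + 1 with hk0
  obtain ⟨q, hq⟩ : ∃ q, F (ν ^ k0) q ≠ F (ν⁻¹ ^ k0) q := by
    by_contra hcon
    have h1 : F (ν ^ k0) = F (ν⁻¹ ^ k0) := Finsupp.ext fun q => not_not.1 fun h => hcon ⟨q, h⟩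
    have h2 := hsum (ν ^ k0)
    rw [h1, hsum] at h2
    simp only [lam, lv_pow, lv_inv, mul_neg, Left.neg_pos_iff] at h2
    have h3 : (k0 : ℤ) * lv χ ν ≠ 0 := mul_ne_zero (by omega) ha
    split_ifs at h2 <;> first | omega | exact absurd h2 (by decide)
  obtain ⟨z, i0, hz1, hz2⟩ : ∃ z i, Quotient.mk Rel z = q ∧ lam (z * s i) - lam z ≠ 0 := by
    by_contra hcon
    have : ∀ x, F x q = 0 := fun x => (const_of_edges hs (fun x => F x q = 0) (by
      rintro x _ ⟨i, rfl⟩
      rw [hF, Finsupp.add_apply, Finsupp.single_apply]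
      split_ifs with h
      · rw [not_not.1 fun h' => hcon ⟨x, i, h, h'⟩, add_zero]
      · rw [add_zero]) x).2 (by simp [hF1])
    exact hq (by rw [this, this])
  have hvert : ∀ (n : ℤ) (x : Γ), lv χ x = 0 → |n| ≤ 3 * L → Rel x (x * t ^ n) := by
    intro n x hx
    induction n using Int.induction_on with
    | zero => intro _; simp
    | succ n ih =>
      intro hn
      simp only [abs_eq_max_neg] at hn ih
      refine Rel.trans (ih (by omega)) ?_
      rw [zpow_add_one, ← mul_assoc]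
      refine hedge _ t hts ?_ ?_ <;> simp only [slab, lv_mul, lv_zpow, hx, ht, abs_eq_max_neg] <;>
        omega
    | pred n ih =>
      intro hn
      simp only [abs_eq_max_neg] at hn ih
      refine Rel.trans (ih (by omega)) (Rel.symm ?_)
      have e : x * t ^ (-(n : ℤ)) = x * t ^ (-(n : ℤ) - 1) * t := by group
      rw [e]
      refine hedge _ t hts ?_ ?_ <;> simp only [slab, lv_mul, lv_zpow, hx, ht, abs_eq_max_neg] <;>
        omega
  obtain ⟨g, hg, hgq⟩ : ∃ g, lv χ g = 0 ∧ Quotient.mk Rel g = q := by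
    refine ⟨z * t ^ (-lv χ z), by simp [ht], ?_⟩
    rw [← hz1]
    have := hvert (lv χ z) (z * t ^ (-lv χ z)) (by simp [ht])
      (by have := (hcross _ _ hz2).1; omega)
    rw [mul_assoc, ← zpow_add, neg_add_cancel, zpow_zero, mul_one] at this
    exact Quotient.sound this
  have hz2' : ∀ a b : ZMod 2, ¬ (a = 1 ↔ b = 1) ↔ a ≠ b := by decide
  let c : Cut S :=
    { Y := {x | F (g * x) q = 1}
      C := {x | slab x ∧ Rel 1 x}
      gen := hs
      one_mem := ⟨by simp [slab], Rel.refl _⟩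
      conn := fun f hf x hx => by
        have := hx.2 (fun a => Rel 1 a ∧ (f a ↔ f 1)) fun a b hb h1 h2 => by
          have h3 := hedge a b hb h1 h2
          refine ⟨fun h => ⟨Rel.trans h.1 h3, ?_⟩, fun h => ⟨Rel.trans h.1 (Rel.symm h3), ?_⟩⟩
          · exact (hf a ⟨h1, h.1⟩ b hb ⟨h2, Rel.trans h.1 h3⟩).symm.trans h.2
          · exact (hf a ⟨h1, Rel.trans h.1 (Rel.symm h3)⟩ b hb ⟨h2, h.1⟩).trans h.2
        exact (this.1 ⟨Rel.refl _, Iff.rfl⟩).2
      bdry := by
        rintro x _ ⟨i, rfl⟩ h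
        have h1 : F (g * x) q ≠ F (g * (x * s i)) q := (hz2' _ _).1 h
        rw [← mul_assoc, hF, Finsupp.add_apply, Finsupp.single_apply] at h1
        split_ifs at h1 with h2
        · obtain ⟨h3, h4⟩ := hcross (g * x) i fun e => h1 (by rw [e, add_zero])
          have h5 := htr g⁻¹ (by simp [hg]) _ _ (Quotient.exact (hgq.trans h2.symm))
          rw [inv_mul_cancel, inv_mul_cancel_left] at h5
          have h6 : slab x := by
            simp only [slab, lv_mul, hg, zero_add] at h3 ⊢; omega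
          have h7 : slab (x * s i) := by
            simp only [slab, lv_mul, hg, zero_add] at h4 ⊢; omega
          exact ⟨⟨h6, h5⟩, h7, Rel.trans h5 (hedge _ _ ⟨i, rfl⟩ h6 h7)⟩
        · exact absurd (add_zero _).symm h1 }
  let B : Subgroup Γ := Subgroup.closure ((fun p : ℤ × ι => t ^ p.1 * s p.2 *
    t ^ (-(p.1 + lv χ (s p.2)))) '' (Set.Icc (-(3 * L : ℤ)) (3 * L) ×ˢ Set.univ))
  have hB : ∀ x, lv χ x = 0 → ¬ c.Gen x → x ∈ B := by
    intro x hx hng
    simp only [Cut.Gen, not_forall, not_not] at hng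
    obtain ⟨y, hy, hy'⟩ := hng
    have h1 := htr x hx _ _ hy.2
    rw [mul_one] at h1
    have h2 : Rel 1 x := Rel.trans hy'.2 (Rel.symm h1)
    have := h2 (fun a => a * t ^ (-lv χ a) ∈ B) (by
      rintro a _ ⟨i, rfl⟩ ha -
      have e : a * s i * t ^ (-lv χ (a * s i)) = a * t ^ (-lv χ a) *
          (t ^ lv χ a * s i * t ^ (-(lv χ a + lv χ (s i)))) := by rw [lv_mul]; group
      have hm : t ^ lv χ a * s i * t ^ (-(lv χ a + lv χ (s i))) ∈ B :=
        Subgroup.subset_closure ⟨(lv χ a, i), ⟨abs_le.1 ha, trivial⟩, rfl⟩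
      rw [e, B.mul_mem_cancel_right hm])
    simpa [hx] using this
  obtain ⟨R3, hR3⟩ := hfar g
  set k := k0 + R3 + 6 * L + 1 with hk
  have hbig : ∀ u : Γ, lv χ u ≠ 0 → (k : ℤ) ≤ |lv χ (u ^ k)| := fun u hu => by
    rw [lv_pow, abs_mul, Nat.abs_cast]
    exact le_mul_of_one_le_right (by positivity) (Int.one_le_abs hu)
  have ha' : lv χ ν⁻¹ ≠ 0 := by simpa using ha
  have hY : ∀ u : Γ, lv χ u ≠ 0 → (g⁻¹ * u ^ k * g ∈ c.Y ↔ F (u ^ k) q = 1) := fun u hu => by
    change F (g * (g⁻¹ * u ^ k * g)) q = 1 ↔ _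
    rw [← mul_assoc, mul_inv_cancel_left, hR3 _ (by have := hbig u hu; omega)]
  have hgen : c.Gen (g⁻¹ * ν ^ k * g) := fun x hx hx' => by
    have h1 := hx.1
    have h2 := hx'.1
    have h3 := hbig ν ha
    simp only [slab, lv_mul, lv_inv, hg, abs_eq_max_neg] at h1 h2 h3
    omega
  have hinv : (g⁻¹ * ν ^ k * g)⁻¹ = g⁻¹ * ν⁻¹ ^ k * g := by group
  have hmem : g⁻¹ * ν ^ k * g ∈ N := hN.conj_mem' _ (N.pow_mem hν k) g
  have hlv : lv χ (g⁻¹ * ν ^ k * g) ≠ 0 := by
    simp only [lv_mul, lv_inv, hg, lv_pow, neg_zero, zero_add, add_zero]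
    exact mul_ne_zero (by omega) ha
  have hne := (hz2' _ _).2 hq
  rw [← hstab ν R1 ha hR1 k0 (by omega) k (by omega),
    ← hstab ν⁻¹ R2 ha' hR2 k0 (by omega) k (by omega), ← hY _ ha, ← hY _ ha', ← hinv] at hne
  obtain ⟨μ, hμ, hμ1, hμ2⟩ : ∃ μ, c.Hyp μ ∧ lv χ μ ≠ 0 ∧ μ ∈ N := by
    by_cases h : g⁻¹ * ν ^ k * g ∈ c.Y
    · exact ⟨_, ⟨hgen, h, fun h' => hne (iff_of_true h h')⟩, hlv, hmem⟩
    · exact ⟨_, ⟨hgen.inv, by_contra fun h' => hne (iff_of_false h h'), by rwa [inv_inv]⟩,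
        by rwa [lv_inv, neg_ne_zero], N.inv_mem hmem⟩
  obtain ⟨v, hv, hv'⟩ := hμ.dich χ (3 * L) (fun x hx => hx.1) hμ1 B hB N hNF hμ2
  refine ⟨v, B, hv, (Subgroup.fg_iff _).2 ⟨_, rfl,
    ((Set.finite_Icc _ _).prod Set.finite_univ).image _⟩, (Subgroup.closure_le _).2 ?_, hv'⟩
  rintro _ ⟨p, -, rfl⟩
  exact (lv_eq_zero χ).1 (by simp [ht])

end

end Pool.Agent.P.MP_5ee5b4_al
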