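import Pool.Agent.P.MP_5ee5b4_al.PD3

/-! Linear duality for twisted permutation modules; cocycles with trivial coefficients. -/

namespace Pool.Agent.P.MP_5ee5b4_al

open Pool.Agent.P.MP_6e40fc_al
open scoped MonoidAlgebra

noncomputable section

set_option linter.unusedSectionVars false

variable {Γ : Type} [Group Γ] {ι : Type} [Fintype ι] [DecidableEq ι] {p : ℕ} [Fact p.Prime]
  (w : Γ →* ℤˣ) (K : Subgroup Γ) {B B' : Type} [AddCommGroup B] [Module (ZMod p) B]
  [AddCommGroup B'] [Module (ZMod p) B']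

/-- connectedness outside a set -/
def Rel (S U : Set Γ) (x y : Γ) : Prop :=
  ∀ f : Γ → Prop, (∀ z, ∀ s ∈ S, z ∉ U → z * s ∉ U → (f z ↔ f (z * s))) → (f x ↔ f y)

/-- one filtered end -/
def OE (N : Subgroup Γ) (S : Set Γ) : Prop :=
  ∀ B : Set (Γ ⧸ N), B.Finite → ∃ B' : Set (Γ ⧸ N), B'.Finite ∧ ∀ x y : Γ, (x : Γ ⧸ N) ∉ B' →
    (y : Γ ⧸ N) ∉ B' → Rel S {z | (z : Γ ⧸ N) ∈ B} x y

variable (p) in
/-- the twisted action on finitely supported functions -/
def Tw : ℤ[Γ] →+ (((Γ ⧸ K) →₀ ZMod p) →ₗ[ZMod p] ((Γ ⧸ K) →₀ ZMod p)) :=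
  extAdd fun g => (w g : ℤ) • Finsupp.lmapDomain (ZMod p) (ZMod p) (g • ·)

variable {K} in
/-- the associated function on the group -/
def til2 (φ : (Γ ⧸ K) →₀ ZMod p) (x : Γ) : ZMod p := (w x : ℤ) • φ (x⁻¹ : Γ)

variable {K}

theorem ww (x : Γ) {M : Type} [AddCommGroup M] (a : M) : (w x : ℤ) • (w x : ℤ) • a = a := by
  rw [smul_smul, ← Units.val_mul, Int.units_mul_self, Units.val_one, one_smul]

theorem til2_add (φ ψ : (Γ ⧸ K) →₀ ZMod p) (x : Γ) :
    til2 w (φ + ψ) x = til2 w φ x + til2 w ψ x := by simp [til2]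

theorem til2_smul (a : ZMod p) (φ : (Γ ⧸ K) →₀ ZMod p) (x : Γ) :
    til2 w (a • φ) x = a * til2 w φ x := by simp [til2, mul_left_comm]

theorem til2_sum {α : Type} (t : Finset α) (φ : α → (Γ ⧸ K) →₀ ZMod p) (x : Γ) :
    til2 w (∑ a ∈ t, φ a) x = ∑ a ∈ t, til2 w (φ a) x := by
  simp [til2, Finsupp.finsetSum_apply, Finset.mul_sum]

theorem til2_Tw (r : ℤ[Γ]) (φ : (Γ ⧸ K) →₀ ZMod p) (x : Γ) :
    til2 w (Tw p w K r φ) x = extAdd (fun y => til2 w φ (x * y)) r := by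
  induction r using zg_induction with
  | ho g =>
    have e : ((x⁻¹ : Γ) : Γ ⧸ K) = g • (((x * g)⁻¹ : Γ) : Γ ⧸ K) := by
      rw [MulAction.Quotient.smul_mk]; simp
    rw [Tw, extAdd_o, extAdd_o, til2, til2, LinearMap.smul_apply, Finsupp.smul_apply,
      Finsupp.lmapDomain_apply, e, Finsupp.mapDomain_apply (MulAction.injective g), map_mul,
      Units.val_mul, mul_smul]
  | hadd a b ha hb => rw [map_add, map_add, LinearMap.add_apply, til2_add, ha, hb]
  | hsmul n a ha =>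
    rw [map_zsmul, map_zsmul, ← ha, LinearMap.smul_apply, til2, til2, Finsupp.smul_apply, smul_comm]

theorem til2_inj {φ ψ : (Γ ⧸ K) →₀ ZMod p} (h : ∀ x, til2 w φ x = til2 w ψ x) : φ = ψ := by
  ext q
  obtain ⟨x, rfl⟩ := QuotientGroup.mk_surjective q
  have := congrArg ((w x⁻¹ : ℤ) • ·) (h x⁻¹)
  simpa only [til2, ww, inv_inv] using this

theorem til2_equiv (φ : (Γ ⧸ K) →₀ ZMod p) (k : K) (x : Γ) :
    til2 w φ (k * x) = (w k : ℤ) • til2 w φ x := by
  rw [til2, til2, map_mul, Units.val_mul, mul_smul, mul_inv_rev,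
    QuotientGroup.mk_mul_of_mem _ (K.inv_mem k.2)]

theorem exists_til2 (F : Γ → ZMod p) (hF : ∀ (k : K) x, F (k * x) = (w k : ℤ) • F x)
    (hf : {q : Γ ⧸ K | F q.out⁻¹ ≠ 0}.Finite) :
    ∃ v : (Γ ⧸ K) →₀ ZMod p, ∀ x, til2 w v x = F x := by
  refine ⟨Finsupp.ofSupportFinite (fun q => (w q.out⁻¹ : ℤ) • F q.out⁻¹)
    (hf.subset fun q hq h => hq (by simp only [h, smul_zero])), fun x => ?_⟩
  obtain ⟨k, hk⟩ := QuotientGroup.mk_out_eq_mul K x⁻¹
  rw [til2, Finsupp.ofSupportFinite_coe]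
  simp only [hk, mul_inv_rev, inv_inv]
  rw [← Subgroup.coe_inv, hF, map_mul, Units.val_mul, mul_comm, mul_smul, ww, ww]

/-- an additive map between modules with trivial action -/
def trivMap (H : Type) [Group H] {X Y : Type} [AddCommGroup X] [AddCommGroup Y] (q : X →+ Y) :
    Triv H X →ₗ[ℤ[H]] Triv H Y := mkLin q fun g a => by rw [Triv.o_smul, Triv.o_smul]

theorem Co.inv_triv {X : Type} [AddCommGroup X] (f : Co K.subtype (Triv K X)) (k : K) (x : Γ) :
    f (k * x) = f x := (f.equiv k x).trans (Triv.o_smul _ _)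

variable (p) in
/-- the pairing -/
def pair (f : Co K.subtype (Triv K B)) : ((Γ ⧸ K) →₀ ZMod p) →ₗ[ZMod p] B :=
  Finsupp.linearCombination (ZMod p) fun q => (f q.out⁻¹ : B)

theorem pair_single (f : Co K.subtype (Triv K B)) (x : Γ) (c : ZMod p) :
    pair p f (Finsupp.single (x⁻¹ : Γ) c) = c • (show B from f x) := by
  obtain ⟨k, hk⟩ := QuotientGroup.mk_out_eq_mul K x⁻¹
  rw [pair, Finsupp.linearCombination_single, hk, mul_inv_rev, inv_inv, ← Subgroup.coe_inv,
    Co.inv_triv]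

theorem pair_ext {L L' : ((Γ ⧸ K) →₀ ZMod p) →ₗ[ZMod p] B}
    (h : ∀ x : Γ, L (Finsupp.single (x⁻¹ : Γ) 1) = L' (Finsupp.single (x⁻¹ : Γ) 1)) : L = L' := by
  ext q
  obtain ⟨x, rfl⟩ := QuotientGroup.mk_surjective q
  simpa using h x⁻¹

theorem pair_add (f g : Co K.subtype (Triv K B)) : pair p (f + g) = pair p f + pair p g :=
  pair_ext fun x => by rw [LinearMap.add_apply, pair_single, pair_single, pair_single]; simp; rfl

theorem pair_zero : pair p (0 : Co K.subtype (Triv K B)) = 0 :=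
  pair_ext fun x => by rw [pair_single]; simp; rfl

theorem pair_sum {α : Type} (t : Finset α) (f : α → Co K.subtype (Triv K B)) :
    pair p (∑ a ∈ t, f a) = ∑ a ∈ t, pair p (f a) :=
  map_sum (AddMonoidHom.mk' (pair p) pair_add) f t

theorem pair_zsmul (n : ℤ) (f : Co K.subtype (Triv K B)) : pair p (n • f) = n • pair p f :=
  map_zsmul (AddMonoidHom.mk' (pair p) pair_add) n f

theorem pair_conj (r : ℤ[Γ]) (f : Co K.subtype (Triv K B)) :
    pair p (conj w r • f) = pair p f ∘ₗ Tw p w K r := by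
  induction r using zg_induction with
  | ho g =>
    refine pair_ext fun x => ?_
    have e : g • ((x⁻¹ : Γ) : Γ ⧸ K) = (((x * g⁻¹)⁻¹ : Γ) : Γ ⧸ K) := by
      rw [MulAction.Quotient.smul_mk]; simp
    rw [conj_o, smul_assoc, pair_zsmul, LinearMap.smul_apply, pair_single, Co.o_smul,
      LinearMap.comp_apply, Tw, extAdd_o, LinearMap.smul_apply, map_zsmul, Finsupp.lmapDomain_apply,
      Finsupp.mapDomain_single, e, pair_single]
  | hadd a b ha hb => rw [map_add, map_add, add_smul, pair_add, ha, hb, LinearMap.comp_add]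
  | hsmul n a ha => rw [map_zsmul, map_zsmul, smul_assoc, pair_zsmul, ha, LinearMap.comp_smul]

theorem pair_map (q : B →ₗ[ZMod p] B') (f : Co K.subtype (Triv K B)) :
    pair p (Co.map _ (trivMap K q.toAddMonoidHom) f) = q ∘ₗ pair p f :=
  pair_ext fun x => by
    rw [LinearMap.comp_apply, pair_single, pair_single, one_smul, one_smul]; rfl

theorem dualize {s : ι → Γ} (R : Finset (ι → ℤ[Γ])) (hR : ∀ r ∈ R, dS s r = 0)
    (z : ι → Co K.subtype (Triv K B))
    (hz : ∀ φ : ι → (Γ ⧸ K) →₀ ZMod p, (∀ r ∈ R, ∑ i, Tw p w K (r i) (φ i) = 0) →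
      ∑ i, pair p (z i) (φ i) = 0) : z ∈ Bd _ w s := by
  classical
  let ζ : (ι → (Γ ⧸ K) →₀ ZMod p) →ₗ[ZMod p] B := ∑ i, pair p (z i) ∘ₗ LinearMap.proj i
  let δ : (ι → (Γ ⧸ K) →₀ ZMod p) →ₗ[ZMod p] (R → (Γ ⧸ K) →₀ ZMod p) :=
    LinearMap.pi fun r => ∑ i, Tw p w K (r.1 i) ∘ₗ LinearMap.proj i
  have hδ : ∀ φ r, δ φ r = ∑ i, Tw p w K (r.1 i) (φ i) := fun φ r => by
    simp [δ, LinearMap.sum_apply]
  have hζ : ∀ φ, ζ φ = ∑ i, pair p (z i) (φ i) := fun φ => by simp [ζ, LinearMap.sum_apply]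
  have hk : LinearMap.ker δ ≤ LinearMap.ker ζ := fun φ h =>
    (hζ φ).trans (hz φ fun r hr => (hδ φ ⟨r, hr⟩).symm.trans (congrFun h _))
  obtain ⟨η, hη⟩ := LinearMap.exists_extend
    ((LinearMap.ker δ).liftQ ζ hk ∘ₗ δ.quotKerEquivRange.symm.toLinearMap)
  have hη' : ∀ φ, η (δ φ) = ζ φ := fun φ => by
    have h1 := LinearMap.congr_fun hη ⟨δ φ, φ, rfl⟩
    have h2 := δ.quotKerEquivRange_symm_apply_image φ ⟨φ, rfl⟩
    simp only [LinearMap.comp_apply, LinearEquiv.coe_coe, Submodule.subtype_apply] at h1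
    rw [h1]
    erw [h2]
    rfl
  let u : R → Co K.subtype (Triv K B) := fun r =>
    Co.mk (fun x => η (Pi.single r (Finsupp.single (x⁻¹ : Γ) 1))) fun k x => by
      rw [Triv.o_smul, mul_inv_rev, Subgroup.coe_subtype,
        QuotientGroup.mk_mul_of_mem _ (K.inv_mem k.2)]
  have hu : ∀ r, pair p (u r) = η ∘ₗ LinearMap.single (ZMod p) _ r := fun r =>
    pair_ext fun x => by rw [pair_single, one_smul]; rfl
  have : z = ∑ r : R, ract w (u r) r.1 := by
    funext i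
    have h1 : pair p (z i) = pair p ((∑ r : R, ract w (u r) r.1) i) := by
      refine LinearMap.ext fun φ => ?_
      have h2 : ζ (Pi.single i φ) = pair p (z i) φ := by
        rw [hζ, Finset.sum_eq_single i] <;> simp +contextual
      have h3 : δ (Pi.single i φ) = ∑ r : R, Pi.single r (Tw p w K (r.1 i) φ) := by
        funext r
        rw [hδ, Finset.sum_eq_single i, Finset.sum_apply, Finset.sum_eq_single r] <;>
          simp +contextual [eq_comm]
      rw [Finset.sum_apply, pair_sum, LinearMap.sum_apply, ← h2, ← hη', h3, map_sum]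
      refine Finset.sum_congr rfl fun r _ => ?_
      rw [ract, pair_conj, hu]
      rfl
    refine Co.ext fun x => ?_
    have := LinearMap.congr_fun h1 (Finsupp.single (x⁻¹ : Γ) 1)
    rwa [pair_single, pair_single, one_smul, one_smul] at this
  rw [this]
  exact AddSubgroup.sum_mem _ fun r _ => ract_mem_Bd w s _ (hR _ r.2)

theorem Cyc.pair {s : ι → Γ} {z : ι → Co K.subtype (Triv K B)} (hz : Cyc w s z)
    (v : (Γ ⧸ K) →₀ ZMod p) : ∑ i, pair p (z i) (Tw p w K (o (s i) - 1) v) = 0 := by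
  have := congrArg (fun f => MP_5ee5b4_al.pair p f v) hz
  simpa only [pair_sum, pair_conj, pair_zero, LinearMap.sum_apply, LinearMap.comp_apply,
    LinearMap.zero_apply] using this

theorem integral_til2 {s : ι → Γ} (hs : Subgroup.closure (Set.range s) = ⊤)
    (R : Finset (ι → ℤ[Γ])) (hR : Submodule.span ℤ[Γ] (R : Set (ι → ℤ[Γ])) = LinearMap.ker (dS s))
    (φ : ι → (Γ ⧸ K) →₀ ZMod p) (hφ : ∀ r ∈ R, ∑ i, Tw p w K (r i) (φ i) = 0) :
    ∃ F : Γ → ZMod p, F 1 = 0 ∧ ∀ x i, F (x * s i) = F x + til2 w (φ i) x :=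
  exists_integral hs _ R hR fun r hr x => by
    have := congrArg (fun ψ => til2 w ψ x) (hφ r hr)
    simp only [til2_sum, til2_Tw] at this
    rw [this, til2, Finsupp.zero_apply, smul_zero]

theorem const_of_edges' {s : ι → Γ} (hs : Subgroup.closure (Set.range s) = ⊤) {α : Type}
    (F : Γ → α) (h : ∀ x i, F (x * s i) = F x) (x y : Γ) : F x = F y := by
  have := fun z => const_of_edges hs (fun z => F z = F y) (by
    rintro z _ ⟨i, rfl⟩
    rw [h]) z
  exact (this x).2 ((this y).1 rfl)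

theorem extAdd_zero {M : Type} [AddCommGroup M] (r : ℤ[Γ]) : extAdd (fun _ => (0 : M)) r = 0 := by
  induction r using zg_induction with
  | ho g => rw [extAdd_o]
  | hadd a b ha hb => rw [map_add, ha, hb, add_zero]
  | hsmul n a ha => rw [map_zsmul, ha, smul_zero]

theorem h1_vanish {s : ι → Γ} (hs : Subgroup.closure (Set.range s) = ⊤)
    (R : Finset (ι → ℤ[Γ])) (hR : Submodule.span ℤ[Γ] (R : Set (ι → ℤ[Γ])) = LinearMap.ker (dS s))
    (N : Subgroup Γ) [N.Normal] [Infinite (Γ ⧸ N)] (hN : OE N (Set.range s)) (hK : K ≤ N)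
    (φ : ι → (Γ ⧸ K) →₀ ZMod p) (hφ : ∀ r ∈ R, ∑ i, Tw p w K (r i) (φ i) = 0) :
    ∃ v, ∀ i, φ i = Tw p w K (o (s i) - 1) v := by
  obtain ⟨F, -, hF⟩ := integral_til2 w hs R hR φ hφ
  have hsupp : ∀ i x, til2 w (φ i) x ≠ 0 → ((x⁻¹ : Γ) : Γ ⧸ K) ∈ (φ i).support := fun i x h =>
    Finsupp.mem_support_iff.2 fun h' => h (by rw [til2, h', smul_zero])
  obtain ⟨B', hB', hrel⟩ := hN (⋃ i, (fun q : Γ ⧸ K => ((q.out⁻¹ : Γ) : Γ ⧸ N)) '' (φ i).support)
    (Set.finite_iUnion fun i => (Finset.finite_toSet _).image _)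
  obtain ⟨q0, hq0⟩ := hB'.infinite_compl.nonempty
  obtain ⟨x0, rfl⟩ := QuotientGroup.mk_surjective q0
  let F0 : Γ → ZMod p := fun x => F x - F x0
  have hF0 : ∀ x i, F0 (x * s i) = F0 x + til2 w (φ i) x := fun x i => by
    simp only [F0, hF]; ring
  have h1 : ∀ x : Γ, (x : Γ ⧸ N) ∉ B' → F0 x = 0 := fun x hx =>
    (hrel x x0 hx hq0 (fun z => F0 z = 0) (by
      rintro z _ ⟨i, rfl⟩ hz -
      have : til2 w (φ i) z = 0 := by
        by_contra h
        refine hz (Set.mem_iUnion.2 ⟨i, _, hsupp i z h, ?_⟩)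
        obtain ⟨k, hk⟩ := QuotientGroup.mk_out_eq_mul K z⁻¹
        simp only [hk, mul_inv_rev, inv_inv]
        rw [QuotientGroup.mk_mul, (QuotientGroup.eq_one_iff _).2 (N.inv_mem (hK k.2)), one_mul]
      rw [hF0, this, add_zero])).2 (sub_self _)
  have h2 : ∀ (k : K) x, F0 (k * x) = (w k : ℤ) • F0 x := fun k x => by
    have := const_of_edges' hs (fun x => F0 (k * x) - (w k : ℤ) • F0 x) (fun x i => by
      simp only [← mul_assoc, hF0, til2_equiv, smul_add]; ring) x x0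
    rwa [h1 x0 hq0, h1 (k * x0) (by
      rwa [QuotientGroup.mk_mul, (QuotientGroup.eq_one_iff _).2 (hK k.2), one_mul]), smul_zero,
      sub_zero, sub_eq_zero] at this
  choose v hv using exists_dS hs
  obtain ⟨u, hu⟩ := exists_til2 w F0 h2 ((hB'.biUnion fun b _ => Set.finite_iUnion fun i =>
    (Finset.finite_toSet (v (b.out⁻¹ * x0) i).coeff.support).image2 (fun y (q : Γ ⧸ K) => y • q)
      (Finset.finite_toSet (φ i).support)).subset fun q hq => by
    set x := q.out⁻¹ with hx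
    have hb : (x : Γ ⧸ N) ∈ B' := by_contra fun h => hq (h1 x h)
    refine Set.mem_biUnion hb ?_
    by_contra hcon
    have h3 := extAdd_dS (fun y => F0 (x * y)) s (v ((x : Γ ⧸ N).out⁻¹ * x0))
    rw [hv, map_sub, ← o_one, extAdd_o, extAdd_o, mul_one, h1 _ (by
      simpa [QuotientGroup.mk_mul] using hq0), Finset.sum_eq_zero fun i _ => ?_, zero_sub,
      neg_eq_zero] at h3
    · exact hq h3
    · rw [extAdd_congr (g := fun _ => 0) fun y hy => ?_]
      · exact extAdd_zero _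
      · rw [← mul_assoc, hF0, add_sub_cancel_left]
        by_contra h
        refine hcon (Set.mem_iUnion.2 ⟨i, y, hy, _, hsupp i _ h, ?_⟩)
        simp [hx])
  refine ⟨u, fun i => til2_inj w fun x => ?_⟩
  rw [til2_Tw, map_sub, ← o_one, extAdd_o, extAdd_o, hu, hu, mul_one, hF0, add_sub_cancel_left]

variable (p) in
include p in
theorem h1_triv {s : ι → Γ} (hs : Subgroup.closure (Set.range s) = ⊤)
    (hfg : (LinearMap.ker (dS s)).FG) (N : Subgroup Γ) [N.Normal] [Infinite (Γ ⧸ N)]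
    (hN : OE N (Set.range s)) (hK : K ≤ N) (z : ι → Co K.subtype (Triv K B)) (hz : Cyc w s z) :
    z ∈ Bd _ w s := by
  obtain ⟨R, hR⟩ := hfg
  refine dualize (p := p) w R (fun r hr => ?_) z fun φ hφ => ?_
  · exact (hR ▸ Submodule.subset_span hr : r ∈ LinearMap.ker (dS s))
  · obtain ⟨v, hv⟩ := h1_vanish w hs R hR N hN hK φ hφ
    simp only [hv]
    exact hz.pair w v

end

end Pool.Agent.P.MP_5ee5b4_al
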