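import Pool.Agent.P.MP_5ee5b4_al.Cut

/-! Groups with more than one end and no free subgroup are virtually cyclic. -/

namespace Pool.Agent.P.MP_5ee5b4_al

variable {Γ : Type} [Group Γ]

/-- no two large powers freely generate a free group -/
def NF (N : Subgroup Γ) : Prop :=
  ∀ a ∈ N, ∀ b ∈ N, ∀ k0 : ℕ, ∃ k ≥ k0,
    ¬ Function.Injective (FreeGroup.lift ![a ^ (2 * k), b ^ (2 * k)])

/-- connected subsets of the Cayley graph through the identity -/
def IsConn (S C : Set Γ) : Prop :=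
  1 ∈ C ∧ ∀ f : Γ → Prop, (∀ x ∈ C, ∀ s ∈ S, x * s ∈ C → (f x ↔ f (x * s))) →
    ∀ x ∈ C, (f x ↔ f 1)

theorem exists_conn {S : Set Γ} (hS : Subgroup.closure S = ⊤) (x : Γ) :
    ∃ C : Set Γ, C.Finite ∧ IsConn S C ∧ x ∈ C := by
  have hx : x ∈ Subgroup.closure S := hS ▸ Subgroup.mem_top x
  induction hx using Subgroup.closure_induction_right with
  | one => exact ⟨{1}, Set.finite_singleton _, ⟨rfl, fun f _ x hx => by rw [hx]⟩, rfl⟩
  | mul_right x _ y hy ih =>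
    obtain ⟨C, h1, ⟨h2, h3⟩, h4⟩ := ih
    refine ⟨insert (x * y) C, h1.insert _, ⟨Or.inr h2, fun f hf z hz => ?_⟩, Or.inl rfl⟩
    have h5 := h3 f fun a ha s hs has => hf a (Or.inr ha) s hs (Or.inr has)
    rcases hz with rfl | hz
    · exact (hf x (Or.inr h4) y hy (Or.inl rfl)).symm.trans (h5 x h4)
    · exact h5 z hz
  | mul_inv_cancel x _ y hy ih =>
    obtain ⟨C, h1, ⟨h2, h3⟩, h4⟩ := ih
    refine ⟨insert (x * y⁻¹) C, h1.insert _, ⟨Or.inr h2, fun f hf z hz => ?_⟩, Or.inl rfl⟩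
    have h5 := h3 f fun a ha s hs has => hf a (Or.inr ha) s hs (Or.inr has)
    rcases hz with rfl | hz
    · have := hf (x * y⁻¹) (Or.inl rfl) y hy (Or.inr (by simpa using h4))
      rw [inv_mul_cancel_right] at this
      exact this.trans (h5 x h4)
    · exact h5 z hz

theorem exists_conn_finite {S : Set Γ} (hS : Subgroup.closure S = ⊤) {B : Set Γ}
    (hB : B.Finite) : ∃ C : Set Γ, C.Finite ∧ IsConn S C ∧ B ⊆ C := by
  choose C h1 h2 h3 using exists_conn hS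
  refine ⟨⋃ x ∈ insert 1 B, C x, (hB.insert 1).biUnion fun x _ => h1 x, ⟨?_, fun f hf z hz => ?_⟩,
    fun x hx => Set.mem_biUnion (Or.inr hx) (h3 x)⟩
  · exact Set.mem_biUnion (Or.inl rfl) (h3 1)
  · obtain ⟨x, hx, hz⟩ := Set.mem_iUnion₂.1 hz
    exact (h2 x).2 f (fun a ha s hs has => hf a (Set.mem_biUnion hx ha) s hs
      (Set.mem_biUnion hx has)) z hz

theorem almostInv {S : Set Γ} (hS : Subgroup.closure S = ⊤) {Y : Set Γ}
    (hY : ∀ s ∈ S, {x | ¬ (x ∈ Y ↔ x * s ∈ Y)}.Finite) (g : Γ) :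
    {x | ¬ (x ∈ Y ↔ x * g ∈ Y)}.Finite := by
  have hg : g ∈ Subgroup.closure S := hS ▸ Subgroup.mem_top g
  induction hg using Subgroup.closure_induction with
  | mem s hs => exact hY s hs
  | one => simp
  | mul a b _ _ ha hb =>
    refine (ha.union (hb.preimage (f := fun x => x * a)
      (mul_left_injective a).injOn)).subset fun x hx => ?_
    simp only [Set.mem_ofPred_eq, Set.mem_union, Set.mem_preimage, ← mul_assoc] at hx ⊢
    tauto
  | inv a _ ha =>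
    refine (ha.preimage (f := fun x => x * a⁻¹) (mul_left_injective a⁻¹).injOn).subset
      fun x hx => ?_
    simp only [Set.mem_ofPred_eq, Set.mem_preimage, inv_mul_cancel_right] at hx ⊢
    tauto

theorem ends {S : Set Γ} (hS : Subgroup.closure S = ⊤) (hfin : S.Finite) {Y : Set Γ}
    (hY : ∀ s ∈ S, {x | ¬ (x ∈ Y ↔ x * s ∈ Y)}.Finite) (h1 : Y.Infinite) (h2 : Yᶜ.Infinite)
    (hN : NF (⊤ : Subgroup Γ)) : ∃ ν : Γ, (Subgroup.zpowers ν).FiniteIndex := by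
  obtain ⟨C, hC, ⟨hC1, hC2⟩, hBC⟩ := exists_conn_finite hS
    (B := ⋃ s ∈ S, {x | ¬ (x ∈ Y ↔ x * s ∈ Y)} ∪ (· * s) '' {x | ¬ (x ∈ Y ↔ x * s ∈ Y)})
    (hfin.biUnion fun s hs => (hY s hs).union ((hY s hs).image _))
  let c : Cut S := ⟨Y, C, hS, hC1, hC2, fun x s hs h =>
    ⟨hBC (Set.mem_biUnion hs (Or.inl h)), hBC (Set.mem_biUnion hs (Or.inr ⟨x, h, rfl⟩))⟩⟩
  have hai := almostInv hS hY
  have hng : {g | ¬ c.Gen g}.Finite := by
    refine (hC.image2 (fun y x => y * x⁻¹) hC).subset fun g hg => ?_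
    simp only [Cut.Gen, Set.mem_ofPred_eq, not_forall, not_not] at hg
    obtain ⟨x, hx, hx'⟩ := hg
    exact ⟨_, hx', x, hx, by simp⟩
  obtain ⟨ν, hν⟩ : ∃ ν, c.Hyp ν := by
    by_contra hcon
    have hsym : ∀ g, c.Gen g → (g ∈ Y ↔ g⁻¹ ∈ Y) := fun g hg =>
      ⟨fun h => by_contra fun h' => hcon ⟨g, hg, h, h'⟩,
        fun h => by_contra fun h' => hcon ⟨g⁻¹, hg.inv, h, by rwa [inv_inv]⟩⟩
    obtain ⟨g, hg, hg'⟩ := (h1.diff hng).nonempty
    have hg2 : c.Gen g := not_not.1 hg'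
    obtain ⟨x, hx, hx'⟩ := (h2.diff ((hng.union (hng.preimage (f := fun x => g⁻¹ * x)
      (mul_right_injective _).injOn)).union ((hai g).preimage (f := fun x => x⁻¹)
        inv_injective.injOn))).nonempty
    simp only [Set.mem_union, Set.mem_ofPred_eq, Set.mem_preimage, not_or, not_not] at hx'
    obtain ⟨⟨h3, h4⟩, h5⟩ := hx'
    have h6 := hsym _ h4
    rw [mul_inv_rev, inv_inv, ← h5, ← hsym _ h3] at h6
    rcases hg2.nest x with h7 | h7
    · exact hx (h7.2 hg)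
    · exact hx (h6.1 (h7.2 ((hsym g hg2).1 hg)))
  set E : Set Γ := {g | ¬ c.Gen g} ∪ {x | ¬ (x ∈ Y ↔ x * ν ∈ Y)} with hE
  have hEf : E.Finite := hng.union (hai ν)
  let D : Γ → Set ℤ := fun h => {m | ∃ n : ℤ, ν ^ (-m) * h * ν ^ n ∈ E}
  have hD : ∀ h, (D h).Finite → ∃ k0 : ℕ, ∀ k ≥ k0, ∀ a b : ℤ, (a = k ∨ a = -k) →
      c.Gen (ν ^ (-a) * h * ν ^ b) ∧ (ν ^ (-a) * h * ν ^ b ∈ Y ↔ a < 0) := by
    intro h hh
    obtain ⟨M, hM⟩ := (hh.image Int.natAbs).bddAbove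
    obtain ⟨k1, hk1⟩ := hν.attract h
    obtain ⟨k2, hk2⟩ := hν.repel h
    refine ⟨M + k1 + k2 + 1, fun k hk a b ha => ?_⟩
    have h3 : ∀ n : ℤ, ν ^ (-a) * h * ν ^ n ∉ E := fun n hn => by
      have := hM ⟨a, ⟨n, hn⟩, rfl⟩
      omega
    have h4 : ∀ n : ℤ, (ν ^ (-a) * h * ν ^ n ∈ Y ↔ ν ^ (-a) * h * ν ^ (n + 1) ∈ Y) := fun n => by
      by_contra h'
      refine h3 n (Or.inr ?_)
      rwa [zpow_add_one, ← mul_assoc] at h'
    have h5 : ν ^ (-a) * h * ν ^ b ∈ Y ↔ ν ^ (-a) * h ∈ Y := by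
      induction b using Int.induction_on with
      | zero => simp
      | succ n ih => exact (h4 n).symm.trans ih
      | pred n ih =>
        have := h4 (-n - 1)
        rw [sub_add_cancel] at this
        exact this.trans ih
    refine ⟨by_contra fun h' => h3 b (Or.inl h'), h5.trans ?_⟩
    rcases ha with rfl | rfl
    · refine iff_of_false ?_ (by omega)
      have := hk2 k (by omega)
      rwa [inv_pow, ← zpow_natCast, ← zpow_neg] at this
    · refine iff_of_true ?_ (by omega)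
      have := hk1 k (by omega)
      rwa [neg_neg, zpow_natCast]
  have hinf : ∀ h, (D h).Infinite ∨ (D h⁻¹).Infinite := by
    intro h
    by_contra hcon
    simp only [not_or, Set.not_infinite] at hcon
    obtain ⟨k1, hk1⟩ := hD _ hcon.1
    obtain ⟨k2, hk2⟩ := hD _ hcon.2
    obtain ⟨k, hk, hk'⟩ := hN ν trivial (h * ν * h⁻¹) trivial (k1 + k2 + 1)
    refine hk' (hν.pingpong h k (fun a b ha hb => ?_) (by omega))
    obtain ⟨h3, h4⟩ := hk1 k (by omega) a b ha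
    obtain ⟨-, h5⟩ := hk2 k (by omega) b a hb
    refine ⟨h3, h4, Iff.trans ?_ h5⟩
    have e : (ν ^ (-a) * h * ν ^ b)⁻¹ = ν ^ (-b) * h⁻¹ * ν ^ a := by group
    rw [e]
  have hzp : ∀ a : ℤ, ν ^ a = 1 → a = 0 := fun a ha => by
    have := hν.pow_injective (k := a.natAbs) (by
      rcases Int.natAbs_eq a with e | e
      · rw [← zpow_natCast, ← e, ha]
      · rw [← zpow_natCast, ← inv_eq_one, ← zpow_neg, ← e, ha])
    omega
  have hcomm0 : ∀ h, (D h).Infinite → ∃ a b : ℤ, a ≠ 0 ∧ b ≠ 0 ∧ ν ^ b * h = h * ν ^ a := by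
    intro h hh
    choose! n hn using fun m (hm : m ∈ D h) => hm
    obtain ⟨m, hm, m', hm', hne, e⟩ := hh.exists_ne_map_eq_of_mapsTo
      (f := fun m => ν ^ (-m) * h * ν ^ n m) hn hEf
    have e' : ν ^ (m' - m) * h = h * ν ^ (n m' - n m) := by
      have : ν ^ (m' - m) * h = ν ^ m' * (ν ^ (-m) * h * ν ^ n m) * ν ^ (-n m) := by group
      rw [this, e]
      group
    refine ⟨_, _, fun h0 => ?_, sub_ne_zero.2 hne.symm, e'⟩
    rw [h0, zpow_zero, mul_one, mul_eq_right] at e'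
    exact hne (by have := hzp _ e'; omega)
  have hcomm : ∀ h, ∃ a b : ℤ, b ≠ 0 ∧ ν ^ b * h = h * ν ^ a := by
    intro h
    rcases hinf h with hh | hh
    · obtain ⟨a, b, -, hb, e⟩ := hcomm0 h hh
      exact ⟨a, b, hb, e⟩
    · obtain ⟨a, b, ha, -, e⟩ := hcomm0 _ hh
      refine ⟨b, a, ha, ?_⟩
      calc ν ^ a * h = h * (h⁻¹ * ν ^ a) * h := by group
        _ = _ := by rw [← e]; group
  choose a b hb hab using hcomm
  refine ⟨ν, ?_⟩
  have : Finite (Γ ⧸ Subgroup.zpowers ν) := by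
    rw [← Set.finite_univ_iff]
    refine (((hEf.union hEf.inv).biUnion fun e _ => (Set.finite_Ico 0 |b e|).image
      fun j => (QuotientGroup.mk (ν ^ j * e) : Γ ⧸ Subgroup.zpowers ν))).subset fun q _ => ?_
    obtain ⟨h, rfl⟩ := QuotientGroup.mk_surjective q
    obtain ⟨e, he, m, n, rfl⟩ : ∃ e ∈ E ∪ E⁻¹, ∃ m n : ℤ, h = ν ^ m * e * ν ^ n := by
      rcases hinf h with hh | hh
      · obtain ⟨m, n, hn⟩ := hh.nonempty
        exact ⟨_, Or.inl hn, m, -n, by group⟩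
      · obtain ⟨m, n, hn⟩ := hh.nonempty
        exact ⟨_, Or.inr (Set.inv_mem_inv.2 hn), n, -m, by group⟩
    refine Set.mem_biUnion he ⟨m % b e, ⟨Int.emod_nonneg _ (hb e), Int.emod_lt_abs _ (hb e)⟩, ?_⟩
    refine QuotientGroup.eq.2 ⟨a e * (m / b e) + n, ?_⟩
    have e1 : e⁻¹ * ν ^ (b e) * e = ν ^ a e := by rw [mul_assoc, hab, inv_mul_cancel_left]
    have e2 : ν ^ (a e * (m / b e)) = e⁻¹ * ν ^ (b e * (m / b e)) * e := by
      rw [zpow_mul, zpow_mul, ← e1]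
      have := conj_zpow (a := e⁻¹) (b := ν ^ b e) (i := m / b e)
      rwa [inv_inv] at this
    have e3 : ν ^ m = ν ^ (m % b e) * ν ^ (b e * (m / b e)) := by
      rw [← zpow_add, Int.emod_add_mul_ediv]
    change ν ^ (a e * (m / b e) + n) = _
    rw [zpow_add, e2]
    conv_rhs => rw [e3]
    group
  exact Subgroup.finiteIndex_of_finite_quotient

end Pool.Agent.P.MP_5ee5b4_al
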