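import Pool.Agent.P.MP_5ee5b4_al.Dualize

/-! More on cuts and ends. -/

namespace Pool.Agent.P.MP_5ee5b4_al

variable {Γ : Type} [Group Γ] {S U U' : Set Γ} {x y z : Γ}

theorem Rel.refl (S U : Set Γ) (x : Γ) : Rel S U x x := fun _ _ => Iff.rfl

theorem Rel.symm (h : Rel S U x y) : Rel S U y x := fun f hf => (h f hf).symm

theorem Rel.trans (h : Rel S U x y) (h' : Rel S U y z) : Rel S U x z :=
  fun f hf => (h f hf).trans (h' f hf)

theorem Rel.edge {s : Γ} (hs : s ∈ S) (h1 : x ∉ U) (h2 : x * s ∉ U) : Rel S U x (x * s) :=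
  fun _ hf => hf x s hs h1 h2

theorem Rel.notMem (h : Rel S U x y) (hx : x ∉ U) : y ∉ U :=
  (h (· ∉ U) fun _ _ _ h1 h2 => iff_of_true h1 h2).1 hx

theorem Rel.avoid (h : Rel S U x y) (hU : ∀ z, z ∉ U → Rel S U x z → z ∉ U') : Rel S U' x y :=
  ((h (fun z => Rel S U x z ∧ Rel S U' x z) fun _ _ hs h1 h2 =>
    ⟨fun h3 => ⟨h3.1.trans (Rel.edge hs h1 h2), h3.2.trans (Rel.edge hs (hU _ h1 h3.1)
      (hU _ h2 (h3.1.trans (Rel.edge hs h1 h2))))⟩,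
    fun h3 => ⟨h3.1.trans (Rel.edge hs h1 h2).symm, h3.2.trans (Rel.edge hs
      (hU _ h1 (h3.1.trans (Rel.edge hs h1 h2).symm)) (hU _ h2 h3.1)).symm⟩⟩).1
    ⟨Rel.refl _ _ _, Rel.refl _ _ _⟩).2

theorem Rel.mono (h : Rel S U x y) (hU : U' ⊆ U) : Rel S U' x y :=
  h.avoid fun _ h1 _ h2 => h1 (hU h2)

theorem Rel.mul_left (g : Γ) (h : Rel S U x y) (hU : ∀ z, g * z ∈ U' → z ∈ U) :
    Rel S U' (g * x) (g * y) := fun f hf =>
  h (fun z => f (g * z)) fun z s hs h1 h2 => by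
    rw [← mul_assoc]
    exact hf _ s hs (fun h => h1 (hU _ h)) fun h => h2 (hU _ (by rwa [← mul_assoc]))

theorem Rel.empty (hS : Subgroup.closure S = ⊤) (x y : Γ) : Rel S ∅ x y := fun f hf =>
  (const_of_edges hS f (fun z s hs => hf z s hs id id) x).trans
    (const_of_edges hS f (fun z s hs => hf z s hs id id) y).symm

theorem IsConn.rel {C : Set Γ} (hC : IsConn S C) (x : Γ) (hx : ∀ c ∈ C, x * c ∉ U) {c : Γ}
    (hc : c ∈ C) : Rel S U x (x * c) := fun f hf => by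
  have := hC.2 (fun z => f (x * z)) (fun a ha b hb hab => by
    rw [← mul_assoc]
    exact hf _ b hb (hx a ha) (by rw [mul_assoc]; exact hx _ hab)) c hc
  simpa using this.symm

/-- almost invariant sets -/
def AI (S Y : Set Γ) : Prop := ∀ s ∈ S, {x | ¬ (x ∈ Y ↔ x * s ∈ Y)}.Finite

/-- virtually cyclic groups -/
def VC (Γ : Type) [Group Γ] : Prop := ∃ ν : Γ, (Subgroup.zpowers ν).FiniteIndex

/-- at most one end -/
def OneEnd (S : Set Γ) : Prop := ∀ Y, AI S Y → Y.Finite ∨ Yᶜ.Finite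

theorem AI.compl {Y : Set Γ} (h : AI S Y) : AI S Yᶜ := fun s hs =>
  (h s hs).subset fun _ hx h' => hx (not_congr h')

theorem AI.mul_left {Y : Set Γ} (h : AI S Y) (g : Γ) : AI S {x | g * x ∈ Y} := fun s hs =>
  ((h s hs).preimage (f := fun x => g * x) (mul_right_injective g).injOn).subset fun x hx => by
    simpa [mul_assoc] using hx

theorem AI.of_finite {Y B : Set Γ} (hB : B.Finite)
    (h : ∀ x, ∀ s ∈ S, x ∉ B → x * s ∉ B → (x ∈ Y ↔ x * s ∈ Y)) : AI S Y := fun s hs =>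
  (hB.union (hB.preimage (f := fun x => x * s) (mul_left_injective s).injOn)).subset fun x hx => by
    by_contra h'
    simp only [Set.mem_union, Set.mem_preimage, not_or] at h'
    exact hx (h x s hs h'.1 h'.2)

theorem AI.exists_finite {Y : Set Γ} (h : AI S Y) (hfin : S.Finite) : ∃ B : Set Γ, B.Finite ∧
    ∀ x, ∀ s ∈ S, ¬ (x ∈ Y ↔ x * s ∈ Y) → x ∈ B ∧ x * s ∈ B :=
  ⟨⋃ s ∈ S, {x | ¬ (x ∈ Y ↔ x * s ∈ Y)} ∪ (· * s) '' {x | ¬ (x ∈ Y ↔ x * s ∈ Y)},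
    hfin.biUnion fun s hs => (h s hs).union ((h s hs).image _), fun x _ hs h =>
      ⟨Set.mem_biUnion hs (Or.inl h), Set.mem_biUnion hs (Or.inr ⟨x, h, rfl⟩)⟩⟩

theorem OneEnd.rel [Infinite Γ] (h : OneEnd S) (hS : Subgroup.closure S = ⊤) (hfin : S.Finite)
    {B : Set Γ} (hB : B.Finite) :
    ∃ B' : Set Γ, B'.Finite ∧ ∀ x y, x ∉ B' → y ∉ B' → Rel S B x y := by
  have hai : ∀ x, AI S {y | Rel S B x y} := fun x => AI.of_finite hB fun y s hs h1 h2 =>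
    ⟨fun h => h.trans (Rel.edge hs h1 h2), fun h => h.trans (Rel.edge hs h1 h2).symm⟩
  by_cases hx : ∃ x, {y | Rel S B x y}ᶜ.Finite
  · obtain ⟨x, hx⟩ := hx
    exact ⟨_, hx, fun a b ha hb => (not_not.1 ha).symm.trans (not_not.1 hb)⟩
  have hf : ∀ x, {y | Rel S B x y}.Finite := fun x => (h _ (hai x)).resolve_right fun h => hx ⟨x, h⟩
  let B1 : Set Γ := insert 1 (B ∪ Set.image2 (· * ·) B S ∪ Set.image2 (· * ·⁻¹) B S)
  have hB1 : B1.Finite := ((hB.union (hB.image2 _ hfin)).union (hB.image2 _ hfin)).insert 1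
  refine absurd ((hB1.biUnion fun b _ => hf b).subset fun x _ => ?_) Set.infinite_univ
  refine (const_of_edges hS (fun x => x ∈ ⋃ b ∈ B1, {y | Rel S B b y}) (fun x s hs => ?_) x).2
    (Set.mem_biUnion (Or.inl rfl) (Rel.refl _ _ _))
  by_cases h1 : x ∈ B
  · exact iff_of_true (Set.mem_biUnion (Or.inr (Or.inl (Or.inl h1))) (Rel.refl _ _ _))
      (Set.mem_biUnion (Or.inr (Or.inl (Or.inr ⟨x, h1, s, hs, rfl⟩))) (Rel.refl _ _ _))
  by_cases h2 : x * s ∈ B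
  · exact iff_of_true (Set.mem_biUnion (Or.inr (Or.inr ⟨_, h2, s, hs, by simp⟩)) (Rel.refl _ _ _))
      (Set.mem_biUnion (Or.inr (Or.inl (Or.inl h2))) (Rel.refl _ _ _))
  simp only [Set.mem_iUnion, Set.mem_ofPred_eq]
  exact exists_congr fun b => exists_congr fun _ =>
    ⟨fun h => h.trans (Rel.edge hs h1 h2), fun h => h.trans (Rel.edge hs h1 h2).symm⟩

namespace Cut

variable (c : Cut S)

/-- the ping-pong configuration -/
def PP (g h : Γ) (k : ℕ) : Prop :=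
  ∀ a b : ℤ, (a = k ∨ a = -k) → (b = k ∨ b = -k) →
    c.Gen (g ^ (-a) * h * g ^ b) ∧ (g ^ (-a) * h * g ^ b ∈ c.Y ↔ a < 0) ∧
      ((g ^ (-a) * h * g ^ b)⁻¹ ∈ c.Y ↔ b < 0)

/-- exceptional elements -/
def Ex (ν : Γ) : Set Γ := {g | ¬ c.Gen g} ∪ {x | ¬ (x ∈ c.Y ↔ x * ν ∈ c.Y)}

/-- exceptional exponents -/
def Dd (ν h : Γ) : Set ℤ := {m | ∃ n : ℤ, ν ^ (-m) * h * ν ^ n ∈ c.Ex ν}

theorem exists_path (g : Γ) : ∃ P : Set Γ, P.Finite ∧
    ∀ x, ¬ (x ∈ c.Y ↔ x * g ∈ c.Y) → ∃ u ∈ P, x * u ∈ c.C := by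
  obtain ⟨P, h1, h2, h3⟩ := exists_conn c.gen g
  refine ⟨P, h1, fun x hx => by_contra fun h => hx ?_⟩
  exact h2.rel (U := c.C) x (fun u hu h' => h ⟨u, hu, h'⟩) h3 (· ∈ c.Y) fun z s hs h4 _ =>
    by_contra fun h5 => h4 (c.bdry z s hs h5).1

variable {c}

theorem hyp_mul {n m : Γ} (hn : c.Gen n) (hm : c.Gen m) (h1 : n ∈ c.Y) (h2 : n⁻¹ ∈ c.Y)
    (h3 : m ∉ c.Y) (h4 : m⁻¹ ∉ c.Y) : c.Hyp (n * m) := by
  refine ⟨fun x hx hx' => h3 ((hm.side hx).1 ?_), ?_, ?_⟩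
  · have := (hn.inv.side hx').2 h2
    rwa [mul_assoc, inv_mul_cancel_left] at this
  · rcases hn.nest (n * m) with h | h
    · exact h.2 h1
    · rw [inv_mul_cancel_left] at h
      exact absurd (h.2 h2) h3
  · rcases hm.nest n⁻¹ with h | h
    · exact absurd (h.1 h2) h3
    · rw [mul_inv_rev]
      exact fun h' => h4 (h.1 h')

theorem exists_hyp {n m : Γ} (hn : c.Gen n) (hm : c.Gen m) (h1 : n ∈ c.Y) (h3 : m ∉ c.Y) :
    c.Hyp n ∨ c.Hyp m⁻¹ ∨ c.Hyp (n * m) := by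
  by_cases h2 : n⁻¹ ∈ c.Y
  · by_cases h4 : m⁻¹ ∈ c.Y
    · exact Or.inr (Or.inl ⟨hm.inv, h4, by rwa [inv_inv]⟩)
    · exact Or.inr (Or.inr (hyp_mul hn hm h1 h2 h3 h4))
  · exact Or.inl ⟨hn, h1, h2⟩

theorem Hyp.half {ν : Γ} (hν : c.Hyp ν) {h : Γ} (hh : (c.Dd ν h).Finite) :
    ∃ k0 : ℕ, ∀ k ≥ k0, ∀ a b : ℤ, (a = k ∨ a = -k) →
      c.Gen (ν ^ (-a) * h * ν ^ b) ∧ (ν ^ (-a) * h * ν ^ b ∈ c.Y ↔ a < 0) := by
  obtain ⟨M, hM⟩ := (hh.image Int.natAbs).bddAbove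
  obtain ⟨k1, hk1⟩ := hν.attract h
  obtain ⟨k2, hk2⟩ := hν.repel h
  refine ⟨M + k1 + k2 + 1, fun k hk a b ha => ?_⟩
  have h3 : ∀ n : ℤ, ν ^ (-a) * h * ν ^ n ∉ c.Ex ν := fun n hn => by
    have := hM ⟨a, ⟨n, hn⟩, rfl⟩
    omega
  have h4 : ∀ n : ℤ, (ν ^ (-a) * h * ν ^ n ∈ c.Y ↔ ν ^ (-a) * h * ν ^ (n + 1) ∈ c.Y) := fun n => by
    by_contra h'
    refine h3 n (Or.inr ?_)
    rwa [zpow_add_one, ← mul_assoc] at h'
  have h5 : ν ^ (-a) * h * ν ^ b ∈ c.Y ↔ ν ^ (-a) * h ∈ c.Y := by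
    induction b using Int.induction_on with
    | zero => simp
    | succ n ih => exact (h4 n).symm.trans ih
    | pred n ih =>
      have := h4 (-n - 1)
      rw [sub_add_cancel] at this
      exact this.trans ih
  refine ⟨by_contra fun h' => h3 b (Or.inl h'), h5.trans ?_⟩
  rcases ha with rfl | rfl
  · refine iff_of_false ?_ (by omega)
    have := hk2 k (by omega)
    rwa [inv_pow, ← zpow_natCast, ← zpow_neg] at this
  · refine iff_of_true ?_ (by omega)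
    have := hk1 k (by omega)
    rwa [neg_neg, zpow_natCast]

theorem Hyp.pp {ν : Γ} (hν : c.Hyp ν) {h : Γ} (h1 : (c.Dd ν h).Finite)
    (h2 : (c.Dd ν h⁻¹).Finite) : ∃ k0 : ℕ, ∀ k ≥ k0, c.PP ν h k := by
  obtain ⟨k1, hk1⟩ := hν.half h1
  obtain ⟨k2, hk2⟩ := hν.half h2
  refine ⟨k1 + k2, fun k hk a b ha hb => ?_⟩
  obtain ⟨h3, h4⟩ := hk1 k (by omega) a b ha
  obtain ⟨-, h5⟩ := hk2 k (by omega) b a hb
  refine ⟨h3, h4, Iff.trans ?_ h5⟩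
  have e : (ν ^ (-a) * h * ν ^ b)⁻¹ = ν ^ (-b) * h⁻¹ * ν ^ a := by group
  rw [e]

theorem Hyp.inf_of_nf {ν : Γ} (hν : c.Hyp ν) {N : Subgroup Γ} (hN : NF N) (h1 : ν ∈ N) {h : Γ}
    (h2 : h ∈ N) : (c.Dd ν h).Infinite ∨ (c.Dd ν h⁻¹).Infinite := by
  by_contra hcon
  simp only [not_or, Set.not_infinite] at hcon
  obtain ⟨k1, hk1⟩ := hν.pp hcon.1 hcon.2
  obtain ⟨k, hk, hk'⟩ := hN ν h1 (h * ν * h⁻¹) (N.mul_mem (N.mul_mem h2 h1) (N.inv_mem h2)) (k1 + 1)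
  exact hk' (hν.pingpong h k (hk1 k (by omega)) (by omega))

theorem PP.key {g h : Γ} {k : ℕ} (H : c.PP g h k) (a b : ℤ) (ha : a = k ∨ a = -k)
    (hb : b = k ∨ b = -k) (x : Γ) :
    (g ^ (-a) * x ∈ c.Y ↔ a < 0) ∨ (g ^ (-b) * (h⁻¹ * x) ∈ c.Y ↔ b < 0) := by
  obtain ⟨h1, h2, h3⟩ := H a b ha hb
  have := h1.nest (g ^ (-a) * x)
  rw [h2, h3] at this
  have e : (g ^ (-a) * h * g ^ b)⁻¹ * (g ^ (-a) * x) = g ^ (-b) * (h⁻¹ * x) := by group
  rwa [e] at this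

theorem Hyp.vc {ν : Γ} (hν : c.Hyp ν) (hEf : (c.Ex ν).Finite)
    (hinf : ∀ h, (c.Dd ν h).Infinite ∨ (c.Dd ν h⁻¹).Infinite) : VC Γ := by
  have hzp : ∀ a : ℤ, ν ^ a = 1 → a = 0 := fun a ha => by
    have := hν.pow_injective (k := a.natAbs) (by
      rcases Int.natAbs_eq a with e | e
      · rw [← zpow_natCast, ← e, ha]
      · rw [← zpow_natCast, ← inv_eq_one, ← zpow_neg, ← e, ha])
    omega
  have hcomm0 : ∀ h, (c.Dd ν h).Infinite →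
      ∃ a b : ℤ, a ≠ 0 ∧ b ≠ 0 ∧ ν ^ b * h = h * ν ^ a := by
    intro h hh
    choose! n hn using fun m (hm : m ∈ c.Dd ν h) => hm
    obtain ⟨m, hm, m', hm', hne, e⟩ := hh.exists_ne_map_eq_of_mapsTo
      (f := fun m => ν ^ (-m) * h * ν ^ n m) hn hEf
    have e' : ν ^ (m' - m) * h = h * ν ^ (n m' - n m) := by
      have : ν ^ (m' - m) * h = ν ^ m' * (ν ^ (-m) * h * ν ^ n m) * ν ^ (-n m) := by group
      rw [this, e]
      group
    refine ⟨_, _, fun h0 => ?_, sub_ne_zero.2 hne.symm, e'⟩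
    rw [h0, zpow_zero, mul_one, mul_eq_right] at e'
    exact hne (by have := hzp _ e'; omega)
  have hcomm : ∀ h, ∃ a b : ℤ, b ≠ 0 ∧ ν ^ b * h = h * ν ^ a := by
    intro h
    rcases hinf h with hh | hh
    · obtain ⟨a, b, -, hb, e⟩ := hcomm0 h hh
      exact ⟨a, b, hb, e⟩
    · obtain ⟨a, b, ha, -, e⟩ := hcomm0 _ hh
      refine ⟨b, a, ha, ?_⟩
      calc ν ^ a * h = h * (h⁻¹ * ν ^ a) * h := by group
        _ = _ := by rw [← e]; group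
  choose a b hb hab using hcomm
  refine ⟨ν, ?_⟩
  have : Finite (Γ ⧸ Subgroup.zpowers ν) := by
    rw [← Set.finite_univ_iff]
    refine (((hEf.union hEf.inv).biUnion fun e _ => (Set.finite_Ico 0 |b e|).image
      fun j => (QuotientGroup.mk (ν ^ j * e) : Γ ⧸ Subgroup.zpowers ν))).subset fun q _ => ?_
    obtain ⟨h, rfl⟩ := QuotientGroup.mk_surjective q
    obtain ⟨e, he, m, n, rfl⟩ : ∃ e ∈ c.Ex ν ∪ (c.Ex ν)⁻¹, ∃ m n : ℤ, h = ν ^ m * e * ν ^ n := by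
      rcases hinf h with hh | hh
      · obtain ⟨m, n, hn⟩ := hh.nonempty
        exact ⟨_, Or.inl hn, m, -n, by group⟩
      · obtain ⟨m, n, hn⟩ := hh.nonempty
        exact ⟨_, Or.inr (Set.inv_mem_inv.2 hn), n, -m, by group⟩
    refine Set.mem_biUnion he ⟨m % b e, ⟨Int.emod_nonneg _ (hb e), Int.emod_lt_abs _ (hb e)⟩, ?_⟩
    refine QuotientGroup.eq.2 ⟨a e * (m / b e) + n, ?_⟩
    have e1 : e⁻¹ * ν ^ (b e) * e = ν ^ a e := by rw [mul_assoc, hab, inv_mul_cancel_left]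
    have e2 : ν ^ (a e * (m / b e)) = e⁻¹ * ν ^ (b e * (m / b e)) * e := by
      rw [zpow_mul, zpow_mul, ← e1]
      have := conj_zpow (a := e⁻¹) (b := ν ^ b e) (i := m / b e)
      rwa [inv_inv] at this
    have e3 : ν ^ m = ν ^ (m % b e) * ν ^ (b e * (m / b e)) := by
      rw [← zpow_add, Int.emod_add_mul_ediv]
    change ν ^ (a e * (m / b e) + n) = _
    rw [zpow_add, e2]
    conv_rhs => rw [e3]
    group
  exact Subgroup.finiteIndex_of_finite_quotient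

end Cut

theorem ends_pp (hS : Subgroup.closure S = ⊤) (hfin : S.Finite) {Y : Set Γ} (hY : AI S Y)
    (h1 : Y.Infinite) (h2 : Yᶜ.Infinite) (hvc : ¬ VC Γ) :
    ∃ c : Cut S, c.Y = Y ∧ ∃ (ν h : Γ) (k : ℕ), 0 < k ∧ c.Hyp ν ∧ c.PP ν h k := by
  obtain ⟨B, hB, hB'⟩ := hY.exists_finite hfin
  obtain ⟨C, hC, ⟨hC1, hC2⟩, hBC⟩ := exists_conn_finite hS hB
  let c : Cut S := ⟨Y, C, hS, hC1, hC2, fun x s hs h =>
    ⟨hBC (hB' x s hs h).1, hBC (hB' x s hs h).2⟩⟩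
  have hng : {g | ¬ c.Gen g}.Finite := by
    refine (hC.image2 (fun y x => y * x⁻¹) hC).subset fun g hg => ?_
    simp only [Cut.Gen, Set.mem_ofPred_eq, not_forall, not_not] at hg
    obtain ⟨x, hx, hx'⟩ := hg
    exact ⟨_, hx', x, hx, by simp⟩
  obtain ⟨ν, hν⟩ : ∃ ν, c.Hyp ν := by
    obtain ⟨n, hn, hn'⟩ := (h1.sdiff hng).nonempty
    obtain ⟨m, hm, hm'⟩ := (h2.sdiff hng).nonempty
    rcases Cut.exists_hyp (c := c) (not_not.1 hn') (not_not.1 hm') hn hm with h | h | h <;>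
      exact ⟨_, h⟩
  obtain ⟨h, hh⟩ := not_forall.1 fun h => hvc (hν.vc (hng.union (almostInv hS hY ν)) h)
  simp only [not_or, Set.not_infinite] at hh
  obtain ⟨k, hk⟩ := hν.pp hh.1 hh.2
  exact ⟨c, rfl, ν, h, k + 1, k.succ_pos, hν, hk _ k.le_succ⟩

theorem exists_disj (hS : Subgroup.closure S = ⊤) (hfin : S.Finite) {Y : Set Γ} (hY : AI S Y)
    (h1 : Y.Infinite) (h2 : Yᶜ.Infinite) (hvc : ¬ VC Γ) : ∃ g, ∀ x ∈ Y, g * x ∉ Y := by
  obtain ⟨c, rfl, ν, h, k, hk, -, H⟩ := ends_pp hS hfin hY h1 h2 hvc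
  refine ⟨ν ^ (-(k : ℤ)) * h⁻¹ * ν ^ (k : ℤ), fun x hx hx' => ?_⟩
  rcases H.key k k (Or.inl rfl) (Or.inl rfl) (ν ^ (k : ℤ) * x) with h3 | h3
  · rw [zpow_neg, inv_mul_cancel_left] at h3
    have := h3.1 hx
    omega
  · rw [mul_assoc, mul_assoc] at hx'
    have := h3.1 hx'
    omega

theorem exists_disj_family (hS : Subgroup.closure S = ⊤) (hfin : S.Finite) (h : ¬ OneEnd S)
    (hvc : ¬ VC Γ) : ∃ E : ℕ → Set Γ, (∀ j, AI S (E j) ∧ (E j).Infinite) ∧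
      ∀ i j x, x ∈ E i → x ∈ E j → i = j := by
  obtain ⟨Y, hY⟩ := not_forall.1 h
  simp only [Classical.not_imp, not_or] at hY
  obtain ⟨c, rfl, ν, h, k, hk, hν, H⟩ := ends_pp hS hfin hY.1 hY.2.1 hY.2.2 hvc
  let g : ℕ → Γ := fun j => ν ^ (-(k : ℤ)) * h⁻¹ * ν ^ (-(2 * k * j : ℤ))
  have key : ∀ j x, g j * x ∈ c.Y → ν ^ (-(k + 2 * k * j : ℤ)) * x ∉ c.Y ∧
      ν ^ (k - 2 * k * j : ℤ) * x ∈ c.Y := fun j x hx => by
    dsimp only [g] at hx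
    rw [mul_assoc, mul_assoc] at hx
    constructor
    · rcases H.key k k (Or.inl rfl) (Or.inl rfl) (ν ^ (-(2 * k * j : ℤ)) * x) with h3 | h3
      · rw [← mul_assoc, ← zpow_add, ← neg_add] at h3
        exact fun h4 => by have := h3.1 h4; omega
      · have := h3.1 hx
        omega
    · rcases H.key (-k) k (Or.inr rfl) (Or.inl rfl) (ν ^ (-(2 * k * j : ℤ)) * x) with h3 | h3
      · rw [← mul_assoc, ← zpow_add, neg_neg, ← sub_eq_add_neg] at h3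
        exact h3.2 (by omega)
      · have := h3.1 hx
        omega
  have key2 : ∀ i j x, g i * x ∈ c.Y → g j * x ∈ c.Y → ¬ i < j := fun i j x hi hj hij => by
    obtain ⟨d, rfl⟩ := Nat.exists_eq_add_of_lt hij
    refine (key _ x hi).1 ?_
    have := hν.pow_mul_mem (key _ x hj).2 (2 * k * d)
    rw [← mul_assoc, ← zpow_natCast, ← zpow_add] at this
    convert this using 3
    push_cast
    ring
  refine ⟨fun j => {x | g j * x ∈ c.Y}, fun j => ⟨hY.1.mul_left _, fun hf => hY.2.1 ?_⟩,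
    fun i j x hi hj => le_antisymm (not_lt.1 (key2 j i x hj hi)) (not_lt.1 (key2 i j x hi hj))⟩
  exact (hf.image (g j * ·)).subset fun y hy => ⟨(g j)⁻¹ * y, by simpa using hy, by simp⟩

end Pool.Agent.P.MP_5ee5b4_al
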