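import Pool.Agent.P.MP_5ee5b4_al.NotFG

/-! One filtered end for infinitely generated normal subgroups without free subgroups. -/

namespace Pool.Agent.P.MP_5ee5b4_al

open Pool.Agent.P.MP_6e40fc_al
open scoped MonoidAlgebra

set_option linter.unusedSectionVars false

variable {Γ : Type} [Group Γ] {ι : Type} [Fintype ι] {N : Subgroup Γ}

theorem Thick.rel_of_out {s : ι → Γ} {V U C : Set Γ} (h : Thick (Set.range s) N V U)
    (R : Set (ι → ℤ[Γ])) (hR : Submodule.span ℤ[Γ] R = LinearMap.ker (dS s))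
    (hC : IsConn (Set.range s) C)
    (hRC : ∀ r ∈ R, ∀ i, ∀ y ∈ (r i).coeff.support, y ∈ C ∧ y * s i ∈ C)
    (hCU : ∀ x, ∀ c ∈ C, x * c ∈ V → ∀ c' ∈ C, x * c' ∉ U) {x x' : Γ}
    (hx : ∀ y, Out (Set.range s) N V U y x) (hx' : ∀ y, Out (Set.range s) N V U y x') :
    Rel (Set.range s) V x x' := by
  classical
  intro f hf
  let lam : Γ → ZMod 2 := fun x => if f x then 1 else 0
  have hcross : ∀ x i, lam (x * s i) - lam x ≠ 0 → x ∈ V ∨ x * s i ∈ V := fun x i h1 => by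
    by_contra h2
    rw [not_or] at h2
    exact h1 (by simp only [lam, hf x _ ⟨i, rfl⟩ h2.1 h2.2, sub_self])
  let cl : Γ → Set Γ := fun x => {z | Rel (Set.range s) U x z}
  have hcl : ∀ a b, Rel (Set.range s) U a b → cl a = cl b := fun a b h1 =>
    Set.ext fun z => ⟨fun h2 => h1.symm.trans h2, fun h2 => h1.trans h2⟩
  obtain ⟨F, -, hF⟩ := exists_integral h.gen
    (fun i x => (Finsupp.single (cl x) (lam (x * s i) - lam x) : Set Γ →₀ ZMod 2)) R hR
    fun r hr x => by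
    have hr0 : dS s r = 0 := by
      have : r ∈ Submodule.span ℤ[Γ] R := Submodule.subset_span hr
      rwa [hR] at this
    by_cases hex : ∃ c ∈ C, x * c ∈ V
    · obtain ⟨c, hc, h0⟩ := hex
      have h2 := extAdd_dS (fun y => lam (x * y)) s r
      rw [hr0, map_zero] at h2
      have h3 := congrArg (Finsupp.singleAddHom (cl x)) h2
      rw [map_zero, map_sum] at h3
      rw [h3]
      refine Finset.sum_congr rfl fun i _ => ?_
      rw [map_extAdd]
      refine extAdd_congr fun y hy => ?_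
      rw [← hcl _ _ (hC.rel x (hCU x c hc h0) (hRC r hr i y hy).1), mul_assoc]
      rfl
    · refine Finset.sum_eq_zero fun i _ => ?_
      rw [extAdd_congr (g := fun _ => 0) fun y hy => ?_]
      · exact extAdd_zero _
      · rw [not_not.1 fun h1 => (hcross _ i h1).elim (fun h2 => hex ⟨y, (hRC r hr i y hy).1, h2⟩)
          fun h2 => hex ⟨_, (hRC r hr i y hy).2, by rwa [← mul_assoc]⟩, Finsupp.single_zero]
  have hsum := const_of_edges' h.gen (fun x => (F x).sum (fun _ a => a) - lam x) (fun x i => by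
    rw [hF, Finsupp.sum_add_index' (fun _ => rfl) (fun _ _ _ => rfl), Finsupp.sum_single_index rfl]
    ring) x x'
  have hFF : F x = F x' := Finsupp.ext fun W => by
    by_cases hW : ∃ y, cl y = W
    · obtain ⟨y, rfl⟩ := hW
      obtain ⟨n, hn, h1⟩ := h.far y
      refine (((hx y n hn h1).trans (hx' y n hn h1).symm) (fun z => F x (cl y) = F z (cl y)) ?_).1
        rfl
      rintro z _ ⟨i, rfl⟩ h2 h3
      rw [hF, Finsupp.add_apply, Finsupp.single_apply]
      split_ifs with h4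
      · have h5 : Rel (Set.range s) U y z := (h4 ▸ Rel.refl _ _ _ : z ∈ cl y)
        have h6 : lam (z * s i) - lam z = 0 := by_contra fun h6 => by
          obtain ⟨h7, h8⟩ := h.edge z _ ⟨i, rfl⟩ (hcross z i h6)
          exact (hcross z i h6).elim (fun h9 => h2 ⟨h9, h5⟩)
            fun h9 => h3 ⟨h9, h5.trans (Rel.edge ⟨i, rfl⟩ h7 h8)⟩
        rw [h6, add_zero]
      · rw [add_zero]
    · refine const_of_edges' h.gen (fun z => F z W) (fun z i => ?_) x x'
      rw [hF, Finsupp.add_apply, Finsupp.single_apply, if_neg fun h1 => hW ⟨z, h1⟩, add_zero]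
  rw [hFF, sub_right_inj] at hsum
  by_cases h1 : f x <;> by_cases h2 : f x' <;> simp_all [lam]

variable [N.Normal] {S : Set Γ}

theorem mk_mul_left {n : Γ} (hn : n ∈ N) (x : Γ) : ((n * x : Γ) : Γ ⧸ N) = x := by
  rw [QuotientGroup.mk_mul, (QuotientGroup.eq_one_iff _).2 hn, one_mul]

theorem mul_inv_mem_of_eq {x y : Γ} (h : (x : Γ ⧸ N) = y) : x * y⁻¹ ∈ N := by
  rw [← QuotientGroup.eq_one_iff, QuotientGroup.mk_mul, QuotientGroup.mk_inv, h, mul_inv_cancel]

theorem exists_big (hfin : S.Finite) (hN : ¬ N.FG) {U : Set Γ} {B : Set (Γ ⧸ N)} (hB : B.Finite)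
    (hU : ∀ x, x ∉ U → (x : Γ ⧸ N) ∈ B) (F : Set Γ) (hF : F.Finite) (ν : Γ) (hν : ν ∈ N) :
    ∃ L : Subgroup Γ, ν ∈ L ∧ (∃ n ∈ N, n ∉ L) ∧
      ∀ n ∈ N, ∀ a ∈ F, ∀ b ∈ F, ∀ x, Rel S U a x → Rel S U b (n * x) → n ∈ L := by
  let ρ : Γ → Γ := fun x => x * ((x : Γ ⧸ N).out)⁻¹
  have hρ : ∀ x, ρ x ∈ N := fun x => mul_inv_mem_of_eq (Quotient.out_eq _).symm
  have hρ' : ∀ n ∈ N, ∀ x, ρ (n * x) = n * ρ x := fun n hn x => by
    simp only [ρ, mk_mul_left hn, mul_assoc]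
  let T : Set Γ := insert ν (ρ '' F ∪ Set.image2 (fun q s => ρ (q.out * s)) B S)
  let L := Subgroup.closure T
  have hL : L ≤ N := (Subgroup.closure_le _).2 (by
    rintro _ (rfl | ⟨x, -, rfl⟩ | ⟨q, -, s, -, rfl⟩)
    · exact hν
    · exact hρ _
    · exact hρ _)
  have key : ∀ a ∈ F, ∀ x, Rel S U a x → ρ x ∈ L := fun a ha x h =>
    (h (fun x => ρ x ∈ L) fun z s hs h1 _ => by
      have h2 : ρ (z * s) = ρ z * ρ ((z : Γ ⧸ N).out * s) := by
        rw [← hρ' _ (hρ z)]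
        simp only [ρ, mul_assoc, inv_mul_cancel_left]
      rw [h2]
      exact (L.mul_mem_cancel_right (Subgroup.subset_closure
        (Or.inr (Or.inr ⟨_, hU z h1, s, hs, rfl⟩)))).symm).1
      (Subgroup.subset_closure (Or.inr (Or.inl ⟨a, ha, rfl⟩)))
  refine ⟨L, Subgroup.subset_closure (Or.inl rfl), by_contra fun h => hN ?_,
    fun n hn a ha b hb x h1 h2 => ?_⟩
  · refine (Subgroup.fg_iff _).2 ⟨T, le_antisymm hL fun n hn => by_contra fun h' => h ⟨n, hn, h'⟩,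
      ((hF.image _).union (hB.image2 _ hfin)).insert _⟩
  · have := key b hb _ h2
    rw [hρ' n hn] at this
    exact (L.mul_mem_cancel_right (key a ha x h1)).1 this

variable (N S) in
/-- points joined to all their translates outside a finite union of cosets -/
def Good (B : Set (Γ ⧸ N)) (x : Γ) : Prop :=
  (x : Γ ⧸ N) ∉ B ∧ ∀ n ∈ N, Rel S {z | (z : Γ ⧸ N) ∈ B} x (n * x)

theorem Good.mono {B B' : Set (Γ ⧸ N)} {x : Γ} (h : Good N S B' x) (hB : B ⊆ B') : Good N S B x :=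
  ⟨fun h1 => h.1 (hB h1), fun n hn => (h.2 n hn).mono fun _ hz => hB hz⟩

theorem Good.rel {B : Set (Γ ⧸ N)} {x y : Γ} (h : Good N S B x)
    (h1 : Rel S {z | (z : Γ ⧸ N) ∈ B} x y) : Good N S B y :=
  ⟨h1.notMem h.1, fun n hn => (h1.symm.trans (h.2 n hn)).trans
    (h1.mul_left n fun z hz => by simpa only [Set.mem_ofPred_eq, mk_mul_left hn] using hz)⟩

theorem closure_image_mk (hS : Subgroup.closure S = ⊤) :
    Subgroup.closure (QuotientGroup.mk' N '' S) = ⊤ := by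
  rw [← MonoidHom.map_closure, hS]
  exact Subgroup.map_top_of_surjective _ (QuotientGroup.mk'_surjective N)

theorem oe_of_good (hS : Subgroup.closure S = ⊤) (hfin : S.Finite) (hvc : ¬ VC (Γ ⧸ N))
    (hex : ∀ B : Set (Γ ⧸ N), B.Finite → ∃ x, Good N S B x)
    (hun : ∀ B : Set (Γ ⧸ N), B.Finite → ∀ x y, Good N S B x → Good N S B y →
      Rel S {z | (z : Γ ⧸ N) ∈ B} x y) : OE N S := by
  have h1 : OneEnd (QuotientGroup.mk' N '' S) := fun Y hY => by
    by_contra hcon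
    rw [not_or] at hcon
    have key : ∀ Y, AI (QuotientGroup.mk' N '' S) Y → Y.Infinite → Yᶜ.Infinite →
        ∀ B : Set (Γ ⧸ N), B.Finite → (∀ x : Γ, ∀ s ∈ S, (x : Γ ⧸ N) ∉ B →
          ((x : Γ ⧸ N) ∈ Y ↔ ((x * s : Γ) : Γ ⧸ N) ∈ Y)) →
        ∀ x, Good N S B x → (x : Γ ⧸ N) ∉ Y := fun Y hY h2 h3 B hB hB' x hx hx' => by
      obtain ⟨g, hg⟩ := exists_disj (closure_image_mk hS) (hfin.image _) hY h2 h3 hvc
      obtain ⟨g, rfl⟩ := QuotientGroup.mk_surjective g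
      have h4 : ∀ y, Good N S B y → (y : Γ ⧸ N) ∈ Y := fun y hy =>
        (hun B hB x y hx hy (fun z => (z : Γ ⧸ N) ∈ Y) fun z s hs h5 _ => hB' z s hs h5).1 hx'
      obtain ⟨z, hz⟩ := hex (B ∪ (fun q => (g : Γ ⧸ N) * q) ⁻¹' B)
        (hB.union (hB.preimage (mul_right_injective _).injOn))
      refine hg _ (h4 z (hz.mono Set.subset_union_left)) (h4 (g * z) ⟨fun h5 => hz.1 (Or.inr h5),
        fun n hn => ?_⟩)
      have := Rel.mul_left (U' := {z : Γ | (z : Γ ⧸ N) ∈ B}) g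
        (hz.2 _ (‹N.Normal›.conj_mem n hn g⁻¹)) fun z hz => Or.inr hz
      simpa [mul_assoc] using this
    obtain ⟨B, hB, hB'⟩ := hY.exists_finite (hfin.image _)
    obtain ⟨x, hx⟩ := hex B hB
    have h2 : ∀ x : Γ, ∀ s ∈ S, (x : Γ ⧸ N) ∉ B → ((x : Γ ⧸ N) ∈ Y ↔ ((x * s : Γ) : Γ ⧸ N) ∈ Y) :=
      fun x s hs h => by_contra fun h' => h (hB' _ _ ⟨s, hs, rfl⟩ h').1
    exact key Yᶜ hY.compl hcon.2 (by rw [compl_compl]; exact hcon.1) B hB
      (fun x s hs h => not_congr (h2 x s hs h)) x hx (key Y hY hcon.1 hcon.2 B hB h2 x hx)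
  intro B hB
  have h2 : ∀ x y : Γ, (x : Γ ⧸ N) = y → Good N S B x → Good N S B y := fun x y h hx => by
    have := hx.rel (hx.2 _ (mul_inv_mem_of_eq h.symm))
    rwa [inv_mul_cancel_right] at this
  rcases h1 {q | ∃ x, Good N S B x ∧ (x : Γ ⧸ N) = q} (AI.of_finite hB (by
    rintro q _ ⟨s, hs, rfl⟩ h3 h4
    obtain ⟨x, rfl⟩ := QuotientGroup.mk_surjective q
    have h5 : Rel S {z | (z : Γ ⧸ N) ∈ B} x (x * s) := Rel.edge hs h3 h4
    exact ⟨fun ⟨y, h6, h7⟩ => ⟨_, (h2 _ _ h7 h6).rel h5, rfl⟩,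
      fun ⟨y, h6, h7⟩ => ⟨_, (h2 y (x * s) h7 h6).rel h5.symm, rfl⟩⟩)) with h3 | h3
  · obtain ⟨x, hx⟩ := hex _ (hB.union h3)
    exact absurd (Or.inr ⟨x, hx.mono Set.subset_union_left, rfl⟩) hx.1
  · refine ⟨_, h3, fun x y hx hy => ?_⟩
    obtain ⟨x', h4, h5⟩ := not_not.1 hx
    obtain ⟨y', h6, h7⟩ := not_not.1 hy
    exact hun B hB x y (h2 _ _ h5 h4) (h2 _ _ h7 h6)

theorem oe_of_not_fg {s : ι → Γ} (hs : Subgroup.closure (Set.range s) = ⊤)
    (hfg : (LinearMap.ker (dS s)).FG) (hNF : NF N) (hN : ¬ N.FG) (hvc : ¬ VC (Γ ⧸ N)) :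
    OE N (Set.range s) := by
  obtain ⟨R, hR⟩ := hfg
  obtain ⟨C, hC0, hC, hC3⟩ := exists_conn_finite hs
    (B := Set.range s ∪ ⋃ r ∈ R, ⋃ i, (((r i).coeff.support : Set Γ) ∪
      (· * s i) '' ((r i).coeff.support : Set Γ)))
    ((Set.finite_range s).union (R.finite_toSet.biUnion fun r _ => Set.finite_iUnion fun i =>
      (Finset.finite_toSet _).union ((Finset.finite_toSet _).image _)))
  let U : Set (Γ ⧸ N) → Set Γ := fun B =>
    {z | ∀ c ∈ C, ∀ c' ∈ C, ((z * c'⁻¹ * c : Γ) : Γ ⧸ N) ∉ B}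
  have hT : ∀ B : Set (Γ ⧸ N), B.Finite → Thick (Set.range s) N {z | (z : Γ ⧸ N) ∈ B} (U B) :=
    fun B hB =>
    { gen := hs
      nor := ‹_›
      nf := hNF
      hV := fun n hn x hx => by simpa only [Set.mem_ofPred_eq, mk_mul_left hn] using hx
      hU := fun n hn x hx c hc c' hc' => by
        simpa only [mul_assoc, mk_mul_left hn] using hx c hc c' hc'
      vu := fun x hx h => h 1 hC.1 1 hC.1 (by simpa using hx)
      edge := fun x a ha h => by
        have h1 := hC3 (Or.inl ha)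
        rcases h with h | h
        · exact ⟨fun h2 => h2 1 hC.1 1 hC.1 (by simpa using h),
            fun h2 => h2 1 hC.1 a h1 (by simpa using h)⟩
        · exact ⟨fun h2 => h2 a h1 1 hC.1 (by simpa using h),
            fun h2 => h2 1 hC.1 1 hC.1 (by simpa using h)⟩
      big := exists_big (Set.finite_range s) hN
        ((hB.image2 (fun q (c : Γ) => q * (c : Γ ⧸ N)⁻¹) hC0).image2
          (fun q (c : Γ) => q * (c : Γ ⧸ N)) hC0) fun x hx => by
          simp only [U, Set.mem_ofPred_eq, not_forall, not_not] at hx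
          obtain ⟨c, hc, c', hc', h⟩ := hx
          exact ⟨_, ⟨_, h, c, hc, rfl⟩, c', hc', by simp⟩
      fin := hB.subset (by rintro _ ⟨x, hx, rfl⟩; exact hx) }
  have hrel : ∀ B : Set (Γ ⧸ N), B.Finite → ∀ x x', (∀ y, Out (Set.range s) N _ (U B) y x) →
      (∀ y, Out (Set.range s) N _ (U B) y x') → Rel (Set.range s) {z | (z : Γ ⧸ N) ∈ B} x x' :=
    fun B hB x x' => (hT B hB).rel_of_out R hR hC (fun r hr i y hy =>
      ⟨hC3 (Or.inr (Set.mem_biUnion hr (Set.mem_iUnion.2 ⟨i, Or.inl hy⟩))),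
        hC3 (Or.inr (Set.mem_biUnion hr (Set.mem_iUnion.2 ⟨i, Or.inr ⟨y, hy, rfl⟩⟩)))⟩)
      fun x c hc h c' hc' h' => h' c hc c' hc' (by simpa using h)
  refine oe_of_good hs (Set.finite_range s) hvc (fun B hB => ?_) fun B hB x y hx hy =>
    hrel B hB x y ((hT B hB).out_of_good hx.2) ((hT B hB).out_of_good hy.2)
  obtain ⟨x, hx⟩ := (hT B hB).exists_out
  refine ⟨x, fun h => (hT B hB).not_out ⟨h, Rel.refl _ _ _⟩ (hx x), fun n hn =>
    hrel B hB _ _ hx fun y => ?_⟩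
  simpa using (hT B hB).out_mul hn (hx (n⁻¹ * y))

end Pool.Agent.P.MP_5ee5b4_al
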