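import Pool.Agent.P.MP_5ee5b4_al.Push
import Pool.Agent.P.MP_5ee5b4_al.NotFG2

/-! Finitely generated normal subgroups: the quotient has one end. -/

namespace Pool.Agent.P.MP_5ee5b4_al

open Pool.Agent.P.MP_6e40fc_al Matrix
open scoped MonoidAlgebra

noncomputable section

set_option linter.unusedSectionVars false

variable {Γ K : Type} [Group Γ] [Group K] {ι β : Type} [Fintype ι] [Fintype β] [DecidableEq ι]
  (w : Γ →* ℤˣ)

section
variable {A A' : Type} [AddCommGroup A] [Module ℤ[Γ] A] [AddCommGroup A'] [Module ℤ[Γ] A']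
  {w} {s : ι → Γ}

theorem Cyc.map {z : ι → A} (h : Cyc w s z) (g : A →ₗ[ℤ[Γ]] A') : Cyc w s (g ∘ z) := by
  have := congrArg g h
  simp only [map_sum, map_smul, map_zero] at this
  exact this

theorem Cyc.sub {z z' : ι → A} (h : Cyc w s z) (h' : Cyc w s z') : Cyc w s (z - z') := by
  rw [cyc_iff] at *
  rw [map_sub, h, h', sub_zero]

theorem cyc_of_bd {z : ι → A} (h : z ∈ Bd A w s) : Cyc w s z := by
  rw [cyc_iff]
  refine (AddSubgroup.closure_le (cact (tc w (πc s))).ker).2 ?_ h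
  rintro _ ⟨a, v, hv, rfl⟩
  funext u
  rw [bd_ract, hv, map_zero, zero_smul]
  rfl

theorem bd_map {z : ι → A} (h : z ∈ Bd A w s) (g : A →ₗ[ℤ[Γ]] A') : g ∘ z ∈ Bd A' w s := by
  refine (AddSubgroup.closure_le ((Bd A' w s).comap (g.toAddMonoidHom.compLeft ι))).2 ?_ h
  rintro _ ⟨a, v, hv, rfl⟩
  have : g ∘ ract w a v = ract w (g a) v := funext fun i => map_smul g _ _
  change g ∘ ract w a v ∈ Bd A' w s
  rw [this]
  exact ract_mem_Bd w s (g a) hv

theorem bd_lift (g : A →ₗ[ℤ[Γ]] A') (hg : Function.Surjective g) {z : ι → A'}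
    (h : z ∈ Bd A' w s) : ∃ z' ∈ Bd A w s, g ∘ z' = z := by
  refine (AddSubgroup.closure_le ((Bd A w s).map (g.toAddMonoidHom.compLeft ι))).2 ?_ h
  rintro _ ⟨a, v, hv, rfl⟩
  obtain ⟨a, rfl⟩ := hg a
  exact ⟨_, ract_mem_Bd w s a hv, funext fun i => map_smul g _ _⟩

end

theorem unit_smul {M : Type} [AddCommGroup M] (h2 : ∀ m : M, m + m = 0) (u : ℤˣ) (m : M) :
    (u : ℤ) • m = m := by
  rcases Int.units_eq_one_or u with rfl | rfl
  · simp
  · simpa using neg_eq_of_add_eq_zero_left (h2 m)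

theorem bd_of_two {s : ι → Γ} (hs : Subgroup.closure (Set.range s) = ⊤)
    (hfg : (LinearMap.ker (dS s)).FG) (N : Subgroup Γ) [N.Normal] [Infinite (Γ ⧸ N)]
    (hN : OE N (Set.range s)) {t : β → N} (ht : Subgroup.closure (Set.range t) = ⊤)
    {P : Type} [AddCommGroup P] [Module ℤ[N] P] (h2 : ∀ m : P, m + m = 0)
    (z : ι → Co N.subtype P) (hz : Cyc w s z) : z ∈ Bd _ w s := by
  obtain ⟨σ⟩ := exists_sec (j := N.subtype) Subtype.val_injective
  let J := AddSubgroup.closure {m : P | ∃ (n : N) (m' : P), m = (w n : ℤ) • o n • m' - m'}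
  let _ : Module (ZMod 2) (P ⧸ J) := AddCommGroup.zmodModule fun x => by
    obtain ⟨x, rfl⟩ := QuotientAddGroup.mk_surjective x
    rw [two_nsmul, ← QuotientAddGroup.mk_add, h2, QuotientAddGroup.mk_zero]
  let π : P →ₗ[ℤ[N]] Triv N (P ⧸ J) := mkLin (QuotientAddGroup.mk' J) fun n m => by
    rw [Triv.o_smul]
    exact QuotientAddGroup.eq_iff_sub_mem.2 (AddSubgroup.subset_closure
      ⟨n, m, by rw [unit_smul h2]⟩)
  obtain ⟨z', h3, h4⟩ := bd_lift (Co.map N.subtype π)
    (fun f => σ.lift π f fun x => QuotientAddGroup.mk_surjective _)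
    (h1_triv 2 w hs hfg N hN le_rfl _ (hz.map (Co.map N.subtype π)))
  have h5 := push_cycle w hs (fun h => not_finite_iff_infinite.2 ‹_› N.finite_quotient_of_finiteIndex)
    ht (z - z') (hz.sub (cyc_of_bd h3)) fun i x =>
      QuotientAddGroup.eq_iff_sub_mem.1
        (show π (z i x) = π (z' i x) from (congrArg (fun f => f i x) h4).symm)
  simpa using AddSubgroup.add_mem _ h5 h3

theorem ext_of_der {s : ι → Γ} (j : K →* Γ) (hj : Function.Injective j) {t : β → K}
    (ht : Subgroup.closure (Set.range t) = ⊤) {M M' : Type} [AddCommGroup M] [Module ℤ[K] M]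
    [AddCommGroup M'] [Module ℤ[K] M'] (μ : M →ₗ[ℤ[K]] M') (hμ : Function.Injective μ)
    (v : Γ → ι → ℤ[Γ]) (hv : ∀ g, dS s (v g) = o g - 1)
    (f : LinearMap.ker (dS s) →ₗ[ℤ[Γ]] Co j M) (F : (ι → ℤ[Γ]) →ₗ[ℤ[Γ]] Co j M')
    (hF : ∀ (y : LinearMap.ker (dS s)) x, F y x = μ (f y x)) (h0 : ∀ b, F (v (j (t b))) 1 = 0) :
    Extends f := by
  obtain ⟨σ⟩ := exists_sec hj
  let G := Co.map j (LinearMap.range μ).mkQ ∘ₗ F
  have hG : ∀ y, dS s y = 0 → G y = 0 := fun y hy => Co.ext fun x =>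
    (Submodule.Quotient.mk_eq_zero _).2 ⟨_, (hF ⟨y, hy⟩ x).symm⟩
  have hG1 : ∀ g h, G (v (g * h)) = G (v g) + o g • G (v h) := fun g h => by
    have := hG (v (g * h) - (v g + o g • v h)) (by
      rw [map_sub, map_add, map_smul, hv, hv, hv, smul_eq_mul, mul_sub, o_mul]; simp)
    rwa [map_sub, map_add, map_smul, sub_eq_zero] at this
  have hG2 : ∀ k x, G (v (j k * x)) 1 = G (v (j k)) 1 + o k • G (v x) 1 := fun k x => by
    rw [hG1, Co.add_apply, ← jr_o, Co.jr_smul]
  have hG3 : ∀ k, G (v (j k)) 1 = 0 := fun k => by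
    have h1 : G (v (j 1)) 1 = 0 := by rw [hG _ (by rw [hv, map_one, o_one, sub_self])]; rfl
    induction (ht ▸ Subgroup.mem_top k : k ∈ Subgroup.closure (Set.range t))
      using Subgroup.closure_induction with
    | mem k hk =>
      obtain ⟨b, rfl⟩ := hk
      exact (congrArg (LinearMap.range μ).mkQ (h0 b)).trans (map_zero _)
    | one => exact h1
    | mul a b _ _ ha hb => rw [map_mul, hG2, ha, hb, smul_zero, add_zero]
    | inv a _ ha =>
      have := hG2 a⁻¹ (j a)
      rwa [← map_mul, inv_mul_cancel, h1, ha, smul_zero, add_zero, eq_comm] at this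
  obtain ⟨u, hu⟩ := σ.lift (LinearMap.range μ).mkQ (Co.mk (fun x => G (v x) 1) fun k x => by
    rw [hG2, hG3, zero_add]) fun x => Submodule.mkQ_surjective _ _
  have h1 : G = Co.map j (LinearMap.range μ).mkQ ∘ₗ LinearMap.toSpanSingleton _ _ u ∘ₗ dS s :=
    lin_ext fun i => Co.ext fun x => by
      have := hG (v (x * s i) - v x - o x • Pi.single i 1) (by
        rw [map_sub, map_sub, map_smul, hv, hv, dS_single, one_mul, smul_eq_mul, mul_sub, o_mul]
        simp)
      rw [map_sub, map_sub, map_smul, sub_eq_zero] at this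
      have h2 := congrArg (fun f => f 1) this
      simp only [Co.o_smul, one_mul] at h2
      rw [← h2]
      change _ = Co.map j _ (dS s (Pi.single i 1) • u) x
      rw [dS_single, one_mul, map_smul, hu, sub_smul, one_smul, Co.sub_apply, Co.sub_apply,
        Co.o_smul]
      rfl
  obtain ⟨F', hF'⟩ := σ.liftLin μ (F - LinearMap.toSpanSingleton _ _ u ∘ₗ dS s) fun y x =>
    (Submodule.Quotient.eq _).1 (congrArg (fun f => f y x) h1)
  refine ⟨F', fun y => Co.ext fun x => hμ ?_⟩
  rw [hF', LinearMap.sub_apply, LinearMap.comp_apply, y.2, map_zero, sub_zero, hF]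

/-- the group algebra over the field with two elements -/
def FK (K : Type) : Type := K →₀ ZMod 2

instance : AddCommGroup (FK K) := inferInstanceAs (AddCommGroup (K →₀ ZMod 2))

/-- the coefficients -/
def FK.c : FK K ≃+ (K →₀ ZMod 2) := AddEquiv.refl _

variable (K) in
/-- left translation -/
def fkAct : K →* AddMonoid.End (FK K) where
  toFun g := Finsupp.mapDomain.addMonoidHom (g * ·)
  map_one' := AddMonoidHom.ext fun m => by
    simp only [one_mul]
    exact Finsupp.mapDomain_id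
  map_mul' g h := AddMonoidHom.ext fun m => by
    simp only [mul_assoc]
    exact Finsupp.mapDomain_comp (f := (h * ·)) (g := (g * ·))

instance : Module ℤ[K] (FK K) :=
  Module.compHom (FK K) (MonoidAlgebra.lift ℤ (AddMonoid.End (FK K)) K (fkAct K)).toRingHom

theorem FK.c_smul (g : K) (m : FK K) (x : K) : FK.c (o g • m) x = FK.c m (g⁻¹ * x) := by
  have : FK.c (o g • m) = Finsupp.mapDomain (g * ·) (FK.c m) := by
    change (MonoidAlgebra.lift ℤ (AddMonoid.End (FK K)) K (fkAct K) (MonoidAlgebra.of ℤ K g)) m = _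
    rw [MonoidAlgebra.lift_of]
    rfl
  rw [this, ← Finsupp.mapDomain_apply (mul_right_injective g) _ (g⁻¹ * x), mul_inv_cancel_left]

theorem FK.ext {m m' : FK K} (h : ∀ x, FK.c m x = FK.c m' x) : m = m' := Finsupp.ext h

theorem FK.two (m : FK K) : m + m = 0 := FK.ext fun x => by
  rw [map_add, map_zero, Finsupp.add_apply]
  exact CharTwo.add_self_eq_zero _

theorem mapDomain_mul_right (a : K) (m : K →₀ ZMod 2) (x : K) :
    Finsupp.mapDomain (· * a) m x = m (x * a⁻¹) := by
  rw [← Finsupp.mapDomain_apply (mul_left_injective a) _ (x * a⁻¹), inv_mul_cancel_right]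

/-- right translation -/
def FK.r (a : K) : FK K →ₗ[ℤ[K]] FK K :=
  mkLin (FK.c.symm.toAddMonoidHom.comp ((Finsupp.mapDomain.addMonoidHom (· * a)).comp
    FK.c.toAddMonoidHom)) fun g m => FK.ext fun x => by
      rw [FK.c_smul]
      refine (mapDomain_mul_right a _ x).trans (Eq.trans ?_ (mapDomain_mul_right a _ _).symm)
      rw [mul_assoc]
      exact FK.c_smul _ _ _

theorem FK.c_r (a : K) (m : FK K) (x : K) : FK.c (FK.r a m) x = FK.c m (x * a⁻¹) :=
  mapDomain_mul_right a _ x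

/-- basis elements -/
def FK.e (x : K) : FK K := FK.c.symm (Finsupp.single x 1)

theorem FK.smul_e (g x : K) : o g • FK.e x = FK.e (g * x) := FK.ext fun y => by
  classical
  simp [FK.c_smul, FK.e, Finsupp.single_apply, eq_inv_mul_iff_mul_eq]

theorem FK.r_e (g x : K) : FK.r g (FK.e x) = FK.e (x * g) := FK.ext fun y => by
  classical
  simp [FK.c_r, FK.e, Finsupp.single_apply, eq_mul_inv_iff_mul_eq]

theorem FK.mem (J : AddSubgroup (FK K)) (h : ∀ x, FK.e x ∈ J) (m : FK K) : m ∈ J := by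
  obtain ⟨m, rfl⟩ := FK.c.symm.surjective m
  induction m using Finsupp.induction_linear with
  | zero => exact J.zero_mem
  | add a b ha hb => exact J.add_mem ha hb
  | single x c =>
    have : ∀ c : ZMod 2, c = 0 ∨ c = 1 := by decide
    rcases this c with rfl | rfl
    · rw [Finsupp.single_zero, map_zero]
      exact J.zero_mem
    · exact h x

/-- the sum of the coefficients -/
def FK.aug0 : FK K →+ ZMod 2 :=
  (Finsupp.linearCombination (ZMod 2) fun _ => (1 : ZMod 2)).toAddMonoidHom.comp FK.c.toAddMonoidHom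

theorem FK.aug0_e (x : K) : FK.aug0 (FK.e x) = 1 := by simp [FK.aug0, FK.e]

/-- the augmentation -/
def FK.aug : FK K →ₗ[ℤ[K]] Triv K (ZMod 2) :=
  mkLin FK.aug0 fun g m => by
    rw [Triv.o_smul]
    refine FK.mem (AddMonoidHom.eqLocus (FK.aug0.comp (DistribSMul.toAddMonoidHom _ (o g))) FK.aug0)
      (fun x => ?_) m
    change FK.aug0 (o g • FK.e x) = FK.aug0 (FK.e x)
    rw [FK.smul_e, FK.aug0_e, FK.aug0_e]

theorem FK.aug_surj : Function.Surjective (FK.aug (K := K)) := fun c => by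
  have : ∀ c : ZMod 2, c = 0 ∨ c = 1 := by decide
  rcases this c with h | h
  · exact ⟨0, (map_zero _).trans h.symm⟩
  · exact ⟨FK.e 1, (FK.aug0_e 1).trans h.symm⟩

end

end Pool.Agent.P.MP_5ee5b4_al
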