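import Pool.Agent.P.MP_5ee5b4_al.FGcase

/-! Finitely generated normal subgroups of infinite index without free subgroups. -/

namespace Pool.Agent.P.MP_5ee5b4_al

open Pool.Agent.P.MP_6e40fc_al
open scoped MonoidAlgebra

noncomputable section

set_option linter.unusedSectionVars false

variable {Γ K : Type} [Group Γ] [Group K] {ι β : Type} [Fintype ι] [Fintype β] [DecidableEq ι]
  {w : Γ →* ℤˣ} {s : ι → Γ} {N : Subgroup Γ} [N.Normal]

theorem z2_smul (u : ℤˣ) (m : ZMod 2) : (u : ℤ) • m = m :=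
  unit_smul CharTwo.add_self_eq_zero u m

theorem pair_bd (φ : ι → (Γ ⧸ N) →₀ ZMod 2) (F : Γ → ZMod 2)
    (hφ : ∀ i x, til2 w (φ i) x = F (x * s i) - F x) {z : ι → Co N.subtype (Triv N (ZMod 2))}
    (hz : z ∈ Bd _ w s) : ∑ i, pair 2 (z i) (φ i) = 0 := by
  induction hz using AddSubgroup.closure_induction with
  | mem z hz =>
    obtain ⟨a, v, hv, rfl⟩ := hz
    have : ∑ i, Tw 2 w N (v i) (φ i) = 0 := til2_inj w fun x => by
      have := extAdd_dS (fun y => F (x * y)) s v
      rw [hv, map_zero] at this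
      simp only [til2_sum, til2_Tw, hφ, mul_assoc, ← this]
      simp [til2]
    simp only [ract, pair_conj, LinearMap.comp_apply, ← map_sum, this, map_zero]
  | zero => simp [pair_zero]
  | add x y _ _ hx hy =>
    simp only [Pi.add_apply, pair_add, LinearMap.add_apply, Finset.sum_add_distrib, hx, hy, add_zero]
  | neg x _ hx =>
    have : ∀ i, pair 2 (-x i) = -pair 2 (x i) := fun i =>
      map_neg (AddMonoidHom.mk' (pair 2) pair_add) (x i)
    simp only [Pi.neg_apply, this, LinearMap.neg_apply, Finset.sum_neg_distrib, hx, neg_zero]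

theorem exists_cycles (hs : Subgroup.closure (Set.range s) = ⊤) (E : ℕ → Set (Γ ⧸ N))
    (hE : ∀ j, AI (QuotientGroup.mk' N '' Set.range s) (E j) ∧ (E j).Infinite)
    (hE' : ∀ i j x, x ∈ E i → x ∈ E j → i = j) :
    ∃ z : (ℕ → ZMod 2) → ι → Co N.subtype (Triv N (ZMod 2)), (∀ a, Cyc w s (z a)) ∧
      ∀ a a', z a - z a' ∈ Bd _ w s → a = a' := by
  classical
  let F : ℕ → Γ → ZMod 2 := fun k x => if (x : Γ ⧸ N) ∈ E k then 1 else 0
  choose φ hφ using fun k i => exists_til2 (K := N) w (fun x => F k (x * s i) - F k x)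
    (fun n x => by simp only [F, z2_smul, mul_assoc, mk_mul_left n.2])
    ((((hE k).1 _ ⟨_, ⟨i, rfl⟩, rfl⟩).preimage (f := fun q => q⁻¹) inv_injective.injOn).subset
      fun q hq h => hq (by
        simp only [F, QuotientGroup.mk_mul, QuotientGroup.mk_inv, QuotientGroup.out_eq']
        rw [if_congr h rfl rfl]
        exact sub_self _))
  let δ : ((Γ ⧸ N) →₀ ZMod 2) →ₗ[ZMod 2] ι → (Γ ⧸ N) →₀ ZMod 2 :=
    LinearMap.pi fun i => Tw 2 w N (o (s i) - 1)
  obtain ⟨g, hg⟩ := LinearMap.exists_leftInverse_of_injective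
    ((LinearMap.range δ).mkQ ∘ₗ Finsupp.linearCombination (ZMod 2) φ) (by
      refine LinearMap.ker_eq_bot'.2 fun c hc => ?_
      obtain ⟨v, hv⟩ := (Submodule.Quotient.mk_eq_zero _).1 hc
      have h1 := const_of_edges' hs (fun x => ∑ k ∈ c.support, c k * F k x - til2 w v x) fun x i => by
        have := congrArg (fun ψ => til2 w (ψ i) x) hv
        simp only [δ, LinearMap.pi_apply, til2_Tw] at this
        simp only [map_sub, ← o_one (G := Γ), extAdd_o, mul_one,
          Finsupp.linearCombination_apply, Finsupp.sum, Finset.sum_apply, til2_sum, Pi.smul_apply,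
          til2_smul, hφ, mul_sub, Finset.sum_sub_distrib] at this
        linear_combination -this
      have h2 : ∀ k, ∃ x : Γ, ∑ k ∈ c.support, c k * F k x - til2 w v x = c k := fun k => by
        obtain ⟨q, hq, hq'⟩ := ((hE k).2.sdiff (v.support.finite_toSet.preimage (f := fun q => q⁻¹)
          inv_injective.injOn)).nonempty
        obtain ⟨x, rfl⟩ := QuotientGroup.mk_surjective q
        refine ⟨x, ?_⟩
        rw [til2, show v ((x⁻¹ : Γ) : Γ ⧸ N) = 0 from Finsupp.notMem_support_iff.1 hq', smul_zero,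
          sub_zero, Finset.sum_eq_single k]
        · simp [F, hq]
        · exact fun j _ hj => by simp only [F, if_neg fun h => hj (hE' _ _ _ h hq), mul_zero]
        · exact fun h => by rw [Finsupp.notMem_support_iff.1 h, zero_mul]
      obtain ⟨j, hj⟩ := c.support.exists_notMem
      refine Finsupp.ext fun k => ?_
      obtain ⟨x, hx⟩ := h2 k
      obtain ⟨y, hy⟩ := h2 j
      rw [← hx, h1 x y, hy, Finsupp.notMem_support_iff.1 hj]
      rfl)
  let ζ : (ℕ → ZMod 2) → (ι → (Γ ⧸ N) →₀ ZMod 2) →ₗ[ZMod 2] ZMod 2 := fun a =>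
    Finsupp.linearCombination (ZMod 2) a ∘ₗ g ∘ₗ (LinearMap.range δ).mkQ
  let z : (ℕ → ZMod 2) → ι → Co N.subtype (Triv N (ZMod 2)) := fun a i =>
    Co.mk (fun x => ζ a (Pi.single i (Finsupp.single (x⁻¹ : Γ) 1))) fun k x =>
      Eq.trans (by rw [mul_inv_rev, Subgroup.coe_subtype,
        QuotientGroup.mk_mul_of_mem _ (N.inv_mem k.2)]) (Triv.o_smul _ _).symm
  have hz : ∀ a ψ, ∑ i, pair 2 (z a i) (ψ i) = ζ a ψ := fun a ψ => by
    have hu : ∀ i, pair 2 (z a i) = ζ a ∘ₗ LinearMap.single (ZMod 2) _ i := fun i =>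
      pair_ext fun x => by rw [pair_single, one_smul]; rfl
    simp only [hu, LinearMap.comp_apply, ← map_sum, LinearMap.single_apply,
      Finset.univ_sum_single]
  refine ⟨z, fun a => Co.ext fun x => ?_, fun a a' h => funext fun k => ?_⟩
  · have h1 := pair_single (p := 2) (∑ i, conj w (o (s i) - 1) • z a i) x 1
    rw [one_smul, pair_sum, LinearMap.sum_apply] at h1
    simp only [pair_conj, LinearMap.comp_apply, hz] at h1
    refine h1.symm.trans ?_
    have h2 : (LinearMap.range δ).mkQ (δ (Finsupp.single (x⁻¹ : Γ) 1)) = 0 :=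
      (Submodule.Quotient.mk_eq_zero _).2 ⟨_, rfl⟩
    change Finsupp.linearCombination (ZMod 2) a (g ((LinearMap.range δ).mkQ (δ _))) = _
    rw [h2, map_zero, map_zero]
    rfl
  · have h1 := pair_bd (φ k) (F k) (hφ k) h
    have h2 : ∀ i, pair 2 (z a i - z a' i) = pair 2 (z a i) - pair 2 (z a' i) := fun i =>
      map_sub (AddMonoidHom.mk' (pair 2) pair_add) _ _
    have h3 : ∀ a, ζ a (φ k) = a k := fun a => by
      have := LinearMap.congr_fun hg (Finsupp.single k 1)
      simp only [LinearMap.comp_apply, Finsupp.linearCombination_single, one_smul,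
        LinearMap.id_apply] at this
      simp only [ζ, LinearMap.comp_apply, this, Finsupp.linearCombination_single, one_smul]
    simp only [Pi.sub_apply, h2, LinearMap.sub_apply, Finset.sum_sub_distrib, hz, h3] at h1
    exact sub_eq_zero.1 h1

theorem lift_cycle (hs : Subgroup.closure (Set.range s) = ⊤) (j : K →* Γ)
    (hj : Function.Injective j) (hK : ¬ j.range.FiniteIndex) {M M' : Type} [AddCommGroup M]
    [Module ℤ[K] M] [AddCommGroup M'] [Module ℤ[K] M'] (π : M →ₗ[ℤ[K]] M')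
    (hπ : Function.Surjective π) (z : ι → Co j M') (hz : Cyc w s z) :
    ∃ z' : ι → Co j M, Cyc w s z' ∧ Co.map j π ∘ z' = z := by
  obtain ⟨σ⟩ := exists_sec hj
  obtain ⟨T, hT, hT'⟩ := exists_symm_gen ((Group.fg_iff).2 ⟨_, hs, Set.finite_range s⟩)
  choose z0 hz0 using fun i => σ.lift π (z i) fun x => hπ _
  choose v hv using exists_dS hs
  have h1 : Co.map j π (cact (tc w (πc s)) z0 ()) = 0 := by
    refine Eq.trans ?_ (congrFun ((cyc_iff w s z).1 hz) ())
    rw [← (funext hz0 : Co.map j π ∘ z0 = z), cact_map]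
    rfl
  obtain ⟨ω, hω⟩ := σ.lift (LinearMap.ker π).subtype (cact (tc w (πc s)) z0 ()) fun x =>
    ⟨⟨_, congrArg (fun f => f x) h1⟩, rfl⟩
  obtain ⟨Ω, hΩ⟩ := coinv_vanish j hK T hT hT' w ω
  refine ⟨z0 - ∑ a ∈ T, ract w (Co.map j (LinearMap.ker π).subtype (Ω a)) (v a),
    (cyc_iff w s _).2 (funext fun ⟨⟩ => ?_), funext fun i => ?_⟩
  · rw [map_sub, map_sum, Pi.sub_apply, Finset.sum_apply, ← hω, hΩ, map_sum]
    simp only [bd_ract, hv, map_sub, conj_o, conj_one, map_smul, map_inv, Int.units_inv_eq_self]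
    exact sub_self _
  · rw [Function.comp_apply, Pi.sub_apply, map_sub, hz0, Finset.sum_apply, map_sum, sub_eq_self]
    refine Finset.sum_eq_zero fun a _ => ?_
    rw [ract, map_smul]
    convert smul_zero _
    exact Co.ext fun x => (Ω a x).2

theorem DD.oneEnd (D : DD w s) (hs : Subgroup.closure (Set.range s) = ⊤) [Infinite N]
    (hN : ¬ N.FiniteIndex) {t : β → N} (ht : Subgroup.closure (Set.range t) = ⊤)
    (hvc : ¬ VC (Γ ⧸ N)) : OneEnd (QuotientGroup.mk' N '' Set.range s) := by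
  classical
  by_contra hcon
  obtain ⟨E, hE, hE'⟩ := exists_disj_family (closure_image_mk hs) ((Set.finite_range s).image _)
    hcon hvc
  obtain ⟨z, hz, hz'⟩ := exists_cycles (w := w) hs E hE hE'
  choose z' h1 h2 using fun a => lift_cycle hs N.subtype Subtype.val_injective
    (by rwa [Subgroup.range_subtype]) FK.aug FK.aug_surj (z a) (hz a)
  choose f hf using fun a => D.sur _ (z' a) (h1 a)
  let μ : FK N →ₗ[ℤ[N]] β → FK N := LinearMap.pi fun b => FK.r (t b) - LinearMap.id
  have hμ : Function.Injective μ := (injective_iff_map_eq_zero _).2 fun m hm => by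
    obtain ⟨y, hy⟩ := (FK.c m).support.exists_notMem
    refine FK.ext fun x => (const_of_edges' ht (fun x => FK.c m x) (fun x b => ?_) x y).trans
      (Finsupp.notMem_support_iff.1 hy)
    have := congrArg (fun m => FK.c m (x * t b)) (sub_eq_zero.1 (congrFun hm b))
    simp only [FK.c_r, mul_inv_cancel_right] at this
    exact this.symm
  choose F hF using fun a => (D.ext _ (Co.map N.subtype μ ∘ₗ f a)).1 (push_cycle w hs hN ht _
    (D.cyc _ _) fun i x => by
      rw [show (Co.map N.subtype μ ∘ₗ f a) ∘ D.ρ = Co.map N.subtype μ ∘ (f a ∘ D.ρ) from rfl,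
        cact_map]
      change μ (cact D.X (f a ∘ D.ρ) i x) ∈ _
      refine AddSubgroup.mem_comap.1 (FK.mem (AddSubgroup.comap μ.toAddMonoidHom _) (fun y => ?_) _)
      rw [AddSubgroup.mem_comap, LinearMap.toAddMonoidHom_coe]
      rw [← Finset.univ_sum_single (μ _)]
      refine AddSubgroup.sum_mem _ fun b _ => AddSubgroup.subset_closure
        ⟨y * t b * y⁻¹, Pi.single b (FK.e y), ?_⟩
      rw [unit_smul fun m => funext fun b => FK.two (m b), ← Pi.single_smul, FK.smul_e,
        ← Pi.single_sub, inv_mul_cancel_right, ← FK.r_e]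
      rfl)
  choose v hv using exists_dS hs
  have : Countable N := by
    refine Function.Surjective.countable (f := FreeGroup.lift t) ?_
    rwa [← MonoidHom.range_eq_top, FreeGroup.range_lift_eq_closure]
  have : Countable (FK N) := inferInstanceAs (Countable (N →₀ ZMod 2))
  obtain ⟨e, he⟩ := exists_injective_nat (β → β → FK N)
  have hinj : Function.Injective fun a => e fun b => F a (v (t b)) 1 := fun a a' h => hz' a a' (by
    have h3 := (D.ext _ (f a - f a')).2 (ext_of_der N.subtype Subtype.val_injective ht μ hμ v hv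
      (f a - f a') (F a - F a') (fun y x => by
        rw [LinearMap.sub_apply, LinearMap.sub_apply, hF, hF, Co.sub_apply, Co.sub_apply, map_sub]
        rfl) fun b => sub_eq_zero.2 (congrFun (he h) b))
    rw [show (f a - f a') ∘ D.ρ = f a ∘ D.ρ - f a' ∘ D.ρ from rfl, map_sub] at h3
    have h4 := bd_map (AddSubgroup.add_mem _ (AddSubgroup.sub_mem _ h3 (hf a)) (hf a'))
      (Co.map N.subtype FK.aug)
    convert h4 using 1
    rw [← h2, ← h2]
    funext i
    simp)
  obtain ⟨g, hg⟩ := hinj.hasLeftInverse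
  obtain ⟨n, hn⟩ := hg.surjective fun n => g n n + 1
  simpa using congrFun hn n

theorem oe_of_fg [Infinite (Γ ⧸ N)] (hs : Subgroup.closure (Set.range s) = ⊤) {t : β → N}
    (ht : Subgroup.closure (Set.range t) = ⊤) (h : OneEnd (QuotientGroup.mk' N '' Set.range s)) :
    OE N (Set.range s) := by
  intro B hB
  obtain ⟨C, hC0, hC, hC3⟩ := exists_conn_finite hs (Set.finite_range fun b => (t b : Γ))
  let B1 := Set.image2 (fun q (c : Γ) => q * (c : Γ ⧸ N)⁻¹) B C
  have h1 : ∀ x : Γ, (x : Γ ⧸ N) ∉ B1 → ∀ n : N, Rel (Set.range s) {z | (z : Γ ⧸ N) ∈ B} x (x * n) :=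
    fun x hx n => (const_of_edges ht
      (fun n : N => Rel (Set.range s) {z | (z : Γ ⧸ N) ∈ B} x (x * n)) (by
        rintro n _ ⟨b, rfl⟩
        have := hC.rel (U := {z : Γ | (z : Γ ⧸ N) ∈ B}) (x * n) (fun c hc h => hx ⟨_, h, c, hc, by
          simp⟩) (hC3 ⟨b, rfl⟩)
        rw [mul_assoc] at this
        exact ⟨fun h => h.trans this, fun h => h.trans this.symm⟩) n).2
      (by simpa using Rel.refl _ _ x)
  have h2 : ∀ x y : Γ, (x : Γ ⧸ N) ∉ B1 → (x : Γ ⧸ N) = y →
      Rel (Set.range s) {z | (z : Γ ⧸ N) ∈ B} x y := fun x y hx e => by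
    simpa using h1 x hx ⟨_, QuotientGroup.eq.1 e⟩
  have h3 : B ⊆ B1 := fun q hq => ⟨q, hq, 1, hC.1, by simp⟩
  obtain ⟨B', hB', h4⟩ := h.rel (closure_image_mk hs) ((Set.finite_range s).image _)
    (B := B1) (hB.image2 _ hC0)
  refine ⟨B' ∪ B1, hB'.union (hB.image2 _ hC0), fun x y hx hy => ?_⟩
  rw [Set.mem_union, not_or] at hx hy
  obtain ⟨y', h5, h6⟩ := (h4 _ _ hx.1 hy.1 (fun q => ∃ y : Γ, (y : Γ ⧸ N) = q ∧
    Rel (Set.range s) {z | (z : Γ ⧸ N) ∈ B} x y) (by
      rintro q _ ⟨a, ha, rfl⟩ h5 h6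
      obtain ⟨u, rfl⟩ := QuotientGroup.mk_surjective q
      have h7 : Rel (Set.range s) {z | (z : Γ ⧸ N) ∈ B} u (u * a) :=
        Rel.edge ha (fun h => h5 (h3 h)) fun h => h6 (h3 h)
      exact ⟨fun ⟨y, e, h8⟩ => ⟨u * a, rfl, (h8.trans (h2 u y h5 e.symm).symm).trans h7⟩,
        fun ⟨y, e, h8⟩ => ⟨u, rfl, (h8.trans (h2 (u * a) y h6 e.symm).symm).trans h7.symm⟩⟩)).1
    ⟨x, rfl, Rel.refl _ _ _⟩
  exact h6.trans (h2 y y' hy.2 h5.symm).symm

end

end Pool.Agent.P.MP_5ee5b4_al
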