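import Pool.Agent.P.MP_5ee5b4_al.Strebel

/-! Subgroups of finite index in Poincare duality groups. -/

namespace Pool.Agent.P.MP_5ee5b4_al

open Pool.Agent.P.MP_6e40fc_al CategoryTheory Limits
open scoped MonoidAlgebra

noncomputable section

variable {G : Type} [Group G] (S : Subgroup G)

open Classical in
/-- the canonical generator of the coinduced regular representation -/
def gen0 : Rep.coind S.subtype (Rep.leftRegular ℤ S) :=
  ⟨fun g => if h : g ∈ S then o (⟨g, h⟩ : S) else 0, fun s g => by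
    change (if h : (s : G) * g ∈ S then o (⟨s * g, h⟩ : S) else 0) =
      (Rep.leftRegular ℤ S).ρ s (if h : g ∈ S then o (⟨g, h⟩ : S) else 0)
    by_cases hg : g ∈ S
    · rw [dif_pos (S.mul_mem s.2 hg), dif_pos hg, ← act_of, act_leftRegular]
      exact (o_mul s ⟨g, hg⟩).symm
    · rw [dif_neg (by rwa [S.mul_mem_cancel_left s.2]), dif_neg hg, map_zero]⟩

theorem gen0_coeff (a : ℤ[G]) (x : G) (s : S) :
    (((Rep.leftRegularHom _ (gen0 S)).hom a).1 x).coeff s = a.coeff (x⁻¹ * s) := by
  classical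
  induction a using zg_induction with
  | ho g =>
    rw [o, MonoidAlgebra.of_apply, Rep.leftRegularHom_hom_single, one_smul]
    change (if h : x * g ∈ S then o (⟨x * g, h⟩ : S) else 0).coeff s = _
    split_ifs with h
    · simp only [o, MonoidAlgebra.of_apply, MonoidAlgebra.coeff_single, Finsupp.single_apply]
      exact if_congr (by rw [Subtype.ext_iff, eq_inv_mul_iff_mul_eq]) rfl rfl
    · rw [MonoidAlgebra.coeff_single, Finsupp.single_apply, if_neg]
      · rfl
      · rintro rfl
        exact h (by simp)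
  | hadd a b ha hb =>
    rw [map_add, MonoidAlgebra.coeff_add, Finsupp.add_apply, ← ha, ← hb]; rfl
  | hsmul n a ha =>
    rw [map_smul, MonoidAlgebra.coeff_smul, Finsupp.smul_apply, ← ha]; rfl

theorem exists_transversal [S.FiniteIndex] : ∃ T : Finset G, ∀ g, ∃ s ∈ S, ∃ τ ∈ T, g = s * τ := by
  classical
  haveI := Fintype.ofFinite (G ⧸ S)
  refine ⟨Finset.univ.image fun q : G ⧸ S => q.out⁻¹, fun g => ?_⟩
  obtain ⟨s, hs⟩ := QuotientGroup.mk_out_eq_mul S g⁻¹
  exact ⟨s, s.2, _, Finset.mem_image_of_mem _ (Finset.mem_univ (QuotientGroup.mk g⁻¹)), by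
    rw [hs]; group⟩

theorem gen0_bijective [S.FiniteIndex] :
    Function.Bijective (Rep.leftRegularHom _ (gen0 S)).hom := by
  refine ⟨(injective_iff_map_eq_zero _).2 fun a ha => ?_, fun f => ?_⟩
  · apply MonoidAlgebra.coeff_injective
    ext y
    have := gen0_coeff S a y⁻¹ 1
    rw [ha] at this
    simpa using this.symm
  · obtain ⟨T, hT⟩ := exists_transversal S
    have h1 : ∀ (s s' : S) x, (f.1 (s * x)).coeff s' = (f.1 x).coeff (s⁻¹ * s') := fun s s' x => by
      have := f.2 s x
      rw [S.coe_subtype] at this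
      rw [this, ← coeff_o_mul, ← act_leftRegular, o, act_of]
    have h2 : (Function.support fun y : G => (f.1 y⁻¹).coeff 1).Finite := by
      refine (T.finite_toSet.biUnion fun τ _ => (f.1 τ).coeff.support.finite_toSet.image
        fun s : S => τ⁻¹ * s).subset fun y hy => ?_
      obtain ⟨s, hs, τ, hτ, e⟩ := hT y⁻¹
      refine Set.mem_biUnion hτ ⟨(⟨s, hs⟩ : S)⁻¹, Finsupp.mem_support_iff.2 ?_, ?_⟩
      · have := h1 ⟨s, hs⟩ 1 τ
        rw [mul_one] at this
        rw [← this]
        rwa [Function.mem_support, e] at hy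
      · rw [← inv_inv y, e]
        simp
    refine ⟨MonoidAlgebra.ofCoeff (Finsupp.ofSupportFinite _ h2), Subtype.ext (funext fun x => ?_)⟩
    apply MonoidAlgebra.coeff_injective
    ext s
    rw [gen0_coeff]
    change (f.1 (x⁻¹ * s)⁻¹).coeff 1 = _
    have := h1 s⁻¹ 1 x
    rw [inv_inv, mul_one] at this
    rw [← this]
    simp

theorem isPD_of_finiteIndex [S.FiniteIndex] {n : ℕ} (hG : IsPD n G) : IsPD n S := by
  classical
  obtain ⟨⟨P, hfin, N, hN⟩, h0, ⟨h3⟩⟩ := hG
  let e : ∀ i, groupCohomology (Rep.leftRegular ℤ G) i ≅ groupCohomology (Rep.leftRegular ℤ S) i :=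
    fun i => (groupCohomology.functor ℤ G i).mapIso (Rep.mkIso
      ((Rep.leftRegularHom _ (gen0 S)).hom.ofBijective (gen0_bijective S))) ≪≫
        groupCohomology.coindIso _ i
  refine ⟨⟨(Rep.resFunctor S.subtype).mapProjectiveResolution P, fun i => ?_, N, fun i hi => ?_⟩,
    fun i hi => (e i).symm.isZero_iff.2 (h0 i hi), ⟨(e n).symm.toLinearEquiv.toAddEquiv.trans h3⟩⟩
  · obtain ⟨m, y, hy⟩ := exists_surjective_of_finite _ (hfin i)
    obtain ⟨T, hT⟩ := exists_transversal S
    let A := Rep.res S.subtype (P.complex.X i)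
    let z : T × Fin m → A := fun p => (P.complex.X i).ρ p.1 (y p.2)
    refine finite_of_surjective A z fun a => ?_
    obtain ⟨x, rfl⟩ := hy a
    rw [homOf_apply]
    refine AddSubgroup.sum_mem (AddMonoidHom.range (AddMonoidHom.mk' (homOf A z).hom
      (map_add (homOf A z).hom))) fun k _ => ?_
    induction x k using zg_induction with
    | ho g =>
      obtain ⟨s, hs, τ, hτ, rfl⟩ := hT g
      refine ⟨act _ (o ⟨s, hs⟩) (Pi.single (⟨τ, hτ⟩, k) 1), ?_⟩
      change (homOf A z).hom _ = _
      rw [hom_act, homOf_single, o, o, act_of, act_of, map_mul]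
      rfl
    | hadd a b ha hb => rw [act_add]; exact AddSubgroup.add_mem _ ha hb
    | hsmul c a ha =>
      obtain ⟨v, hv⟩ := ha
      refine ⟨act (freeRep ℤ S (T × Fin m)) (c • 1) v, ?_⟩
      change (homOf A z).hom _ = _
      rw [hom_act, act_zsmul, act_zsmul, act_one, ← hv]
      rfl
  · exact (Rep.resFunctor S.subtype).map_isZero (hN i hi)

end

end Pool.Agent.P.MP_5ee5b4_al
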