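import Pool.Agent.P.MP_5ee5b4_al.Defs
import Pool.Agent.P.MP_5ee5b4_al.B1
import Pool.Agent.P.MP_5ee5b4_al.Asc
import Pool.Agent.P.MP_5ee5b4_al.FinIdx

/-! The main theorem. -/

namespace Pool.Agent.P.MP_5ee5b4_al

open Pool.Agent.P.MP_6e40fc_al
open scoped MonoidAlgebra

noncomputable section

variable {Γ Γ' : Type} [Group Γ] [Group Γ']

theorem exists_normalized (χ : Γ →* Multiplicative ℤ) {ν : Γ} (hν : lv χ ν ≠ 0) :
    ∃ (χ' : Γ →* Multiplicative ℤ) (t : Γ), lv χ' t = 1 ∧ χ'.ker = χ.ker := by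
  obtain ⟨a, ha⟩ := Int.subgroup_cyclic (AddSubgroup.toSubgroup.symm χ.range)
  have h1 : ∀ x, a ∣ lv χ x := fun x => by
    have : lv χ x ∈ AddSubgroup.toSubgroup.symm χ.range := ⟨x, rfl⟩
    rw [ha, AddSubgroup.mem_closure_singleton] at this
    obtain ⟨n, hn⟩ := this
    exact ⟨n, by rw [← hn, smul_eq_mul, mul_comm]⟩
  obtain ⟨t, ht⟩ : a ∈ AddSubgroup.toSubgroup.symm χ.range :=
    ha ▸ AddSubgroup.subset_closure rfl
  have ht' : lv χ t = a := congrArg Multiplicative.toAdd ht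
  have ha0 : a ≠ 0 := fun h => hν (by simpa [h] using h1 ν)
  refine ⟨MonoidHom.mk' (fun x => Multiplicative.ofAdd (lv χ x / a)) fun x y => ?_, t, ?_, ?_⟩
  · rw [lv_mul, Int.add_ediv_of_dvd_left (h1 x), ofAdd_add]
  · change lv χ t / a = 1
    rw [ht', Int.ediv_self ha0]
  · ext x
    rw [← lv_eq_zero, ← lv_eq_zero]
    change lv χ x / a = 0 ↔ _
    obtain ⟨n, hn⟩ := h1 x
    rw [hn, Int.mul_ediv_cancel_left _ ha0]
    simp [ha0]

theorem exists_family (hΓ : Group.FG Γ) (t : Γ) : ∃ T : Finset Γ,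
    Subgroup.closure (Set.range (Subtype.val : T → Γ)) = ⊤ ∧
      t ∈ Set.range (Subtype.val : T → Γ) := by
  classical
  obtain ⟨S, hS⟩ := hΓ.1
  exact ⟨insert t S, eq_top_iff.2 (hS ▸ Subgroup.closure_mono fun x hx => ⟨⟨x, Finset.mem_insert_of_mem hx⟩, rfl⟩),
    by simp⟩

theorem NF.comap {N : Subgroup Γ'} (h : NF N) (f : Γ →* Γ') (hf : Function.Injective f) :
    NF (N.comap f) := fun a ha b hb k0 => by
  obtain ⟨k, hk, h'⟩ := h _ ha _ hb k0
  refine ⟨k, hk, fun h'' => h' ?_⟩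
  have : FreeGroup.lift ![f a ^ (2 * k), f b ^ (2 * k)] =
      f.comp (FreeGroup.lift ![a ^ (2 * k), b ^ (2 * k)]) :=
    FreeGroup.ext_hom _ _ fun i => by fin_cases i <;> simp
  rw [this]
  exact hf.comp h''

theorem NF.mono {N L : Subgroup Γ} (h : NF N) (hL : L ≤ N) : NF L :=
  fun a ha b hb => h a (hL ha) b (hL hb)

theorem NF.top {N : Subgroup Γ} (h : NF N) [hN : N.FiniteIndex] : NF (⊤ : Subgroup Γ) := by
  intro a _ b _ k0
  have hp : ∀ x : Γ, x ^ N.index.factorial ∈ N := fun x =>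
    Subgroup.pow_mem_of_index_ne_zero_of_dvd hN.index_ne_zero x fun m => Nat.dvd_factorial
  obtain ⟨k, hk, h'⟩ := h _ (hp a) _ (hp b) k0
  refine ⟨N.index.factorial * k, hk.trans (Nat.le_mul_of_pos_left _ (Nat.factorial_pos _)), ?_⟩
  rwa [← pow_mul, ← pow_mul, mul_left_comm] at h'

theorem NoFree.nf {L : Subgroup Γ} (h : NoFree L) : NF L := fun a ha b hb k => ⟨k, le_rfl, fun hf => by
  set f := FreeGroup.lift ![a ^ (2 * k), b ^ (2 * k)] with hf'
  have h1 : f.range ≤ L := by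
    rw [hf', FreeGroup.range_lift_eq_closure, Subgroup.closure_le]
    rintro _ ⟨i, rfl⟩
    fin_cases i
    · exact L.pow_mem ha _
    · exact L.pow_mem hb _
  have h2 := h f.range h1 (IsFreeGroup.ofMulEquiv (MonoidHom.ofInjective hf))
    ⟨_, FreeGroup.of 0, rfl⟩ ⟨_, FreeGroup.of 1, rfl⟩
  have h3 : (FreeGroup.of 0 * FreeGroup.of 1 : FreeGroup (Fin 2)) =
      FreeGroup.of 1 * FreeGroup.of 0 := hf (by
    rw [map_mul, map_mul]; exact congrArg Subtype.val h2)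
  exact absurd h3 (by decide)⟩

theorem solvable_of_ker (χ : Γ →* Multiplicative ℤ) (h : Group.IsSolvable χ.ker) :
    Group.IsSolvable Γ :=
  Group.isSolvable_of_ker_le_range χ.ker.subtype χ (by rw [Subgroup.range_subtype])

theorem PD2.solvable (hH : Group.FG Γ) (h2 : PD2 Γ) [Infinite Γ] (hN : NF (⊤ : Subgroup Γ)) :
    Group.IsSolvable Γ := by
  obtain ⟨ψ0, x, hx⟩ := exists_hom hH h2
  obtain ⟨ψ, t, ht, -⟩ := exists_normalized ψ0 hx
  obtain ⟨T, hT, htT⟩ := exists_family hH t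
  obtain ⟨w, hw⟩ := id h2
  obtain ⟨θ, m0, g, h3, -⟩ := hw T Subtype.val hT
  have hK : (LinearMap.ker (dS (Subtype.val : T → Γ))).FG := by
    rw [← Submodule.fg_top]
    have : (⊤ : Submodule ℤ[Γ] (LinearMap.ker (dS (Subtype.val : T → Γ)))) =
        Submodule.span ℤ[Γ] {m0} ⊔ LinearMap.range g := (eq_top_iff.2 fun k _ => by
      rw [h3 k]
      exact Submodule.add_mem_sup (Submodule.smul_mem _ _ (Submodule.subset_span rfl))
        ⟨_, rfl⟩).symm
    rw [this]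
    exact (Submodule.fg_span_singleton _).sup (Submodule.fg_range _)
  obtain ⟨v, B, -, hB, hB', h4⟩ := dichotomy hT hK ψ t ht htT ⊤ hN t trivial (by omega)
  have hBi : ¬ B.FiniteIndex := fun h => by
    obtain ⟨k, hk, -, hk'⟩ := Subgroup.exists_pow_mem_of_index_ne_zero h.index_ne_zero t
    have := (lv_eq_zero ψ).2 (hB' hk')
    rw [lv_pow, ht] at this
    omega
  refine solvable_of_ker ψ (Group.isSolvable_of_comm fun a b => Subtype.ext ?_)
  obtain ⟨m, hm⟩ := h4 a ((lv_eq_zero ψ).2 a.2)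
  obtain ⟨n, hn⟩ := h4 b ((lv_eq_zero ψ).2 b.2)
  have := comm_of_infiniteIndex hH h2 B hB hBi (hN.mono le_top) (hm (m + n) (by omega))
    (hn (m + n) (by omega))
  apply (MulAut.conj (v ^ (m + n))).injective
  simpa only [Subgroup.coe_mul, map_mul, MulAut.conj_apply, inv_pow] using this

theorem PD2.solvable_sub (hH : Group.FG Γ) (h2 : PD2 Γ) [Infinite Γ] (M : Subgroup Γ)
    (hM : NF M) : Group.IsSolvable M := by
  by_cases hi : M.FiniteIndex
  · haveI := h2.solvable hH hM.top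
    infer_instance
  · refine Group.isSolvable_of_comm fun a b => Subtype.ext ?_
    have hle : Subgroup.closure {(a : Γ), (b : Γ)} ≤ M := (Subgroup.closure_le _).2 (by
      rintro _ (rfl | rfl)
      · exact a.2
      · exact b.2)
    exact comm_of_infiniteIndex hH h2 _ ((Subgroup.fg_iff _).2 ⟨_, rfl, Set.toFinite _⟩)
      (fun h => hi (Subgroup.finiteIndex_of_le hle)) (hM.mono hle)
      (Subgroup.subset_closure (by simp)) (Subgroup.subset_closure (by simp))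

theorem main0 (hG : IsPD 3 Γ) (N : Subgroup Γ) [N.Normal] (hN : NF N)
    (χ0 : Γ →* Multiplicative ℤ) (ν : Γ) (hν : ν ∈ N) (hχ : lv χ0 ν ≠ 0) :
    χ0.ker.FG ∧ ∃ K : Subgroup Γ, K.FiniteIndex ∧
      ∀ L : Subgroup Γ, NF L → L ≤ K → Group.IsSolvable L := by
  obtain ⟨χ, t, ht, hker⟩ := exists_normalized χ0 hχ
  obtain ⟨n0, n1, n2, m0, P, P', w, hP, ex2⟩ := exists_pres2 hG
  obtain ⟨T, hT, htT⟩ := exists_family (fg_of_pres P) t
  obtain ⟨v, B, h1, h2, h3, h4⟩ := dichotomy hT (fp2 P hT) χ t ht htT N hN ν hν fun h =>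
    hχ ((lv_eq_zero _).2 (hker ▸ (lv_eq_zero _).1 h))
  obtain ⟨h5, h6, h7⟩ := ker_fg P P' w hP χ t ht v B h1 h2 h3 h4
  refine ⟨hker ▸ h5, ?_⟩
  let F : Fib χ.ker.subtype χ :=
    { t := t
      ht := ht
      inj := Subtype.val_injective
      hj := fun k => (lv_eq_zero χ).2 k.2
      κ := fun x => ⟨x * t ^ (-lv χ x), (lv_eq_zero χ).1 (by simp [ht])⟩
      hκ := fun x => by simp }
  have h8 := pd2 F P P' w hP ex2 h6 h7
  rcases finite_or_infinite χ.ker with hf | hf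
  · refine ⟨(MulAut.conjNormal : Γ →* MulAut χ.ker).ker, inferInstance, fun L _ hL => ?_⟩
    refine solvable_of_ker (χ.comp L.subtype) (Group.isSolvable_of_comm fun a b => ?_)
    have := DFunLike.congr_fun ((MonoidHom.mem_ker).1 (hL a.1.2)) ⟨b.1.1, b.2⟩
    have h9 : (a.1.1 : Γ) * b.1.1 * (a.1.1)⁻¹ = b.1.1 := congrArg Subtype.val this
    exact Subtype.ext (Subtype.ext (mul_inv_eq_iff_eq_mul.1 h9))
  · refine ⟨⊤, inferInstance, fun L hL _ => solvable_of_ker (χ.comp L.subtype) ?_⟩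
    haveI := h8.solvable_sub ((Group.fg_iff_subgroup_fg _).2 h5) (L.comap χ.ker.subtype)
      (hL.comap _ Subtype.val_injective)
    let f : (χ.comp L.subtype).ker →* L.comap χ.ker.subtype :=
      { toFun := fun a => ⟨⟨a.1.1, a.2⟩, a.1.2⟩
        map_one' := rfl
        map_mul' := fun _ _ => rfl }
    exact Group.isSolvable_of_isSolvable_injective (f := f) fun a b h =>
      Subtype.ext (Subtype.ext (congrArg (fun z : L.comap χ.ker.subtype => (z.1 : Γ)) h))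

theorem main (hG : IsPD3 Γ) (N : Subgroup Γ) (hn : N.Normal) (hN : NoFree N) (G₀ : Subgroup Γ)
    (h0 : G₀.FiniteIndex) (χ : G₀ →* Multiplicative ℤ) (hχ : ∃ g : G₀, (g : Γ) ∈ N ∧ χ g ≠ 1) :
    χ.ker.FG ∧ ∀ L : Subgroup Γ, NoFree L →
      ∃ K : Subgroup L, K.FiniteIndex ∧ Group.IsSolvable K := by
  obtain ⟨ν, hν, hχ⟩ := hχ
  obtain ⟨h1, K, h2, h3⟩ := main0 (isPD_of_finiteIndex G₀ (n := 3) hG) (N.comap G₀.subtype)
    (hN.nf.comap _ Subtype.val_injective) χ ν hν fun h => hχ ((lv_eq_zero χ).1 h)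
  refine ⟨h1, fun L hL => ?_⟩
  haveI : (K.map G₀.subtype).FiniteIndex := ⟨by
    rw [Subgroup.index_map_of_injective _ G₀.subtype_injective, Subgroup.range_subtype]
    exact mul_ne_zero h2.index_ne_zero h0.index_ne_zero⟩
  refine ⟨(K.map G₀.subtype).subgroupOf L, inferInstance, ?_⟩
  haveI := h3 (L.comap G₀.subtype ⊓ K) ((hL.nf.comap _ Subtype.val_injective).mono inf_le_left)
    inf_le_right
  let f : ↥(L.comap G₀.subtype ⊓ K) →* (K.map G₀.subtype).subgroupOf L :=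
    { toFun := fun a => ⟨⟨a.1.1, a.2.1⟩, ⟨a.1, a.2.2, rfl⟩⟩
      map_one' := rfl
      map_mul' := fun _ _ => rfl }
  refine Group.isSolvable_of_surjective (f := f) ?_
  rintro ⟨⟨x, hx⟩, y, hy, e⟩
  have e' : (y : Γ) = x := e
  exact ⟨⟨y, show (y : Γ) ∈ L from e' ▸ hx, hy⟩, Subtype.ext (Subtype.ext e')⟩

end

end Pool.Agent.P.MP_5ee5b4_al
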