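import Pool.Agent.P.MP_5ee5b4_al.FGcase2
import Pool.Agent.P.MP_5ee5b4_al.Main

/-! Finitely generated normal subgroups of infinite index without free subgroups, conclusion. -/

namespace Pool.Agent.P.MP_5ee5b4_al

open Pool.Agent.P.MP_6e40fc_al
open scoped MonoidAlgebra

noncomputable section

set_option linter.unusedSectionVars false

variable {Γ K : Type} [Group Γ] [Group K] {ι β : Type} [Fintype ι] [Fintype β] [DecidableEq ι]
  {w : Γ →* ℤˣ} {s : ι → Γ} {N : Subgroup Γ} [N.Normal]

theorem vcyc_two {t : β → K} (ht : Subgroup.closure (Set.range t) = ⊤) [Infinite K]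
    (hN : NF (⊤ : Subgroup K)) (D : K → β → FK K) (h1 : ∀ g h, D (g * h) = D g + o g • D h)
    (h3 : ∀ g, ∑ i, (FK.r (t i) (D g i) - D g i) = FK.e g - FK.e 1) : VC K := by
  classical
  let F : β → K → ZMod 2 := fun i x => FK.c (D x i) 1
  have hF : ∀ i x g, F i (x * g) = F i x + FK.c (D g i) x⁻¹ := fun i x g => by
    simp only [F, h1, Pi.add_apply, Pi.smul_apply, map_add, Finsupp.add_apply, FK.c_smul, mul_one]
  by_contra hcon
  have hfin : ∀ i, ∃ c, (Function.support fun x => F i x - c).Finite := by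
    intro i
    by_contra hc
    refine hcon (ends ht (Set.finite_range t) (Y := {x | F i x = 1}) (fun a _ => ?_)
      (fun h => hc ⟨0, ?_⟩) (fun h => hc ⟨1, ?_⟩) hN)
    · refine (((FK.c (D a i)).support.finite_toSet).preimage (f := fun x => x⁻¹)
        inv_injective.injOn).subset fun x hx => ?_
      by_contra hx'
      simp only [Set.mem_preimage, Finset.mem_coe, Finsupp.mem_support_iff, not_not] at hx'
      exact hx (by simp [hF, hx'])
    · refine h.subset fun x hx => ?_
      have : ∀ a : ZMod 2, a - 0 ≠ 0 → a = 1 := by decide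
      exact this _ hx
    · exact h.subset fun x hx h' => hx (sub_eq_zero.2 h')
  choose c hc using hfin
  let Φ : K → ZMod 2 := fun x => ∑ i, ((F i (t i * x) - c i) - (F i x - c i))
  have hΦ : ∀ g, g ≠ 1 → Φ g = Φ 1 - 1 := fun g hg => by
    have e := congrArg (fun r => FK.c r 1) (h3 g)
    simp only [map_sum, map_sub, Finsupp.finsetSum_apply, Finsupp.sub_apply, FK.c_r, one_mul, FK.e,
      AddEquiv.apply_symm_apply, Finsupp.single_eq_same, Finsupp.single_eq_of_ne' hg] at e
    have e3 : ∀ i, F i g = F i 1 + FK.c (D g i) 1 := fun i => by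
      simpa using hF i 1 g
    simp only [Φ, mul_one, hF _ _ g, e3]
    rw [eq_sub_iff_add_eq, ← sub_eq_zero, add_sub_right_comm, ← Finset.sum_sub_distrib,
      add_eq_zero_iff_eq_neg, ← zero_sub, ← e]
    exact Finset.sum_congr rfl fun i _ => by ring
  have hc' : ∀ i, (Function.support fun x => F i (t i * x) - c i).Finite := fun i =>
    (hc i).preimage (f := fun x => t i * x) (mul_right_injective _).injOn
  have hsum : ∑ᶠ x, Φ x = 0 := by
    rw [finsum_sum_comm _ _ fun i _ => ((hc' i).union (hc i)).subset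
      (Function.support_sub _ _)]
    refine Finset.sum_eq_zero fun i _ => ?_
    rw [finsum_sub_distrib (hc' i) (hc i), sub_eq_zero]
    exact finsum_comp_equiv (Equiv.mulLeft (t i)) (f := fun x => F i x - c i)
  obtain ⟨g, hg⟩ :=
    ((Set.finite_iUnion fun i => (hc' i).union (hc i)).insert 1).infinite_compl.nonempty
  simp only [Set.mem_compl_iff, Set.mem_insert_iff, Set.mem_iUnion, Set.mem_union, not_or,
    not_exists, Function.mem_support, not_not] at hg
  have h4 : Φ g = 0 := Finset.sum_eq_zero fun i _ => by rw [(hg.2 i).1, (hg.2 i).2, sub_zero]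
  rw [hΦ g hg.1] at h4
  rw [finsum_eq_single Φ 1 fun x hx => (hΦ x hx).trans h4] at hsum
  rw [hsum] at h4
  exact absurd h4 (by decide)

theorem NF.sub (h : NF N) : NF (⊤ : Subgroup N) :=
  (h.comap N.subtype Subtype.val_injective).mono fun x _ => x.2

theorem DD.vc_of_fg (D : DD w s) (hs : Subgroup.closure (Set.range s) = ⊤)
    (hfg : (LinearMap.ker (dS s)).FG) [Infinite N] [Infinite (Γ ⧸ N)] (hN : N.FG) (hNF : NF N)
    (hvc : ¬ VC (Γ ⧸ N)) : VC N := by
  classical
  obtain ⟨T, ht, -⟩ := exists_family ((Group.fg_iff_subgroup_fg _).2 hN) 1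
  have hOE := oe_of_fg hs ht (D.oneEnd hs
    (fun h => not_finite_iff_infinite.2 ‹_› N.finite_quotient_of_finiteIndex) ht hvc)
  let π : (T → FK N) →ₗ[ℤ[N]] FK N := ∑ i : T, (FK.r i.1 - LinearMap.id) ∘ₗ LinearMap.proj i
  have hπ : ∀ v, π v = ∑ i : T, (FK.r i.1 (v i) - v i) := fun v => by simp [π, LinearMap.sum_apply]
  obtain ⟨E, h1, h2⟩ := derLift_of_ext hs N.subtype Subtype.val_injective π
    (fun g => FK.e g - FK.e 1) (fun g => by
      obtain ⟨v, hv⟩ := exists_dS ht g
      have key : ∀ v : T → ℤ[N], π (fun i => v i • FK.e 1) = dS Subtype.val v • FK.e 1 := fun v => by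
        simp only [hπ, dS_apply, Finset.sum_smul, mul_smul, sub_smul, one_smul, map_smul, smul_sub,
          FK.r_e, FK.smul_e, mul_one, one_mul]
      exact ⟨_, by rw [key, hv, sub_smul, one_smul, FK.smul_e, mul_one]⟩)
    (fun g h => by simp [smul_sub, FK.smul_e]) fun f => (D.ext _ f).1
      (bd_of_two w hs hfg N hOE ht (fun m => Subtype.ext (funext fun i => FK.two (m.1 i))) _ (D.cyc _ f))
  exact vcyc_two ht hNF.sub E h1 fun g => (hπ _).symm.trans (h2 g)

end

end Pool.Agent.P.MP_5ee5b4_al
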