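import Pool.Agent.P.MP_5ee5b4_al.Co

/-! Coinvariants of a module coinduced from a subgroup of infinite index vanish. -/

namespace Pool.Agent.P.MP_5ee5b4_al

open Pool.Agent.P.MP_6e40fc_al
open scoped MonoidAlgebra

noncomputable section

variable {H : Type} [Group H]

/-- points within a given distance of the subgroup -/
def Near (K : Subgroup H) (T : Finset H) : ℕ → H → Prop
  | 0, x => x ∈ K
  | n + 1, x => Near K T n x ∨ ∃ a ∈ T, Near K T n (x * a)

/-- starting points of outgoing paths -/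
def Up (T : Finset H) (l : H → ℕ) : ℕ → H → Prop
  | 0, _ => True
  | n + 1, x => ∃ a ∈ T, l (x * a) = l x + 1 ∧ Up T l n (x * a)

theorem exists_len (K : Subgroup H) (hK : ¬ K.FiniteIndex) (T : Finset H)
    (hT : Subgroup.closure (T : Set H) = ⊤) (hT' : ∀ a ∈ T, a⁻¹ ∈ T) :
    ∃ l : H → ℕ, (∀ k ∈ K, ∀ x, l (k * x) = l x) ∧ (∀ x, l x = 0 → x ∈ K) ∧
      (∀ x n, l x = n + 1 → ∃ a ∈ T, l (x * a) = n) ∧ ∀ n, ∃ x, n ≤ l x := by
  classical
  have h1 : ∀ x, ∃ n, Near K T n x := fun x => (const_of_edges hT (fun x => ∃ n, Near K T n x)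
    (fun x a ha => ⟨fun ⟨n, hn⟩ => ⟨n + 1, Or.inr ⟨a⁻¹, hT' a ha, by simpa using hn⟩⟩,
      fun ⟨n, hn⟩ => ⟨n + 1, Or.inr ⟨a, ha, hn⟩⟩⟩) x).2 ⟨0, K.one_mem⟩
  have h2 : ∀ k ∈ K, ∀ n x, Near K T n (k * x) ↔ Near K T n x := by
    intro k hk n
    induction n with
    | zero => exact fun x => K.mul_mem_cancel_left hk
    | succ n ih => intro x; simp only [Near, mul_assoc, ih]
  refine ⟨fun x => Nat.find (h1 x), fun k hk x => ?_, fun x hx => ?_, fun x n hx => ?_,
    fun n => ?_⟩
  · simp only [h2 k hk]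
  · have := Nat.find_spec (h1 x)
    beta_reduce at hx
    rwa [hx] at this
  · beta_reduce at hx ⊢
    have h3 := Nat.find_spec (h1 x)
    have h4 := Nat.find_min (h1 x) (m := n) (by omega)
    rw [hx] at h3
    obtain ⟨a, ha, h5⟩ := h3.resolve_left h4
    refine ⟨a, ha, le_antisymm (Nat.find_min' _ h5) ?_⟩
    have := Nat.find_min' (h1 x) (m := Nat.find (h1 (x * a)) + 1)
      (Or.inr ⟨a, ha, Nat.find_spec (h1 (x * a))⟩)
    omega
  · by_contra hcon
    have hmono : ∀ m x, Near K T m x → ∀ j, Near K T (m + j) x := fun m x h j => by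
      induction j with
      | zero => exact h
      | succ j ih => exact Or.inl ih
    have hfin : ∀ m, ((fun x : H => (QuotientGroup.mk x⁻¹ : H ⧸ K)) '' {x | Near K T m x}).Finite := by
      intro m
      induction m with
      | zero =>
        refine (Set.finite_singleton (QuotientGroup.mk 1 : H ⧸ K)).subset ?_
        rintro _ ⟨x, hx, rfl⟩
        exact QuotientGroup.eq.2 (by simpa [Near] using hx)
      | succ m ih =>
        refine (ih.union (T.finite_toSet.image2 (fun a q => a • q) ih)).subset ?_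
        rintro _ ⟨x, hx | ⟨a, ha, hx⟩, rfl⟩
        · exact Or.inl ⟨x, hx, rfl⟩
        · exact Or.inr ⟨a, ha, _, ⟨_, hx, rfl⟩, by simp⟩
    have : Finite (H ⧸ K) := by
      rw [← Set.finite_univ_iff]
      refine (hfin n).subset fun q _ => ?_
      obtain ⟨x, rfl⟩ := QuotientGroup.mk_surjective q
      refine ⟨x⁻¹, ?_, by simp⟩
      have h3 : Nat.find (h1 x⁻¹) ≤ n := by
        by_contra h
        exact hcon ⟨x⁻¹, (not_le.1 h).le⟩
      obtain ⟨j, hj⟩ := Nat.exists_eq_add_of_le h3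
      rw [hj]
      exact hmono _ _ (Nat.find_spec (h1 x⁻¹)) j
    exact hK Subgroup.finiteIndex_of_finite_quotient

theorem exists_label (K : Subgroup H) (hK : ¬ K.FiniteIndex) (T : Finset H)
    (hT : Subgroup.closure (T : Set H) = ⊤) (hT' : ∀ a ∈ T, a⁻¹ ∈ T) :
    ∃ lab : H → H, (∀ x, lab x ∈ T) ∧ (∀ k ∈ K, ∀ x, lab (k * x) = lab x) ∧
      WellFounded fun u x => u * lab u = x := by
  classical
  obtain ⟨l, l1, l2, l3, l4⟩ := exists_len K hK T hT hT'
  have u1 : ∀ k ∈ K, ∀ n x, Up T l n (k * x) ↔ Up T l n x := by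
    intro k hk n
    induction n with
    | zero => exact fun _ => Iff.rfl
    | succ n ih => intro x; simp only [Up, mul_assoc, ih, l1 k hk]
  have u2 : ∀ n x, Up T l (n + 1) x → Up T l n x := by
    intro n
    induction n with
    | zero => exact fun _ _ => trivial
    | succ n ih => exact fun x ⟨a, ha, h1, h2⟩ => ⟨a, ha, h1, ih _ h2⟩
  have u3 : ∀ n m x, n ≤ m → Up T l m x → Up T l n x := fun n m x h => by
    induction h with
    | refl => exact id
    | step _ ih => exact fun h' => ih (u2 _ _ h')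
  have u4 : ∀ n x, ∀ a ∈ T, l (x * a) + 1 = l x → Up T l n x → Up T l (n + 1) (x * a) :=
    fun n x a ha h1 h2 => ⟨a⁻¹, hT' a ha, by simp [h1], by simpa using h2⟩
  have u5 : ∀ m n x, l x = m → Up T l n x → Up T l (n + m) 1 := by
    intro m
    induction m with
    | zero => exact fun n x h1 h2 => (u1 x (l2 x h1) n 1).1 (by simpa using h2)
    | succ m ih =>
      intro n x h1 h2
      obtain ⟨a, ha, h3⟩ := l3 x m h1
      have := ih _ _ h3 (u4 n x a ha (by omega) h2)
      rwa [add_assoc, add_comm 1] at this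
  have u6 : ∀ x, l x = 0 → ∀ n, Up T l n x := fun x hx n => by
    obtain ⟨y, hy⟩ := l4 n
    have := (u1 x (l2 x hx) _ 1).2 (u3 n _ 1 (by omega) (u5 _ 0 y rfl trivial))
    rwa [mul_one] at this
  let Lab : H → H → Prop := fun x a => a ∈ T ∧
    (((∀ n, Up T l n x) ∧ (∀ n, Up T l n (x * a)) ∧ l (x * a) = l x + 1) ∨
      (¬ (∀ n, Up T l n x) ∧ l (x * a) + 1 = l x))
  have hLab : ∀ x, ∃ a, Lab x a := by
    intro x
    by_cases hx : ∀ n, Up T l n x
    · by_contra hcon
      have : ∀ a, ∃ n, a ∈ T → l (x * a) = l x + 1 → ¬ Up T l n (x * a) := fun a => by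
        by_contra h
        simp only [not_exists, Classical.not_imp, not_not] at h
        exact hcon ⟨a, (h 0).1, Or.inl ⟨hx, fun n => (h n).2.2, (h 0).2.1⟩⟩
      choose N hN using this
      obtain ⟨a, ha, h1, h2⟩ := hx (T.sup N + 1)
      exact hN a ha h1 (u3 _ _ _ (Finset.le_sup ha) h2)
    · obtain ⟨m, hm⟩ : ∃ m, l x = m + 1 := Nat.exists_eq_succ_of_ne_zero fun h => hx (u6 x h)
      obtain ⟨a, ha, h1⟩ := l3 x m hm
      exact ⟨a, ha, Or.inr ⟨hx, by omega⟩⟩
  have hl : ∀ x, Lab x (Classical.epsilon (Lab x)) := fun x => Classical.epsilon_spec (hLab x)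
  refine ⟨fun x => Classical.epsilon (Lab x), fun x => (hl x).1, fun k hk x => ?_, ⟨fun x => ?_⟩⟩
  · refine congrArg Classical.epsilon (funext fun a => ?_)
    simp only [Lab, mul_assoc, u1 k hk, l1 k hk]
  · have bad : ∀ n x, ¬ Up T l n x → Acc (fun u x => u * Classical.epsilon (Lab u) = x) x := by
      intro n
      induction n with
      | zero => exact fun x h => absurd trivial h
      | succ n ih =>
        refine fun x h => ⟨_, fun u hu => ih u fun h' => h ?_⟩
        rw [← hu]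
        rcases (hl u).2 with h1 | h1
        · exact h1.2.1 _
        · exact u4 n u _ (hl u).1 h1.2 h'
    induction hm : l x using Nat.strong_induction_on generalizing x with
    | _ m ih =>
      refine ⟨_, fun u hu => ?_⟩
      rcases (hl u).2 with h1 | h1
      · exact ih (l u) (by have := h1.2.2; rw [hu] at this; omega) u rfl
      · obtain ⟨n, hn⟩ := not_forall.1 h1.1
        exact bad n u hn

theorem coinv_vanish {K : Type} [Group K] (j : K →* H) (hK : ¬ j.range.FiniteIndex) (T : Finset H)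
    (hT : Subgroup.closure (T : Set H) = ⊤) (hT' : ∀ a ∈ T, a⁻¹ ∈ T) (w : H →* ℤˣ)
    {C : Type} [AddCommGroup C] [Module ℤ[K] C] (ω : Co j C) :
    ∃ Ω : H → Co j C, ω = ∑ a ∈ T, ((w a⁻¹ : ℤ) • o a⁻¹ - 1 : ℤ[H]) • Ω a := by
  classical
  obtain ⟨lab, h1, h2, h3⟩ := exists_label j.range hK T hT hT'
  let Φ : H → C := h3.fix fun x Φ => -ω x + ∑ a ∈ T,
    if h : lab (x * a⁻¹) = a then (w a⁻¹ : ℤ) • Φ (x * a⁻¹) (by simp [h]) else 0
  have hΦ : ∀ x, Φ x = -ω x + ∑ a ∈ T,
      if lab (x * a⁻¹) = a then (w a⁻¹ : ℤ) • Φ (x * a⁻¹) else 0 := fun x => by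
    simp only [Φ]
    rw [h3.fix_eq]
    simp only [dite_eq_ite]
  have hΦ' : ∀ k x, Φ (j k * x) = o k • Φ x := fun k x => by
    induction x using h3.induction with
    | _ x ih =>
      rw [hΦ, hΦ x, ω.equiv, smul_add, smul_neg, Finset.smul_sum]
      congr 1
      refine Finset.sum_congr rfl fun a _ => ?_
      rw [mul_assoc, h2 _ ⟨k, rfl⟩]
      split_ifs with h
      · rw [ih _ (by simp [h]), smul_comm]
      · simp
  refine ⟨fun a => Co.mk (fun x => if lab x = a then Φ x else 0) fun k x => ?_, Co.ext fun x => ?_⟩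
  · rw [h2 _ ⟨k, rfl⟩, hΦ']
    split_ifs <;> simp
  · rw [Co.sum_apply]
    simp only [sub_smul, one_smul, smul_assoc, Co.sub_apply, Co.zsmul_apply, Co.o_smul, Co.mk_apply,
      Finset.sum_sub_distrib, Finset.sum_ite_eq, if_pos (h1 x), smul_ite, smul_zero]
    rw [hΦ x]
    abel

end

end Pool.Agent.P.MP_5ee5b4_al
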