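import Pool.Agent.P.MP_5ee5b4_al.GS2
import Pool.Agent.P.MP_5ee5b4_al.Main

/-! Homomorphisms to the prime field; growth of their number in the Frattini subgroup. -/

namespace Pool.Agent.P.MP_5ee5b4_al

noncomputable section

set_option linter.unusedSectionVars false

variable {p : ℕ} [hp : Fact p.Prime] {K : Type} [Group K] {d : ℕ} {V : Type} [AddCommGroup V]

/-- the bundled homomorphism -/
def IsHom.mk {f : K → V} (h : IsHom f) : K →* Multiplicative V :=
  MonoidHom.mk' (fun k => Multiplicative.ofAdd (f k)) fun a b => by rw [h]; rfl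

theorem IsHom.one {f : K → V} (h : IsHom f) : f 1 = 0 := map_one h.mk

theorem IsHom.inv {f : K → V} (h : IsHom f) (a : K) : f a⁻¹ = -f a := map_inv h.mk a

theorem IsHom.pow {f : K → V} (h : IsHom f) (a : K) (n : ℕ) : f (a ^ n) = n • f a := map_pow h.mk a n

theorem IsHom.surj [Module (ZMod p) V] {f : K → V} (h : IsHom f)
    (h' : ∀ Z : Submodule (ZMod p) V, (∀ k, f k ∈ Z) → Z = ⊤) : Function.Surjective f := fun y =>
  (h' (AddSubgroup.toZModSubmodule p (Subgroup.toAddSubgroup' h.mk.range)) fun k => ⟨k, rfl⟩).ge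
    (Submodule.mem_top (x := y))

variable (p K) in
theorem exists_basis_hom [hK : Group.FG K] : ∃ (d : ℕ) (χ : Fin d → K → ZMod p) (x : Fin d → K),
    (∀ t, IsHom (χ t)) ∧ (∀ t i, χ t (x i) = if t = i then 1 else 0) ∧
    (∀ ψ : K → ZMod p, IsHom ψ → ∃ a : Fin d → ZMod p, ∀ k, ψ k = ∑ t, a t * χ t k) ∧
    ∀ (e : ℕ) (φ : K → Fin e → ZMod p), IsHom φ → Function.Surjective φ → e ≤ d := by
  let W : Submodule (ZMod p) (K → ZMod p) :=
    { carrier := {f | IsHom f}
      add_mem' := fun {f g} hf hg a b => by simp only [Pi.add_apply, hf a b, hg a b]; ring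
      zero_mem' := fun a b => by simp
      smul_mem' := fun c f hf a b => by simp only [Pi.smul_apply, hf a b, smul_add] }
  obtain ⟨S, hS⟩ := hK.1
  have : Module.Finite (ZMod p) W := Module.Finite.of_injective
    (LinearMap.funLeft (ZMod p) (ZMod p) (Subtype.val : S → K) ∘ₗ W.subtype)
    ((injective_iff_map_eq_zero _).2 fun f hf => Subtype.ext (funext fun k =>
      ((Subgroup.closure_le (IsHom.mk f.2).ker).2 fun a ha => congrFun hf ⟨a, ha⟩)
        (hS.ge (Subgroup.mem_top k))))
  let b := Module.finBasis (ZMod p) W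
  have h1 : IsHom fun k t => (b t).1 k := fun k l => funext fun t => (b t).2 k l
  have h2 := h1.surj (p := p) fun Z hZ => by
    by_contra h
    obtain ⟨l, hl, hl'⟩ := Z.exists_le_ker_of_lt_top (lt_top_iff_ne_top.2 h)
    refine hl ((Pi.basisFun _ _).ext fun i => ?_)
    refine Fintype.linearIndependent_iff.1 b.linearIndependent
      (fun t => l (Pi.basisFun _ _ t)) (Subtype.ext (funext fun k => ?_)) i
    have h3 : l _ = 0 := hl' (hZ k)
    rw [← (Pi.basisFun (ZMod p) _).sum_repr fun t => (b t).1 k, map_sum] at h3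
    simpa [mul_comm] using h3
  choose x hx using fun i => h2 (Pi.single i 1)
  refine ⟨_, fun t => b t, x, fun t => (b t).2, fun t i => ?_, fun ψ hψ => ⟨b.repr ⟨ψ, hψ⟩, fun k => ?_⟩,
    fun e φ hφ hφ' => ?_⟩
  · exact (congrFun (hx i) t).trans (Pi.single_apply _ _ _)
  · refine (congrArg (fun f : W => f.1 k) (b.sum_repr ⟨ψ, hψ⟩)).symm.trans ?_
    simp only [Submodule.coe_sum, Finset.sum_apply, Submodule.coe_smul, Pi.smul_apply, smul_eq_mul]
  · have := (Fintype.linearIndependent_iff.2 fun a ha j => by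
      obtain ⟨k, hk⟩ := hφ' (Pi.single j 1)
      simpa [hk, Pi.single_apply] using congrArg (fun f : W => f.1 k) ha :
      LinearIndependent (ZMod p) fun j : Fin e =>
        (⟨fun k => φ k j, fun a b => congrFun (hφ a b) j⟩ : W)).fintype_card_le_finrank
    simpa using this

/-- the carry in the addition of residues -/
def carry (a b : ZMod p) : ZMod p := ((a.val + b.val) / p : ℕ)

theorem carry_coc (a b c : ZMod p) : carry a b + carry (a + b) c = carry a (b + c) + carry b c := by
  have h : ∀ a b : ZMod p, p * ((a.val + b.val) / p) + (a + b).val = a.val + b.val := fun a b => by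
    rw [ZMod.val_add, Nat.div_add_mod]
  have h1 := h a b
  have h2 := h (a + b) c
  have h3 := h a (b + c)
  have h4 := h b c
  rw [← add_assoc] at h3
  simp only [carry, ← Nat.cast_add]
  congr 1
  refine Nat.eq_of_mul_eq_mul_left hp.out.pos ?_
  rw [mul_add, mul_add]
  omega

theorem carry_zero_left (a : ZMod p) : carry 0 a = 0 := by
  simp [carry, Nat.div_eq_of_lt (ZMod.val_lt a)]

theorem carry_zero_right (a : ZMod p) : carry a 0 = 0 := by
  simp [carry, Nat.div_eq_of_lt (ZMod.val_lt a)]

theorem frattini_growth (h2 : H2c p K d) {χ : Fin d → K → ZMod p} {x : Fin d → K}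
    (hχ : ∀ t, IsHom (χ t)) (hx : ∀ t i, χ t (x i) = if t = i then 1 else 0)
    (hd : 4 ≤ d) (Φ : Subgroup K) (hΦ : ∀ k, k ∈ Φ ↔ ∀ t, χ t k = 0) :
    ∃ φ : Φ → Fin (d + 1) → ZMod p, IsHom φ ∧ Function.Surjective φ := by
  have hd' : d + 1 + d ≤ Fintype.card {st : Fin d × Fin d // st.1 ≤ st.2} := by
    rw [← Fintype.card_congr Sym2.sortEquiv, Sym2.card, Fintype.card_fin, Nat.choose_two_right,
      Nat.le_div_iff_mul_le two_pos, Nat.add_sub_cancel]
    nlinarith
  let c : K → K → {st : Fin d × Fin d // st.1 ≤ st.2} → ZMod p := fun k l st =>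
    if st.1.1 = st.1.2 then carry (χ st.1.1 k) (χ st.1.1 l) else χ st.1.1 k * χ st.1.2 l
  obtain ⟨v, b, hb⟩ := h2 _ c fun k l m => funext fun st => by
    simp only [c, Pi.add_apply, hχ _ k l, hχ _ l m]
    split_ifs
    · exact carry_coc _ _ _
    · ring
  set q := (Submodule.span (ZMod p) (Set.range v)).mkQ
  have h3 : ∀ k l, b (k * l) = b k + b l - q (c k l) := fun k l => by
    rw [show q (c k l) = _ from hb k l, sub_sub_cancel]
  have h4 : ∀ k ∈ Φ, ∀ l, b (k * l) = b k + b l := fun k hk l => by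
    have : c k l = 0 := funext fun st => by simp [c, (hΦ k).1 hk, carry_zero_left]
    rw [h3, this, map_zero, sub_zero]
  have h5 : IsHom fun k : Φ => b k := fun k l => h4 k k.2 l
  have h6 := h5.surj (p := p) fun Z hZ => by
    rw [eq_top_iff, ← Submodule.range_mkQ, ← Submodule.map_top, ← (Pi.basisFun _ _).span_eq,
      Submodule.map_span, Submodule.span_le]
    rintro _ ⟨_, ⟨⟨⟨s, t⟩, hst⟩, rfl⟩, rfl⟩
    refine Z.neg_mem_iff.1 ?_
    rcases eq_or_lt_of_le hst with h | h
    · obtain rfl : s = t := h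
      have h6 : ∀ j : ℕ, c (x s ^ j) (x s) = carry (j : ZMod p) 1 • Pi.single ⟨(s, s), hst⟩ 1 :=
        fun j => funext fun ⟨⟨a, e⟩, hae⟩ => by
          simp only [c, (hχ _).pow, hx, Pi.smul_apply, Pi.single_apply, Subtype.mk.injEq,
            Prod.mk.injEq]
          by_cases h1 : a = s <;> by_cases h2 : e = s <;> simp_all [carry_zero_left, eq_comm]
      have h7 : ∀ j : ℕ, j < p → b (x s ^ j) = j • b (x s) := fun j hj => by
        induction j with
        | zero => rw [pow_zero, zero_smul]; exact h5.one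
        | succ j ih =>
          rw [pow_succ, h3, ih (by omega), h6, carry, ZMod.val_natCast_of_lt (by omega), ZMod.val_one,
            Nat.div_eq_of_lt hj, succ_nsmul]
          simp
      obtain ⟨j, hj⟩ := Nat.exists_eq_succ_of_ne_zero hp.out.ne_zero
      have h8 : x s ^ (j + 1) ∈ Φ := (hΦ _).2 fun t => by
        rw [(hχ t).pow, ← Nat.succ_eq_add_one, ← hj, nsmul_eq_mul, ZMod.natCast_self, zero_mul]
      refine mem_of_eq (hZ ⟨_, h8⟩) ?_
      change _ = b (x s ^ (j + 1))
      rw [pow_succ, h3, h7 j (by omega), h6, carry, ZMod.val_natCast_of_lt (by omega), ZMod.val_one,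
        ← succ_nsmul, ← Nat.succ_eq_add_one, ← hj, Nat.div_self hp.out.pos,
        ← Nat.cast_smul_eq_nsmul (ZMod p), ZMod.natCast_self]
      simp [q]
    · have h' : s ≠ t := h.ne
      have h6 : c (x s) (x t) = Pi.single ⟨(s, t), hst⟩ 1 := funext fun ⟨⟨a, e⟩, hae⟩ => by
        simp only [c, hx, Pi.single_apply, Subtype.mk.injEq, Prod.mk.injEq]
        by_cases h1 : a = s <;> by_cases h2 : e = t <;> by_cases h3 : a = e <;>
          simp_all [carry_zero_left, carry_zero_right]
      have h7 : c (x t) (x s) = 0 := funext fun ⟨⟨a, e⟩, hae⟩ => by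
        simp only [c, hx, Pi.zero_apply]
        by_cases h1 : a = t
        · subst h1
          have : e ≠ s := (lt_of_lt_of_le h hae).ne'
          simp [this, h'.symm, carry_zero_right]
        · simp [h1, carry_zero_left]
      have h8 : x s * x t * (x t * x s)⁻¹ ∈ Φ := (hΦ _).2 fun r => by
        rw [hχ, (hχ r).inv, hχ, hχ]; ring
      refine mem_of_eq (hZ ⟨_, h8⟩) ?_
      have h9 := h4 _ h8 (x t * x s)
      rw [inv_mul_cancel_right, h3 (x s), h3 (x t), h6, h7, map_zero, sub_zero] at h9
      rw [eq_sub_of_add_eq h9.symm]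
      simp [q]
      abel
  have h7 := (Submodule.span (ZMod p) (Set.range v)).finrank_quotient_add_finrank
  have h8 := finrank_range_le_card (R := ZMod p) v
  rw [Module.finrank_fintype_fun_eq_card] at h7
  rw [Fintype.card_fin, Set.finrank] at h8
  let L := LinearMap.funLeft (ZMod p) (ZMod p) (Fin.castLE (by omega : d + 1 ≤ _)) ∘ₗ
    (Module.finBasis (ZMod p) (_ ⧸ Submodule.span (ZMod p) (Set.range v))).equivFun.toLinearMap
  have hL : Function.Surjective L := by
    rw [LinearMap.coe_comp]
    exact (LinearMap.funLeft_surjective_of_injective _ _ _ (Fin.castLE_injective _)).comp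
      (LinearEquiv.surjective _)
  exact ⟨fun k => L (b k), fun k l => by rw [← map_add]; exact congrArg L (h5 k l), hL.comp h6⟩

end

end Pool.Agent.P.MP_5ee5b4_al
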