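import Pool.Agent.P.MP_5ee5b4_al.Coc

/-! Powers of the augmentation ideal and relations. -/

namespace Pool.Agent.P.MP_5ee5b4_al

open Pool.Agent.P.MP_6e40fc_al
open scoped MonoidAlgebra

noncomputable section

set_option linter.unusedSectionVars false

variable (k : Type) [Field k] {H K : Type} [Group H] [Group K] {E E' : Type} [AddCommGroup E]
  [Module k[H] E] [AddCommGroup E'] [Module k[H] E']

/-- group elements in the group algebra -/
def ee (g : H) : k[H] := MonoidAlgebra.of k H g

theorem ee_mul (g h : H) : ee k (g * h) = ee k g * ee k h := map_mul (MonoidAlgebra.of k H) g h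

theorem ee_one : ee k (1 : H) = 1 := map_one (MonoidAlgebra.of k H)

theorem aug_ee (g : H) : aug k H (ee k g) = 1 := aug_of g

variable {k}

/-- the product with the augmentation ideal -/
def Jm (N : Submodule k[H] E) : Submodule k[H] E :=
  Submodule.span k[H] {y | ∃ g : H, ∃ n ∈ N, y = ee k g • n - n}

/-- the product with a power of the augmentation ideal -/
def Pw : ℕ → Submodule k[H] E → Submodule k[H] E
  | 0, N => N
  | a + 1, N => Jm (Pw a N)

theorem mem_Jm {N : Submodule k[H] E} (g : H) {n : E} (hn : n ∈ N) : ee k g • n - n ∈ Jm N :=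
  Submodule.subset_span ⟨g, n, hn, rfl⟩

theorem Jm_le (N : Submodule k[H] E) : Jm N ≤ N := Submodule.span_le.2 (by
  rintro _ ⟨g, n, hn, rfl⟩
  exact N.sub_mem (N.smul_mem _ hn) hn)

theorem Jm_map (f : E →ₗ[k[H]] E') {N : Submodule k[H] E} {N' : Submodule k[H] E'}
    (h : N ≤ N'.comap f) : Jm N ≤ (Jm N').comap f := Submodule.span_le.2 (by
  rintro _ ⟨g, n, hn, rfl⟩
  change f _ ∈ Jm N'
  rw [map_sub, map_smul]
  exact mem_Jm g (h hn))

theorem Pw_map (f : E →ₗ[k[H]] E') {N : Submodule k[H] E} {N' : Submodule k[H] E'}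
    (h : N ≤ N'.comap f) (a : ℕ) : Pw a N ≤ (Pw a N').comap f := by
  induction a with
  | zero => exact h
  | succ a ih => exact Jm_map f ih

theorem Pw_mono {N N' : Submodule k[H] E} (h : N ≤ N') (a : ℕ) : Pw a N ≤ Pw a N' :=
  Pw_map LinearMap.id h a

theorem Pw_le (N : Submodule k[H] E) (a : ℕ) : Pw a N ≤ N := by
  induction a with
  | zero => exact le_rfl
  | succ a ih => exact (Jm_le _).trans ih

theorem Pw_add (N : Submodule k[H] E) (a b : ℕ) : Pw a (Pw b N) = Pw (b + a) N := by
  induction a with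
  | zero => rfl
  | succ a ih => exact congrArg Jm ih

theorem Pw_sup (N N' : Submodule k[H] E) (a : ℕ) : Pw a (N ⊔ N') ≤ N ⊔ Pw a N' := by
  induction a with
  | zero => exact le_rfl
  | succ a ih =>
    refine Submodule.span_le.2 ?_
    rintro _ ⟨g, n, hn, rfl⟩
    obtain ⟨y, hy, z, hz, rfl⟩ := Submodule.mem_sup.1 (ih hn)
    rw [smul_add, add_sub_add_comm]
    exact Submodule.add_mem_sup (N.sub_mem (N.smul_mem _ hy) hy) (mem_Jm g hz)

theorem smul_mem_Pw {a : ℕ} {r : k[H]} (hr : r ∈ Pw a (⊤ : Submodule k[H] k[H]))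
    {N : Submodule k[H] E} {n : E} (hn : n ∈ N) : r • n ∈ Pw a N :=
  Pw_map (LinearMap.toSpanSingleton k[H] E n) (fun r _ => N.smul_mem r hn) a hr

theorem mem_Pw_pi {ι : Type} [Fintype ι] {a : ℕ} {v : ι → E} :
    v ∈ Pw a (⊤ : Submodule k[H] (ι → E)) ↔ ∀ i, v i ∈ Pw a (⊤ : Submodule k[H] E) := by
  classical
  refine ⟨fun h i => Pw_map (N' := ⊤) (LinearMap.proj i : (ι → E) →ₗ[k[H]] E)
    (fun _ _ => trivial) a h, fun h => ?_⟩
  rw [← Finset.univ_sum_single v]
  exact Submodule.sum_mem _ fun i _ =>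
    Pw_map (N' := ⊤) (LinearMap.single k[H] (fun _ => E) i) (fun _ _ => trivial) a (h i)

theorem ee_sub_mem (g : H) : ee k g - 1 ∈ Jm (⊤ : Submodule k[H] k[H]) := by
  simpa using mem_Jm (k := k) g (Submodule.mem_top (x := (1 : k[H])))

theorem aug_Jm {r : k[H]} (hr : r ∈ Jm (⊤ : Submodule k[H] k[H])) : aug k H r = 0 := by
  induction hr using Submodule.span_induction with
  | mem r hr =>
    obtain ⟨g, n, -, rfl⟩ := hr
    simp [aug_ee]
  | zero => simp
  | add a b _ _ ha hb => rw [map_add, ha, hb, add_zero]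
  | smul a b _ hb => rw [smul_eq_mul, map_mul, hb, mul_zero]

theorem sub_aug_mem_Jm (n : k[H]) : n - aug k H n • 1 ∈ Jm (⊤ : Submodule k[H] k[H]) := by
  induction n using MonoidAlgebra.induction_on with
  | of a => rw [aug_of, one_smul]; exact ee_sub_mem a
  | add x y hx hy =>
    rw [map_add, add_smul, ← sub_add_sub_comm]
    exact Submodule.add_mem _ hx hy
  | smul c x hx =>
    rw [map_smul, smul_assoc, ← smul_sub]
    exact Submodule.smul_of_tower_mem _ c hx

theorem exists_der [Module k E] [IsScalarTower k k[H] E] (s : H → E)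
    (hs : ∀ a b, s (a * b) = s a + ee k a • s b) :
    ∃ S : k[H] →+ E, (∀ g, S (ee k g - 1) = s g) ∧
      (∀ r, ∀ u ∈ Jm (⊤ : Submodule k[H] k[H]), S (r * u) = r • S u) ∧
      ∀ a, ∀ u ∈ Pw (a + 1) (⊤ : Submodule k[H] k[H]), S u ∈ Pw a (⊤ : Submodule k[H] E) := by
  let S : k[H] →ₗ[k] E := (MonoidAlgebra.basis H k).constr k s
  have h0 : ∀ g, S (ee k g) = s g := fun g => by
    have := (MonoidAlgebra.basis H k).constr_basis k s g
    rwa [MonoidAlgebra.basis_apply] at this
  have h1 : ∀ r u, S (r * u) = aug k H u • S r + r • S u := fun r u => by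
    induction r using MonoidAlgebra.induction_on with
    | of a =>
      induction u using MonoidAlgebra.induction_on with
      | of b =>
        change S (ee k a * ee k b) = aug k H (ee k b) • S (ee k a) + ee k a • S (ee k b)
        rw [← ee_mul, h0, h0, h0, hs, aug_ee, one_smul]
      | add x y hx hy => simp only [mul_add, map_add, hx, hy, add_smul, smul_add]; abel
      | smul c x hx =>
        rw [mul_smul_comm, map_smul, hx, map_smul, map_smul, smul_add, smul_assoc, smul_comm c (_ : k[H])]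
    | add x y hx hy => simp only [add_mul, map_add, hx, hy, add_smul, smul_add]; abel
    | smul c x hx => rw [smul_mul_assoc, map_smul, hx, map_smul, smul_add, smul_assoc, smul_comm c]
  have h2 : ∀ r, ∀ u ∈ Jm (⊤ : Submodule k[H] k[H]), S (r * u) = r • S u := fun r u hu => by
    rw [h1, aug_Jm hu, zero_smul, zero_add]
  refine ⟨S.toAddMonoidHom, fun g => ?_, h2, fun a => ?_⟩
  · have h3 := hs 1 1
    rw [mul_one, ee_one, one_smul, left_eq_add] at h3
    change S _ = _
    rw [map_sub, ← ee_one, h0, h0, h3, sub_zero]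
  · induction a with
    | zero => exact fun _ _ => trivial
    | succ a ih =>
      have h3 : Pw (a + 1) (⊤ : Submodule k[H] k[H]) ≤ Jm ⊤ := Jm_map LinearMap.id (Pw_le _ a)
      intro u hu
      change S u ∈ _
      induction hu using Submodule.span_induction with
      | mem r hr =>
        obtain ⟨g, n, hn, rfl⟩ := hr
        rw [map_sub, smul_eq_mul, h2 _ _ (h3 hn)]
        exact mem_Jm g (ih n hn)
      | zero => rw [map_zero]; exact Submodule.zero_mem _
      | add x y _ _ hx hy => rw [map_add]; exact Submodule.add_mem _ hx hy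
      | smul r x hx h =>
        rw [smul_eq_mul, h2 _ _ (h3 (Jm_le _ hx))]
        exact Submodule.smul_mem _ _ h

variable {d : ℕ} (x : Fin d → H)

variable (k) in
/-- the map onto the augmentation ideal modulo its powers -/
def gπ : (Fin d → k[H]) →ₗ[k[H]] k[H] := Fintype.linearCombination k[H] fun i => ee k (x i) - 1

theorem gπ_apply (v : Fin d → k[H]) : gπ k x v = ∑ i, v i * (ee k (x i) - 1) :=
  Fintype.linearCombination_apply _ _ _

theorem gπ_single (i : Fin d) : gπ k x (Pi.single i 1) = ee k (x i) - 1 := lc_single _ _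

theorem gπ_mem (v : Fin d → k[H]) : gπ k x v ∈ Jm (⊤ : Submodule k[H] k[H]) := by
  rw [gπ_apply]
  exact Submodule.sum_mem _ fun i _ => Submodule.smul_mem _ _ (ee_sub_mem _)

theorem gπ_Pw (a : ℕ) : Pw a ⊤ ≤ (Pw (a + 1) ⊤).comap (gπ k x) := by
  rw [add_comm, ← Pw_add]
  exact Pw_map (N' := Jm ⊤) (gπ k x) (fun v _ => gπ_mem x v) a

theorem der_comp [Module k E] [IsScalarTower k k[H] E] (s : H → E)
    (hs : ∀ a b, s (a * b) = s a + ee k a • s b) (a : ℕ) (v : Fin d → k[H])
    (hv : gπ k x v ∈ Pw (a + 1) (⊤ : Submodule k[H] k[H])) :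
    ∑ i, v i • s (x i) ∈ Pw a (⊤ : Submodule k[H] E) := by
  obtain ⟨S, h1, h2, h3⟩ := exists_der s hs
  have := h3 a _ hv
  rw [gπ_apply, map_sum] at this
  simpa only [h2 _ _ (ee_sub_mem _), h1] using this

variable {x} {χ : Fin d → H → k}

theorem mem_Jm_of_gπ (hχ : ∀ t, IsHom (χ t)) (hx : ∀ t i, χ t (x i) = if t = i then 1 else 0)
    (v : Fin d → k[H]) (hv : gπ k x v ∈ Pw 2 (⊤ : Submodule k[H] k[H])) :
    v ∈ Jm (⊤ : Submodule k[H] (Fin d → k[H])) := by
  let q := (Jm (⊤ : Submodule k[H] (Fin d → k[H]))).mkQ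
  have h0 : Jm ⊤ ≤ (⊥ : Submodule k[H] (_ ⧸ Jm (⊤ : Submodule k[H] (Fin d → k[H])))) :=
    Submodule.span_le.2 (by
      rintro _ ⟨g, n, -, rfl⟩
      obtain ⟨n, rfl⟩ := Submodule.mkQ_surjective _ n
      exact (Submodule.Quotient.mk_eq_zero _).2 (mem_Jm g trivial))
  have h1 := h0 (der_comp x (fun g => ∑ t, χ t g • q (Pi.single t 1)) (fun a b => by
    rw [sub_eq_zero.1 (h0 (mem_Jm a trivial))]
    simp only [hχ _ a b, add_smul, Finset.sum_add_distrib]) 1 v hv)
  simp only [hx, ite_smul, one_smul, zero_smul, Finset.sum_ite_eq', Finset.mem_univ, if_true,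
    ← map_smul, ← map_sum, ← Pi.single_smul, smul_eq_mul, mul_one, Finset.univ_sum_single] at h1
  exact (Submodule.Quotient.mk_eq_zero _).1 h1

theorem Jm_le_range (hx : ∀ t i, χ t (x i) = if t = i then 1 else 0)
    (hχ : ∀ ψ : H → k, IsHom ψ → ∃ a : Fin d → k, ∀ g, ψ g = ∑ t, a t * χ t g) (n : ℕ) :
    Jm ⊤ ≤ LinearMap.range (gπ k x) ⊔ Pw (n + 1) ⊤ := by
  have h1 : Jm ⊤ ≤ LinearMap.range (gπ k x) ⊔ Pw 2 ⊤ := by
    set N := LinearMap.range (gπ k x) ⊔ Pw 2 ⊤
    have h2 : ∀ g, ee k g - 1 ∈ N := fun g => by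
      refine (Submodule.Quotient.mk_eq_zero _).1 ((Module.forall_dual_apply_eq_zero_iff k _).1
        fun l => ?_)
      obtain ⟨a, ha⟩ := hχ (fun g => l (N.mkQ (ee k g - 1))) fun a b => by
        rw [← map_add, ← map_add]
        refine congrArg l ((Submodule.Quotient.eq _).2 (Submodule.mem_sup_right ?_))
        have : ee k (a * b) - 1 - (ee k a - 1 + (ee k b - 1)) =
            ee k a • (ee k b - 1) - (ee k b - 1) := by
          rw [ee_mul, smul_eq_mul, mul_sub, mul_one]
          abel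
        exact this ▸ mem_Jm a (ee_sub_mem (k := k) b)
      have h3 : ∀ i, a i = 0 := fun i => by
        have := ha (x i)
        simp only [hx, mul_ite, mul_one, mul_zero, Finset.sum_ite_eq', Finset.mem_univ,
          if_true] at this
        rw [← this, N.mkQ_apply, (Submodule.Quotient.mk_eq_zero _).2
          (Submodule.mem_sup_left (LinearMap.mem_range.2 ⟨_, gπ_single x i⟩)), map_zero]
      exact (ha g).trans (by simp [h3])
    refine Submodule.span_le.2 ?_
    rintro _ ⟨g, n, -, rfl⟩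
    have : ee k g • n - n = ee k g • (n - aug k H n • 1) - (n - aug k H n • 1) +
        aug k H n • (ee k g - 1) := by
      simp only [smul_eq_mul, mul_sub, mul_smul_comm, mul_one, smul_sub]
      abel
    rw [this]
    exact N.add_mem (Submodule.mem_sup_right (mem_Jm g (sub_aug_mem_Jm n)))
      (N.smul_of_tower_mem (aug k H n) (h2 g))
  induction n with
  | zero => exact le_sup_right
  | succ n ih =>
    refine ih.trans (sup_le le_sup_left ?_)
    have := (Pw_mono h1 n).trans (Pw_sup _ _ n)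
    rwa [show Jm (⊤ : Submodule k[H] k[H]) = Pw 1 ⊤ from rfl, Pw_add, Pw_add, add_comm,
      add_comm 2] at this

end

end Pool.Agent.P.MP_5ee5b4_al
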