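import Pool.Agent.P.MP_5ee5b4_al.GS1

/-! The Golod-Shafarevich inequality for a quotient by two elements. -/

namespace Pool.Agent.P.MP_5ee5b4_al

open Pool.Agent.P.MP_6e40fc_al
open scoped MonoidAlgebra

noncomputable section

set_option linter.unusedSectionVars false

variable {p : ℕ} [Fact p.Prime] {H K : Type} [Group H] [Group K] {d : ℕ}

variable (K p d) in
/-- two-cocycles die modulo boundedly many elements -/
def H2c : Prop := ∀ (V : Type) [AddCommGroup V] [Module (ZMod p) V] (c : K → K → V), IsCoc c →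
  ∃ v : Fin d → V, IsCob fun x y => (Submodule.span (ZMod p) (Set.range v)).mkQ (c x y)

theorem Pw_map_le {k : Type} [Field k] {E E' : Type} [AddCommGroup E] [Module k[H] E]
    [AddCommGroup E'] [Module k[H] E'] (f : E →ₗ[k[H]] E') (N : Submodule k[H] E) (a : ℕ) :
    Pw a (N.map f) ≤ (Pw a N).map f := by
  induction a with
  | zero => exact le_rfl
  | succ a ih =>
    refine Submodule.span_le.2 ?_
    rintro _ ⟨g, n, hn, rfl⟩
    obtain ⟨y, hy, rfl⟩ := ih hn
    exact ⟨_, mem_Jm g hy, by rw [map_sub, map_smul]⟩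

theorem mem_of_eq {R E : Type} [Ring R] [AddCommGroup E] [Module R E] {N : Submodule R E} {a b : E}
    (h : a ∈ N) (e : b = a) : b ∈ N := e ▸ h

theorem relations (h2 : H2c p K d) (φ : K →* H) (hφ : Function.Surjective φ) (g : Fin 2 → K)
    (hg : ∀ j, φ (g j) = 1) (hker : φ.ker ≤ Subgroup.normalClosure (Set.range g))
    {x : Fin d → H} {χ : Fin d → H → ZMod p} (hχ0 : ∀ t, IsHom (χ t))
    (hx : ∀ t i, χ t (x i) = if t = i then 1 else 0)
    (hχ : ∀ ψ : H → ZMod p, IsHom ψ → ∃ a : Fin d → ZMod p, ∀ g, ψ g = ∑ t, a t * χ t g) (n : ℕ) :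
    ∃ ρ : Fin d ⊕ Fin 2 → Fin d → (ZMod p)[H], (∀ j, ρ j ∈ Jm (⊤ : Submodule (ZMod p)[H] _)) ∧
      (Pw (n + 2) ⊤).comap (gπ (ZMod p) x) ≤ Submodule.span _ (Set.range ρ) ⊔ Pw (n + 1) ⊤ := by
  set M := (Pw (n + 2) ⊤).comap (gπ (ZMod p) x)
  have hM : M ≤ Jm ⊤ := fun v hv => mem_Jm_of_gπ hχ0 hx v (Pw_le _ n (by
    rw [Pw_add, add_comm]
    exact hv))
  have h1 : ∀ y, ∃ v, gπ (ZMod p) x v - (ee _ y - 1) ∈ Pw (n + 2) ⊤ := fun y => by
    obtain ⟨_, ⟨v, rfl⟩, b, hb, e⟩ := Submodule.mem_sup.1 (Jm_le_range hx hχ (n + 1) (ee_sub_mem y))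
    exact ⟨v, by rw [← e, sub_add_cancel_left]; exact Submodule.neg_mem _ hb⟩
  choose v hv using h1
  let c : K → K → M := fun a b => ⟨v (φ a) + ee _ (φ a) • v (φ b) - v (φ (a * b)), by
    have := Submodule.sub_mem _ (Submodule.add_mem _ (hv (φ a))
      (Submodule.smul_mem _ (ee _ (φ a)) (hv (φ b)))) (hv (φ (a * b)))
    refine Submodule.mem_comap.2 (mem_of_eq this ?_)
    rw [map_sub, map_add, map_smul]
    simp only [map_mul, ee_mul, smul_eq_mul, mul_sub, mul_one]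
    abel⟩
  let M0 := (Jm M ⊔ Pw (n + 1) ⊤).comap M.subtype
  obtain ⟨u, b, hb⟩ := h2 (M ⧸ M0) (fun a b => M0.mkQ (c a b)) fun a b e => by
    rw [← map_add, ← map_add]
    refine (Submodule.Quotient.eq _).2 (Submodule.mem_sup_left ?_)
    refine mem_of_eq (mem_Jm (φ a) (c b e).2) ?_
    simp only [c, Submodule.coe_subtype, Submodule.coe_sub, Submodule.coe_add, map_mul, ee_mul,
      mul_smul, smul_sub, smul_add, mul_assoc]
    abel
  choose u' hu' using fun t => M0.mkQ_surjective (u t)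
  choose b' hb' using fun a => ((Submodule.mkQ_surjective _).comp M0.mkQ_surjective) (b a)
  let D : K → Fin d → (ZMod p)[H] := fun a => v (φ a) - b' a
  have hD : ∀ a, gπ (ZMod p) x (D a) - (ee _ (φ a) - 1) ∈ Pw (n + 2) ⊤ := fun a => by
    rw [map_sub, sub_right_comm]
    exact Submodule.sub_mem _ (hv _) (b' a).2
  let ρ : Fin d ⊕ Fin 2 → Fin d → (ZMod p)[H] := Sum.elim (fun t => u' t) fun j => D (g j)
  have hρ : ∀ j, ρ j ∈ M := by
    rintro (t | j)
    · exact (u' t).2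
    · have := hD (g j)
      rwa [hg, ee_one, sub_self, sub_zero] at this
  refine ⟨ρ, fun j => hM (hρ j), ?_⟩
  suffices H1 : M ≤ Jm M ⊔ (Submodule.span _ (Set.range ρ) ⊔ Pw (n + 1) ⊤) by
    have H2 : ∀ a, M ≤ Pw a M ⊔ (Submodule.span _ (Set.range ρ) ⊔ Pw (n + 1) ⊤) := fun a => by
      induction a with
      | zero => exact le_sup_left
      | succ a ih =>
        refine ih.trans (sup_le ?_ le_sup_right)
        have := (Pw_mono (H1.trans (sup_comm _ _).le) a).trans (Pw_sup _ _ a)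
        rwa [show Jm M = Pw 1 M from rfl, Pw_add, add_comm 1 a, sup_comm] at this
    exact (H2 (n + 1)).trans (sup_le ((Pw_mono le_top _).trans le_sup_right) le_rfl)
  set M2 := Jm M ⊔ (Submodule.span _ (Set.range ρ) ⊔ Pw (n + 1) ⊤)
  have hM2 : ∀ y ∈ M0, (y : Fin d → (ZMod p)[H]) ∈ M2 := fun y hy =>
    (sup_le_sup_left le_sup_right _ : Jm M ⊔ Pw (n + 1) ⊤ ≤ M2) hy
  have hρ2 : ∀ j, ρ j ∈ M2 := fun j =>
    Submodule.mem_sup_right (Submodule.mem_sup_left (Submodule.subset_span ⟨j, rfl⟩))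
  have hD1 : ∀ a e, M2.mkQ (D (a * e)) = M2.mkQ (D a) + ee _ (φ a) • M2.mkQ (D e) := fun a e => by
    have h3 := hb a e
    simp only [← hb', Function.comp_apply, ← map_add, ← map_sub] at h3
    obtain ⟨α, hα⟩ := (Submodule.mem_span_range_iff_exists_fun _).1 ((Submodule.Quotient.eq _).1 h3)
    simp only [← hu', ← map_sub, ← LinearMap.map_smul_of_tower, ← map_sum] at hα
    have h4 := M2.add_mem (M2.sub_mem (hM2 _ ((Submodule.Quotient.eq _).1 hα))
      (M2.sum_mem (t := Finset.univ) fun t _ => M2.smul_of_tower_mem (α t) (hρ2 (Sum.inl t))))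
      (Submodule.mem_sup_left (mem_Jm (φ a) (b' e).2))
    rw [← map_smul, ← map_add]
    refine (Submodule.Quotient.eq _).2 (mem_of_eq h4 ?_)
    simp only [D, c, ρ, Submodule.coe_sub, Submodule.coe_add, Submodule.coe_sum, Sum.elim_inl,
      Submodule.coe_smul_of_tower, smul_sub]
    abel
  have hD0 : M2.mkQ (D 1) = 0 := by
    have := hD1 1 1
    rwa [mul_one, map_one, ee_one, one_smul, left_eq_add] at this
  let L : Subgroup K :=
    { carrier := {a | φ a = 1 ∧ M2.mkQ (D a) = 0}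
      one_mem' := ⟨map_one _, hD0⟩
      mul_mem' := fun ha hb => ⟨by rw [map_mul, ha.1, hb.1, mul_one],
        by rw [hD1, ha.2, hb.2, smul_zero, add_zero]⟩
      inv_mem' := fun {a} ha => ⟨by rw [map_inv, ha.1, inv_one], by
        have := hD1 a⁻¹ a
        rwa [inv_mul_cancel, hD0, ha.2, smul_zero, add_zero, eq_comm] at this⟩ }
  have : L.Normal := ⟨fun a ha e => ⟨by simp [ha.1], by
    have := hD1 e e⁻¹
    rw [mul_inv_cancel, hD0] at this
    rw [hD1, hD1, ha.2, smul_zero, add_zero, map_mul, ha.1, mul_one, ← this]⟩⟩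
  have hL : φ.ker ≤ L := hker.trans (Subgroup.normalClosure_le_normal (by
    rintro _ ⟨j, rfl⟩
    exact ⟨hg j, (Submodule.Quotient.mk_eq_zero _).2 (hρ2 (Sum.inr j))⟩))
  choose σ hσ using hφ
  have hD2 : ∀ a, M2.mkQ (D (σ (φ a))) = M2.mkQ (D a) := fun a => by
    have := hD1 a (a⁻¹ * σ (φ a))
    rwa [mul_inv_cancel_left, (hL (x := a⁻¹ * σ (φ a)) (by simp [hσ])).2, smul_zero, add_zero] at this
  let Θ := M2.mkQ - Fintype.linearCombination (ZMod p)[H] fun i => M2.mkQ (D (σ (x i)))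
  have h3 : ⊤ ≤ (M.map M2.mkQ).comap Θ := by
    rw [← (Pi.basisFun _ _).span_eq, Submodule.span_le]
    rintro _ ⟨i, rfl⟩
    refine ⟨Pi.single i 1 - D (σ (x i)), ?_, by simp [Θ]⟩
    have := Submodule.neg_mem _ (hD (σ (x i)))
    rw [hσ, neg_sub, ← gπ_single, ← map_sub] at this
    exact this
  have h4 : Jm (M.map M2.mkQ) ≤ ⊥ := Submodule.span_le.2 (by
    rintro _ ⟨a, _, ⟨y, hy, rfl⟩, rfl⟩
    exact (Submodule.Quotient.mk_eq_zero _).2 (Submodule.mem_sup_left (mem_Jm a hy)))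
  have h5 : ∀ y ∈ Pw (n + 1) (⊤ : Submodule (ZMod p)[H] (_ ⧸ M2)), y = 0 := fun y hy => by
    rw [← M2.range_mkQ, ← Submodule.map_top] at hy
    obtain ⟨y, h, rfl⟩ := Pw_map_le _ _ _ hy
    exact (Submodule.Quotient.mk_eq_zero _).2 (Submodule.mem_sup_right (Submodule.mem_sup_right h))
  intro m hm
  have h6 := h4 (Jm_map Θ h3 (hM hm))
  have h7 := h5 _ (der_comp x (fun y => M2.mkQ (D (σ y))) (fun a e => by
    obtain ⟨a, rfl⟩ : ∃ a', φ a' = a := ⟨_, hσ a⟩
    obtain ⟨e, rfl⟩ : ∃ a', φ a' = e := ⟨_, hσ e⟩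
    rw [← map_mul, hD2, hD2, hD2, hD1]) (n + 1) m hm)
  rw [Submodule.mem_bot, LinearMap.sub_apply, Fintype.linearCombination_apply, h7, sub_zero] at h6
  exact (Submodule.Quotient.mk_eq_zero _).1 h6

variable (p H) in
/-- quotients of the group algebra by powers of the augmentation ideal -/
abbrev Qt (n : ℕ) : Type := (ZMod p)[H] ⧸ Pw n (⊤ : Submodule (ZMod p)[H] (ZMod p)[H])

/-- multiplication by a matrix with entries in the augmentation ideal -/
theorem exists_mul {α β : Type} [Fintype α] (n : ℕ) (u : α → β → (ZMod p)[H])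
    (hu : ∀ a b, u a b ∈ Jm (⊤ : Submodule (ZMod p)[H] (ZMod p)[H])) :
    ∃ f : (α → Qt p H n) →ₗ[ZMod p] (β → Qt p H (n + 1)), ∀ (v : α → (ZMod p)[H]) b,
      f (fun a => Submodule.Quotient.mk (v a)) b = Submodule.Quotient.mk (∑ a, v a * u a b) := by
  let m : α → β → Qt p H n →ₗ[(ZMod p)[H]] Qt p H (n + 1) := fun a b =>
    Submodule.mapQ _ _ (LinearMap.toSpanSingleton _ _ (u a b)) fun r hr => by
      have := smul_mem_Pw hr (hu a b)
      rwa [show Jm (⊤ : Submodule (ZMod p)[H] (ZMod p)[H]) = Pw 1 ⊤ from rfl, Pw_add,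
        add_comm] at this
  refine ⟨LinearMap.pi fun b => ∑ a, (m a b).restrictScalars _ ∘ₗ LinearMap.proj a, fun v b => ?_⟩
  rw [LinearMap.pi_apply, LinearMap.sum_apply, ← Submodule.mkQ_apply, map_sum]
  rfl

theorem grow (hd : 6 ≤ d) (a : ℕ → ℕ) (h0 : a 0 = 0)
    (h : ∀ n, d * a (n + 1) + 1 ≤ (d + 2) * a n + a (n + 1 + 1)) (n : ℕ) :
    2 * a n ≤ a (n + 1) ∧ n ≤ a (n + 1) := by
  induction n with
  | zero => omega
  | succ n ih =>
    have h3 := h n
    obtain ⟨e, rfl⟩ := Nat.exists_eq_add_of_le hd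
    have : 2 * a (n + 1) + 1 ≤ a (n + 1 + 1) := by nlinarith [ih.1, Nat.zero_le (e * a (n + 1))]
    omega

theorem exists_index (n : ℕ) [Module.Finite (ZMod p) (Qt p H n)] :
    ∃ U : Subgroup H, U.FiniteIndex ∧ Module.finrank (ZMod p) (Qt p H n) ≤ U.index := by
  let τ : H →* Module.End (ZMod p) (Qt p H n) :=
    (Algebra.lsmul (ZMod p) (ZMod p) (Qt p H n)).toMonoidHom.comp (MonoidAlgebra.of (ZMod p) H)
  have : Finite (Module.End (ZMod p) (Qt p H n)) := Module.finite_of_finite (ZMod p)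
  let U := τ.toHomUnits.ker
  refine ⟨U, inferInstance, ?_⟩
  let _ := Fintype.ofFinite (H ⧸ U)
  rw [Subgroup.index, Nat.card_eq_fintype_card]
  refine finrank_le_of_span_eq_top
    (v := fun q : H ⧸ U => Submodule.Quotient.mk (ee (ZMod p) q.out)) (eq_top_iff.2 fun y _ => ?_)
  obtain ⟨r, rfl⟩ := Submodule.Quotient.mk_surjective _ y
  induction r using MonoidAlgebra.induction_on with
  | of y =>
    refine Submodule.subset_span ⟨y, ?_⟩
    obtain ⟨u, hu⟩ := QuotientGroup.mk_out_eq_mul U y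
    have h3 : ee (ZMod p) (u : H) • (Submodule.Quotient.mk 1 : Qt p H n) =
        Submodule.Quotient.mk 1 := LinearMap.congr_fun (congrArg Units.val u.2) _
    rw [← Submodule.Quotient.mk_smul, smul_eq_mul, mul_one] at h3
    simp only [hu, ee_mul]
    rw [← smul_eq_mul, Submodule.Quotient.mk_smul, h3, ← Submodule.Quotient.mk_smul, smul_eq_mul,
      mul_one]
    rfl
  | add a b ha hb => exact Submodule.add_mem _ (ha trivial) (hb trivial)
  | smul c a ha => exact Submodule.smul_mem _ c (ha trivial)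

theorem qt_finite {x : Fin d → H} {χ : Fin d → H → ZMod p}
    (hx : ∀ t i, χ t (x i) = if t = i then 1 else 0)
    (hχ : ∀ ψ : H → ZMod p, IsHom ψ → ∃ a : Fin d → ZMod p, ∀ g, ψ g = ∑ t, a t * χ t g) (n : ℕ) :
    Module.Finite (ZMod p) (Qt p H n) := by
  induction n with
  | zero =>
    have : Subsingleton (Qt p H 0) := Submodule.Quotient.subsingleton_iff.2 rfl
    infer_instance
  | succ n ih =>
    obtain ⟨π, hπ⟩ := exists_mul (p := p) n (fun (i : Fin d) (_ : Unit) => ee _ (x i) - 1)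
      fun i _ => ee_sub_mem _
    refine Module.Finite.of_surjective ((LinearMap.proj () ∘ₗ π).coprod
      (LinearMap.toSpanSingleton (ZMod p) _ (Submodule.Quotient.mk 1))) fun y => ?_
    obtain ⟨r, rfl⟩ := Submodule.Quotient.mk_surjective _ y
    obtain ⟨_, ⟨v, rfl⟩, b, hb, e⟩ := Submodule.mem_sup.1 (Jm_le_range hx hχ n (sub_aug_mem_Jm r))
    refine ⟨(fun i => Submodule.Quotient.mk (v i), aug _ H r), ?_⟩
    rw [LinearMap.coprod_apply, LinearMap.comp_apply, LinearMap.proj_apply, hπ, ← gπ_apply,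
      LinearMap.toSpanSingleton_apply, ← Submodule.Quotient.mk_smul,
      ← Submodule.Quotient.mk_add, Submodule.Quotient.eq]
    refine mem_of_eq (Submodule.neg_mem _ hb) ?_
    rw [eq_sub_of_add_eq e]
    abel

theorem golod_shafarevich (hd : 6 ≤ d) (h2 : H2c p K d) (φ : K →* H) (hφ : Function.Surjective φ)
    (g : Fin 2 → K) (hg : ∀ j, φ (g j) = 1) (hker : φ.ker ≤ Subgroup.normalClosure (Set.range g))
    {x : Fin d → H} {χ : Fin d → H → ZMod p} (hχ0 : ∀ t, IsHom (χ t))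
    (hx : ∀ t i, χ t (x i) = if t = i then 1 else 0)
    (hχ : ∀ ψ : H → ZMod p, IsHom ψ → ∃ a : Fin d → ZMod p, ∀ g, ψ g = ∑ t, a t * χ t g) (m : ℕ) :
    ∃ U : Subgroup H, U.FiniteIndex ∧ m ≤ U.index := by
  have hsur : ∀ {α : Type} (n : ℕ) (y : α → Qt p H n),
      ∃ v : α → (ZMod p)[H], y = fun a => Submodule.Quotient.mk (v a) := fun n y => by
    choose v hv using fun a => Submodule.Quotient.mk_surjective _ (y a)
    exact ⟨v, (funext hv).symm⟩
  have h0 : Subsingleton (Qt p H 0) := Submodule.Quotient.subsingleton_iff.2 rfl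
  have hfin := qt_finite hx hχ
  obtain ⟨U, h1, h3⟩ := exists_index (p := p) (H := H) (m + 1)
  refine ⟨U, h1, (grow hd (fun n => Module.finrank (ZMod p) (Qt p H n))
    Module.finrank_zero_of_subsingleton (fun n => ?_) m).2.trans h3⟩
  obtain ⟨π, hπ⟩ := exists_mul (p := p) (n + 1) (fun (i : Fin d) (_ : Unit) => ee _ (x i) - 1)
    fun i _ => ee_sub_mem _
  obtain ⟨ρ, h3, h4⟩ := relations h2 φ hφ g hg hker hχ0 hx hχ n
  obtain ⟨f, hf⟩ := exists_mul (p := p) n ρ fun j => (mem_Pw_pi (a := 1)).1 (h3 j)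
  have h5 : LinearMap.ker π ≤ LinearMap.range f := fun y hy => by
    obtain ⟨v, rfl⟩ := hsur _ y
    have h6 := congrFun hy ()
    rw [hπ, ← gπ_apply] at h6
    have h7 : gπ (ZMod p) x v ∈ Pw (n + 2) ⊤ := (Submodule.Quotient.mk_eq_zero _).1 h6
    obtain ⟨z, hz, b, hb, rfl⟩ := Submodule.mem_sup.1 (h4 (x := v) h7)
    obtain ⟨c, rfl⟩ := (Submodule.mem_span_range_iff_exists_fun _).1 hz
    refine ⟨fun j => Submodule.Quotient.mk (c j), funext fun i => ?_⟩
    rw [hf, Submodule.Quotient.eq]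
    refine mem_of_eq (Submodule.neg_mem _ (mem_Pw_pi.1 hb i)) ?_
    simp [Finset.sum_apply]
  have h6 : LinearMap.range π ≠ ⊤ := fun h => by
    obtain ⟨y, hy⟩ := LinearMap.range_eq_top.1 h fun _ => Submodule.Quotient.mk 1
    obtain ⟨v, rfl⟩ := hsur _ y
    have h7 := congrFun hy ()
    rw [hπ, ← gπ_apply, Submodule.Quotient.eq] at h7
    have h8 := aug_Jm (Jm_map LinearMap.id (Pw_le ⊤ (n + 1)) h7)
    rw [map_sub, aug_Jm (gπ_mem x v), map_one] at h8
    simp at h8
  have h7 := π.finrank_range_add_finrank_ker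
  have h8 := (Submodule.finrank_mono h5).trans f.finrank_range_le
  have h9 := Submodule.finrank_lt h6
  simp only [Module.finrank_pi_fintype, Finset.sum_const, Finset.card_univ, Fintype.card_sum,
    Fintype.card_fin, smul_eq_mul, Fintype.card_unique, one_mul] at h7 h8 h9
  omega

end

end Pool.Agent.P.MP_5ee5b4_al
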