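import Pool.Agent.P.MP_5ee5b4_al.Coc

/-! Induced modules and character duality. -/

namespace Pool.Agent.P.MP_5ee5b4_al

open Pool.Agent.P.MP_6e40fc_al
open scoped MonoidAlgebra

noncomputable section

set_option linter.unusedSectionVars false

variable {Γ : Type} [Group Γ] {ι : Type} [Fintype ι] [DecidableEq ι] {K : Subgroup Γ}
  {M A : Type} [AddCommGroup M] [Module ℤ[K] M] [AddCommGroup A] [Module ℤ[K] A]

/-- the rational circle -/
abbrev TT : Type := AddCircle (1 : ℚ)

/-- an invariant subgroup is a submodule -/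
def mkSub {B : Type} [AddCommGroup B] [Module ℤ[Γ] B] (S : AddSubgroup B)
    (h : ∀ (g : Γ) a, a ∈ S → o g • a ∈ S) : Submodule ℤ[Γ] B where
  toAddSubmonoid := S.toAddSubmonoid
  smul_mem' r a ha := by
    induction r using zg_induction with
    | ho g => exact h g a ha
    | hadd r s hr hs => rw [add_smul]; exact S.add_mem hr hs
    | hsmul n r hr => rw [smul_assoc]; exact S.zsmul_mem hr n

theorem o_inv_smul {B : Type} [AddCommGroup B] [Module ℤ[Γ] B] (g : Γ) (a : B) :
    o g • o g⁻¹ • a = a := by rw [smul_smul, o_mul, mul_inv_cancel, o_one, one_smul]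

/-- the support -/
def sp (f : Co K.subtype M) : Set (Γ ⧸ K) := {q | f q.out⁻¹ ≠ 0}

theorem mem_sp {f : Co K.subtype M} {x : Γ} : ((x⁻¹ : Γ) : Γ ⧸ K) ∈ sp f ↔ f x ≠ 0 := by
  obtain ⟨k, hk⟩ := QuotientGroup.mk_out_eq_mul K x⁻¹
  have h : f ((x⁻¹ : Γ) : Γ ⧸ K).out⁻¹ = o k⁻¹ • f x := by
    rw [← f.equiv]
    exact congrArg f.val (by simpa using congrArg (·⁻¹) hk)
  refine not_congr (h ▸ ⟨fun h => ?_, fun h => by rw [h, smul_zero]⟩)
  rw [← o_inv_smul k (f x), h, smul_zero]

variable (K M) in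
/-- the induced module -/
def Ind : Submodule ℤ[Γ] (Co K.subtype M) := mkSub
  { carrier := {f | (sp f).Finite}
    add_mem' := fun {f g} hf hg => (hf.union hg).subset fun q hq => by_contra fun h => hq (by
      simp only [Set.mem_union, sp, Set.mem_ofPred_eq, not_or, not_not] at h
      rw [Co.add_apply, h.1, h.2, add_zero])
    zero_mem' := Set.finite_empty.subset fun q hq => hq rfl
    neg_mem' := fun {f} hf => hf.subset fun q hq h => hq (by rw [Co.neg_apply, h, neg_zero]) }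
  fun g f hf => (Set.Finite.image (g • ·) hf).subset fun q hq =>
    ⟨((q.out⁻¹ * g)⁻¹ : Γ), mem_sp.2 (by rw [← Co.o_smul]; exact hq), by simp⟩

theorem h1_ind {s : ι → Γ} (hs : Subgroup.closure (Set.range s) = ⊤)
    (R : Finset (ι → ℤ[Γ])) (hR : Submodule.span ℤ[Γ] (R : Set (ι → ℤ[Γ])) = LinearMap.ker (dS s))
    (N : Subgroup Γ) [N.Normal] [Infinite (Γ ⧸ N)] (hN : OE N (Set.range s)) (hK : K ≤ N)
    (φ : ι → Ind K M) (hφ : ∀ r ∈ R, ∑ i, r i • φ i = 0) :
    ∃ v, ∀ i, φ i = (o (s i) - 1) • v := by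
  obtain ⟨F, -, hF⟩ := exists_integral hs (fun i x => (φ i).1 x) R hR fun r hr x => by
    have := congrArg (fun f : Ind K M => f.1 x) (hφ r hr)
    simp only [Submodule.coe_sum, Co.sum_apply, Submodule.coe_smul, Co.smul_apply] at this
    exact this
  obtain ⟨B', hB', hrel⟩ := hN (⋃ i, (fun q : Γ ⧸ K => ((q.out⁻¹ : Γ) : Γ ⧸ N)) '' sp (φ i).1)
    (Set.finite_iUnion fun i => Set.Finite.image _ (φ i).2)
  obtain ⟨q0, hq0⟩ := hB'.infinite_compl.nonempty
  obtain ⟨x0, rfl⟩ := QuotientGroup.mk_surjective q0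
  let F0 : Γ → M := fun x => F x - F x0
  have hF0 : ∀ x i, F0 (x * s i) = F0 x + (φ i).1 x := fun x i => by
    simp only [F0, hF]; abel
  have h1 : ∀ x : Γ, (x : Γ ⧸ N) ∉ B' → F0 x = 0 := fun x hx =>
    (hrel x x0 hx hq0 (fun z => F0 z = 0) (by
      rintro z _ ⟨i, rfl⟩ hz -
      have : (φ i).1 z = 0 := by
        by_contra h
        refine hz (Set.mem_iUnion.2 ⟨i, _, mem_sp.2 h, ?_⟩)
        obtain ⟨k, hk⟩ := QuotientGroup.mk_out_eq_mul K z⁻¹
        simp only [hk, mul_inv_rev, inv_inv]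
        rw [QuotientGroup.mk_mul, (QuotientGroup.eq_one_iff _).2 (N.inv_mem (hK k.2)), one_mul]
      rw [hF0, this, add_zero])).2 (sub_self _)
  have h2 : ∀ (k : K) x, F0 (k * x) = o k • F0 x := fun k x => by
    have := const_of_edges' hs (fun x => F0 (k * x) - o k • F0 x) (fun x i => by
      have := (φ i).1.equiv k x
      simp only [← mul_assoc, hF0, smul_add, ← this, Subgroup.coe_subtype]; abel) x x0
    rwa [h1 x0 hq0, h1 (k * x0) (by
      rwa [QuotientGroup.mk_mul, (QuotientGroup.eq_one_iff _).2 (hK k.2), one_mul]), smul_zero,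
      sub_zero, sub_eq_zero] at this
  choose v hv using exists_dS hs
  refine ⟨⟨Co.mk F0 h2, (hB'.biUnion fun b _ => Set.finite_iUnion fun i =>
    (Finset.finite_toSet (v (b.out⁻¹ * x0) i).coeff.support).image2 (fun y (q : Γ ⧸ K) => y • q)
      (φ i).2).subset fun q (hq : F0 _ ≠ 0) => ?_⟩, fun i => Subtype.ext (Co.ext fun x => ?_)⟩
  · set x := q.out⁻¹ with hx
    have hb : (x : Γ ⧸ N) ∈ B' := by_contra fun h => hq (h1 x h)
    refine Set.mem_biUnion hb ?_
    by_contra hcon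
    have h3 := extAdd_dS (fun y => F0 (x * y)) s (v ((x : Γ ⧸ N).out⁻¹ * x0))
    rw [hv, map_sub, ← o_one, extAdd_o, extAdd_o, mul_one, h1 _ (by
      simpa [QuotientGroup.mk_mul] using hq0), Finset.sum_eq_zero fun i _ => ?_, zero_sub,
      neg_eq_zero] at h3
    · exact hq h3
    · rw [extAdd_congr (g := fun _ => 0) fun y hy => ?_]
      · exact extAdd_zero _
      · rw [← mul_assoc, hF0, add_sub_cancel_left]
        by_contra h
        refine hcon (Set.mem_iUnion.2 ⟨i, y, hy, _, mem_sp.2 h, ?_⟩)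
        simp [hx]
  · rw [Submodule.coe_smul, sub_smul, one_smul, Co.sub_apply, Co.o_smul, Co.mk_apply, Co.mk_apply,
      hF0, add_sub_cancel_left]

open Classical in
/-- functions supported on the subgroup -/
def sgl : M →+ Ind K M := AddMonoidHom.mk' (fun m => ⟨Co.mk
    (fun y => if h : y ∈ K then o (⟨y, h⟩ : K) • m else 0) fun k y => by
      by_cases h : y ∈ K
      · rw [dif_pos h, smul_smul, o_mul]; exact dif_pos (K.mul_mem k.2 h)
      · rw [dif_neg h, smul_zero]; exact dif_neg fun h' => h ((K.mul_mem_cancel_left k.2).1 h'),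
    (Set.finite_singleton ((1 : Γ) : Γ ⧸ K)).subset fun q hq => by
      have h : q.out⁻¹ ∈ K := by_contra fun h => hq (dif_neg h)
      rw [Set.mem_singleton_iff, ← q.out_eq]
      exact QuotientGroup.eq.2 (by simpa using h)⟩)
  fun a b => Subtype.ext (Co.ext fun y => by
    rw [Submodule.coe_add, Co.add_apply, Co.mk_apply, Co.mk_apply, Co.mk_apply]
    split_ifs
    · exact smul_add _ _ _
    · exact (add_zero _).symm)

theorem sgl_pos (m : M) (x y : Γ) (h : y * x ∈ K) :
    (o x • sgl m : Ind K M).1 y = o (⟨_, h⟩ : K) • m := by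
  rw [Submodule.coe_smul, Co.o_smul]; exact dif_pos h

theorem sgl_neg (m : M) (x y : Γ) (h : y * x ∉ K) : (o x • sgl m : Ind K M).1 y = 0 := by
  rw [Submodule.coe_smul, Co.o_smul]; exact dif_neg h

theorem sgl_smul (k : K) (x : Γ) (m : M) :
    (o x • sgl (o k • m) : Ind K M) = o (x * k) • sgl m := Subtype.ext (Co.ext fun y => by
  by_cases h : y * x ∈ K
  · rw [sgl_pos _ _ _ h, sgl_pos _ _ _ (by rw [← mul_assoc]; exact K.mul_mem h k.2), smul_smul,
      o_mul]
    exact congrArg (o · • m) (Subtype.ext (mul_assoc _ _ _))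
  · rw [sgl_neg _ _ _ h, sgl_neg _ _ _ fun h' => h ((K.mul_mem_cancel_right k.2).1 (by
      rwa [mul_assoc]))])

theorem ind_ext {T : Type} [AddCommGroup T] {L L' : Ind K M →+ T}
    (h : ∀ (x : Γ) m, L (o x • sgl m) = L' (o x • sgl m)) : L = L' := AddMonoidHom.ext fun φ => by
  have : φ = ∑ q ∈ Set.Finite.toFinset φ.2, o q.out • sgl (φ.1 q.out⁻¹) :=
    Subtype.ext (Co.ext fun y => by
      obtain ⟨k, hk⟩ := QuotientGroup.mk_out_eq_mul K y⁻¹
      have h1 : y * ((y⁻¹ : Γ) : Γ ⧸ K).out ∈ K := by simp [hk]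
      have h2 : (o ((y⁻¹ : Γ) : Γ ⧸ K).out • sgl (φ.1 ((y⁻¹ : Γ) : Γ ⧸ K).out⁻¹) : Ind K M).1 y =
          φ.1 y := by
        rw [sgl_pos _ _ _ h1, ← φ.1.equiv]
        simp
      rw [Submodule.coe_sum, Co.sum_apply, Finset.sum_eq_single ((y⁻¹ : Γ) : Γ ⧸ K), h2]
      · exact fun q _ hq => sgl_neg _ _ _ fun h => hq (by
          rw [← q.out_eq, eq_comm]
          exact QuotientGroup.eq.2 (by simpa using h))
      · intro hq
        refine h2.trans (by_contra fun h => hq ((Set.Finite.mem_toFinset _).2 (mem_sp.2 h))))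
  rw [this, map_sum, map_sum]
  exact Finset.sum_congr rfl fun q _ => h _ _

variable (w : Γ →* ℤˣ)

theorem exists_pr (β : A →+ M →+ TT) (hβ : Function.Bijective β)
    (hβ' : ∀ (k : K) a m, β (o k • a) (o k • m) = (w k : ℤ) • β a m) :
    ∃ π : Co K.subtype A →+ Ind K M →+ TT, Function.Bijective π ∧
      ∀ r f φ, π (conj w r • f) φ = π f (r • φ) := by
  classical
  have : ∀ f : Co K.subtype A, ∃ L : Ind K M →+ TT, ∀ (x : Γ) m,
      L (o x • sgl m) = (w x : ℤ) • β (f x⁻¹) m := fun f => by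
    let E : Ind K M →+ (Γ ⧸ K →₀ M) := AddMonoidHom.mk'
      (fun φ => Finsupp.ofSupportFinite (fun q => φ.1 q.out⁻¹) φ.2) fun a b => Finsupp.ext fun _ => rfl
    refine ⟨(Finsupp.liftAddHom fun q => (w q.out : ℤ) • β (f q.out⁻¹)).comp E, fun x m => ?_⟩
    obtain ⟨k, hk⟩ := QuotientGroup.mk_out_eq_mul K x
    have : E (o x • sgl m) = Finsupp.single (x : Γ ⧸ K) (o k⁻¹ • m) := Finsupp.ext fun q => by
      change (o x • sgl m : Ind K M).1 q.out⁻¹ = _
      by_cases h : (x : Γ ⧸ K) = q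
      · subst h
        rw [Finsupp.single_eq_same, sgl_pos _ _ _ (by simp [hk])]
        exact congrArg (o · • m) (Subtype.ext (by simp [hk]))
      · rw [Finsupp.single_eq_of_ne' h, sgl_neg _ _ _ fun h' => h (by
          rw [← q.out_eq, eq_comm]; exact QuotientGroup.eq.2 h')]
    rw [AddMonoidHom.comp_apply, this, Finsupp.liftAddHom_apply_single, hk, mul_inv_rev,
      ← Subgroup.coe_inv, show f (((k⁻¹ : K) : Γ) * x⁻¹) = _ from f.equiv k⁻¹ x⁻¹,
      AddMonoidHom.smul_apply, hβ', smul_smul, ← Units.val_mul, ← map_mul]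
    simp
  choose L hL using this
  let π : Co K.subtype A →+ Ind K M →+ TT := AddMonoidHom.mk' L fun f g => ind_ext fun x m => by
    simp [hL]
  refine ⟨π, ⟨fun f g h => Co.ext fun x => hβ.1 (AddMonoidHom.ext fun m => ?_), fun η => ?_⟩,
    fun r f φ => ?_⟩
  · have := congrArg ((w x⁻¹ : ℤ) • ·) ((hL f x⁻¹ m).symm.trans
      ((DFunLike.congr_fun h _).trans (hL g x⁻¹ m)))
    simpa only [ww, inv_inv] using this
  · choose a ha using fun x : Γ => hβ.2 ((w x : ℤ) • η.comp
      ((DistribSMul.toAddMonoidHom _ (o x⁻¹)).comp sgl))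
    have ha' : ∀ x m, β (a x) m = (w x : ℤ) • η (o x⁻¹ • sgl m) := fun x m => by rw [ha]; rfl
    refine ⟨Co.mk a fun k x => hβ.1 (AddMonoidHom.ext fun m => ?_), ind_ext fun x m => ?_⟩
    · rw [← o_inv_smul k m, hβ', ha', ha', sgl_smul, map_mul, Units.val_mul, mul_smul]
      simp
    · refine (hL _ x m).trans ?_
      rw [Co.mk_apply, ha', map_inv, Int.units_inv_eq_self, ww, inv_inv]
  · induction r using zg_induction with
    | ho g =>
      refine DFunLike.congr_fun (ind_ext (L := π (conj w (o g) • f))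
        (L' := (π f).comp (DistribSMul.toAddMonoidHom _ (o g))) fun x m => ?_) φ
      change L _ _ = L f (o g • o x • sgl m)
      rw [smul_smul, o_mul, hL, hL, conj_o, smul_assoc, Co.zsmul_apply, Co.o_smul, map_zsmul,
        AddMonoidHom.smul_apply, map_mul, Units.val_mul, mul_inv_rev, smul_smul, mul_comm]
    | hadd a b ha hb => simp only [map_add, add_smul, AddMonoidHom.add_apply, ha, hb]
    | hsmul n a ha => simp only [map_zsmul, smul_assoc, AddMonoidHom.smul_apply, ha]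

theorem dualize2 {A B : Type} [AddCommGroup A] [Module ℤ[Γ] A] [AddCommGroup B] [Module ℤ[Γ] B]
    (π : A →+ B →+ TT) (hπ : Function.Bijective π)
    (hπ' : ∀ r f φ, π (conj w r • f) φ = π f (r • φ)) {s : ι → Γ} (R : Finset (ι → ℤ[Γ]))
    (hR : ∀ r ∈ R, dS s r = 0) (z : ι → A) (hz : Cyc w s z)
    (h1 : ∀ φ : ι → B, (∀ r ∈ R, ∑ i, r i • φ i = 0) → ∃ v, ∀ i, φ i = (o (s i) - 1) • v) :
    z ∈ Bd _ w s := by
  classical
  let ζ : (ι → B) →+ TT := ∑ i, (π (z i)).comp (Pi.evalAddMonoidHom _ i)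
  let δ : (ι → B) →+ (R → B) := AddMonoidHom.mk' (fun φ r => ∑ i, r.1 i • φ i) fun a b =>
    funext fun r => by simp [Finset.sum_add_distrib]
  have hζ : ∀ φ, ζ φ = ∑ i, π (z i) (φ i) := fun φ => by simp [ζ]
  have hk : δ.ker ≤ ζ.ker := fun φ h => by
    obtain ⟨v, hv⟩ := h1 φ fun r hr => congrFun h ⟨r, hr⟩
    have := congrArg (fun a => π a v) hz
    simp only [map_sum, AddMonoidHom.finsetSum_apply, hπ', ← hv, map_zero,
      AddMonoidHom.zero_apply] at this
    exact (hζ φ).trans this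
  obtain ⟨η, hη⟩ := (Module.Baer.of_divisible TT).extension_property_addMonoidHom _
    (QuotientAddGroup.kerLift_injective δ) (QuotientAddGroup.lift _ ζ hk)
  have hη' : ∀ φ, η (δ φ) = ζ φ := fun φ => DFunLike.congr_fun hη (φ : _ ⧸ δ.ker)
  choose u hu using fun r : R => hπ.2 (η.comp (AddMonoidHom.single (fun _ : R => B) r))
  have : z = ∑ r : R, ract w (u r) r.1 := funext fun i => hπ.1 (AddMonoidHom.ext fun φ => by
    have h2 : ζ (Pi.single i φ) = π (z i) φ := by
      rw [hζ, Finset.sum_eq_single i] <;> simp +contextual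
    have h3 : δ (Pi.single i φ) = ∑ r : R, Pi.single r (r.1 i • φ) := by
      funext r
      change ∑ j, _ = _
      rw [Finset.sum_eq_single i, Finset.sum_apply, Finset.sum_eq_single r] <;>
        simp +contextual [eq_comm]
    rw [Finset.sum_apply, map_sum, AddMonoidHom.finsetSum_apply, ← h2, ← hη', h3, map_sum]
    exact Finset.sum_congr rfl fun r _ => by rw [ract, hπ', hu]; rfl)
  rw [this]
  exact AddSubgroup.sum_mem _ fun r _ => ract_mem_Bd w s _ (hR _ r.2)

variable {w}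

theorem DD.ext_dual {s : ι → Γ} (D : DD w s) (hs : Subgroup.closure (Set.range s) = ⊤)
    (hfg : (LinearMap.ker (dS s)).FG) (N : Subgroup Γ) [N.Normal] [Infinite (Γ ⧸ N)]
    (hN : OE N (Set.range s)) (hK : K ≤ N) (β : A →+ M →+ TT) (hβ : Function.Bijective β)
    (hβ' : ∀ (k : K) a m, β (o k • a) (o k • m) = (w k : ℤ) • β a m)
    (f : LinearMap.ker (dS s) →ₗ[ℤ[Γ]] Co K.subtype A) : Extends f := by
  obtain ⟨R, hR⟩ := hfg
  obtain ⟨π, h1, h2⟩ := exists_pr w β hβ hβ'
  exact (D.ext _ _).1 (dualize2 w π h1 h2 R (fun r hr =>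
    (hR ▸ Submodule.subset_span hr : r ∈ LinearMap.ker (dS s))) _ (D.cyc _ _)
    (h1_ind hs R hR N hN hK))

end

end Pool.Agent.P.MP_5ee5b4_al
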