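import Pool.Agent.P.MP_5ee5b4_al.HD

/-! Homological dimension one and its consequences. -/

namespace Pool.Agent.P.MP_5ee5b4_al

open Pool.Agent.P.MP_6e40fc_al Matrix MulOpposite
open scoped MonoidAlgebra

noncomputable section

set_option linter.unusedSectionVars false

variable {Γ K : Type} [Group Γ] [Group K] {ι γ : Type} [Fintype ι] [DecidableEq ι] [Fintype γ]

/-- the module of an action by additive maps -/
def RM {M : Type} [AddCommGroup M] (_ρ : K →* AddMonoid.End M) : Type := M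

instance {M : Type} [AddCommGroup M] (ρ : K →* AddMonoid.End M) : AddCommGroup (RM ρ) :=
  inferInstanceAs (AddCommGroup M)

instance {M : Type} [AddCommGroup M] (ρ : K →* AddMonoid.End M) : Module ℤ[K] (RM ρ) :=
  Module.compHom M (MonoidAlgebra.lift ℤ (AddMonoid.End M) K ρ).toRingHom

theorem RM.o_smul {M : Type} [AddCommGroup M] (ρ : K →* AddMonoid.End M) (g : K) (m : RM ρ) :
    o g • m = ρ g m := by
  change (MonoidAlgebra.lift ℤ (AddMonoid.End M) K ρ (MonoidAlgebra.of ℤ K g)) m = _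
  rw [MonoidAlgebra.lift_of]

/-- second cohomology with coefficients in character modules vanishes -/
def HD (K : Type) [Group K] : Prop := ∀ (M : Type) [AddCommGroup M] (ρ : K →* AddMonoid.End M)
  (c : K → K → M →+ TT),
  (∀ a b d m, c a b m + c (a * b) d m = c a (b * d) m + c b d (ρ a⁻¹ m)) →
    ∃ b : K → M →+ TT, ∀ x y m, c x y m = b x m + b y (ρ x⁻¹ m) - b (x * y) m

theorem DD.hd {w : Γ →* ℤˣ} {s : ι → Γ} (D : DD w s) (hs : Subgroup.closure (Set.range s) = ⊤)
    (hfg : (LinearMap.ker (dS s)).FG) (N : Subgroup Γ) [N.Normal] [Infinite (Γ ⧸ N)]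
    (hN : OE N (Set.range s)) (K : Subgroup Γ) (hK : K ≤ N) : HD K := fun M _ ρ c hc => by
  have hρ : ∀ a b m, ρ (a * b) m = ρ a (ρ b m) := fun a b m => by rw [map_mul]; rfl
  have hρ1 : ∀ m, ρ 1 m = m := fun m => by rw [map_one]; rfl
  let mk : ∀ {X : Type} [AddCommGroup X], (K → X) → Co (1 : Unit →* K) (Triv Unit X) :=
    fun f => Co.mk f fun k x => by rw [Triv.o_smul, MonoidHom.one_apply, one_mul]
  let π : Co (1 : Unit →* K) (Triv Unit (M →+ TT)) →ₗ[ℤ[K]]
      Co (1 : Unit →* K) (Triv Unit (K → M → TT)) :=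
    mkLin (AddMonoidHom.mk' (fun f => mk fun x y m => un _ _ (f (y * x)) m - un _ _ (f x) (ρ y⁻¹ m))
      fun f g => Co.ext fun x => funext fun y => funext fun m => add_sub_add_comm _ _ _ _)
      fun g f => Co.ext fun x => by
        rw [Co.o_smul]
        exact funext fun y => funext fun m => by
          change un _ _ ((o g • f) (y * x)) m - un _ _ ((o g • f) x) _ =
            un _ _ (f (y * (x * g))) m - un _ _ (f (x * g)) _
          rw [Co.o_smul, Co.o_smul, mul_assoc]
  let ρ' : K →* AddMonoid.End M :=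
    { toFun := fun k => (w k : ℤ) • ρ k
      map_one' := by simp
      map_mul' := fun a b => by
        rw [Subgroup.coe_mul, map_mul, map_mul, Units.val_mul, smul_mul_smul_comm] }
  let β : LinearMap.ker π →+ RM ρ' →+ TT :=
    ((un _ _).comp (Co.ev 1)).comp (LinearMap.ker π).subtype.toAddMonoidHom
  have hβ : ∀ (f : LinearMap.ker π) y m, un _ _ (f.1 y) m = β f (ρ y⁻¹ m) := fun f y m => by
    have : un _ _ (f.1 (y * 1)) m - un _ _ (f.1 1) (ρ y⁻¹ m) = 0 :=
      congrFun (congrFun (congrArg (fun g => g 1) f.2) y) m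
    rwa [mul_one, sub_eq_zero] at this
  obtain ⟨E, h1, h2⟩ := derLift_of_ext hs K.subtype Subtype.val_injective π
    (fun g => π (mk fun x => c x g)) (fun g => ⟨_, rfl⟩) (fun g k => by
      rw [← map_smul, ← map_add]
      refine Co.ext fun x => funext fun y => funext fun m => ?_
      change c (y * x) (g * k) m - c x (g * k) _ = c (y * x) g m + un _ _ ((o g • mk fun x => c x k)
        (y * x)) m - (c x g _ + un _ _ ((o g • mk fun x => c x k) x) _)
      rw [Co.o_smul, Co.o_smul]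
      change _ = c (y * x) g m + c (y * x * g) k m - (c x g _ + c (x * g) k _)
      rw [hc, hc, _root_.mul_inv_rev, hρ]
      abel)
    (D.ext_dual hs hfg N hN hK β ⟨fun f g h => Subtype.ext (Co.ext fun y =>
      AddMonoidHom.ext fun m => (hβ f y m).trans (h ▸ (hβ g y m).symm)), fun a =>
      ⟨⟨mk fun y => AddMonoidHom.comp a (ρ y⁻¹), Co.ext fun x => funext fun y => funext fun m =>
        sub_eq_zero.2 (congrArg a (by rw [_root_.mul_inv_rev]; exact hρ _ _ _))⟩,
        AddMonoidHom.ext fun m => congrArg a (by rw [inv_one]; exact hρ1 m)⟩⟩ fun k f m => by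
      change un _ _ ((o k • f.1) 1) _ = _
      rw [Co.o_smul, one_mul, hβ, RM.o_smul, ← map_zsmul]
      refine congrArg (β f) ?_
      change ρ k⁻¹ ((w k : ℤ) • ρ k m) = _
      rw [map_zsmul, ← hρ, inv_mul_cancel, hρ1]
      rfl)
  refine ⟨fun g => c 1 1 - un _ _ (E g 1), fun g k m => ?_⟩
  have h3 : un _ _ (E k (g * 1)) m - un _ _ (E k 1) (ρ g⁻¹ m) = c (g * 1) k m - c 1 k (ρ g⁻¹ m) :=
    congrFun (congrFun (congrArg (fun f => f 1) (h2 k)) g) m
  have h4 := hc 1 1 k (ρ g⁻¹ m)
  simp only [h1, Co.add_apply, Co.o_smul, map_add, one_mul, mul_one, inv_one, hρ1,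
    AddMonoidHom.sub_apply, AddMonoidHom.add_apply] at h3 h4 ⊢
  linear_combination (norm := abel) -h3 - h4

theorem HD.h2 (h : HD K) (M : Rep ℤ K) : CategoryTheory.Limits.IsZero (groupHomology M 2) := by
  refine ModuleCat.isZero_iff_subsingleton.2 (subsingleton_of_forall_eq 0 fun x => ?_)
  induction x using groupHomology.H2_induction_on with | h z => ?_
  refine (groupHomology.H2π_eq_zero_iff z).2 ((QuotientAddGroup.eq_zero_iff
    (N := (groupHomology.boundaries₂ M).toAddSubgroup) z.1).1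
      (CharacterModule.eq_zero_of_character_apply fun Λ0 => ?_))
  let Λ := AddMonoidHom.comp Λ0 (QuotientAddGroup.mk' _)
  obtain ⟨b, hb⟩ := h M
    { toFun := fun g => (M.ρ g).toAddMonoidHom
      map_one' := by rw [map_one]; rfl
      map_mul' := fun a b => by rw [map_mul]; rfl }
    (fun g k => Λ.comp (Finsupp.singleAddHom (g, k))) fun a b d m => by
      have : Λ (groupHomology.d₃₂ M (Finsupp.single (a, b, d) m)) = 0 :=
        (congrArg Λ0 ((QuotientAddGroup.eq_zero_iff _).2 ⟨_, rfl⟩)).trans (map_zero _)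
      rw [groupHomology.d₃₂_single, map_sub, map_add, map_sub] at this
      change Λ (Finsupp.single _ _) + Λ (Finsupp.single _ _) =
        Λ (Finsupp.single _ _) + Λ (Finsupp.single _ (M.ρ a⁻¹ m))
      linear_combination (norm := abel) -this
  have : Λ = (Finsupp.liftAddHom b).comp (groupHomology.d₂₁ M).hom.toAddMonoidHom :=
    Finsupp.addHom_ext fun ⟨g, k⟩ m => (hb g k m).trans (by
      change _ = Finsupp.liftAddHom b (groupHomology.d₂₁ M _)
      rw [groupHomology.d₂₁_single]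
      simp only [map_add, map_sub, Finsupp.liftAddHom_apply_single]
      exact (add_sub_assoc _ _ _).trans (add_comm _ _))
  exact (DFunLike.congr_fun this z.1).trans ((congrArg (Finsupp.liftAddHom b) z.2).trans
    (map_zero _))

theorem extAdd_hom {X : Type} [AddCommGroup X] (Φ : ℤ[K] →+ X) : extAdd (fun y => Φ (o y)) = Φ :=
  addHom_ext fun _ => extAdd_o _ _

theorem HD.villa (h : HD K) {t : ι → K} (ht : Subgroup.closure (Set.range t) = ⊤)
    (X : Matrix γ ι ℤ[K]) (hX : X * πc t = 0) :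
    ∃ ρ : Matrix ι ι ℤ[K], ρ * πc t = 0 ∧ X * ρ = X := by
  classical
  let S : AddSubgroup (Matrix γ ι ℤ[K]) :=
    { carrier := {Y | ∃ ρ : Matrix ι ι ℤ[K], ρ * πc t = 0 ∧ X * ρ = Y}
      add_mem' := by
        rintro _ _ ⟨a, ha, rfl⟩ ⟨b, hb, rfl⟩
        exact ⟨a + b, by rw [Matrix.add_mul, ha, hb, add_zero], Matrix.mul_add _ _ _⟩
      zero_mem' := ⟨0, Matrix.zero_mul _, Matrix.mul_zero _⟩
      neg_mem' := by
        rintro _ ⟨a, ha, rfl⟩
        exact ⟨-a, by rw [Matrix.neg_mul, ha, neg_zero], Matrix.mul_neg _ _⟩ }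
  refine (QuotientAddGroup.eq_zero_iff (N := S) X).1
    (CharacterModule.eq_zero_of_character_apply fun Λ0 => ?_)
  let Λ := AddMonoidHom.comp Λ0 (QuotientAddGroup.mk' S)
  have hΛ : ∀ ρ : Matrix ι ι ℤ[K], ρ * πc t = 0 → Λ (X * ρ) = 0 := fun ρ hρ =>
    (congrArg Λ0 ((QuotientAddGroup.eq_zero_iff _).2 ⟨ρ, hρ, rfl⟩)).trans (map_zero _)
  let J : Submodule ℤ[K]ᵐᵒᵖ (γ → ℤ[K]) :=
    { carrier := {x | ∀ r, dS t r = 0 → Λ (vecMulVec x r) = 0}
      add_mem' := fun ha hb r hr => by rw [add_vecMulVec, map_add, ha r hr, hb r hr, add_zero]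
      zero_mem' := fun r _ => by rw [zero_vecMulVec, map_zero]
      smul_mem' := fun a x hx r hr => by
        rw [← op_unop a, ← vecMulVec_smul']
        exact hx _ (by rw [map_smul, hr, smul_zero]) }
  have hJ : ∀ i, J.mkQ (X.col i) = 0 := fun i => (Submodule.Quotient.mk_eq_zero _).2 fun r hr => by
    rw [← mulVec_single_one, ← mul_vecMulVec]
    refine hΛ _ (Matrix.ext fun a u => ?_)
    rw [← dS_row, show vecMulVec _ r a = _ • r from row_vecMulVec _ _ _, map_smul, hr, smul_zero]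
    rfl
  choose v hv using exists_dS ht
  let L : (ι → ℤ[K]) → (γ → ℤ[K]) →+ TT := fun r =>
    Λ.comp (AddMonoidHom.mk' (vecMulVec · r) fun a b => add_vecMulVec a b r)
  have hL : ∀ r x, L r x = Λ (vecMulVec x r) := fun _ _ => rfl
  obtain ⟨b, hb⟩ := h ((γ → ℤ[K]) ⧸ J) ((Module.toAddMonoidEnd ℤ[K]ᵐᵒᵖ _).toMonoidHom.comp
    { toFun := fun k => op (o k⁻¹)
      map_one' := by simp
      map_mul' := fun a b => by rw [_root_.mul_inv_rev, ← o_mul, op_mul] })
    (fun g k => QuotientAddGroup.lift J.toAddSubgroup (L (v g + o g • v k - v (g * k)))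
      fun x hx => hx _ (by
        rw [map_sub, map_add, map_smul, hv, hv, hv, smul_eq_mul, mul_sub, o_mul]; simp))
    fun a b d m => by
      obtain ⟨x, rfl⟩ := J.mkQ_surjective m
      change L _ x + L _ x = L _ x + L _ (op (o a⁻¹⁻¹) • x)
      simp only [hL, ← vecMulVec_smul', ← map_add, ← vecMulVec_add, inv_inv, smul_sub, smul_add,
        smul_smul, o_mul, mul_assoc]
      congr 2
      abel
  let Ψ : K → (γ → ℤ[K]) →+ TT := fun g => L (v g) - (b g).comp J.mkQ.toAddMonoidHom
  have hΨ : ∀ g k x, Ψ (g * k) x - Ψ g x = Ψ k (op (o g) • x) := fun g k x => by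
    have : L _ x = b g (J.mkQ x) + b k (J.mkQ (op (o g⁻¹⁻¹) • x)) - b (g * k) (J.mkQ x) :=
      hb g k (J.mkQ x)
    simp only [hL, vecMulVec_sub, vecMulVec_add, vecMulVec_smul', map_sub, map_add,
      inv_inv] at this
    change L _ _ - b _ (J.mkQ x) - (L _ _ - b _ (J.mkQ x)) = L _ _ - b _ (J.mkQ _)
    simp only [hL]
    linear_combination (norm := abel) -this
  have h1 : ∀ j, ∑ i, Ψ (t i) (Pi.single j (X j i)) = 0 := fun j => by
    have := extAdd_dS (fun g => Ψ g (Pi.single j 1)) t (X j)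
    rw [dS_row, hX] at this
    refine Eq.trans (Finset.sum_congr rfl fun i _ => ?_) (this.symm.trans (map_zero _))
    refine (DFunLike.congr_fun (extAdd_hom ((Ψ (t i)).comp
      (AddMonoidHom.single (fun _ : γ => ℤ[K]) j))) (X j i)).symm.trans
      (congrArg (extAdd · _) (funext fun y => ?_))
    rw [hΨ, ← Pi.single_smul, op_smul_eq_mul, one_mul]
    rfl
  have h2 : Λ (X * Matrix.of fun i => v (t i)) = 0 := by
    have := Finset.sum_eq_zero fun j (_ : j ∈ Finset.univ) => h1 j
    rw [Finset.sum_comm] at this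
    simp only [← map_sum, Finset.univ_sum_single] at this
    refine Eq.trans ?_ this
    rw [show X * Matrix.of (fun i => v (t i)) = ∑ i, vecMulVec (X.col i) (v (t i)) from
      Matrix.ext fun a u => by simp [mul_apply, Matrix.sum_apply, vecMulVec_apply], map_sum]
    refine Finset.sum_congr rfl fun i _ => ?_
    change _ = L _ _ - b _ (J.mkQ (X.col i))
    rw [hJ, map_zero, sub_zero]
    rfl
  have h3 := hΛ (1 - Matrix.of fun i => v (t i)) (Matrix.ext fun a u => by
    rw [Matrix.sub_mul, Matrix.one_mul, Matrix.sub_apply, ← dS_row]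
    exact sub_eq_zero.2 (hv _).symm)
  rwa [Matrix.mul_sub, Matrix.mul_one, map_sub, h2, sub_zero] at h3

theorem derLift_of_retr {t : ι → K} (ht : Subgroup.closure (Set.range t) = ⊤)
    (ρ : Matrix ι ι ℤ[K]) (h1 : ρ * πc t = 0) (h2 : ∀ r, dS t r = 0 → r ᵥ* ρ = r) : DerLift K := by
  intro A B _ _ _ _ π hπ δ hδ
  choose a ha using fun i => hπ (δ (t i))
  choose v hv using exists_dS ht
  let Λ := Fintype.linearCombination ℤ[K] a ∘ₗ (1 - ρ).vecMulLinear
  refine ⟨fun g => Λ (v g), fun g k => ?_, fun g => ?_⟩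
  · have := h2 (v (g * k) - (v g + o g • v k)) (by
      rw [map_sub, map_add, map_smul, hv, hv, hv, smul_eq_mul, mul_sub, o_mul]; simp)
    rw [← map_smul, ← map_add, ← sub_eq_zero, ← map_sub, LinearMap.comp_apply, vecMulLinear_apply,
      vecMul_sub, vecMul_one, this, sub_self, map_zero]
  · have h3 := extAdd_dS δ t (v g ᵥ* (1 - ρ))
    rw [dS_eq, vecMul_vecMul, Matrix.sub_mul, h1, sub_zero, Matrix.one_mul, ← dS_eq, hv, map_sub,
      ← o_one, extAdd_o, extAdd_o, show δ 1 = 0 by simpa using hδ 1 1, sub_zero] at h3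
    change π (Fintype.linearCombination ℤ[K] a (v g ᵥ* (1 - ρ))) = _
    rw [h3, Fintype.linearCombination_apply, map_sum]
    refine Finset.sum_congr rfl fun i _ => ?_
    simp only [hδ, add_sub_cancel_left, map_smul, ha]
    exact (DFunLike.congr_fun (extAdd_hom (LinearMap.toSpanSingleton ℤ[K] _
      (δ (t i))).toAddMonoidHom) _).symm

theorem HD.derLift (h : HD K) (hK : Group.FG K) {D : Type} [Ring D] [IsNoetherianRing D]
    (φ : ℤ[K] →+* D) (hφ : Function.Injective φ) : DerLift K := by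
  classical
  obtain ⟨T, hT⟩ := hK.1
  have ht : Subgroup.closure (Set.range (Subtype.val : T → K)) = ⊤ := by simpa using hT
  obtain ⟨S, hS, hS'⟩ := (Submodule.fg_span_iff_fg_span_finset_subset ((φ ∘ ·) ''
    {r | dS (Subtype.val : T → K) r = 0})).1 (IsNoetherian.noetherian (R := D) _)
  choose X hX hX' using fun y : S => hS y.2
  obtain ⟨ρ, h1, h2⟩ := h.villa ht (Matrix.of X) (Matrix.ext fun a u => by
    rw [← dS_row]; exact hX a)
  have h3 : ∀ r, (φ ∘ r) ᵥ* ρ.map φ = φ ∘ (r ᵥ* ρ) := fun r =>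
    funext fun i => (RingHom.map_vecMul φ ρ r i).symm
  refine derLift_of_retr ht ρ h1 fun r hr => funext fun i => hφ (congrFun ((h3 r).symm.trans
    (LinearMap.eqOn_span' (f := (ρ.map φ).vecMulLinear) (g := LinearMap.id) (fun y hy => ?_)
    (hS'.le (Submodule.subset_span ⟨r, hr, rfl⟩)))) i)
  have h4 : X ⟨y, hy⟩ ᵥ* ρ = X ⟨y, hy⟩ := (row_vecMul (Matrix.of X) ρ _).trans (congrFun h2 _)
  change y ᵥ* _ = y
  rw [← show φ ∘ X ⟨y, hy⟩ = y from hX' ⟨y, hy⟩, h3, h4]

end

end Pool.Agent.P.MP_5ee5b4_al
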