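import Pool.Agent.P.MP_5ee5b4_al.Tame

/-! The commutator subgroup is perfect. -/

namespace Pool.Agent.P.MP_5ee5b4_al

open Pool.Agent.P.MP_6e40fc_al
open scoped MonoidAlgebra commutatorElement

variable {K : Type} [Group K]

theorem jacobson_int : IsJacobsonRing ℤ := isJacobsonRing_iff_prime_eq.2 fun P hP => by
  by_cases h : P = ⊥
  · subst h
    refine le_bot_iff.1 fun x hx => ?_
    obtain ⟨q, h1, h2⟩ := Nat.exists_infinite_primes (x.natAbs + 1)
    have := Fact.mk h2
    have h3 : x ∈ Ideal.span {(q : ℤ)} :=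
      Ideal.mem_sInf.1 hx ⟨bot_le, Int.ideal_span_isMaximal_of_prime q⟩
    exact Int.eq_zero_of_dvd_of_natAbs_lt_natAbs (Ideal.mem_span_singleton.1 h3) (by simpa using h1)
  · have := Ring.DimensionLEOne.maximalOfPrime h hP
    exact Ideal.jacobson_eq_self_of_isMaximal

theorem finite_of_finiteType (F : Type) [Field F] [i : Algebra ℤ F] [Algebra.FiniteType ℤ F] :
    Finite F := by
  obtain rfl : i = Ring.toIntAlgebra F := Subsingleton.elim _ _
  have := jacobson_int
  have := finite_of_finite_type_of_isJacobsonRing ℤ F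
  obtain ⟨n, hn, hn'⟩ : ∃ n : ℤ, n ≠ 0 ∧ (n : F) = 0 := by
    by_contra h
    exact Int.not_isField ((Algebra.IsIntegral.isField_iff_isField (R := ℤ) (S := F)
      ((injective_iff_map_eq_zero _).2 fun n hn => by_contra fun h' => h ⟨n, h', hn⟩)).2
      (Field.toIsField F))
  exact Module.finite_of_fg_torsion F fun x =>
    ⟨⟨n, mem_nonZeroDivisors_of_ne_zero hn⟩, by simp [Submonoid.smul_def, hn']⟩

theorem Tame.comm_le (h : Tame K) [Group.FG K] (χ : K →* Multiplicative ℤ)
    (hχ : χ.ker = commutator K) (t : K) (ht : lv χ t = 1) (M : Subgroup K) [M.Normal]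
    [M.FiniteIndex] (hM : commutator K ≤ M) : commutator K ≤ ⁅commutator K, M⁆ := by
  obtain ⟨ψ, hψ⟩ := (h.sub M).rk1
  obtain ⟨m, hm, -, hm'⟩ := Subgroup.exists_pow_mem_of_index_ne_zero
    (Subgroup.FiniteIndex.index_ne_zero (H := M)) t
  let D := ⁅commutator K, M⁆
  have h1 : D.subgroupOf M ≤ (χ.comp M.subtype).ker := fun x hx =>
    hχ.ge (Subgroup.commutator_le_left _ _ hx)
  have h2 := (QuotientGroup.lift _ _ h1).isMulCommutative_of_isCyclic_of_ker_le_center fun x hx => by
    obtain ⟨x, rfl⟩ := QuotientGroup.mk_surjective x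
    refine Subgroup.mem_center_iff.2 fun g => ?_
    obtain ⟨g, rfl⟩ := QuotientGroup.mk_surjective g
    rw [eq_comm, ← commutatorElement_eq_one_iff_mul_comm]
    exact (QuotientGroup.eq_one_iff ⁅x, g⁆).2 (Subgroup.commutator_mem_commutator (hχ.le hx) g.2)
  have h3 : commutator M ≤ D.subgroupOf M := Subgroup.commutator_le.2 fun a _ b _ =>
    (QuotientGroup.eq_one_iff ⁅a, b⁆).1 (commutatorElement_eq_one_iff_mul_comm.2
      (h2.is_comm.comm (a : M ⧸ D.subgroupOf M) b))
  intro x hx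
  refine h3 (x := ⟨x, hM hx⟩) (hψ.le ((lv_eq_zero ψ).1 ?_))
  have h4 : (⟨x, hM hx⟩ : M) ^ lv ψ ⟨_, hm'⟩ * (⟨_, hm'⟩ : M) ^ (-lv ψ ⟨x, hM hx⟩) ∈ ψ.ker :=
    (lv_eq_zero ψ).1 (by rw [lv_mul, lv_zpow, lv_zpow]; ring)
  have h5 := (lv_eq_zero χ).2 (h1 (h3 (hψ.le h4)))
  simp only [Subgroup.coe_subtype, Subgroup.coe_mul, SubgroupClass.coe_zpow, lv_mul, lv_zpow,
    lv_pow, ht, (lv_eq_zero χ).2 (hχ.ge hx), mul_zero, zero_add, mul_one, neg_mul, neg_eq_zero,
    mul_eq_zero] at h5
  exact h5.resolve_right (by omega)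

theorem commutator_le_normalClosure {S : Set K} (hS : Subgroup.closure S = ⊤) :
    commutator K ≤ Subgroup.normalClosure (Set.image2 (fun a b => ⁅a, b⁆) S S) := by
  let π := QuotientGroup.mk' (Subgroup.normalClosure (Set.image2 (fun a b => ⁅a, b⁆) S S))
  refine Subgroup.commutator_le.2 fun a _ b _ => (QuotientGroup.eq_one_iff _).1 ?_
  change π ⁅a, b⁆ = 1
  rw [map_commutatorElement, commutatorElement_eq_one_iff_commute]
  refine Subgroup.closure_induction₂ (p := fun a b _ _ => Commute (π a) (π b))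
    (fun a b ha hb => ?_) (by simp) (by simp) (fun _ _ _ _ _ _ h1 h2 => ?_)
    (fun _ _ _ _ _ _ h1 h2 => ?_) (fun _ _ _ _ h => ?_) (fun _ _ _ _ h => ?_)
    (hS.ge (Subgroup.mem_top a)) (hS.ge (Subgroup.mem_top b))
  · rw [← commutatorElement_eq_one_iff_commute, ← map_commutatorElement]
    exact (QuotientGroup.eq_one_iff _).2 (Subgroup.subset_normalClosure ⟨a, ha, b, hb, rfl⟩)
  · rw [map_mul]; exact h1.mul_left h2
  · rw [map_mul]; exact h1.mul_right h2
  · rw [map_inv]; exact h.inv_left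
  · rw [map_inv]; exact h.inv_right

theorem Tame.perfect_fg (h : Tame K) [hK : Group.FG K] :
    commutator K ≤ ⁅commutator K, commutator K⁆ := by
  obtain ⟨χ0, hχ0⟩ := h.rk1
  by_cases h0 : ∀ x, lv χ0 x = 0
  · have : ⊤ ≤ commutator K := fun x _ => hχ0.le ((lv_eq_zero _).1 (h0 x))
    exact Subgroup.commutator_mono this this
  obtain ⟨x0, hx0⟩ := not_forall.1 h0
  obtain ⟨χ, t, ht, hχ⟩ := exists_normalized χ0 hx0
  rw [hχ0] at hχ
  let A := Additive (Abelianization (commutator K))
  let cl : commutator K → A := fun x => Additive.ofMul (Abelianization.of x)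
  let c : K →* MulAut (commutator K) := MulAut.conjNormal
  let τ : K →* AddMonoid.End A :=
    { toFun := fun k => MonoidHom.toAdditive (Abelianization.map (c k).toMonoidHom)
      map_one' := AddMonoidHom.ext fun a => by
        obtain ⟨a, rfl⟩ := QuotientGroup.mk_surjective a
        rw [map_one]; rfl
      map_mul' := fun k l => AddMonoidHom.ext fun a => by
        obtain ⟨a, rfl⟩ := QuotientGroup.mk_surjective a
        rw [map_mul]; rfl }
  have hτ : ∀ k x, τ k (cl x) = cl (c k x) := fun _ _ => rfl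
  have hcl : ∀ x y, cl (x * y) = cl x + cl y := fun _ _ => rfl
  have hcl' : ∀ x, cl x⁻¹ = -cl x := fun _ => rfl
  let _ : Module ℤ[Multiplicative ℤ] A := Module.compHom A
    (MonoidAlgebra.lift ℤ (AddMonoid.End A) _ (τ.comp (zpowersHom K t))).toRingHom
  have hsm : ∀ k x, o (χ k) • cl x = cl (c k x) := fun k x => by
    have h1 : o (χ k) • cl x = τ (t ^ lv χ k) (cl x) := by
      change MonoidAlgebra.lift ℤ (AddMonoid.End A) _ (τ.comp (zpowersHom K t))
        (MonoidAlgebra.of ℤ _ (χ k)) (cl x) = _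
      rw [MonoidAlgebra.lift_of]
      rfl
    have h2 : k * t ^ (-lv χ k) ∈ commutator K := hχ.le ((lv_eq_zero χ).1 (by simp [ht]))
    have h3 : c k x = ⟨_, h2⟩ * c (t ^ lv χ k) x * (⟨_, h2⟩ : commutator K)⁻¹ :=
      Subtype.ext (by
        simp only [c, MulAut.conjNormal_apply, Subgroup.coe_mul, Subgroup.coe_inv]
        group)
    rw [h1, hτ, h3, hcl, hcl, hcl']
    abel
  have hgen : ∀ (W : Submodule ℤ[Multiplicative ℤ] A) (T : Set K),
      commutator K ≤ Subgroup.normalClosure T → (∀ x ∈ T, ∃ h, cl ⟨x, h⟩ ∈ W) → ⊤ ≤ W := by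
    intro W T h1 h2 a _
    obtain ⟨⟨a, ha⟩, rfl⟩ := QuotientGroup.mk_surjective a
    let L : Subgroup K :=
      { carrier := {x | ∃ h, cl ⟨x, h⟩ ∈ W}
        one_mem' := ⟨one_mem _, W.zero_mem⟩
        mul_mem' := fun ⟨h, h'⟩ ⟨g, g'⟩ => ⟨mul_mem h g, W.add_mem h' g'⟩
        inv_mem' := fun ⟨h, h'⟩ => ⟨inv_mem h, W.neg_mem h'⟩ }
    have : L.Normal := ⟨fun x ⟨h, h'⟩ g => ⟨(c g ⟨x, h⟩).2, (hsm g ⟨x, h⟩) ▸ W.smul_mem _ h'⟩⟩
    exact (Subgroup.normalClosure_le_normal (N := L) h2 (h1 ha)).2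
  obtain ⟨S, hS, hS'⟩ := Group.fg_iff.1 hK
  have hfg : (⊤ : Submodule ℤ[Multiplicative ℤ] A).FG := by
    let f : K → K → A := fun a b =>
      cl ⟨⁅a, b⁆, Subgroup.commutator_mem_commutator trivial trivial⟩
    refine Submodule.fg_def.2 ⟨_, hS'.image2 f hS', top_le_iff.1 (hgen _ _
      (commutator_le_normalClosure hS) ?_)⟩
    rintro _ ⟨a, ha, b, hb, rfl⟩
    exact ⟨_, Submodule.subset_span ⟨a, ha, b, hb, rfl⟩⟩
  have hA : ∀ a : A, a = 0 := by
    by_contra hcon
    obtain ⟨m, hm, hm'⟩ := Ideal.exists_le_maximal (Module.annihilator ℤ[Multiplicative ℤ] A)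
      fun h1 => hcon fun a => by
        simpa using Module.mem_annihilator.1 (h1.ge (Submodule.mem_top (x := 1))) a
    let _ := Ideal.Quotient.field m
    have := finite_of_finiteType (ℤ[Multiplicative ℤ] ⧸ m)
    let u := (((Ideal.Quotient.mk m).toMonoidHom.comp (MonoidAlgebra.of ℤ _)).comp χ).toHomUnits
    obtain ⟨r, h1, h2⟩ := Submodule.exists_sub_one_mem_and_smul_eq_zero_of_fg_of_le_smul m ⊤ hfg
      (hgen _ _ ((h.comm_le χ hχ t ht u.ker (Abelianization.commutator_subset_ker u)).trans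
        Subgroup.le_normalClosure) fun x hx => by
        rw [Subgroup.commutator_def] at hx
        induction hx using Subgroup.closure_induction with
        | mem x hx =>
          obtain ⟨a, ha, y, hy, rfl⟩ := hx
          refine ⟨Subgroup.commutator_mem_commutator trivial trivial, ?_⟩
          have h3 : o (χ y) - 1 ∈ m := by
            rw [← Ideal.Quotient.eq]
            exact congrArg Units.val hy
          have h4 := Submodule.neg_mem _ (Submodule.smul_mem_smul h3 (Submodule.mem_top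
            (x := cl ⟨a, ha⟩)))
          rw [sub_smul, one_smul, hsm, neg_sub, sub_eq_add_neg, ← hcl', ← hcl] at h4
          convert h4 using 2
          exact Subtype.ext (by simp [c, commutatorElement_def, mul_assoc])
        | one => exact ⟨one_mem _, Submodule.zero_mem _⟩
        | mul a b _ _ ha hb => exact ⟨mul_mem ha.1 hb.1, Submodule.add_mem _ ha.2 hb.2⟩
        | inv a _ ha => exact ⟨inv_mem ha.1, Submodule.neg_mem _ ha.2⟩)
    have h3 := m.sub_mem (hm' (Module.mem_annihilator.2 fun a => h2 a trivial)) h1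
    rw [sub_sub_cancel] at h3
    exact hm.ne_top ((Ideal.eq_top_iff_one m).2 h3)
  intro x hx
  rw [← (commutator K).map_subtype_commutator]
  exact ⟨⟨x, hx⟩, (QuotientGroup.eq_one_iff _).1 (hA (cl ⟨x, hx⟩)), rfl⟩

theorem Tame.perfect (h : Tame K) : ⁅commutator K, commutator K⁆ = commutator K := by
  refine le_antisymm (Subgroup.commutator_mono le_top le_top)
    (Subgroup.commutator_le.2 fun a _ b _ => ?_)
  let L := Subgroup.closure {a, b}
  have : Group.FG L := Group.closure_finite_fg _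
  have h1 := (h.sub L).perfect_fg (Subgroup.commutator_mem_commutator
    (Subgroup.mem_top ⟨a, Subgroup.subset_closure (by simp)⟩)
    (Subgroup.mem_top ⟨b, Subgroup.subset_closure (by simp)⟩))
  have h2 := Subgroup.mem_map_of_mem L.subtype h1
  rw [Subgroup.map_commutator, L.map_subtype_commutator] at h2
  exact Subgroup.commutator_mono (Subgroup.commutator_mono le_top le_top)
    (Subgroup.commutator_mono le_top le_top) h2

end Pool.Agent.P.MP_5ee5b4_al
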