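import Pool.Agent.P.MP_5ee5b4_al.Frat
import Pool.Agent.P.MP_5ee5b4_al.Perfect
import Pool.Agent.P.MP_5ee5b4_al.FGcase3
import Pool.Agent.P.MP_5ee5b4_al.Bound
import Pool.Agent.P.MP_5ee5b4_al.HD2

/-! The main theorems. -/

namespace Pool.Agent.P.MP_5ee5b4_al

open Pool.Agent.P.MP_6e40fc_al
open scoped MonoidAlgebra commutatorElement

noncomputable section

variable {Γ : Type} [Group Γ]

/-- virtually solvable groups -/
def VS (Γ : Type) [Group Γ] : Prop := ∃ K : Subgroup Γ, K.FiniteIndex ∧ Group.IsSolvable K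

theorem VS.of_finiteIndex (L : Subgroup Γ) [hL : L.FiniteIndex] (h : VS L) : VS Γ := by
  obtain ⟨K, h1, h2⟩ := h
  refine ⟨K.map L.subtype, ⟨?_⟩, Group.isSolvable_of_surjective
    (f := (K.equivMapOfInjective _ L.subtype_injective).toMonoidHom) (MulEquiv.surjective _)⟩
  rw [Subgroup.index_map_of_injective _ L.subtype_injective, Subgroup.range_subtype]
  exact mul_ne_zero h1.index_ne_zero hL.index_ne_zero

theorem VS.sub (h : VS Γ) (N : Subgroup Γ) : VS N := by
  obtain ⟨K, h1, h2⟩ := h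
  exact ⟨K.subgroupOf N, inferInstance, Group.isSolvable_of_isSolvable_injective
    (f := N.subtype.subgroupComap K) fun a b e =>
      Subtype.ext (Subtype.ext (congrArg (fun z : K => (z : Γ)) e))⟩

theorem VC.vs (h : VC Γ) : VS Γ := by
  obtain ⟨ν, h⟩ := h
  exact ⟨_, h, Group.isSolvable_of_comm fun a b => mul_comm' a b⟩

/-- positive virtual first Betti number -/
def VB (Γ : Type) [Group Γ] : Prop := ∃ L : Subgroup Γ, L.FiniteIndex ∧
  ∃ (χ : L →* Multiplicative ℤ) (ν : L), lv χ ν ≠ 0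

theorem VB.vs (h : VB Γ) (hG : IsPD 3 Γ) (hN : NF (⊤ : Subgroup Γ)) : VS Γ := by
  obtain ⟨L, _, χ, ν, hν⟩ := h
  have h1 : NF (⊤ : Subgroup L) := hN.comap L.subtype Subtype.val_injective
  obtain ⟨-, K, h2, h3⟩ := main0 (isPD_of_finiteIndex L hG) ⊤ h1 χ ν trivial hν
  exact VS.of_finiteIndex L ⟨K, h2, h3 K (h1.mono le_top) le_rfl⟩

theorem VB.rb (h : VB Γ) (hG : IsPD 3 Γ) (hN : NF (⊤ : Subgroup Γ)) {p : ℕ} (hp : p ≠ 0) :
    ∃ C, RB p Γ C := by
  obtain ⟨L, _, χ, ν, hν⟩ := h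
  obtain ⟨C, hC⟩ := rb_of_char hp (isPD_of_finiteIndex L hG)
    (hN.comap L.subtype Subtype.val_injective) χ ν hν
  exact ⟨_, hC.of_finiteIndex⟩

theorem exists_char (A : Type) [Group A] [Group.FG A] [Infinite A] (hc : ∀ a b : A, a * b = b * a) :
    ∃ (χ : A →* Multiplicative ℤ) (a : A), lv χ a ≠ 0 := by
  classical
  let _ : CommGroup A := { ‹Group A› with mul_comm := hc }
  obtain ⟨n, ι, _, p, hp, e, ⟨E⟩⟩ := AddCommGroup.equiv_free_prod_directSum_zmod (Additive A)
  rcases n.eq_zero_or_pos with rfl | hn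
  · have : ∀ i, NeZero (p i ^ e i) := fun i => ⟨pow_ne_zero _ (hp i).ne_zero⟩
    have : Finite (DirectSum ι fun i => ZMod (p i ^ e i)) :=
      Finite.of_equiv _ DFinsupp.equivFunOnFintype.symm
    exact absurd (Finite.of_equiv _ E.symm.toEquiv) (not_finite_iff_infinite.2 ‹Infinite A›)
  obtain ⟨a, ha⟩ := E.surjective (Finsupp.single ⟨0, hn⟩ 1, 0)
  refine ⟨MonoidHom.mk' (fun a => Multiplicative.ofAdd ((E (Additive.ofMul a)).1 ⟨0, hn⟩))
    fun a b => by simp, a.toMul, ?_⟩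
  change (E a).1 ⟨0, hn⟩ ≠ 0
  simp [ha]

theorem vb_of_quot [Group.FG Γ] {Q : Type} [Group Q]
    [Infinite Q] (π : Γ →* Q) (hπ : Function.Surjective π) (A : Subgroup Q) [hA : A.FiniteIndex]
    (hc : ∀ a b : A, a * b = b * a) : VB Γ := by
  have : Group.FG Q := Group.fg_of_surjective hπ
  have : Infinite A := not_finite_iff_infinite.1 fun _ => not_finiteIndex_of_finite A hA
  obtain ⟨χ, a, ha⟩ := exists_char A hc
  have : (A.comap π).FiniteIndex :=
    ⟨by rw [Subgroup.index_comap_of_surjective _ hπ]; exact hA.index_ne_zero⟩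
  obtain ⟨ν, rfl⟩ := π.subgroupComap_surjective_of_surjective A hπ a
  exact ⟨_, this, χ.comp (π.subgroupComap A), ν, ha⟩

theorem NoFree.nf_of_comm {N L : Subgroup Γ} (h : NoFree N) (hL : ⁅L, L⁆ ≤ N) : NF L :=
  fun a ha b hb k => ⟨k, le_rfl, fun hf => by
    set f := FreeGroup.lift ![a ^ (2 * k), b ^ (2 * k)] with hf'
    have h1 : f.range ≤ L := by
      rw [hf', FreeGroup.range_lift_eq_closure, Subgroup.closure_le]
      rintro _ ⟨i, rfl⟩
      fin_cases i
      · exact L.pow_mem ha _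
      · exact L.pow_mem hb _
    let x : FreeGroup (Fin 2) := FreeGroup.of 0
    let y : FreeGroup (Fin 2) := FreeGroup.of 1
    have h2 := h ((commutator _).map f) (by
      rw [map_commutator_eq]
      exact (Subgroup.commutator_mono h1 h1).trans hL)
      (IsFreeGroup.ofMulEquiv (Subgroup.equivMapOfInjective _ f hf))
      ⟨_, ⁅x, y⁆, Subgroup.commutator_mem_commutator trivial trivial, rfl⟩
      ⟨_, ⁅x⁻¹, y⁆, Subgroup.commutator_mem_commutator trivial trivial, rfl⟩
    have h3 : ⁅x, y⁆ * ⁅x⁻¹, y⁆ = ⁅x⁻¹, y⁆ * ⁅x, y⁆ := hf (by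
      rw [map_mul, map_mul]; exact congrArg Subtype.val h2)
    exact absurd h3 (by decide)⟩

theorem IsPD.fg (hG : IsPD 3 Γ) : Group.FG Γ := by
  obtain ⟨_, _, _, _, P, -⟩ := exists_pres2 hG
  exact fg_of_pres P

theorem not_vc_infinite (h : ¬ VC Γ) : Infinite Γ :=
  not_finite_iff_infinite.1 fun _ => h ⟨1, inferInstance⟩

theorem tame_of_not_vc (hG : IsPD 3 Γ) (N : Subgroup Γ) [N.Normal] [Infinite N] (hN : NF N)
    (hvc : ¬ VC (Γ ⧸ N)) : Tame N ∧ (∀ K ≤ N, HD K) ∧ (N.FG → VC N) := by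
  classical
  have := not_vc_infinite hvc
  obtain ⟨w, hw⟩ := exists_dd hG
  obtain ⟨T, hT, -⟩ := exists_family (IsPD.fg hG) 1
  obtain ⟨hfg, ⟨D⟩⟩ := hw T Subtype.val hT
  suffices h : OE N (Set.range (Subtype.val : T → Γ)) from ⟨tame_of (D.cl hT hfg N h) hN,
    D.hd hT hfg N h, fun h => D.vc_of_fg hT hfg h hN hvc⟩
  by_cases h : N.FG
  · obtain ⟨S, hS, -⟩ := exists_family ((Group.fg_iff_subgroup_fg _).2 h) 1
    exact oe_of_fg hT hS (D.oneEnd hT
      (fun h => not_finite_iff_infinite.2 ‹_› N.finite_quotient_of_finiteIndex) hS hvc)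
  · exact oe_of_not_fg hT hfg hN h hvc

theorem infinite_index (hG : IsPD 3 Γ) (N : Subgroup Γ) [N.Normal] (hN : NoFree N)
    (hi : ¬ N.FiniteIndex) : VS N ∨ (¬ VC (Γ ⧸ N) ∧ ¬ N.FG ∧ Tame N ∧ ∀ K ≤ N, HD K) := by
  have := IsPD.fg hG
  by_cases hvc : VC (Γ ⧸ N)
  · obtain ⟨ν, hν⟩ := hvc
    have : Infinite (Γ ⧸ N) :=
      not_finite_iff_infinite.1 fun _ => hi Subgroup.finiteIndex_of_finite_quotient
    have : ((Subgroup.zpowers ν).comap (QuotientGroup.mk' N)).FiniteIndex := ⟨by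
      rw [Subgroup.index_comap_of_surjective _ (QuotientGroup.mk'_surjective N)]
      exact hν.index_ne_zero⟩
    refine Or.inl (((vb_of_quot _ (QuotientGroup.mk'_surjective N) (Subgroup.zpowers ν)
      fun a b => mul_comm' a b).vs hG (NF.top (hN.nf_of_comm
      (L := (Subgroup.zpowers ν).comap (QuotientGroup.mk' N)) ?_))).sub N)
    refine Subgroup.commutator_le.2 fun a ha b hb => (QuotientGroup.eq_one_iff _).1 ?_
    exact commutatorElement_eq_one_iff_mul_comm.2 (congrArg Subtype.val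
      (mul_comm' (⟨_, ha⟩ : Subgroup.zpowers ν) ⟨_, hb⟩))
  rcases finite_or_infinite N with h | h
  · exact Or.inl (VC.vs ⟨1, inferInstance⟩)
  obtain ⟨h1, h4, h2⟩ := tame_of_not_vc hG N hN.nf hvc
  by_cases h3 : N.FG
  · exact Or.inl (h2 h3).vs
  · exact Or.inr ⟨hvc, h3, h1, h4⟩

variable {p : ℕ} [hp : Fact p.Prime] {d : ℕ}

theorem large_quot (hd : 6 ≤ d) (h2 : H2c p Γ d) {χ : Fin d → Γ → ZMod p} {x : Fin d → Γ}
    (hχ0 : ∀ t, IsHom (χ t)) (hx : ∀ t i, χ t (x i) = if t = i then 1 else 0)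
    (hχ : ∀ ψ : Γ → ZMod p, IsHom ψ → ∃ a : Fin d → ZMod p, ∀ g, ψ g = ∑ t, a t * χ t g)
    (g : Fin 2 → Γ) (hg : ∀ t j, χ t (g j) = 0) (m : ℕ) :
    ∃ U : Subgroup (Γ ⧸ Subgroup.normalClosure (Set.range g)), U.FiniteIndex ∧ m ≤ U.index := by
  have h1 : ∀ t, Subgroup.normalClosure (Set.range g) ≤ (hχ0 t).mk.ker := fun t =>
    Subgroup.normalClosure_le_normal (by rintro _ ⟨j, rfl⟩; exact hg t j)
  refine golod_shafarevich hd h2 (QuotientGroup.mk' _) (QuotientGroup.mk'_surjective _) g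
    (fun j => (QuotientGroup.eq_one_iff _).2 (Subgroup.subset_normalClosure (Set.mem_range_self j)))
    (QuotientGroup.ker_mk' _).le (x := fun i => x i)
    (χ := fun t q => (QuotientGroup.lift _ _ (h1 t) q).toAdd)
    (fun t a b => congrArg Multiplicative.toAdd (map_mul _ a b)) hx (fun ψ hψ => ?_) m
  obtain ⟨a, ha⟩ := hχ (fun k => ψ k) fun k l => hψ k l
  exact ⟨a, fun q => by obtain ⟨k, rfl⟩ := QuotientGroup.mk_surjective q; exact ha k⟩

theorem vb_of_h2c (hG : IsPD 3 Γ) (hN : NF (⊤ : Subgroup Γ)) (hd : 6 ≤ d) (h2 : H2c p Γ d)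
    {χ : Fin d → Γ → ZMod p} {x : Fin d → Γ}
    (hχ0 : ∀ t, IsHom (χ t)) (hx : ∀ t i, χ t (x i) = if t = i then 1 else 0)
    (hχ : ∀ ψ : Γ → ZMod p, IsHom ψ → ∃ a : Fin d → ZMod p, ∀ g, ψ g = ∑ t, a t * χ t g) :
    VB Γ := by
  classical
  have := IsPD.fg hG
  let R : Subgroup Γ := ⨅ U : {U : Subgroup Γ // U.Normal ∧ U.FiniteIndex}, U.1
  have hR : R.Normal := Subgroup.normal_iInf_normal fun U => U.2.1
  have h3 : ¬ R.FiniteIndex := fun h => by
    obtain ⟨U, h4, h5⟩ := large_quot hd h2 hχ0 hx hχ (fun _ => 1) (fun t _ => (hχ0 t).one)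
      (R.index + 1)
    have h6 := U.index_comap_of_surjective (QuotientGroup.mk'_surjective _)
    generalize U.comap (QuotientGroup.mk' _) = V at h6
    have : V.FiniteIndex := ⟨h6 ▸ h4.index_ne_zero⟩
    have h7 : R ≤ V.normalCore := iInf_le (fun U : {U : Subgroup Γ // U.Normal ∧ U.FiniteIndex} =>
      U.1) ⟨V.normalCore, inferInstance, inferInstance⟩
    have := Subgroup.index_antitone (h7.trans V.normalCore_le)
    omega
  have h4 : ∀ g, (∀ t, χ t g = 0) → Finite (Subgroup.normalClosure {g}) ∨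
      ⁅Subgroup.normalClosure {g}, Subgroup.normalClosure {g}⁆ ≤ R := fun g hg => by
    rcases finite_or_infinite (Subgroup.normalClosure {g}) with h | h
    · exact Or.inl h
    right
    obtain ⟨h5, -⟩ := tame_of_not_vc hG (Subgroup.normalClosure {g}) (hN.mono le_top) (by
      rintro ⟨ν, hν⟩
      obtain ⟨ν, rfl⟩ := QuotientGroup.mk_surjective ν
      have h6 : Subgroup.normalClosure {g} ≤ Subgroup.normalClosure (Set.range ![g, ν ^ p]) :=
        Subgroup.normalClosure_mono (by simp)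
      let π := QuotientGroup.map (Subgroup.normalClosure {g})
        (Subgroup.normalClosure (Set.range ![g, ν ^ p])) (MonoidHom.id Γ) fun _ h => h6 h
      have h7 : Function.Surjective π := fun q => by
        obtain ⟨q, rfl⟩ := QuotientGroup.mk_surjective q
        exact ⟨q, rfl⟩
      have h8 : IsOfFinOrder (π ν) := isOfFinOrder_iff_pow_eq_one.2 ⟨p, hp.out.pos,
        (QuotientGroup.eq_one_iff (ν ^ p)).2 (Subgroup.subset_normalClosure ⟨1, rfl⟩)⟩
      have := h8.finite_zpowers.to_subtype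
      have : Finite (Γ ⧸ Subgroup.normalClosure (Set.range ![g, ν ^ p])) :=
        not_infinite_iff_finite.1 fun _ => not_finiteIndex_of_finite (Subgroup.zpowers (π ν)) (by
          rw [← MonoidHom.map_zpowers]
          exact ⟨fun h => hν.index_ne_zero (Nat.eq_zero_of_zero_dvd
            (h ▸ Subgroup.index_map_dvd _ h7))⟩)
      obtain ⟨U, -, h9⟩ := large_quot hd h2 hχ0 hx hχ ![g, ν ^ p] (fun t j => by
        fin_cases j
        · exact hg t
        · simp [(hχ0 t).pow]) (Nat.card (Γ ⧸ Subgroup.normalClosure (Set.range ![g, ν ^ p])) + 1)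
      exact absurd (Nat.le_of_dvd Nat.card_pos U.index_dvd_card) (by omega))
    refine Subgroup.commutator_le.2 fun a ha b hb => Subgroup.mem_iInf.2 fun ⟨U, h6, h7⟩ => ?_
    let φ := (QuotientGroup.mk' U).comp (Subgroup.normalClosure {g}).subtype
    have := h5.cyclic _ φ.rangeRestrict φ.rangeRestrict_surjective
    exact (QuotientGroup.eq_one_iff _).1 (commutatorElement_eq_one_iff_mul_comm.2 (congrArg
      Subtype.val (mul_comm' (φ.rangeRestrict ⟨a, ha⟩) (φ.rangeRestrict ⟨b, hb⟩))))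
  have h5 : ∀ T : Finset Γ, (∀ g ∈ T, ∀ t, χ t g = 0) →
      (R ⊔ Subgroup.normalClosure (T : Set Γ)).FiniteIndex → VB Γ := fun T => by
    induction T using Finset.induction_on with
    | empty => exact fun _ h => absurd (by simpa using h) h3
    | insert g T _ ih =>
      intro hT h
      by_cases h6 : (R ⊔ Subgroup.normalClosure (T : Set Γ)).FiniteIndex
      · exact ih (fun a ha => hT a (Finset.mem_insert_of_mem ha)) h6
      set B := R ⊔ Subgroup.normalClosure (T : Set Γ)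
      have : Infinite (Γ ⧸ B) :=
        not_finite_iff_infinite.1 fun _ => h6 Subgroup.finiteIndex_of_finite_quotient
      let A := (Subgroup.normalClosure {g}).map (QuotientGroup.mk' B)
      have : A.Normal := Subgroup.Normal.map inferInstance _ (QuotientGroup.mk'_surjective B)
      have h7 : B ≤ A.comap (QuotientGroup.mk' B) := fun a ha => by
        rw [Subgroup.mem_comap,
          show QuotientGroup.mk' B a = 1 from (QuotientGroup.eq_one_iff a).2 ha]
        exact A.one_mem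
      have h8 : (A.comap (QuotientGroup.mk' B)).FiniteIndex := Subgroup.finiteIndex_of_le
        (H := R ⊔ Subgroup.normalClosure ((insert g T : Finset Γ) : Set Γ))
        (sup_le (le_sup_left.trans h7) (Subgroup.normalClosure_le_normal fun a ha => by
          rcases Finset.mem_insert.1 ha with rfl | ha
          · exact ⟨a, Subgroup.subset_normalClosure rfl, rfl⟩
          · exact h7 (Subgroup.mem_sup_right (Subgroup.subset_normalClosure ha))))
      have h9 : A.FiniteIndex := ⟨by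
        rw [← Subgroup.index_comap_of_surjective _ (QuotientGroup.mk'_surjective B)]
        exact h8.index_ne_zero⟩
      rcases h4 g (hT g (Finset.mem_insert_self _ _)) with h10 | h10
      · have : Finite A := Finite.of_surjective _ (MonoidHom.subgroupMap_surjective _ _)
        exact absurd h9 (not_finiteIndex_of_finite A)
      · refine vb_of_quot _ (QuotientGroup.mk'_surjective B) A ?_
        rintro ⟨_, a, ha, rfl⟩ ⟨_, b, hb, rfl⟩
        exact Subtype.ext (commutatorElement_eq_one_iff_mul_comm.1 ((QuotientGroup.eq_one_iff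
          ⁅a, b⁆).2 (Subgroup.mem_sup_left (h10 (Subgroup.commutator_mem_commutator ha hb)))))
  have h6 : IsHom fun k t => χ t k := fun a b => funext fun t => hχ0 t a b
  obtain ⟨T, hT⟩ := (Group.fg_iff_subgroup_fg _).1 (inferInstance : Group.FG h6.mk.ker)
  exact h5 T (fun g hg t => congrFun (hT.le (Subgroup.subset_closure hg)) t)
    (Subgroup.finiteIndex_of_le (H := h6.mk.ker)
      ((hT.ge.trans Subgroup.closure_le_normalClosure).trans le_sup_right))

theorem exists_h2c (hG : IsPD 3 Γ) : ∃ w : Γ →* ℤˣ, ∀ (K : Subgroup Γ) [K.FiniteIndex],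
    (∀ (k : K) (a : ZMod p), (w k : ℤ) • a = a) → ∀ (d : ℕ) (χ : Fin d → K → ZMod p),
    (∀ t, IsHom (χ t)) →
    (∀ ψ : K → ZMod p, IsHom ψ → ∃ a : Fin d → ZMod p, ∀ k, ψ k = ∑ t, a t * χ t k) →
    H2c p K d := by
  classical
  obtain ⟨w, hw⟩ := exists_dd hG
  obtain ⟨T, hT, -⟩ := exists_family (IsPD.fg hG) 1
  obtain ⟨hfg, ⟨D⟩⟩ := hw T Subtype.val hT
  exact ⟨w, fun K _ h d χ h1 h2 V _ _ c hc => D.h2c hT hfg K h χ h1 h2 c hc⟩

theorem not_nf_of_rank (hG : IsPD 3 Γ) (L : Subgroup Γ) [L.FiniteIndex]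
    (φ : L → Fin 4 → ZMod p) (hφ : IsHom φ) (hφ' : Function.Surjective φ) :
    ¬ NF (⊤ : Subgroup Γ) := fun hN => by
  have := IsPD.fg hG
  obtain ⟨w, hw⟩ := exists_h2c (p := p) hG
  let Big : ℕ → Prop := fun e => ∃ K : Subgroup Γ, K.FiniteIndex ∧
    (∀ (k : K) (a : ZMod p), (w k : ℤ) • a = a) ∧
      ∃ d ≥ e, ∃ φ : K → Fin d → ZMod p, IsHom φ ∧ Function.Surjective φ
  have step : ∀ e ≥ 4, Big e → Big (e + 1) := fun e he ⟨K, _, hK, d', hd', φ, h1, h2⟩ => by
    obtain ⟨d, χ, x, h3, h4, h5, h6⟩ := exists_basis_hom p K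
    have h7 := h6 d' φ h1 h2
    have h9 : IsHom fun k t => χ t k := fun a b => funext fun t => h3 t a b
    obtain ⟨ψ, h10, h11⟩ := frattini_growth (hw K hK d χ h3 h5) h3 h4 (by omega) h9.mk.ker
      fun k => funext_iff
    let e := h9.mk.ker.equivMapOfInjective _ K.subtype_injective
    refine ⟨h9.mk.ker.map K.subtype, ⟨?_⟩, fun ⟨_, k, _, rfl⟩ => hK k, d + 1, by omega,
      fun k => ψ (e.symm k), fun a b => (congrArg ψ (map_mul e.symm a b)).trans (h10 _ _),
      h11.comp e.symm.surjective⟩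
    rw [Subgroup.index_map_of_injective _ K.subtype_injective, Subgroup.range_subtype]
    exact mul_ne_zero Subgroup.FiniteIndex.index_ne_zero Subgroup.FiniteIndex.index_ne_zero
  suffices h : Big 4 by
    have big : ∀ e ≥ 4, Big e := fun e he => Nat.le_induction h step e he
    obtain ⟨K, _, hK, d', hd', φ, h1, h2⟩ := big 6 (by omega)
    obtain ⟨d, χ, x, h3, h4, h5, h6⟩ := exists_basis_hom p K
    have h7 := isPD_of_finiteIndex K hG
    have h8 : NF (⊤ : Subgroup K) := hN.comap K.subtype Subtype.val_injective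
    obtain ⟨C, hC⟩ := (vb_of_h2c h7 h8 (hd'.trans (h6 d' φ h1 h2)) (hw K hK d χ h3 h5) h3 h4 h5).rb
      h7 h8 hp.out.ne_zero
    obtain ⟨M, -, -, e, he, ψ, h9, h10⟩ := big (C * K.index + 4) (by omega)
    have h11 := hC.of_finiteIndex M M.subtype M.subtype_injective
      (Multiplicative (Fin e → ZMod p)) (fun y => by
        rw [← ofAdd_toAdd y, ← ofAdd_nsmul, ← Nat.cast_smul_eq_nsmul (ZMod p), ZMod.natCast_self,
          zero_smul, ofAdd_zero]) h9.mk h10
    rw [Nat.card_congr Multiplicative.toAdd, Nat.card_fun, Nat.card_zmod, Nat.card_eq_fintype_card,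
      Fintype.card_fin] at h11
    have := Nat.lt_pow_self (n := e) hp.out.one_lt
    omega
  let u := ((Int.castRingHom (ZMod p)).toMonoidHom.comp ((Units.coeHom ℤ).comp w)).toHomUnits
  let K := L ⊓ u.ker
  have hK : ∀ (k : K) (a : ZMod p), (w k : ℤ) • a = a := fun k a => by
    rw [zsmul_eq_mul, show ((w k : ℤ) : ZMod p) = 1 from congrArg Units.val k.2.2, one_mul]
  refine ⟨K, inferInstance, hK, 4, le_rfl, fun k => φ ⟨k, k.2.1⟩,
    fun a b => hφ ⟨a, a.2.1⟩ ⟨b, b.2.1⟩, fun y => ?_⟩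
  by_cases h : (2 : ZMod p) = 0
  · obtain ⟨k, rfl⟩ := hφ' y
    refine ⟨⟨k, k.2, Units.ext ?_⟩, rfl⟩
    change ((w k : ℤ) : ZMod p) = 1
    rcases Int.units_eq_one_or (w k) with h1 | h1 <;> rw [h1]
    · simp
    · simpa using neg_eq_of_add_eq_zero_left (one_add_one_eq_two.trans h)
  · obtain ⟨k, hk⟩ := hφ' ((2 : ZMod p)⁻¹ • y)
    refine ⟨⟨k * k, (k * k).2, Units.ext ?_⟩, (hφ k k).trans ?_⟩
    · change ((w (k * k) : ℤ) : ZMod p) = 1
      rw [map_mul, Int.units_mul_self]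
      simp
    · rw [hk, ← two_smul (ZMod p), smul_smul, mul_inv_cancel₀ h, one_smul]

end

end Pool.Agent.P.MP_5ee5b4_al
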