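import Pool.Agent.P.MP_5ee5b4_al.Main2

/-! The statements in their final form. -/

namespace Pool.Agent.P.MP_5ee5b4_al

open Pool.Agent.P.MP_6e40fc_al

variable {Γ : Type} [Group Γ]

theorem Tame.comm_of_vc (h : Tame Γ) (hv : VC Γ) : commutator Γ = ⊥ := by
  obtain ⟨ν, hν⟩ := hv
  have := h.cyclic _ _ (QuotientGroup.mk'_surjective (Subgroup.zpowers ν).normalCore)
  have h1 : commutator Γ ≤ Subgroup.zpowers ν := (Subgroup.commutator_le.2 fun a _ b _ =>
    (QuotientGroup.eq_one_iff _).1 ((map_commutatorElement (QuotientGroup.mk' _) a b).trans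
      (commutatorElement_eq_one_iff_mul_comm.2 (mul_comm' _ _)))).trans (Subgroup.normalCore_le _)
  rw [← h.perfect, eq_bot_iff]
  exact Subgroup.commutator_le.2 fun a ha b hb => commutatorElement_eq_one_iff_mul_comm.2
    (congrArg Subtype.val (mul_comm' (⟨a, h1 ha⟩ : Subgroup.zpowers ν) ⟨b, h1 hb⟩))

theorem infinite_index_final (hG : IsPD3 Γ) (N : Subgroup Γ) (hn : N.Normal) (hN : NoFree N)
    (hi : ¬ N.FiniteIndex) : (∃ K : Subgroup N, K.FiniteIndex ∧ Group.IsSolvable K) ∨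
      (¬ N.FG ∧ ⁅N, N⁆ ≠ ⊥ ∧ (∀ q : Γ ⧸ N, ¬ (Subgroup.zpowers q).FiniteIndex) ∧
        ∀ K ≤ N, (∀ M : Rep ℤ K, CategoryTheory.Limits.IsZero (groupHomology M 2)) ∧
          ⁅⁅K, K⁆, ⁅K, K⁆⁆ = ⁅K, K⁆ ∧
          (∀ (P : Type) [Group P] [Finite P] (φ : K →* P), Function.Surjective φ → IsCyclic P) ∧
          ∀ (D : Type) [Ring D] [IsNoetherianRing D] (f : MonoidAlgebra ℤ K →+* D),
            Function.Injective f → ⁅K, K⁆ = ⊥) := by
  rcases infinite_index (Γ := Γ) hG N hN hi with h | ⟨h1, h2, h3, h6⟩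
  · exact Or.inl h
  by_cases h4 : ⁅N, N⁆ = ⊥
  · refine Or.inl ⟨⊤, inferInstance, Group.isSolvable_of_comm fun a b => Subtype.ext (Subtype.ext
      (commutatorElement_eq_one_iff_mul_comm.1 (Subgroup.mem_bot.1 ?_)))⟩
    exact h4 ▸ Subgroup.commutator_mem_commutator a.1.2 b.1.2
  have h5 : ∀ K ≤ N, Tame K := fun K hK L _ j hj =>
    h3 L ((Subgroup.inclusion hK).comp j) ((Subgroup.inclusion_injective hK).comp hj)
  refine Or.inr ⟨h2, h4, fun q hq => h1 ⟨q, hq⟩, fun K hK => ⟨(h6 K hK).h2, ?_,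
    fun P _ _ φ hφ => (h5 K hK).cyclic P φ hφ, fun D _ _ f hf => eq_bot_iff.2
      (Subgroup.commutator_le.2 fun a ha b hb => ?_)⟩⟩
  · rw [← K.map_subtype_commutator, ← Subgroup.map_commutator, (h5 K hK).perfect]
  let L := Subgroup.closure {a, b}
  have h7 : L ≤ K := (Subgroup.closure_le _).2 (Set.pair_subset ha hb)
  have h8 : VC L := by
    rcases finite_or_infinite L with h | h
    · exact ⟨1, inferInstance⟩
    have h9 : Group.FG L := Group.closure_finite_fg _
    exact ((h6 L (h7.trans hK)).derLift h9 (f.comp (jr (Subgroup.inclusion h7))) (hf.comp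
      (MonoidAlgebra.mapDomain_injective (Subgroup.inclusion_injective h7)))).vcyc h9
      (h5 L (h7.trans hK) L (MonoidHom.id _) Function.injective_id).2
  have := (h5 L (h7.trans hK)).comm_of_vc h8
  rw [← Subgroup.map_bot L.subtype, ← this, L.map_subtype_commutator]
  exact Subgroup.commutator_mem_commutator (Subgroup.subset_closure (by simp))
    (Subgroup.subset_closure (by simp))

theorem modp_final (hG : IsPD3 Γ) (L : Subgroup Γ) (hL : L.FiniteIndex) (p : ℕ) (hp : p.Prime)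
    (φ : L →* Multiplicative (Fin 4 → ZMod p)) (hφ : Function.Surjective φ) :
    ∃ f : FreeGroup (Fin 2) →* Γ, Function.Injective f := by
  have := Fact.mk hp
  by_contra h
  exact not_nf_of_rank (Γ := Γ) hG L (fun k => (φ k).toAdd)
    (fun a b => congrArg Multiplicative.toAdd (map_mul φ a b)) hφ
    fun a _ b _ k => ⟨k, le_rfl, fun hf => h ⟨_, hf⟩⟩

end Pool.Agent.P.MP_5ee5b4_al
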