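import Pool.Agent.P.MP_5ee5b4_al.Ends2

/-! Pockets of a thickened finite union of cosets of an infinitely generated normal subgroup. -/

namespace Pool.Agent.P.MP_5ee5b4_al

variable {Γ : Type} [Group Γ] {S V U : Set Γ} {N : Subgroup Γ} {x y y' z n m : Γ}

/-- a union of cosets inside a thickening whose complement is the last set -/
structure Thick (S : Set Γ) (N : Subgroup Γ) (V U : Set Γ) : Prop where
  gen : Subgroup.closure S = ⊤
  nor : N.Normal
  nf : NF N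
  hV : ∀ n ∈ N, ∀ x, n * x ∈ V → x ∈ V
  hU : ∀ n ∈ N, ∀ x, n * x ∈ U → x ∈ U
  vu : ∀ x ∈ V, x ∉ U
  edge : ∀ x, ∀ s ∈ S, x ∈ V ∨ x * s ∈ V → x ∉ U ∧ x * s ∉ U
  big : ∀ F : Set Γ, F.Finite → ∀ ν ∈ N, ∃ L : Subgroup Γ, ν ∈ L ∧ (∃ n ∈ N, n ∉ L) ∧
    ∀ n ∈ N, ∀ a ∈ F, ∀ b ∈ F, ∀ x, Rel S U a x → Rel S U b (n * x) → n ∈ L
  fin : ((fun x : Γ => (x : Γ ⧸ N)) '' V).Finite

/-- the part of a component inside the union of cosets -/
def Wv (S V U : Set Γ) (y : Γ) : Set Γ := {z | z ∈ V ∧ Rel S U y z}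

/-- the side of a component containing its translates -/
def Out (S : Set Γ) (N : Subgroup Γ) (V U : Set Γ) (y x : Γ) : Prop :=
  ∀ n ∈ N, ¬ Rel S U y (n * y) → Rel S (Wv S V U y) x (n * y)

theorem Rel.sep (h1 : ¬ Rel S U y x) (h2 : Rel S U x z) : Rel S (Wv S V U y) x z :=
  h2.avoid fun _ _ h3 h4 => h1 (h4.2.trans h3.symm)

theorem Out.rel (h : Out S N V U y x) (h' : Rel S (Wv S V U y) x z) : Out S N V U y z :=
  fun n hn h1 => h'.symm.trans (h n hn h1)

namespace Thick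

variable (h : Thick S N V U)
include h

theorem mul (hn : n ∈ N) (h1 : Rel S U x y) : Rel S U (n * x) (n * y) :=
  h1.mul_left n (h.hU n hn)

theorem bd {s : Γ} (hs : s ∈ S) (h1 : x ∈ Wv S V U y ∨ x * s ∈ Wv S V U y) :
    Rel S U y x ∧ Rel S U y (x * s) := by
  obtain ⟨h2, h3⟩ := h.edge x s hs (h1.imp (·.1) (·.1))
  rcases h1 with h1 | h1
  · exact ⟨h1.2, h1.2.trans (Rel.edge hs h2 h3)⟩
  · exact ⟨h1.2.trans (Rel.edge hs h2 h3).symm, h1.2⟩

theorem far (y : Γ) : ∃ n ∈ N, ¬ Rel S U y (n * y) := by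
  obtain ⟨L, -, ⟨n, hn, hn'⟩, hL⟩ := h.big {y} (Set.finite_singleton _) 1 N.one_mem
  exact ⟨n, hn, fun h1 => hn' (hL n hn y rfl y rfl y (Rel.refl _ _ _) h1)⟩

theorem same_side (hn : n ∈ N) (hm : m ∈ N) (h1 : ¬ Rel S U y (n * y))
    (h2 : ¬ Rel S U y (m * y)) : Rel S (Wv S V U y) (n * y) (m * y) := by
  suffices H : ∀ n ∈ N, ∀ m ∈ N, ¬ Rel S U y (n * y) → ¬ Rel S U y (m * y) → ∀ f : Γ → Prop,
      (∀ z, ∀ s ∈ S, z ∉ Wv S V U y → z * s ∉ Wv S V U y → (f z ↔ f (z * s))) →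
      f (n * y) → f (m * y) from
    fun f hf => ⟨H n hn m hm h1 h2 f hf, H m hm n hn h2 h1 f hf⟩
  intro n hn m hm h1 h2 f hf h3
  by_contra h4
  let c : Cut S :=
    { Y := {z | f (y * z)}
      C := {z | Rel S U y (y * z)}
      gen := h.gen
      one_mem := by simpa using Rel.refl S U y
      conn := fun g hg x hx => by
        have := hx (fun z => Rel S U y z ∧ g (y⁻¹ * z)) fun z s hs h5 h6 => by
          have h7 := Rel.edge hs h5 h6
          refine ⟨fun h8 => ⟨h8.1.trans h7, ?_⟩, fun h8 => ⟨h8.1.trans h7.symm, ?_⟩⟩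
          · rw [← mul_assoc]
            exact (hg _ (by simpa using h8.1) s hs (by simpa [mul_assoc] using h8.1.trans h7)).1 h8.2
          · rw [← mul_assoc] at h8
            exact (hg _ (by simpa using h8.1.trans h7.symm) s hs
              (by simpa [mul_assoc] using h8.1)).2 h8.2
        simp only [inv_mul_cancel, inv_mul_cancel_left] at this
        exact ⟨fun h5 => (this.2 ⟨hx, h5⟩).2, fun h5 => (this.1 ⟨Rel.refl _ _ _, h5⟩).2⟩
      bdry := fun x s hs h5 => by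
        have := h.bd (x := y * x) (y := y) hs (by_contra fun h6 => by
          rw [not_or] at h6
          exact h5 (by simpa [mul_assoc] using hf _ s hs h6.1 h6.2))
        rwa [mul_assoc] at this }
  have hc : ∀ n ∈ N, y⁻¹ * n * y ∈ N := fun n hn => by simpa using h.nor.conj_mem n hn y⁻¹
  have hgen : ∀ n ∈ N, ¬ Rel S U y (n * y) → c.Gen (y⁻¹ * n * y) := fun n hn h5 x hx hx' => by
    have h6 : Rel S U y (n * (y * x)) := by simpa [c, mul_assoc] using hx'
    exact h5 (h6.trans (h.mul hn hx).symm)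
  have hno : ∀ ν ∈ N, ¬ c.Hyp ν := fun ν hν hh => by
    obtain ⟨P, hP, hP'⟩ := c.exists_path ν
    obtain ⟨L, hL1, ⟨g, hg, hg'⟩, hL⟩ := h.big (insert y ((y * ·) '' P)) ((hP.image _).insert _)
      _ (h.nor.conj_mem ν hν y)
    have hE : ∀ e ∈ N, e ∈ c.Ex ν → y * e * y⁻¹ ∈ L := fun e he he' => by
      rcases he' with he' | he'
      · simp only [Cut.Gen, Set.mem_ofPred_eq, not_forall, not_not] at he'
        obtain ⟨x, hx, hx'⟩ := he'
        exact hL _ (h.nor.conj_mem e he y) y (Or.inl rfl) y (Or.inl rfl) (y * x) hx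
          (by simpa [c, mul_assoc] using hx')
      · obtain ⟨u, hu, hu'⟩ := hP' e he'
        exact hL _ (h.nor.conj_mem e he y) _ (Or.inr ⟨u, hu, rfl⟩) y (Or.inl rfl) _ (Rel.refl _ _ _)
          (by simpa [c, mul_assoc] using hu')
    have hD : ∀ e ∈ N, (c.Dd ν e).Infinite → y * e * y⁻¹ ∈ L := fun e he he' => by
      obtain ⟨a, b, hab⟩ := he'.nonempty
      have h5 := hE _ (N.mul_mem (N.mul_mem (N.zpow_mem hν _) he) (N.zpow_mem hν _)) hab
      have h6 := L.mul_mem (L.mul_mem (L.zpow_mem hL1 a) h5) (L.zpow_mem hL1 (-b))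
      rw [conj_zpow, conj_zpow] at h6
      convert h6 using 1
      group
    rcases hh.inf_of_nf h.nf hν (hc g hg) with h5 | h5
    · exact hg' (by simpa [mul_assoc] using hD _ (hc g hg) h5)
    · exact hg' (by simpa [mul_assoc] using hD _ (N.inv_mem (hc g hg)) h5)
  rcases Cut.exists_hyp (hgen n hn h1) (hgen m hm h2) (by simpa [c, mul_assoc] using h3)
    (by simpa [c, mul_assoc] using h4) with h5 | h5 | h5
  · exact hno _ (hc n hn) h5
  · exact hno _ (N.inv_mem (hc m hm)) h5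
  · exact hno _ (N.mul_mem (hc n hn) (hc m hm)) h5

theorem out_tr (hn : n ∈ N) (h1 : ¬ Rel S U y (n * y)) : Out S N V U y (n * y) :=
  fun _ hm h2 => h.same_side hn hm h1 h2

theorem out_mul (hm : m ∈ N) (h1 : Out S N V U y x) : Out S N V U (m * y) (m * x) := by
  intro n hn h2
  have h3 : m⁻¹ * n * m ∈ N := N.mul_mem (N.mul_mem (N.inv_mem hm) hn) hm
  have h4 := (h1 _ h3 fun h4 => h2 (by simpa [mul_assoc] using h.mul hm h4)).mul_left m
    (U' := Wv S V U (m * y)) fun z hz =>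
      ⟨h.hV m hm z hz.1, by simpa using h.mul (N.inv_mem hm) hz.2⟩
  simpa [mul_assoc] using h4

theorem out_mul' (hm : m ∈ N) (h1 : Out S N V U (m * y) (m * x)) : Out S N V U y x := by
  simpa using h.out_mul (N.inv_mem hm) h1

theorem out_congr (h1 : Rel S U y y') (h2 : Out S N V U y x) : Out S N V U y' x := by
  intro n hn h3
  have h4 : ¬ Rel S U y (n * y) := fun h4 => h3 ((h1.symm.trans h4).trans (h.mul hn h1))
  exact ((h2 n hn h4).trans (Rel.sep h4 (h.mul hn h1))).mono fun z hz => ⟨hz.1, h1.trans hz.2⟩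

theorem not_out (h1 : x ∈ Wv S V U y) : ¬ Out S N V U y x := fun h2 => by
  obtain ⟨n, hn, h3⟩ := h.far y
  exact (h2 n hn h3).symm.notMem (fun h4 => h3 h4.2) h1

theorem change {s : Γ} (hs : s ∈ S) (h1 : ¬ (Out S N V U y x ↔ Out S N V U y (x * s))) :
    Rel S U y x ∧ Rel S U y (x * s) :=
  h.bd hs (by_contra fun h2 => by
    rw [not_or] at h2
    exact h1 ⟨fun h3 => h3.rel (Rel.edge hs h2.1 h2.2), fun h3 => h3.rel (Rel.edge hs h2.1 h2.2).symm⟩)

theorem nest1 (h1 : ¬ Rel S U y y') (h2 : Out S N V U y y') (h3 : Out S N V U y' y) (x : Γ) :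
    Out S N V U y x ∨ Out S N V U y' x := by
  refine (Rel.empty h.gen y' x (fun x => Out S N V U y x ∨ Out S N V U y' x)
    fun z s hs _ _ => ?_).1 (Or.inl h2)
  by_cases h4 : Out S N V U y z ↔ Out S N V U y (z * s)
  · by_cases h5 : Out S N V U y' z ↔ Out S N V U y' (z * s)
    · exact or_congr h4 h5
    · obtain ⟨h6, h7⟩ := h.change hs h5
      exact iff_of_true (Or.inl (h2.rel (Rel.sep h1 h6))) (Or.inl (h2.rel (Rel.sep h1 h7)))
  · obtain ⟨h6, h7⟩ := h.change hs h4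
    have h8 : ¬ Rel S U y' y := fun h => h1 h.symm
    exact iff_of_true (Or.inr (h3.rel (Rel.sep h8 h6))) (Or.inr (h3.rel (Rel.sep h8 h7)))

theorem disj_tr (hn : n ∈ N) (h1 : ¬ Rel S U y (n * y)) (x : Γ) :
    Out S N V U y x ∨ Out S N V U (n * y) x := by
  refine h.nest1 h1 (h.out_tr hn h1) ?_ x
  have := h.out_tr (y := n * y) (N.inv_mem hn) (by simpa using fun h2 => h1 h2.symm)
  simpa using this

theorem nest2 (h1 : ¬ Rel S U y y') (h2 : ¬ Out S N V U y y') (h3 : Out S N V U y x) :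
    Out S N V U y' x := by
  obtain ⟨n, hn, h4⟩ := h.far y
  have h5 : Out S N V U y (n * y') :=
    (h.disj_tr hn h4 _).resolve_right fun h5 => h2 (h.out_mul' hn h5)
  have h6 : ¬ Rel S U y' (n * y') := fun h6 => h2 (h5.rel (Rel.sep h1 h6).symm)
  refine (h.out_tr hn h6).rel (Rel.symm (((h3 n hn h4).trans (h5 n hn h4).symm).avoid
    fun z _ h7 h8 => h2 ((h3.rel h7).rel (Rel.sep h1 h8.2).symm)))

theorem laminar (h1 : ¬ Out S N V U y x) (h2 : ¬ Out S N V U y' x) :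
    (∀ z, Out S N V U y z → Out S N V U y' z) ∨ ∀ z, Out S N V U y' z → Out S N V U y z := by
  by_cases h3 : Rel S U y y'
  · exact Or.inl fun z => h.out_congr h3
  by_cases h4 : Out S N V U y y'
  · by_cases h5 : Out S N V U y' y
    · exact absurd (h.nest1 h3 h4 h5 x) (not_or.2 ⟨h1, h2⟩)
    · exact Or.inr fun z => h.nest2 (fun h => h3 h.symm) h5
  · exact Or.inl fun z => h.nest2 h3 h4

theorem exists_out : ∃ x, ∀ y, Out S N V U y x := by
  by_contra hcon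
  have hx : ∀ x, ∃ y, ¬ Out S N V U y x := fun x => not_forall.1 fun h => hcon ⟨x, h⟩
  have htr : ∀ a b c, (∃ y, ¬ Out S N V U y a ∧ ¬ Out S N V U y b) →
      (∃ y, ¬ Out S N V U y b ∧ ¬ Out S N V U y c) →
      ∃ y, ¬ Out S N V U y a ∧ ¬ Out S N V U y c := by
    rintro a b c ⟨y, h1, h2⟩ ⟨y', h3, h4⟩
    rcases h.laminar h2 h3 with h5 | h5
    · exact ⟨y, h1, fun h6 => h4 (h5 _ h6)⟩
    · exact ⟨y', fun h6 => h1 (h5 _ h6), h4⟩
  have hed : ∀ a, ∀ s ∈ S, ∃ y, ¬ Out S N V U y a ∧ ¬ Out S N V U y (a * s) := fun a s hs => by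
    obtain ⟨y, hy⟩ := hx a
    obtain ⟨y', hy'⟩ := hx (a * s)
    by_cases h1 : Out S N V U y (a * s)
    · by_cases h2 : Out S N V U y' a
      · have h3 := (h.change hs fun h3 => hy (h3.2 h1)).1
        have h4 := (h.change hs fun h3 => hy' (h3.1 h2)).1
        exact absurd (h.out_congr (h4.trans h3.symm) h2) hy
      · exact ⟨y', h2, hy'⟩
    · exact ⟨y, hy, h1⟩
  have hall : ∀ a, ∃ y ∈ V, ¬ Out S N V U y 1 ∧ ¬ Out S N V U y a := fun a => by
    obtain ⟨y, h1, h2⟩ := (const_of_edges h.gen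
      (fun a => ∃ y, ¬ Out S N V U y 1 ∧ ¬ Out S N V U y a) (fun a s hs =>
        ⟨fun h1 => htr _ _ _ h1 (hed a s hs),
          fun h1 => htr _ _ _ h1 ((hed a s hs).imp fun _ => And.symm)⟩) a).2
      ((hx 1).imp fun _ h => ⟨h, h⟩)
    obtain ⟨z, hz⟩ : (Wv S V U y).Nonempty := Set.nonempty_iff_ne_empty.2 fun h3 =>
      h1 fun n _ _ => h3 ▸ Rel.empty h.gen _ _
    exact ⟨z, hz.1, fun h3 => h1 (h.out_congr hz.2.symm h3),
      fun h3 => h2 (h.out_congr hz.2.symm h3)⟩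
  choose! r hr using fun (q : Γ ⧸ N) (hq : ∃ y : Γ, (y : Γ ⧸ N) = q ∧ ¬ Out S N V U y 1) => hq
  obtain ⟨L, -, ⟨n, hn, hn'⟩, hL⟩ := h.big _ (h.fin.image r) 1 N.one_mem
  obtain ⟨y, hy, h1, h2⟩ := hall n
  obtain ⟨h3, h4⟩ := hr y ⟨y, rfl, h1⟩
  have h5 : r y * y⁻¹ ∈ N := by
    simpa using h.nor.conj_mem _ (QuotientGroup.eq.1 h3.symm) y
  have h6 : Rel S U y (r y) := by_contra fun h6 => by
    have := h.disj_tr (y := y) h5 (by simpa using h6) 1
    simp only [inv_mul_cancel_right] at this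
    exact this.elim h1 h4
  have h7 : Rel S U y (n * y) := by_contra fun h7 =>
    (h.disj_tr hn h7 n).elim h2 fun h8 => h1 (h.out_mul' hn (by simpa using h8))
  exact hn' (hL n hn _ ⟨_, ⟨y, hy, rfl⟩, rfl⟩ _ ⟨_, ⟨y, hy, rfl⟩, rfl⟩ y h6.symm (h6.symm.trans h7))

theorem out_of_good (h1 : ∀ n ∈ N, Rel S V x (n * x)) (y : Γ) : Out S N V U y x := by
  obtain ⟨n, hn, h2⟩ := h.far y
  rcases h.disj_tr hn h2 (n * x) with h3 | h3
  · exact h3.rel ((h1 n hn).symm.mono fun _ hz => hz.1)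
  · exact h.out_mul' hn h3

end Thick

end Pool.Agent.P.MP_5ee5b4_al
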