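import Pool.Agent.P.MP_5ee5b4_al.Strebel

/-! Duality between second cohomology and first homology, on the Cayley graph. -/

namespace Pool.Agent.P.MP_5ee5b4_al

open Pool.Agent.P.MP_6e40fc_al Matrix
open scoped MonoidAlgebra

noncomputable section

set_option linter.unusedSectionVars false

variable {Γ : Type} [Group Γ] {ι l m n : Type} [Fintype ι] [Fintype l] [Fintype m] [Fintype n]
  {A : Type} [AddCommGroup A] [Module ℤ[Γ] A]

/-- a matrix acting on a column of module elements -/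
def cact (X : Matrix m n ℤ[Γ]) : (n → A) →+ (m → A) where
  toFun u := fun a => ∑ b, X a b • u b
  map_zero' := by funext a; simp
  map_add' u v := by funext a; simp [Finset.sum_add_distrib]

theorem cact_apply (X : Matrix m n ℤ[Γ]) (u : n → A) (a : m) : cact X u a = ∑ b, X a b • u b := rfl

theorem cact_mul (X : Matrix l m ℤ[Γ]) (Y : Matrix m n ℤ[Γ]) (u : n → A) :
    cact (X * Y) u = cact X (cact Y u) := by
  funext a
  simp only [cact_apply, mul_apply, Finset.sum_smul, Finset.smul_sum, mul_smul]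
  exact Finset.sum_comm

theorem cact_add (X Y : Matrix m n ℤ[Γ]) (u : n → A) : cact (X + Y) u = cact X u + cact Y u := by
  funext a
  simp [cact_apply, add_smul, Finset.sum_add_distrib]

theorem cact_sub (X Y : Matrix m n ℤ[Γ]) (u : n → A) : cact (X - Y) u = cact X u - cact Y u := by
  funext a
  simp [cact_apply, sub_smul, Finset.sum_sub_distrib]

theorem cact_zero (u : n → A) : cact (0 : Matrix m n ℤ[Γ]) u = 0 := by
  funext a
  simp [cact_apply]

theorem cact_one [DecidableEq n] (u : n → A) : cact (1 : Matrix n n ℤ[Γ]) u = u := by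
  funext a
  simp [cact_apply, one_apply]

theorem tc_add (w : Γ →* ℤˣ) (X Y : Matrix m n ℤ[Γ]) : tc w (X + Y) = tc w X + tc w Y := by
  ext1 a b; exact map_add (conj w) _ _

theorem tc_sub (w : Γ →* ℤˣ) (X Y : Matrix m n ℤ[Γ]) : tc w (X - Y) = tc w X - tc w Y := by
  ext1 a b; exact map_sub (conj w) _ _

theorem tc_zero (w : Γ →* ℤˣ) : tc w (0 : Matrix m n ℤ[Γ]) = 0 := by
  ext1 a b; exact map_zero (conj w)

theorem tc_one [DecidableEq n] (w : Γ →* ℤˣ) : tc w (1 : Matrix n n ℤ[Γ]) = 1 := by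
  ext1 a b
  by_cases h : a = b
  · subst h; simp [tc, conj_one]
  · simp [tc, one_apply_ne h, one_apply_ne (Ne.symm h)]

/-- the column of the first boundary map -/
def πc (s : ι → Γ) : Matrix ι Unit ℤ[Γ] := Matrix.of fun i _ => o (s i) - 1

theorem dS_eq (s : ι → Γ) (v : ι → ℤ[Γ]) : dS s v = (v ᵥ* πc s) () := by
  simp [dS_apply, vecMul, dotProduct, πc]

theorem dS_row (s : ι → Γ) (X : Matrix m ι ℤ[Γ]) (a : m) : dS s (X a) = (X * πc s) a () := by
  rw [dS_eq, row_vecMul]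

/-- the chain of a path with a coefficient -/
def ract (w : Γ →* ℤˣ) (a : A) (v : ι → ℤ[Γ]) : ι → A := fun i => conj w (v i) • a

variable (A) in
/-- boundaries -/
def Bd (w : Γ →* ℤˣ) (s : ι → Γ) : AddSubgroup (ι → A) :=
  AddSubgroup.closure {z | ∃ a v, dS s v = 0 ∧ z = ract w a v}

/-- cycles -/
def Cyc (w : Γ →* ℤˣ) (s : ι → Γ) (z : ι → A) : Prop := ∑ i, conj w (o (s i) - 1) • z i = 0

theorem cyc_iff (w : Γ →* ℤˣ) (s : ι → Γ) (z : ι → A) :
    Cyc w s z ↔ cact (tc w (πc s)) z = 0 :=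
  ⟨fun h => funext fun _ => h, fun h => congrFun h ()⟩

/-- a map on relations that extends -/
def Extends {s : ι → Γ} (f : LinearMap.ker (dS s) →ₗ[ℤ[Γ]] A) : Prop :=
  ∃ F : (ι → ℤ[Γ]) →ₗ[ℤ[Γ]] A, ∀ v : LinearMap.ker (dS s), F v = f v

theorem ract_mem_Bd (w : Γ →* ℤˣ) (s : ι → Γ) (a : A) {v : ι → ℤ[Γ]} (hv : dS s v = 0) :
    ract w a v ∈ Bd A w s := AddSubgroup.subset_closure ⟨a, v, hv, rfl⟩

theorem cact_tc_eq (w : Γ →* ℤˣ) (H : Matrix m n ℤ[Γ]) (y : m → A) :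
    cact (tc w H) y = ∑ a, ract w (y a) (H a) := by
  funext i
  simp [cact_apply, ract, tc, Finset.sum_apply]

theorem cact_tc_mem_Bd (w : Γ →* ℤˣ) (s : ι → Γ) (H : Matrix m ι ℤ[Γ]) (h : H * πc s = 0)
    (y : m → A) : cact (tc w H) y ∈ Bd A w s := by
  rw [cact_tc_eq]
  exact AddSubgroup.sum_mem _ fun a _ => ract_mem_Bd w s _ (by rw [dS_row, h]; rfl)

theorem cact_tc_ract (w : Γ →* ℤˣ) (H : Matrix m n ℤ[Γ]) (a : A) (v : m → ℤ[Γ]) :
    cact (tc w H) (ract w a v) = ract w a (v ᵥ* H) := by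
  funext b
  simp only [cact_apply, ract, tc, transpose_apply, map_apply, vecMul, dotProduct, map_sum,
    MP_6e40fc_al.conj_mul, Finset.sum_smul, mul_smul]

variable {n0 n1 n2 : Type} [Fintype n0] [Fintype n1] [Fintype n2]
  [DecidableEq n0] [DecidableEq n1] [DecidableEq n2] [DecidableEq ι]

theorem package (P : PRes Γ n0 n1 n2) {s : ι → Γ} (hs : Subgroup.closure (Set.range s) = ⊤) :
    ∃ (a : Matrix n1 ι ℤ[Γ]) (b : Matrix ι n1 ℤ[Γ]) (k : Matrix n0 n1 ℤ[Γ]) (τ : Matrix n1 n2 ℤ[Γ])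
      (e : Matrix n0 Unit ℤ[Γ]) (p : Matrix Unit n0 ℤ[Γ]) (c : Matrix Unit ι ℤ[Γ]),
      a * πc s = P.d1 * e ∧ b * P.d1 = πc s * p ∧ b * P.e1 = b ∧
      P.e1 = a * b + P.d1 * k + τ * P.d2 ∧ (1 - b * a + πc s * c) * πc s = 0 := by
  obtain ⟨p, hp, hp1⟩ := P.surj
  let e : Matrix n0 Unit ℤ[Γ] := Matrix.of fun i _ => (P.ε (P.e0 i) : ℤ[Γ])
  let pm : Matrix Unit n0 ℤ[Γ] := Matrix.of fun _ => p
  have he : ∀ x : n0 → ℤ[Γ], aug ℤ Γ ((x ᵥ* e) ()) = P.ε (x ᵥ* P.e0) := fun x => by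
    rw [← P.aug_beta]
    simp [vecMul, dotProduct, e, mul_comm]
  choose a ha using fun j => exists_dS' hs (r := (P.d1 j ᵥ* e) ())
    (by rw [he, row_vecMul, P.d1e0, P.ε_row])
  choose b hb using fun i => P.ex_sub (s i) hp
  choose k hk using fun i => P.ex0 (P.e0 i - (P.ε (P.e0 i) : ℤ[Γ]) • p)
    (by rw [sub_vecMul, smul_vecMul, hp, row_vecMul, P.e0e0])
    (by rw [map_sub, P.ε_smul, hp1, map_intCast]; simp)
  obtain ⟨c, hc⟩ := exists_dS' hs (r := (p ᵥ* e) () - 1) (by rw [map_sub, he, hp, hp1, map_one, sub_self])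
  have h1 : Matrix.of a * πc s = P.d1 * e := by
    ext1 j u
    rw [← dS_row]
    exact ha j
  have h2 : Matrix.of b * P.d1 = πc s * pm := by
    ext1 i j
    rw [← row_vecMul]
    change (b i ᵥ* P.d1) j = _
    rw [hb]
    simp [mul_apply, πc, pm]
  have h3 : Matrix.of k * P.d1 = P.e0 - e * pm := by
    ext1 i j
    rw [← row_vecMul]
    change (k i ᵥ* P.d1) j = _
    rw [hk]
    simp [mul_apply, e, pm]
  let Z := P.e1 - Matrix.of a * (Matrix.of b * P.e1) - P.d1 * (Matrix.of k * P.e1)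
  choose τ hτ using fun j => P.ex1 (Z j)
    (by rw [row_vecMul]; simp only [Z, Matrix.sub_mul, Matrix.mul_assoc, P.e1e1])
    (by
      rw [row_vecMul]
      simp only [Z, Matrix.sub_mul, Matrix.mul_assoc, P.e1d1, h2, h3, Matrix.mul_sub, P.d1e0]
      rw [← Matrix.mul_assoc, h1, Matrix.mul_assoc, sub_self]
      rfl)
  have h4 : Matrix.of τ * P.d2 = Z := by
    ext1 i j
    rw [← row_vecMul]
    exact congrFun (hτ i) j
  refine ⟨Matrix.of a, Matrix.of b * P.e1, Matrix.of k * P.e1, Matrix.of τ, e, pm,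
    Matrix.of fun _ => c, h1, by rw [Matrix.mul_assoc, P.e1d1, h2],
    by rw [Matrix.mul_assoc, P.e1e1], by rw [h4]; simp only [Z]; abel, ?_⟩
  have h5 : (Matrix.of fun _ : Unit => c) * πc s = pm * e - 1 := by
    ext1 i j
    rw [← dS_row]
    exact hc
  rw [Matrix.add_mul, Matrix.sub_mul, Matrix.one_mul, Matrix.mul_assoc, h1, Matrix.mul_assoc (πc s),
    h5, ← Matrix.mul_assoc, Matrix.mul_assoc (Matrix.of b), P.e1d1, h2, Matrix.mul_sub,
    Matrix.mul_one, Matrix.mul_assoc]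
  abel

/-- duality data -/
structure DD (w : Γ →* ℤˣ) (s : ι → Γ) where
  n : ℕ
  ρ : Fin n → LinearMap.ker (dS s)
  X : Matrix ι (Fin n) ℤ[Γ]
  cyc : ∀ (A : Type) [AddCommGroup A] [Module ℤ[Γ] A] (f : LinearMap.ker (dS s) →ₗ[ℤ[Γ]] A),
    Cyc w s (cact X (f ∘ ρ))
  ext : ∀ (A : Type) [AddCommGroup A] [Module ℤ[Γ] A] (f : LinearMap.ker (dS s) →ₗ[ℤ[Γ]] A),
    cact X (f ∘ ρ) ∈ Bd A w s ↔ Extends f
  sur : ∀ (A : Type) [AddCommGroup A] [Module ℤ[Γ] A] (z : ι → A), Cyc w s z →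
    ∃ f : LinearMap.ker (dS s) →ₗ[ℤ[Γ]] A, cact X (f ∘ ρ) - z ∈ Bd A w s

theorem lc_cact (x : m → ℤ[Γ]) (X : Matrix m n ℤ[Γ]) (u : n → A) :
    Fintype.linearCombination ℤ[Γ] (cact X u) x = Fintype.linearCombination ℤ[Γ] u (x ᵥ* X) := by
  simp only [Fintype.linearCombination_apply, cact_apply, vecMul, dotProduct, Finset.sum_smul,
    Finset.smul_sum, mul_smul]
  exact Finset.sum_comm

theorem exists_dd (hG : IsPD 3 Γ) : ∃ w : Γ →* ℤˣ, ∀ (ι : Type) [Fintype ι] [DecidableEq ι]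
    (s : ι → Γ), Subgroup.closure (Set.range s) = ⊤ →
      (LinearMap.ker (dS s)).FG ∧ Nonempty (DD w s) := by
  obtain ⟨n0, n1, n2, m0, P, P', w, hP, ex2⟩ := exists_pres2 hG
  refine ⟨w, fun ι _ _ s hs => ⟨fp2 P hs, ?_⟩⟩
  obtain ⟨a, b, k, τ, e, p, c, h1, h2, h3, h4, h5⟩ := package P hs
  obtain ⟨a', b', k', τ', e', p', c', h1', h2', h3', h4', h5'⟩ := package P' hs
  have hd2 : tc w P'.d2 = P.d2 := by rw [hP, tc_tc]
  have h32 : tc w P'.d1 * P.d2 = 0 := by rw [← hd2, tc_mul, P'.d2d1, tc_zero]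
  have he2 : tc w P'.e1 * P.d2 = P.d2 := by rw [← hd2, tc_mul, P'.d2e1]
  have hρ0 : P.d2 * a * πc s = 0 := by
    rw [Matrix.mul_assoc, h1, ← Matrix.mul_assoc, P.d2d1, Matrix.zero_mul]
  have hρ1 : ∀ x : Fin n2 → ℤ[Γ], dS s (x ᵥ* (P.d2 * a)) = 0 := fun x => by
    rw [dS_eq, vecMul_vecMul, hρ0, vecMul_zero]; rfl
  let ρ : Fin n2 → LinearMap.ker (dS s) := fun j => ⟨(P.d2 * a) j, by
    rw [LinearMap.mem_ker, dS_row, hρ0]; rfl⟩
  have hlc : ∀ (A : Type) [AddCommGroup A] [Module ℤ[Γ] A]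
      (f : LinearMap.ker (dS s) →ₗ[ℤ[Γ]] A) (x : Fin n2 → ℤ[Γ]),
      Fintype.linearCombination ℤ[Γ] (f ∘ ρ) x = f ⟨x ᵥ* (P.d2 * a), hρ1 x⟩ := by
    intro A _ _ f x
    simp only [Fintype.linearCombination_apply, Function.comp_apply, ← map_smul, ← map_sum]
    congr 1
    apply Subtype.ext
    simp only [AddSubmonoidClass.coe_finsetSum, SetLike.val_smul, ρ]
    exact (vecMul_eq_sum_smul _ _).symm
  have hrow : ∀ (A : Type) [AddCommGroup A] [Module ℤ[Γ] A]
      (f : LinearMap.ker (dS s) →ₗ[ℤ[Γ]] A) {m : Type} (Z : Matrix m (Fin n2) ℤ[Γ]) (i : m),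
      cact Z (f ∘ ρ) i = f ⟨Z i ᵥ* (P.d2 * a), hρ1 _⟩ := fun A _ _ f m Z i => by
    rw [← hlc, Fintype.linearCombination_apply]; rfl
  have hy3 : ∀ (A : Type) [AddCommGroup A] [Module ℤ[Γ] A]
      (f : LinearMap.ker (dS s) →ₗ[ℤ[Γ]] A), cact (tc w P'.d1) (f ∘ ρ) = 0 := fun A _ _ f => by
    funext i
    rw [hrow, Pi.zero_apply, ← map_zero f]
    congr 1
    apply Subtype.ext
    simp only [row_vecMul, ← Matrix.mul_assoc, h32, Matrix.zero_mul]
    rfl
  have hye : ∀ (A : Type) [AddCommGroup A] [Module ℤ[Γ] A]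
      (f : LinearMap.ker (dS s) →ₗ[ℤ[Γ]] A), cact (tc w P'.e1) (f ∘ ρ) = f ∘ ρ := fun A _ _ f => by
    funext i
    rw [hrow, Function.comp_apply]
    congr 1
    apply Subtype.ext
    simp only [row_vecMul, ← Matrix.mul_assoc, he2, ρ]
  have hbd : ∀ (A : Type) [AddCommGroup A] [Module ℤ[Γ] A] (u : Fin n1 → A),
      cact (tc w a') (cact P.d2 u) ∈ Bd A w s := fun A _ _ u => by
    rw [← cact_mul, ← hd2, tc_mul]
    exact cact_tc_mem_Bd w s _ (by
      rw [Matrix.mul_assoc, h1', ← Matrix.mul_assoc, P'.d2d1, Matrix.zero_mul]) u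
  have hvb : ∀ v : LinearMap.ker (dS s), ∃ x, x ᵥ* P.d2 = v.1 ᵥ* b := fun v =>
    P.ex1 _ (by rw [vecMul_vecMul, h3]) (by
      rw [vecMul_vecMul, h2, ← vecMul_vecMul]
      have : v.1 ᵥ* πc s = 0 := funext fun _ => (dS_eq s v).symm.trans v.2
      rw [this, zero_vecMul])
  refine ⟨⟨n2, ρ, tc w a', fun A _ _ f => ?_, fun A _ _ f => ⟨fun h => ?_, fun ⟨F, hF⟩ => ?_⟩,
    fun A _ _ z hz => ?_⟩⟩
  · rw [cyc_iff, ← cact_mul, tc_mul, h1', ← tc_mul, cact_mul, hy3, map_zero]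
  · have h6 : ∀ z ∈ Bd A w s, ∃ u, cact (tc w b') z = cact P.d2 u := by
      intro z hz
      induction hz using AddSubgroup.closure_induction with
      | mem z hz =>
        obtain ⟨y, v, hv, rfl⟩ := hz
        obtain ⟨t, ht⟩ := P'.ex1 (v ᵥ* b') (by rw [vecMul_vecMul, h3']) (by
          rw [vecMul_vecMul, h2', ← vecMul_vecMul]
          have : v ᵥ* πc s = 0 := funext fun _ => (dS_eq s v).symm.trans hv
          rw [this, zero_vecMul])
        exact ⟨ract w y t, by rw [cact_tc_ract, ← ht, ← cact_tc_ract, hd2]⟩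
      | zero => exact ⟨0, by rw [map_zero, map_zero]⟩
      | add x y _ _ hx hy =>
        obtain ⟨u, hu⟩ := hx
        obtain ⟨u', hu'⟩ := hy
        exact ⟨u + u', by rw [map_add, map_add, hu, hu']⟩
      | neg x _ hx =>
        obtain ⟨u, hu⟩ := hx
        exact ⟨-u, by rw [map_neg, map_neg, hu]⟩
    obtain ⟨u, hu⟩ := h6 _ h
    have h7 : f ∘ ρ = cact P.d2 (u + cact (tc w τ') (f ∘ ρ)) := by
      conv_lhs => rw [← hye A f, h4', tc_add, tc_add, cact_add, cact_add, ← tc_mul, ← tc_mul,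
        ← tc_mul, cact_mul, cact_mul, cact_mul, hy3, map_zero, add_zero, hu, hd2]
      rw [map_add]
    let H := 1 - b * a + πc s * c
    refine ⟨Fintype.linearCombination ℤ[Γ] (u + cact (tc w τ') (f ∘ ρ)) ∘ₗ b.vecMulLinear +
      f ∘ₗ LinearMap.codRestrict _ H.vecMulLinear (fun v => ?_), fun v => ?_⟩
    · rw [LinearMap.mem_ker, vecMulLinear_apply, dS_eq, vecMul_vecMul, h5, vecMul_zero]; rfl
    · obtain ⟨x, hx⟩ := hvb v
      rw [LinearMap.add_apply, LinearMap.comp_apply, vecMulLinear_apply, ← hx, ← lc_cact, ← h7, hlc,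
        LinearMap.comp_apply, ← map_add]
      congr 1
      apply Subtype.ext
      have : v.1 ᵥ* πc s = 0 := funext fun _ => (dS_eq s v).symm.trans v.2
      simp only [Submodule.coe_add, LinearMap.codRestrict_apply, vecMulLinear_apply, H, vecMul_add,
        vecMul_sub, vecMul_one, ← vecMul_vecMul, this, zero_vecMul, hx]
      abel
  · have : f ∘ ρ = cact P.d2 fun l => F (a l) := by
      funext j
      rw [Function.comp_apply, ← hF, cact_apply]
      simp only [← map_smul, ← map_sum, ρ]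
      rw [← row_vecMul, vecMul_eq_sum_smul]
    rw [this]
    exact hbd A _
  · let y := cact (tc w b') z
    have hz' := (cyc_iff w s z).1 hz
    have hy1 : cact (tc w P'.d1) y = 0 := by
      simp only [y]
      rw [← cact_mul, tc_mul, h2', ← tc_mul, cact_mul, hz', map_zero]
    have hy2 : cact (tc w P'.e1) y = y := by
      simp only [y]
      rw [← cact_mul, tc_mul, h3']
    let η := Fintype.linearCombination ℤ[Γ] y
    have hη : LinearMap.ker P.d2.vecMulLinear ≤ LinearMap.ker η := fun x hx => by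
      obtain ⟨t, ht⟩ := ex2 x hx
      change Fintype.linearCombination ℤ[Γ] y x = 0
      rw [← hy2, lc_cact, ← ht, ← lc_cact, hy1]
      simp [Fintype.linearCombination_apply]
    let η' : LinearMap.range P.d2.vecMulLinear →ₗ[ℤ[Γ]] A :=
      (LinearMap.ker P.d2.vecMulLinear).liftQ η hη ∘ₗ P.d2.vecMulLinear.quotKerEquivRange.symm.toLinearMap
    have hη' : ∀ x h, η' ⟨x ᵥ* P.d2, h⟩ = η x := fun x h => by
      have := P.d2.vecMulLinear.quotKerEquivRange_symm_apply_image x h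
      simp only [η', LinearMap.comp_apply, LinearEquiv.coe_coe]
      erw [this]
      rfl
    let f : LinearMap.ker (dS s) →ₗ[ℤ[Γ]] A := η' ∘ₗ LinearMap.codRestrict _
      (b.vecMulLinear ∘ₗ Submodule.subtype _) hvb
    refine ⟨f, ?_⟩
    have h6 : P.d2 * a * b = (1 - P.d2 * τ) * P.d2 := by
      have := congrArg (P.d2 * ·) h4
      simp only [Matrix.mul_add, P.d2e1, ← Matrix.mul_assoc, P.d2d1, Matrix.zero_mul,
        add_zero] at this
      rw [Matrix.sub_mul, Matrix.one_mul, eq_sub_iff_add_eq, ← this]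
    have h7 : f ∘ ρ = y - cact P.d2 (cact τ y) := by
      funext j
      let Z : Matrix (Fin n2) (Fin n2) ℤ[Γ] := 1 - P.d2 * τ
      have h8 : (ρ j).1 ᵥ* b = Z j ᵥ* P.d2 := by
        simp only [ρ, row_vecMul, h6, Z]
      have h9 : f (ρ j) = η' ⟨Z j ᵥ* P.d2, ⟨_, rfl⟩⟩ := congrArg η' (Subtype.ext h8)
      have h10 : y - cact P.d2 (cact τ y) = cact Z y := by
        rw [cact_sub, cact_one, cact_mul]
      rw [Function.comp_apply, h9, hη', h10]
      exact Fintype.linearCombination_apply _ _ _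
    have h8 : cact (tc w a') y - z = -cact (tc w (1 - b' * a' + πc s * c')) z := by
      simp only [y]
      rw [tc_add, tc_sub, cact_add, cact_sub, tc_one, cact_one, ← tc_mul, ← tc_mul, cact_mul,
        cact_mul, hz', map_zero]
      abel
    rw [h7, map_sub, sub_right_comm, h8]
    exact AddSubgroup.sub_mem _ (AddSubgroup.neg_mem _ (cact_tc_mem_Bd w s _ h5' z)) (hbd A _)

end

end Pool.Agent.P.MP_5ee5b4_al
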