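import Pool.Agent.P.MP_6e40fc_al.MainB

/-! The dual pair of resolutions, with exactness in degree two. -/

namespace Pool.Agent.P.MP_5ee5b4_al

open Pool.Agent.P.MP_6e40fc_al CategoryTheory Matrix Limits
open scoped MonoidAlgebra

noncomputable section

variable {G : Type} [Group G]

theorem tc_tc (w : G →* ℤˣ) {m n : Type} (X : Matrix m n ℤ[G]) : tc w (tc w X) = X := by
  ext1 a b
  exact conj_conj _ _

theorem exists_pres2 (hG : IsPD 3 G) : ∃ (n0 n1 n2 m0 : ℕ) (P : PRes G (Fin n0) (Fin n1) (Fin n2))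
    (P' : PRes G (Fin m0) (Fin n2) (Fin n1)) (w : G →* ℤˣ), P'.d2 = tc w P.d2 ∧
      ∀ y, y ᵥ* P.d2 = 0 → ∃ z, z ᵥ* tc w P'.d1 = y ᵥ* tc w P'.e1 := by
  obtain ⟨⟨P, hfin, N, hN⟩, h0, h3⟩ := hG
  obtain ⟨Q⟩ := exists_mres P hfin N hN
  obtain ⟨u, hu⟩ := Q.reg 3 (fun n hn => h0 _ (by omega)) 3 le_rfl
  obtain ⟨α, ha, ⟨y0, hy1, hy2, hy3⟩, hk⟩ := Q.top 2 h3
  let p := Q.e 3 - Q.e 3 * u * Q.d 3
  have h1 : Q.e 3 * p = p := by simp only [p, Matrix.mul_sub, ← Matrix.mul_assoc, Q.ee]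
  have h2 : Q.d 3 * p = 0 := by
    simp only [p, Matrix.mul_sub, ← Matrix.mul_assoc, Q.de, hu, sub_self]
  have hpp : p * p = p := by
    conv_lhs => enter [1]; simp only [p]
    rw [Matrix.sub_mul, h1, Matrix.mul_assoc, h2, Matrix.mul_zero, sub_zero]
  have hpd : p * Q.d 2 = Q.d 2 := by
    simp only [p, Matrix.sub_mul, Matrix.mul_assoc, Q.dd, Q.ed, Matrix.mul_zero, sub_zero]
  have hdp : ∀ y, Q.d 3 *ᵥ (p *ᵥ y) = 0 := fun y => by rw [mulVec_mulVec, h2, zero_mulVec]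
  have hpy : p *ᵥ y0 = y0 := by
    simp only [p, sub_mulVec, ← mulVec_mulVec, hy1, hy2, mulVec_zero, sub_zero]
  let β : (Fin (Q.m 3) → ℤ[G]) →+ ℤ := AddMonoidHom.mk' (fun y => α (p *ᵥ y)) fun y y' => by
    rw [mulVec_add]; exact ha _ _ (hdp y) (hdp y')
  have hβ : ∀ y, β y = 0 ↔ ∃ z, Q.d 2 *ᵥ z = p *ᵥ y := fun y =>
    hk _ (by rw [mulVec_mulVec, h1]) (hdp y)
  have hβ0 : β y0 = 1 := by change α (p *ᵥ y0) = 1; rw [hpy, hy3]
  have hrm : ∀ (y : Fin (Q.m 3) → ℤ[G]) (r : ℤ[G]),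
      β (fun i => y i * r) = β y * β fun i => y0 i * r := by
    intro y r
    obtain ⟨z, hz⟩ := (hβ (y - β y • y0)).1 (by rw [map_sub, map_zsmul, hβ0]; simp)
    have := (hβ fun i => (y - β y • y0) i * r).2 ⟨fun i => z i * r, by
      rw [mulVec_rm, mulVec_rm, hz]⟩
    have e : (fun i => (y - β y • y0) i * r) = (fun i => y i * r) - β y • fun i => y0 i * r := by
      funext i
      simp only [Pi.sub_apply, Pi.smul_apply, sub_mul, smul_mul_assoc]
    rw [e, map_sub, map_zsmul, sub_eq_zero] at this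
    exact this
  let w0 : G →* ℤ :=
    { toFun := fun g => β fun i => y0 i * o g
      map_one' := by simpa using hβ0
      map_mul' := fun g h => by
        rw [← hrm]
        simp only [mul_o_mul] }
  let w := w0.toHomUnits
  have hw : ∀ r, (β fun i => y0 i * conj w r) = aug ℤ G r := by
    intro r
    induction r using zg_induction with
    | ho g =>
      have e : (fun i => y0 i * conj w (o g)) = (w g : ℤ) • fun i => y0 i * o g⁻¹ := by
        funext i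
        rw [conj_o, mul_smul_comm]; rfl
      rw [e, map_zsmul, aug_o]
      change w0 g * w0 g⁻¹ = 1
      rw [← map_mul, mul_inv_cancel, map_one]
    | hadd x y hx hy =>
      rw [map_add (aug ℤ G), ← hx, ← hy, ← map_add]
      congr 1
      funext i
      rw [map_add, mul_add]; rfl
    | hsmul n x hx =>
      rw [map_zsmul (aug ℤ G), ← hx, ← map_zsmul]
      congr 1
      funext i
      rw [map_zsmul, mul_smul_comm]; rfl
  let ε : (Fin (Q.m 3) → ℤ[G]) →+ ℤ := AddMonoidHom.mk' (fun x => β (conj w ∘ x)) fun x y => by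
    rw [← map_add]
    congr 1
    funext i
    exact map_add _ _ _
  refine ⟨_, _, _, _, ⟨Q.e 0, Q.e 1, Q.d 0, Q.d 1, Q.ε, Q.ε_smul, Q.ε_d, Q.ee 0, Q.de 0, Q.ee 1,
    Q.ed 0, Q.de 1, Q.dd 0, Q.surj, Q.ex0, Q.ex 0⟩,
    ⟨tc w p, tc w (Q.e 2), tc w (Q.d 2), tc w (Q.d 1), ε, fun r x => ?_, fun y => ?_,
      by rw [tc_mul, hpp], by rw [tc_mul, hpd], by rw [tc_mul, Q.ee], by rw [tc_mul, Q.de],
      by rw [tc_mul, Q.ed], ?_, ⟨conj w ∘ y0, conj_comp_inj w ?_, ?_⟩, fun x hx hx' => ?_,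
      fun y hy hy' => ?_⟩, w, rfl, fun y hy => ?_⟩
  · change β _ = _ * β _
    rw [← hw, mul_comm, ← hrm]
    congr 1
    funext i
    exact conj_mul _ _ _
  · change β _ = 0
    rw [conj_vecMul_tc, hβ]
    exact ⟨conj w ∘ y, by rw [mulVec_mulVec, hpd]⟩
  · rw [tc_mul, Q.dd]
    ext1 a b
    exact map_zero (conj w)
  · rw [conj_vecMul_tc, conj_comp_conj, hpy]
  · change β _ = 1
    rw [conj_comp_conj, hβ0]
  · obtain ⟨z, hz⟩ := (hβ _).1 hx'
    refine ⟨conj w ∘ z, conj_comp_inj w ?_⟩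
    rw [conj_vecMul_tc, conj_comp_conj, hz, ← conj_vecMul_tc, hx]
  · obtain ⟨z, hz⟩ := Q.coh 1 (h0 _ (by omega)) (conj w ∘ y) (by rw [← conj_vecMul_tc, hy])
      (by rw [← conj_vecMul_tc, hy']; funext i; exact map_zero _)
    refine ⟨conj w ∘ z, conj_comp_inj w ?_⟩
    rw [conj_vecMul_tc, conj_comp_conj, hz]
  · change ∃ z, z ᵥ* tc w (tc w (Q.d 2)) = y ᵥ* tc w (tc w (Q.e 2))
    rw [tc_tc, tc_tc]
    exact Q.ex 1 _ (by rw [vecMul_vecMul, Q.ee]) (by rw [vecMul_vecMul, Q.ed]; exact hy)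

end

end Pool.Agent.P.MP_5ee5b4_al
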