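import Pool.Agent.P.MP_5ee5b4_al.Coc

/-! Cycles with values in the twisted augmentation submodule can be pushed to infinity. -/

namespace Pool.Agent.P.MP_5ee5b4_al

open Pool.Agent.P.MP_6e40fc_al Matrix
open scoped MonoidAlgebra

noncomputable section

set_option linter.unusedSectionVars false

variable {Γ K : Type} [Group Γ] [Group K] {ι β γ : Type} [Fintype ι] [Fintype β] [Fintype γ]
  {M : Type} [AddCommGroup M] [Module ℤ[K] M]

theorem push (j : K →* Γ) (hK : ¬ j.range.FiniteIndex) (T : Finset Γ)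
    (hT : Subgroup.closure (T : Set Γ) = ⊤) (hT' : ∀ a ∈ T, a⁻¹ ∈ T)
    (τ : Γ → (β → Co j M) →+ (β → Co j M))
    (hτ : ∀ a f x, (∀ b, f b (x * a⁻¹) = 0) → ∀ b, τ a f b x = 0)
    (d : (β → Co j M) →+ (γ → Co j M)) (hd : ∀ f x, (∀ b, f b x = 0) → ∀ c, d f c x = 0)
    (hdτ : ∀ a f, d f = 0 → d (τ a f) = 0) (ω : β → Co j M) (hω : d ω = 0) :
    ∃ Ω : Γ → β → Co j M, (∀ a, d (Ω a) = 0) ∧ ω = ∑ a ∈ T, (Ω a - τ a (Ω a)) := by
  classical
  obtain ⟨lab, h1, h2, h3⟩ := exists_label j.range hK T hT hT'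
  let Φ : Γ → β → Co j M := h3.fix fun x Φ => ω + ∑ a ∈ T,
    if h : lab (x * a⁻¹) = a then τ a (Φ (x * a⁻¹) (by simp [h])) else 0
  have hΦ : ∀ x, Φ x = ω + ∑ a ∈ T, if lab (x * a⁻¹) = a then τ a (Φ (x * a⁻¹)) else 0 :=
    fun x => by
    simp only [Φ]
    rw [h3.fix_eq]
    simp only [dite_eq_ite]
  have hΦ1 : ∀ k x, Φ (j k * x) = Φ x := fun k x => by
    induction x using h3.induction with
    | _ x ih =>
      rw [hΦ, hΦ x]
      congr 1
      refine Finset.sum_congr rfl fun a _ => ?_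
      rw [mul_assoc, h2 _ ⟨k, rfl⟩]
      split_ifs with h
      · rw [ih _ (by simp [h])]
      · rfl
  have hΦ2 : ∀ x, d (Φ x) = 0 := fun x => by
    induction x using h3.induction with
    | _ x ih =>
      rw [hΦ, map_add, hω, zero_add, map_sum]
      refine Finset.sum_eq_zero fun a _ => ?_
      split_ifs with h
      · exact hdτ _ _ (ih _ (by simp [h]))
      · exact map_zero _
  let Ω : Γ → β → Co j M := fun a b => Co.mk (fun x => if lab x = a then Φ x b x else 0)
    fun k x => by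
      rw [h2 _ ⟨k, rfl⟩, hΦ1, Co.equiv]
      split_ifs <;> simp
  have hΩ : ∀ a x b, (Ω a - if lab x = a then Φ x else 0) b x = 0 := fun a x b => by
    simp only [Ω, Pi.sub_apply, Co.sub_apply, Co.mk_apply]
    split_ifs <;> simp
  refine ⟨Ω, fun a => funext fun c => Co.ext fun x => ?_, funext fun b => Co.ext fun x => ?_⟩
  · have := hd _ x (hΩ a x) c
    rw [map_sub, Pi.sub_apply, Co.sub_apply, sub_eq_zero] at this
    rw [this]
    split_ifs
    · rw [hΦ2]
    · rw [map_zero]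
  · have h4 : ∀ a, τ a (Ω a) b x =
        (if lab (x * a⁻¹) = a then τ a (Φ (x * a⁻¹)) else 0 : β → Co j M) b x := fun a => by
      have := hτ a _ x (hΩ a (x * a⁻¹)) b
      rw [map_sub, Pi.sub_apply, Co.sub_apply, sub_eq_zero] at this
      rw [this]
      split_ifs
      · rfl
      · rw [map_zero]
    have h5 := congrArg (fun f : β → Co j M => f b x) (hΦ x)
    simp only [Pi.add_apply, Co.add_apply, Finset.sum_apply, Co.sum_apply] at h5
    simp only [Finset.sum_apply, Co.sum_apply, Pi.sub_apply, Co.sub_apply, Finset.sum_sub_distrib,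
      h4, Ω, Co.mk_apply, Finset.sum_ite_eq, if_pos (h1 x), h5]
    abel

variable {N : Subgroup Γ} [N.Normal] {P : Type} [AddCommGroup P] [Module ℤ[N] P] (w : Γ →* ℤˣ)

theorem conj_loc (a : Γ) (c : ℤ[N]) (f : Co N.subtype P) (x : Γ) (h : f (x * a⁻¹) = 0) :
    (conj w (o a * jr N.subtype c) • f) x = 0 := by
  induction c using zg_induction with
  | ho n =>
    have := f.equiv ⟨x * (n : Γ)⁻¹ * x⁻¹, ‹N.Normal›.conj_mem _ (N.inv_mem n.2) x⟩ (x * a⁻¹)
    rw [h, smul_zero] at this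
    rw [jr_o, o_mul, conj_o, smul_assoc, Co.zsmul_apply, Co.o_smul]
    convert smul_zero _
    convert this using 2
    simp [mul_assoc]
  | hadd a b ha hb => rw [map_add, mul_add, map_add, add_smul, Co.add_apply, ha, hb, add_zero]
  | hsmul n a ha =>
    rw [map_zsmul, mul_smul_comm, map_zsmul, smul_assoc, Co.zsmul_apply, ha, smul_zero]

theorem jr_dS (j : K →* Γ) (t : β → K) (c : β → ℤ[K]) :
    dS (fun b => j (t b)) (fun b => jr j (c b)) = jr j (dS t c) := by
  simp [dS_apply]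

theorem bd_ract {A : Type} [AddCommGroup A] [Module ℤ[Γ] A] (s : ι → Γ) (a : A) (v : ι → ℤ[Γ]) :
    cact (tc w (πc s)) (ract w a v) () = conj w (dS s v) • a := by
  rw [cact_tc_ract, dS_eq]
  rfl

theorem push_cycle [DecidableEq ι] {s : ι → Γ} (hΓ : Subgroup.closure (Set.range s) = ⊤)
    (hN : ¬ N.FiniteIndex) {t : β → N} (ht : Subgroup.closure (Set.range t) = ⊤)
    (z : ι → Co N.subtype P) (hz : Cyc w s z)
    (hz' : ∀ i x, z i x ∈ AddSubgroup.closure {m : P | ∃ (n : N) (m' : P),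
      m = (w n : ℤ) • o n • m' - m'}) : z ∈ Bd _ w s := by
  classical
  obtain ⟨σ⟩ := exists_sec (j := N.subtype) Subtype.val_injective
  obtain ⟨T, hT, hT'⟩ := exists_symm_gen ((Group.fg_iff).2 ⟨_, hΓ, Set.finite_range s⟩)
  let t' : β → Γ := fun b => N.subtype (t b)
  choose q hq using exists_dS hΓ
  choose c hc using exists_dS ht
  let Pm : Matrix β ι ℤ[Γ] := Matrix.of fun b => q (t' b)
  let C : Γ → Matrix β β ℤ[Γ] := fun a => Matrix.of fun b b' => o a * jr N.subtype
    (c ⟨a⁻¹ * t' b * a⁻¹⁻¹, ‹N.Normal›.conj_mem _ (t b).2 _⟩ b')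
  let d : (β → Co N.subtype P) →+ (Unit → Co N.subtype P) := cact (tc w (πc t'))
  have hP : Pm * πc s = πc t' := by
    ext1 b u
    rw [← dS_row]
    exact hq _
  have hC : ∀ a, C a * πc t' = πc t' * Matrix.of fun (_ _ : Unit) => o a := fun a => by
    ext1 b u
    rw [← dS_row]
    refine (map_smul (dS t') (o a) _).trans ?_
    rw [jr_dS, hc]
    simp [mul_apply, πc, mul_sub, sub_mul, o_mul, mul_assoc]
  have hd : ∀ f x, (∀ b, f b x = 0) → ∀ u, d f u x = 0 := fun f x h u => by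
    rw [cact_apply, Co.sum_apply]
    refine Finset.sum_eq_zero fun b _ => ?_
    have := conj_loc w 1 (o (t b) - 1) (f b) x (by simpa using h b)
    simpa [tc, πc, t'] using this
  have hrel : ∀ a v, dS s v = o a - 1 → ∀ u : β → Co N.subtype P,
      cact (tc w Pm) (cact (tc w (C a)) u - u) - ract w (d u ()) v ∈ Bd _ w s := fun a v hv u => by
    let Q : Matrix Unit ι ℤ[Γ] := Matrix.of fun _ => v
    have hQ : Q * πc s = (Matrix.of fun (_ _ : Unit) => o a) - 1 := by
      ext1 b u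
      rw [← dS_row]
      exact hv
    have := cact_tc_mem_Bd w s (C a * Pm - Pm - πc t' * Q) (by
      rw [Matrix.sub_mul, Matrix.sub_mul, Matrix.mul_assoc, Matrix.mul_assoc, hP, hC, hQ,
        Matrix.mul_sub, Matrix.mul_one, sub_self]) u
    rw [tc_sub, tc_sub, cact_sub, cact_sub, ← tc_mul, ← tc_mul, cact_mul, cact_mul,
      cact_tc_eq w Q, Fintype.sum_unique] at this
    rwa [map_sub]
  have hdτ : ∀ a u, d (cact (tc w (C a)) u) () = conj w (o a) • d u () := fun a u => by
    simp only [d]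
    rw [← cact_mul, tc_mul, hC, ← tc_mul, cact_mul, cact_apply, Fintype.sum_unique]
    rfl
  have hloc : ∀ i x, ∃ u, d u () x = z i x := fun i x => by
    refine AddSubgroup.closure_induction (p := fun m _ => ∃ u, d u () x = m) ?_ ⟨0, by simp⟩ ?_ ?_
      (hz' i x)
    · rintro _ ⟨n, m, rfl⟩
      let f : Co N.subtype P := Co.mk (fun y => o (σ.κ y * (σ.κ x)⁻¹) • m) fun k y => by
        rw [σ.κ_mul, ← mul_smul, o_mul, mul_assoc]
      have hf : f x = m := by simp [f]
      refine ⟨ract w f fun b => jr N.subtype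
        (c ⟨x⁻¹ * (n : Γ)⁻¹ * x⁻¹⁻¹, ‹N.Normal›.conj_mem _ (N.inv_mem n.2) _⟩ b), ?_⟩
      rw [bd_ract, jr_dS, hc, map_sub, map_one, jr_o, map_sub, conj_one, conj_o, sub_smul,
        one_smul, smul_assoc, Co.sub_apply, Co.zsmul_apply, Co.o_smul, ← hf, ← f.equiv]
      have : (w x : ℤ) * (w n * w x) = w n := by
        rw [mul_left_comm, ← Units.val_mul, Int.units_mul_self, Units.val_one, mul_one]
      simp [mul_assoc, this]
    · rintro _ _ _ _ ⟨u, rfl⟩ ⟨u', rfl⟩
      exact ⟨u + u', by simp⟩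
    · rintro _ _ ⟨u, rfl⟩
      exact ⟨-u, by simp⟩
  choose u0 hu0 using hloc
  let u : ι → β → Co N.subtype P := fun i b =>
    Co.mk (fun x => u0 i ((σ.κ x : Γ)⁻¹ * x) b x) fun k x => by
      rw [σ.κ_mul, Co.equiv]
      simp [mul_assoc]
  have hu : ∀ i, d (u i) () = z i := fun i => Co.ext fun x => by
    have h1 := hd (u i - u0 i ((σ.κ x : Γ)⁻¹ * x)) x (fun b => sub_self _) ()
    rw [map_sub, Pi.sub_apply, Co.sub_apply, sub_eq_zero] at h1
    have h2 := (d (u0 i ((σ.κ x : Γ)⁻¹ * x)) ()).equiv (σ.κ x) ((σ.κ x : Γ)⁻¹ * x)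
    rw [hu0, ← Co.equiv, Subgroup.coe_subtype, mul_inv_cancel_left] at h2
    rw [h1, h2]
  obtain ⟨Ω, hΩ, hΩ'⟩ := push N.subtype (by rwa [Subgroup.range_subtype]) T hT hT'
    (fun a => cact (tc w (C a))) (fun a f x h b => by
      rw [cact_apply, Co.sum_apply]
      exact Finset.sum_eq_zero fun b' _ => conj_loc w a _ _ x (h b')) d hd
    (fun a f h => funext fun _ => by rw [hdτ, h]; exact smul_zero _)
    (∑ i, (cact (tc w (C (s i))) (u i) - u i)) (funext fun _ => by
      rw [map_sum, Finset.sum_apply]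
      refine Eq.trans (Finset.sum_congr rfl fun i _ => ?_) hz
      rw [map_sub, Pi.sub_apply, hdτ, hu, map_sub, conj_one, sub_smul, one_smul])
  have h1 : cact (tc w Pm) (∑ i, (cact (tc w (C (s i))) (u i) - u i)) ∈ Bd _ w s := by
    rw [hΩ', map_sum]
    refine AddSubgroup.sum_mem _ fun a _ => ?_
    have := hrel a _ (hq a) (Ω a)
    rw [hΩ] at this
    rw [← neg_sub, map_neg]
    refine AddSubgroup.neg_mem _ ?_
    convert this using 1
    funext i
    simp [ract]
  have h2 := AddSubgroup.sub_mem _ h1 (AddSubgroup.sum_mem (t := Finset.univ) _ fun i _ =>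
    hrel (s i) (Pi.single i 1) (by rw [dS_single, one_mul]) (u i))
  convert h2 using 1
  rw [map_sum, Finset.sum_sub_distrib, sub_sub_cancel]
  funext i
  rw [Finset.sum_apply, Finset.sum_eq_single i]
  · simp [ract, hu, conj_one]
  · intro b _ hb
    simp [ract, Pi.single_eq_of_ne' hb]
  · simp

end

end Pool.Agent.P.MP_5ee5b4_al
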