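import Pool.Agent.P.MP_5ee5b4_al.Coc

/-! Lifting through finite groups of prime power order and free subgroups. -/

namespace Pool.Agent.P.MP_5ee5b4_al

open Matrix MatrixGroups CongruenceSubgroup

variable {K P P' : Type} [Group K] [Group P] [Group P'] {p : ℕ} [hp : Fact p.Prime]

theorem exists_zmod_hom (z : P) (ho : orderOf z = p) : ∃ e : ZMod p → P,
    (∀ a b, e (a + b) = e a * e b) ∧ (∀ n : ℤ, e n = z ^ n) ∧ Function.Injective e := by
  let f : {f : ℤ →+ Additive P // f p = 0} := ⟨zmultiplesHom _ (Additive.ofMul z), by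
    change z ^ (p : ℤ) = 1
    rw [zpow_natCast, ← ho, pow_orderOf_eq_one]⟩
  refine ⟨fun a => Additive.toMul (ZMod.lift p f a), fun a b => congrArg Additive.toMul (map_add _ a b),
    fun n => congrArg Additive.toMul (ZMod.lift_coe p f n), 
    Additive.toMul.injective.comp ((ZMod.lift_injective p (f := f)).2 fun m hm => ?_)⟩
  rw [ZMod.intCast_zmod_eq_zero_iff_dvd, ← ho]
  exact orderOf_dvd_iff_zpow_eq_one.2 hm

theorem CL.lift (h : CL K) (π : P →* P') (hπ : Function.Surjective π) (z : P)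
    (hz : ∀ x, x * z = z * x) (ho : orderOf z = p) (hk : ∀ x, π x = 1 ↔ x ∈ Subgroup.zpowers z)
    (θ : K →* P') : ∃ θ' : K →* P, ∀ k, π (θ' k) = θ k := by
  obtain ⟨e, e1, e2, e3⟩ := exists_zmod_hom z ho
  have e4 : ∀ a x, x * e a = e a * x := fun a x => by
    obtain ⟨n, rfl⟩ := ZMod.intCast_surjective a
    rw [e2]
    exact ((show Commute x z from hz x).zpow_right n).eq
  have e5 : ∀ a, π (e a) = 1 := fun a => by
    obtain ⟨n, rfl⟩ := ZMod.intCast_surjective a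
    exact (hk _).2 ⟨n, (e2 n).symm⟩
  choose s hs using fun k => hπ (θ k)
  have h1 : ∀ k l, ∃ a, s k * s l = e a * s (k * l) := fun k l => by
    obtain ⟨n, hn⟩ := (hk (s k * s l * (s (k * l))⁻¹)).1 (by simp [hs])
    exact ⟨n, by rw [e2, show z ^ n = _ from hn, inv_mul_cancel_right]⟩
  choose c hc using h1
  obtain ⟨b, hb⟩ := h p c fun k l m => e3 (mul_right_cancel (b := s (k * l * m)) (by
    calc e (c k l + c (k * l) m) * s (k * l * m) = s k * s l * s m := by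
          rw [e1, mul_assoc, ← hc, ← mul_assoc, ← hc]
      _ = e (c l m) * (s k * s (l * m)) := by
          rw [mul_assoc, hc l m, ← mul_assoc, e4, mul_assoc]
      _ = _ := by rw [hc, add_comm, e1, mul_assoc, mul_assoc]))
  refine ⟨MonoidHom.mk' (fun k => e (-b k) * s k) fun k l => ?_, fun k => ?_⟩
  · calc e (-b (k * l)) * s (k * l) = e (-b k) * e (-b l) * (s k * s l) := by
          rw [hc, hb, ← mul_assoc, ← e1, ← e1]
          congr 2
          ring
      _ = _ := by rw [mul_assoc, ← mul_assoc (e (-b l)), ← e4 _ (s k), mul_assoc, mul_assoc]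
  · change π (e (-b k) * s k) = _
    rw [map_mul, e5, hs, one_mul]

theorem CL.pair (h : CL K) (a b : K) (χ ψ : K → ZMod p) (hχ : IsHom χ) (hψ : IsHom ψ)
    (h1 : χ a = 1) (h2 : χ b = 0) (h3 : ψ a = 0) (h4 : ψ b = 1) (P : Type) [Group P] [Finite P]
    (hP : IsPGroup p P) (x y : P) : ∃ θ : K →* P, θ a = x ∧ θ b = y := by
  induction hn : Nat.card P using Nat.strong_induction_on generalizing P with
  | _ n ih =>
  rcases subsingleton_or_nontrivial P with hs | hs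
  · exact ⟨1, Subsingleton.elim _ _, Subsingleton.elim _ _⟩
  have := hP.center_nontrivial
  obtain ⟨z, ho⟩ := exists_prime_orderOf_dvd_card' (G := Subgroup.center P) p
    (((hP.to_subgroup _).card_eq_or_dvd).resolve_left Finite.one_lt_card.ne')
  have hz : ∀ x : P, x * z = z * x := Subgroup.mem_center_iff.1 z.2
  rw [← Subgroup.orderOf_coe] at ho
  have : (Subgroup.zpowers (z : P)).Normal := ⟨fun u hu g => by
    obtain ⟨n, rfl⟩ := hu
    exact ⟨n, by rw [((show Commute g z from hz g).zpow_right n).eq, mul_inv_cancel_right]⟩⟩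
  obtain ⟨θ, h5, h6⟩ := ih _ (by
    rw [← hn, Subgroup.card_eq_card_quotient_mul_card_subgroup (Subgroup.zpowers (z : P)),
      Nat.card_zpowers, ho]
    exact lt_mul_of_one_lt_right Nat.card_pos hp.out.one_lt) (P ⧸ Subgroup.zpowers (z : P))
    (hP.to_quotient _) x y rfl
  obtain ⟨θ', h7⟩ := h.lift (QuotientGroup.mk' _) (QuotientGroup.mk'_surjective _) (z : P) hz ho
    (fun x => QuotientGroup.eq_one_iff x) θ
  obtain ⟨e, e1, e2, -⟩ := exists_zmod_hom (z : P) ho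
  have e4 : ∀ a x, x * e a = e a * x := fun a x => by
    obtain ⟨n, rfl⟩ := ZMod.intCast_surjective a
    rw [e2]
    exact ((show Commute x z from hz x).zpow_right n).eq
  obtain ⟨i, hi⟩ := QuotientGroup.eq.1 ((h7 a).trans h5)
  obtain ⟨j, hj⟩ := QuotientGroup.eq.1 ((h7 b).trans h6)
  refine ⟨MonoidHom.mk' (fun k => θ' k * e (i * χ k + j * ψ k)) fun k l => ?_, ?_, ?_⟩
  · rw [hχ, hψ, map_mul, mul_assoc, mul_assoc, ← mul_assoc (e _), ← e4 _ (θ' l), mul_assoc, ← e1]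
    congr 3
    ring
  · change θ' a * e (i * χ a + j * ψ a) = x
    rw [h1, h3, mul_one, mul_zero, add_zero, e2, show (z : P) ^ i = _ from hi, mul_inv_cancel_left]
  · change θ' b * e (i * χ b + j * ψ b) = y
    rw [h2, h4, mul_one, mul_zero, zero_add, e2, show (z : P) ^ j = _ from hj, mul_inv_cancel_left]

/-- upper unitriangular matrices -/
def sA (c : ℤ) : SL(2, ℤ) := ⟨!![1, c; 0, 1], by simp [det_fin_two]⟩

/-- lower unitriangular matrices -/
def sB (c : ℤ) : SL(2, ℤ) := ⟨!![1, 0; c, 1], by simp [det_fin_two]⟩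

theorem sA_pow (c : ℤ) (n : ℕ) : sA c ^ n = sA (n * c) := by
  induction n with
  | zero => ext i j; fin_cases i <;> fin_cases j <;> simp [sA]
  | succ n ih => rw [pow_succ, ih]; ext i j; fin_cases i <;> fin_cases j <;> simp [sA]; ring

theorem sB_pow (c : ℤ) (n : ℕ) : sB c ^ n = sB (n * c) := by
  induction n with
  | zero => ext i j; fin_cases i <;> fin_cases j <;> simp [sB]
  | succ n ih => rw [pow_succ, ih]; ext i j; fin_cases i <;> fin_cases j <;> simp [sB]; ring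

theorem sanov (c : ℤ) (hc : 4 ≤ c) : Function.Injective (FreeGroup.lift ![sA c, sB c]) := by
  let X : Fin 2 → Set SL(2, ℤ) := fun i => {g | c * g i.rev 0 ^ 2 ≤ 2 * (g 0 0 * g 1 0)}
  let Y : Fin 2 → Set SL(2, ℤ) := fun i => {g | 2 * (g 0 0 * g 1 0) < -(c * g i.rev 0 ^ 2)}
  have hXX : Disjoint (X 0) (X 1) := Set.disjoint_left.2 fun g h1 h2 => by
    have h3 := g.det_coe
    rw [det_fin_two] at h3
    change c * g 1 0 ^ 2 ≤ _ at h1
    change c * g 0 0 ^ 2 ≤ _ at h2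
    have h4 : g 0 0 = 0 := by nlinarith [sq_nonneg (g 0 0 - g 1 0), sq_nonneg (g 0 0), sq_nonneg (g 1 0)]
    have h5 : g 1 0 = 0 := by nlinarith [sq_nonneg (g 0 0 - g 1 0), sq_nonneg (g 0 0), sq_nonneg (g 1 0)]
    simp [h4, h5] at h3
  have hYY : Disjoint (Y 0) (Y 1) := Set.disjoint_left.2 fun g h1 h2 => by
    change _ < -(c * g 1 0 ^ 2) at h1
    change _ < -(c * g 0 0 ^ 2) at h2
    nlinarith [sq_nonneg (g 0 0 + g 1 0), sq_nonneg (g 0 0), sq_nonneg (g 1 0)]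
  have hA : ∀ d (g : SL(2, ℤ)), (sA d * g) 0 0 = g 0 0 + d * g 1 0 ∧ (sA d * g) 1 0 = g 1 0 :=
    fun d g => by simp [sA, Matrix.mul_apply, Fin.sum_univ_two]
  have hB : ∀ d (g : SL(2, ℤ)), (sB d * g) 0 0 = g 0 0 ∧ (sB d * g) 1 0 = d * g 0 0 + g 1 0 :=
    fun d g => by simp [sB, Matrix.mul_apply, Fin.sum_univ_two]
  have hA' : (sA c)⁻¹ = sA (-c) := by
    rw [inv_eq_iff_mul_eq_one]; ext i j; fin_cases i <;> fin_cases j <;> simp [sA]
  have hB' : (sB c)⁻¹ = sB (-c) := by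
    rw [inv_eq_iff_mul_eq_one]; ext i j; fin_cases i <;> fin_cases j <;> simp [sB]
  refine FreeGroup.injective_lift_of_ping_pong _ X Y (fun i => ?_) ?_ ?_ (fun i j => ?_)
    (fun i => ?_) (fun i => ?_)
  · fin_cases i
    · exact ⟨1, by simp [X]⟩
    · exact ⟨⟨!![0, -1; 1, 0], by simp [det_fin_two]⟩, by simp [X]⟩
  · intro i j hij
    fin_cases i <;> fin_cases j
    · exact absurd rfl hij
    · exact hXX
    · exact hXX.symm
    · exact absurd rfl hij
  · intro i j hij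
    fin_cases i <;> fin_cases j
    · exact absurd rfl hij
    · exact hYY
    · exact hYY.symm
    · exact absurd rfl hij
  · refine Set.disjoint_left.2 fun g h1 h2 => ?_
    simp only [X, Y, Set.mem_ofPred_eq] at h1 h2
    nlinarith [sq_nonneg (g i.rev 0), sq_nonneg (g j.rev 0)]
  · rintro _ ⟨g, hg, rfl⟩
    fin_cases i
    · change ¬ _ < -(c * g 1 0 ^ 2) at hg
      change c * (sA c * g) 1 0 ^ 2 ≤ 2 * ((sA c * g) 0 0 * (sA c * g) 1 0)
      rw [(hA c g).1, (hA c g).2]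
      nlinarith
    · change ¬ _ < -(c * g 0 0 ^ 2) at hg
      change c * (sB c * g) 0 0 ^ 2 ≤ 2 * ((sB c * g) 0 0 * (sB c * g) 1 0)
      rw [(hB c g).1, (hB c g).2]
      nlinarith
  · rintro _ ⟨g, hg, rfl⟩
    fin_cases i
    · change ¬ c * g 1 0 ^ 2 ≤ _ at hg
      change 2 * (((sA c)⁻¹ * g) 0 0 * ((sA c)⁻¹ * g) 1 0) < -(c * ((sA c)⁻¹ * g) 1 0 ^ 2)
      rw [hA', (hA _ g).1, (hA _ g).2]
      nlinarith
    · change ¬ c * g 0 0 ^ 2 ≤ _ at hg
      change 2 * (((sB c)⁻¹ * g) 0 0 * ((sB c)⁻¹ * g) 1 0) < -(c * ((sB c)⁻¹ * g) 0 0 ^ 2)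
      rw [hB', (hB _ g).1, (hB _ g).2]
      nlinarith

theorem mem_Gamma_iff {n : ℕ} {g : SL(2, ℤ)} :
    g ∈ Gamma n ↔ ∀ i j, (n : ℤ) ∣ (g.1 - 1 : Matrix (Fin 2) (Fin 2) ℤ) i j := by
  simp only [Gamma_mem, Fin.forall_fin_two, ← ZMod.intCast_zmod_eq_zero_iff_dvd]
  simp [sub_eq_zero, and_assoc]

theorem pow_mem_Gamma {g : SL(2, ℤ)} (hg : g ∈ Gamma 2) (m : ℕ) : g ^ 2 ^ m ∈ Gamma (2 ^ (m + 1)) := by
  induction m with
  | zero => simpa using hg
  | succ m ih =>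
    rw [pow_succ 2 m, pow_mul] at *
    generalize g ^ 2 ^ m = u at ih
    rw [mem_Gamma_iff] at *
    choose Z hZ using ih
    have h1 : u.1 = 1 + ((2 ^ m * 2 : ℕ) : ℤ) • Matrix.of Z := by
      rw [← sub_eq_iff_eq_add']
      ext i j
      exact hZ i j
    intro i j
    refine ⟨(Matrix.of Z + (2 ^ m : ℤ) • (Matrix.of Z * Matrix.of Z)) i j, ?_⟩
    rw [← smul_eq_mul, ← Matrix.smul_apply]
    refine congrFun (congrFun ?_ i) j
    change (u ^ 2).1 - 1 = _
    rw [sq, show (u * u).1 = u.1 * u.1 from rfl, h1]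
    simp only [mul_add, add_mul, mul_one, one_mul, Matrix.mul_smul, Matrix.smul_mul]
    push_cast
    module

theorem CL.not_pair (h : CL K) (hN : NF (⊤ : Subgroup K)) (a b : K) (χ ψ : K → ZMod 2)
    (hχ : IsHom χ) (hψ : IsHom ψ) (h1 : χ a = 1) (h2 : χ b = 0) (h3 : ψ a = 0) (h4 : ψ b = 1) :
    False := by
  obtain ⟨k, hk, hk'⟩ := hN a trivial b trivial 1
  refine hk' ((injective_iff_map_eq_one _).2 fun u hu => ?_)
  refine (injective_iff_map_eq_one _).1 (sanov (((2 * k : ℕ) : ℤ) * 2) (by omega)) u ?_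
  let A : Gamma 2 := ⟨sA 2, by simp [Gamma_mem, sA]; rfl⟩
  let B : Gamma 2 := ⟨sB 2, by simp [Gamma_mem, sB]; rfl⟩
  have h5 : FreeGroup.lift ![sA (((2 * k : ℕ) : ℤ) * 2), sB (((2 * k : ℕ) : ℤ) * 2)] =
      (Gamma 2).subtype.comp (FreeGroup.lift ![A ^ (2 * k), B ^ (2 * k)]) :=
    FreeGroup.ext_hom _ _ fun i => by fin_cases i <;> simp [A, B, sA_pow, sB_pow]
  rw [h5]
  set g := FreeGroup.lift ![A ^ (2 * k), B ^ (2 * k)] u with hg
  have h6 : ∀ m : ℕ, (g : SL(2, ℤ)) ∈ Gamma (2 ^ (m + 1)) := fun m => by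
    have := Gamma_normal (2 ^ (m + 1))
    let L := (Gamma (2 ^ (m + 1))).subgroupOf (Gamma 2)
    obtain ⟨θ, h7, h8⟩ := h.pair a b χ ψ hχ hψ h1 h2 h3 h4 (Gamma 2 ⧸ L) (fun x => ⟨m, by
      obtain ⟨x, rfl⟩ := QuotientGroup.mk_surjective x
      exact (QuotientGroup.eq_one_iff (x ^ 2 ^ m)).2 (pow_mem_Gamma x.2 m)⟩) A B
    have h9 : (QuotientGroup.mk' L).comp (FreeGroup.lift ![A ^ (2 * k), B ^ (2 * k)]) =
        θ.comp (FreeGroup.lift ![a ^ (2 * k), b ^ (2 * k)]) :=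
      FreeGroup.ext_hom _ _ fun i => by fin_cases i <;> simp [h7, h8]
    have h10 := DFunLike.congr_fun h9 u
    rw [MonoidHom.comp_apply, MonoidHom.comp_apply, hu, map_one] at h10
    exact (QuotientGroup.eq_one_iff g).1 h10
  refine Subtype.ext (sub_eq_zero.1 (Matrix.ext fun i j => ?_))
  have h7 := mem_Gamma_iff.1 (h6 ((g.1.1 - 1 : Matrix (Fin 2) (Fin 2) ℤ) i j).natAbs) i j
  refine Int.eq_zero_of_dvd_of_natAbs_lt_natAbs h7 ?_
  rw [Int.natAbs_natCast]
  exact (Nat.lt_succ_self _).trans Nat.lt_two_pow_self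

end Pool.Agent.P.MP_5ee5b4_al
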