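import Pool.Agent.P.MP_5ee5b4_al.Van

/-! The finitely generated fibre has two-dimensional duality data. -/

namespace Pool.Agent.P.MP_5ee5b4_al

open Pool.Agent.P.MP_6e40fc_al Matrix
open scoped MonoidAlgebra

noncomputable section

set_option linter.unusedSectionVars false

/-- two-dimensional duality data -/
def PD2 (H : Type) [Group H] : Prop :=
  ∃ w : H →* ℤˣ, ∀ (ι : Type) [Fintype ι] (s : ι → H), Subgroup.closure (Set.range s) = ⊤ →
    ∃ (θ : LinearMap.ker (dS s) →ₗ[ℤ[H]] ℤ[H]) (m0 : LinearMap.ker (dS s))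
      (g : (ι → ℤ[H]) →ₗ[ℤ[H]] LinearMap.ker (dS s)), (∀ k, k = θ k • m0 + g k) ∧
      ∀ h, ∃ G : (ι → ℤ[H]) →ₗ[ℤ[H]] ℤ[H], ∀ k, θ k * ((w h : ℤ) • o h - 1) = G k

variable {K Γ : Type} [Group K] [Group Γ] {j : K →* Γ} {M : Type} [AddCommGroup M] [Module ℤ[K] M]
  {χ : Γ →* Multiplicative ℤ}

variable (j χ) in
/-- a splitting over the integers -/
structure Fib where
  t : Γ
  ht : lv χ t = 1
  inj : Function.Injective j
  hj : ∀ k, lv χ (j k) = 0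
  κ : Γ → K
  hκ : ∀ x, j (κ x) * t ^ lv χ x = x

namespace Fib

variable (F : Fib j χ)

theorem κ_mul (k : K) (x : Γ) : F.κ (j k * x) = k * F.κ x := F.inj (by
  have h1 := F.hκ (j k * x)
  have h2 := F.hκ x
  rw [lv_mul, F.hj, zero_add] at h1
  rw [map_mul, eq_mul_inv_of_mul_eq h1, eq_mul_inv_of_mul_eq h2, mul_assoc])

theorem κ_mul_t (x : Γ) : F.κ (x * F.t) = F.κ x := F.inj (by
  have h1 := F.hκ (x * F.t)
  have h2 := F.hκ x
  rw [lv_mul, F.ht] at h1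
  rw [eq_mul_inv_of_mul_eq h1, eq_mul_inv_of_mul_eq h2]
  group)

theorem κ_one : F.κ 1 = 1 := F.inj (by simpa using F.hκ 1)

/-- the retraction -/
def sec : Sec j := ⟨F.κ, F.κ_mul, F.κ_one⟩

variable (w : Γ →* ℤˣ)

/-- the invariant extension of an element -/
def ρ (m : M) : Co j M :=
  Co.mk (fun x => (w (F.t ^ lv χ x) : ℤ) • o (F.κ x) • m) fun k x => by
    rw [lv_mul, F.hj, zero_add, F.κ_mul, ← o_mul, mul_smul, smul_comm]

/-- the extension by zero of an element -/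
def δ : M →+ Co j M where
  toFun m := Co.mk (fun x => if lv χ x = 0 then o (F.κ x) • m else 0) fun k x => by
    rw [lv_mul, F.hj, zero_add, F.κ_mul, ← o_mul, mul_smul]
    split_ifs <;> simp
  map_zero' := Co.ext fun x => by simp
  map_add' a b := Co.ext fun x => by
    simp only [Co.mk_apply, Co.add_apply]
    split_ifs <;> simp

theorem δ_apply (m : M) (x : Γ) : F.δ m x = if lv χ x = 0 then o (F.κ x) • m else 0 := rfl

theorem tw_smul (g : Γ) (f : Co j M) (x : Γ) :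
    ((((w g : ℤ) • o g - 1 : ℤ[Γ])) • f) x = (w g : ℤ) • f (x * g) - f x := by
  rw [sub_smul, one_smul, smul_assoc, Co.sub_apply, Co.zsmul_apply, Co.o_smul]

theorem ρ_t (m : M) (x : Γ) : (w F.t : ℤ) • F.ρ w m (x * F.t) = F.ρ w m x := by
  simp only [ρ, Co.mk_apply]
  rw [lv_mul, F.ht, F.κ_mul_t, smul_smul, _root_.zpow_add_one, map_mul, Units.val_mul, mul_left_comm,
    ← Units.val_mul, Int.units_mul_self, Units.val_one, mul_one]

theorem tw_ρ (m : M) : ((w F.t : ℤ) • o F.t - 1 : ℤ[Γ]) • F.ρ w m = 0 :=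
  Co.ext fun x => by rw [tw_smul, ρ_t, sub_self, Co.zero_apply]

theorem tw_cut_ρ (m : M) :
    ((w F.t : ℤ) • o F.t - 1 : ℤ[Γ]) • cut F.hj (0 < ·) (F.ρ w m) = F.δ m :=
  Co.ext fun x => by
    rw [tw_smul, cut_apply, cut_apply, lv_mul, F.ht, δ_apply]
    rcases lt_trichotomy (lv χ x) 0 with h | h | h
    · rw [if_neg (by omega), if_neg (by omega), if_neg (by omega), smul_zero, sub_zero]
    · rw [if_pos (by omega), if_neg (by omega), if_pos h, ρ_t, sub_zero]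
      simp [ρ, h]
    · rw [if_pos (by omega), if_pos h, if_neg (by omega), ρ_t, sub_self]

theorem δ_mem (m : M) : F.δ m ∈ Vb j M χ ⊓ Vb j M χ⁻¹ :=
  ⟨⟨0, fun x hx => by rw [δ_apply, if_neg (by omega)]⟩,
    ⟨0, fun x hx => by rw [lv_inv_hom] at hx; rw [δ_apply, if_neg (by omega)]⟩⟩

theorem cut_eq (f : Co j M) (i : ℤ) : cut F.hj (· = i) f = o (F.t ^ (-i)) • F.δ (f (F.t ^ i)) :=
  Co.ext fun x => by
    rw [cut_apply, Co.o_smul, δ_apply, lv_mul, lv_zpow, F.ht, ← f.equiv]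
    refine if_ctx_congr (by omega) (fun h => ?_) fun _ => rfl
    have := F.hκ (x * F.t ^ (-i))
    rw [lv_mul, lv_zpow, F.ht, h, zpow_zero, mul_one] at this
    rw [this]
    simp

theorem δ_tw (h : K) : F.δ ((w (j h) : ℤ) • o h - 1 : ℤ[K]) =
    ((w (j h) : ℤ) • o (j h) - 1 : ℤ[Γ]) • F.δ (1 : ℤ[K]) :=
  Co.ext fun x => by
    rw [tw_smul, δ_apply, δ_apply, δ_apply, lv_mul, F.hj, add_zero]
    split_ifs with hx
    · have h1 := F.hκ x
      have h2 := F.hκ (x * j h)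
      rw [hx, zpow_zero, mul_one] at h1
      rw [lv_mul, F.hj, hx, add_zero, zpow_zero, mul_one] at h2
      have h3 : F.κ (x * j h) = F.κ x * h := F.inj (by rw [map_mul, h1, h2])
      rw [h3]
      simp only [smul_eq_mul, mul_sub, mul_one, mul_smul_comm, o_mul]
    · simp

theorem ρ_nat (m : M) (r : ℤ[Γ]) (x : Γ) : (r • F.ρ w m) x = (r • F.ρ w (1 : ℤ[K])) x • m := by
  have : F.ρ w m = Co.map j (LinearMap.toSpanSingleton ℤ[K] M m) (F.ρ w 1) := Co.ext fun x => by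
    simp only [ρ, Co.mk_apply, Co.map_apply, LinearMap.toSpanSingleton_apply, smul_assoc, one_smul]
  rw [this, ← map_smul, Co.map_apply, LinearMap.toSpanSingleton_apply]

end Fib

/-- pairing with a column, times a fixed element -/
def dotL {R A n : Type} [Ring R] [AddCommGroup A] [Module R A] [Fintype n] (z : n → R) (f : A) :
    (n → R) →ₗ[R] A := Fintype.linearCombination R fun i => z i • f

theorem dotL_apply {R A n : Type} [Ring R] [AddCommGroup A] [Module R A] [Fintype n] (z : n → R)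
    (f : A) (v : n → R) : dotL z f v = (v ⬝ᵥ z) • f := by
  simp [dotL, Fintype.linearCombination_apply, dotProduct, Finset.sum_smul, mul_smul]

variable {n0 n1 n2 m0 : Type} [Fintype n0] [Fintype n1] [Fintype n2] [Fintype m0]
  [DecidableEq n0] [DecidableEq n1] [DecidableEq n2] [DecidableEq m0]

theorem dual_data (P' : PRes Γ m0 n2 n1) (w : Γ →* ℤˣ) :
    ∃ y0 : m0 → ℤ[Γ], (∀ g, ∃ z : n2 → ℤ[Γ], ∀ v, (v ᵥ* tc w P'.d1) ⬝ᵥ z =
      (v ⬝ᵥ y0) * ((w g : ℤ) • o g - 1)) ∧ ∃ (lam : m0 → ℤ[Γ]) (Z : Matrix n2 m0 ℤ[Γ]),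
      ∀ v, v ᵥ* tc w P'.d1 = (v ⬝ᵥ y0) • (lam ᵥ* tc w P'.d1) +
        ((v ᵥ* tc w P'.d1) ᵥ* Z) ᵥ* tc w P'.d1 := by
  obtain ⟨p, hp, hp1⟩ := P'.surj
  refine ⟨conj w ∘ p, fun g => ?_, ?_⟩
  · obtain ⟨y, hy⟩ := P'.ex_sub g⁻¹ hp
    refine ⟨conj w ∘ y, fun v => ?_⟩
    rw [← dotProduct_mulVec, ← conj_vecMul_tc, tc_tc, hy, dotProduct, dotProduct, Finset.sum_mul]
    refine Finset.sum_congr rfl fun i _ => ?_
    simp only [Function.comp_apply, Pi.smul_apply, smul_eq_mul, MP_6e40fc_al.conj_mul, map_sub, conj_o, conj_one,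
      map_inv, Int.units_inv_eq_self, inv_inv, mul_assoc]
  · choose y hy using fun i => P'.ex0 (P'.e0 i - (P'.ε (P'.e0 i) : ℤ[Γ]) • p)
      (by rw [sub_vecMul, smul_vecMul, hp, row_vecMul, P'.e0e0])
      (by rw [map_sub, P'.ε_smul, hp1, map_intCast]; simp)
    refine ⟨fun i => (P'.ε (P'.e0 i) : ℤ[Γ]), tc w (Matrix.of y), fun v => ?_⟩
    have h1 : tc w P'.e0 * tc w P'.d1 = tc w P'.d1 := by rw [tc_mul, P'.d1e0]
    rw [← smul_vecMul, ← add_vecMul, vecMul_vecMul v, tc_mul]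
    conv_lhs => rw [← h1, ← vecMul_vecMul]
    congr 1
    funext a
    have h2 : ∀ b, P'.e0 a b = (P'.ε (P'.e0 a)) • p b + (Matrix.of y * P'.d1) a b := fun b => by
      have := congrFun (hy a) b
      rw [Pi.sub_apply, Pi.smul_apply, smul_eq_mul, ← zsmul_eq_mul] at this
      rw [← row_vecMul]
      exact sub_eq_iff_eq_add'.1 this.symm
    simp only [vecMul, dotProduct, tc, transpose_apply, map_apply, Pi.add_apply, Pi.smul_apply,
      smul_eq_mul, Function.comp_apply, Finset.sum_mul, ← Finset.sum_add_distrib]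
    refine Finset.sum_congr rfl fun b _ => ?_
    rw [h2, map_add, map_zsmul, mul_add, mul_smul_comm, zsmul_eq_mul, Int.cast_comm]

theorem glue (F : Fib j χ) (P' : PRes Γ m0 n2 n1) (w : Γ →* ℤˣ) (h : AllPrinc (iota χ))
    (h' : AllPrinc (iota χ⁻¹)) (A B : (n2 → ℤ[Γ]) →ₗ[ℤ[Γ]] Co j M) (hA : ∀ y, A y ∈ Vb j M χ⁻¹)
    (hB : ∀ y, B y ∈ Vb j M χ) (hA0 : ∀ v, A (v ᵥ* tc w P'.d1) = 0)
    (hB0 : ∀ v, B (v ᵥ* tc w P'.d1) = 0) :
    ∃ η : (n1 → ℤ[Γ]) →ₗ[ℤ[Γ]] Co j M, ∀ y, (A + B) (y ᵥ* tc w P'.e1) = η (y ᵥ* tc w P'.d2) := by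
  obtain ⟨η, hη⟩ := vanish (χ := χ⁻¹) (fun k => by rw [lv_inv_hom, F.hj, neg_zero]) P' w
    (by rwa [inv_inv]) A hA hA0
  obtain ⟨η', hη'⟩ := vanish F.hj P' w h' B hB hB0
  exact ⟨η + η', fun y => by rw [LinearMap.add_apply, hη, hη', LinearMap.add_apply]⟩

theorem reduce (F : Fib j χ) (w : Γ →* ℤˣ) (D : Matrix m0 n2 ℤ[Γ]) (y0 : m0 → ℤ[Γ])
    (hz : ∀ g, ∃ z : n2 → ℤ[Γ], ∀ v, (v ᵥ* D) ⬝ᵥ z = (v ⬝ᵥ y0) * ((w g : ℤ) • o g - 1))
    (f : Co j M) (hf : f ∈ Vb j M χ ⊓ Vb j M χ⁻¹) :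
    ∃ (m : M) (η : (n2 → ℤ[Γ]) →ₗ[ℤ[Γ]] Co j M), (∀ y, η y ∈ Vb j M χ ⊓ Vb j M χ⁻¹) ∧
      ∀ v, (v ⬝ᵥ y0) • f = (v ⬝ᵥ y0) • F.δ m + η (v ᵥ* D) := by
  obtain ⟨⟨k, hk⟩, l, hl⟩ := hf
  have h1 : f = ∑ i ∈ Finset.Icc (-l) k, cut F.hj (· = i) f := Co.ext fun x => by
    rw [Co.sum_apply]
    simp only [cut_apply, Finset.sum_ite_eq, Finset.mem_Icc]
    split_ifs with h
    · rfl
    · by_cases h2 : k < lv χ x
      · exact hk x h2
      · exact hl x (by rw [lv_inv_hom]; omega)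
  rw [h1]
  induction Finset.Icc (-l) k using Finset.induction_on with
  | empty => exact ⟨0, 0, fun _ => Submodule.zero_mem _, fun v => by simp⟩
  | insert i s hi ih =>
    obtain ⟨m, η, h2, h3⟩ := ih
    obtain ⟨z, hz⟩ := hz (F.t ^ (-i))
    refine ⟨(w (F.t ^ (-i)) : ℤ) • f (F.t ^ i) + m,
      dotL z (F.δ ((w (F.t ^ (-i)) : ℤ) • f (F.t ^ i))) + η,
      fun y => Submodule.add_mem _ ?_ (h2 y), fun v => ?_⟩
    · rw [dotL_apply]
      exact Submodule.smul_mem _ _ (F.δ_mem _)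
    · rw [Finset.sum_insert hi, smul_add, h3, F.cut_eq, LinearMap.add_apply, dotL_apply, hz,
        map_add, smul_add, mul_smul, sub_smul, one_smul, smul_sub, map_zsmul, smul_assoc,
        smul_comm (o _) (w _ : ℤ), smul_smul (w _ : ℤ), ← Units.val_mul, Int.units_mul_self,
        Units.val_one, one_smul]
      abel

theorem pd2 (F : Fib j χ) (P : PRes Γ n0 n1 n2) (P' : PRes Γ m0 n2 n1) (w : Γ →* ℤˣ)
    (hP : P'.d2 = tc w P.d2)
    (ex2 : ∀ y, y ᵥ* P.d2 = 0 → ∃ z, z ᵥ* tc w P'.d1 = y ᵥ* tc w P'.e1)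
    (h : AllPrinc (iota χ)) (h' : AllPrinc (iota χ⁻¹)) : PD2 K := by
  classical
  refine ⟨w.comp j, fun ι _ s hs => ?_⟩
  obtain ⟨y0, hz, lam, Z, hZ⟩ := dual_data P' w
  obtain ⟨zt, hzt⟩ := hz F.t
  obtain ⟨B, α, γ, c1, c2, c3, c4⟩ := compare P F.sec hs
  have hd2 : tc w P'.d2 = P.d2 := by rw [hP, tc_tc]
  have hed : tc w P'.e1 * P.d2 = P.d2 := by rw [← hd2, tc_mul, P'.d2e1]
  have hdd : tc w P'.d1 * P.d2 = 0 := by
    rw [← hd2, tc_mul, P'.d2d1]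
    ext1 a b
    exact map_zero (conj w)
  have hcut : ∀ (M : Type) [AddCommGroup M] [Module ℤ[K] M] (f : Co j M),
      cut F.hj (0 < ·) f ∈ Vb j M χ⁻¹ ∧ f - cut F.hj (0 < ·) f ∈ Vb j M χ := fun M _ _ f =>
    ⟨⟨0, fun x hx => by rw [lv_inv_hom] at hx; rw [cut_apply, if_neg (by omega)]⟩,
      ⟨0, fun x hx => by rw [Co.sub_apply, cut_apply, if_pos hx, sub_self]⟩⟩
  have main : ∀ (M : Type) [AddCommGroup M] [Module ℤ[K] M]
      (A A' η : (n2 → ℤ[Γ]) →ₗ[ℤ[Γ]] Co j M) (m : M), (∀ y, A y ∈ Vb j M χ⁻¹) →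
      (∀ y, A' y ∈ Vb j M χ) → (∀ y, η y ∈ Vb j M χ ⊓ Vb j M χ⁻¹) →
      (∀ v, (A + A') (v ᵥ* tc w P'.d1) = 0) →
      (∀ v, A (v ᵥ* tc w P'.d1) = (v ⬝ᵥ y0) • F.δ m + η (v ᵥ* tc w P'.d1)) →
      ∃ η' : (n1 → ℤ[Γ]) →ₗ[ℤ[Γ]] Co j M, ∀ y, (A + A') (y ᵥ* tc w P'.e1) =
        ((y ᵥ* tc w P'.e1) ⬝ᵥ zt) • F.ρ w m + η' (y ᵥ* P.d2) := by
    intro M _ _ A A' η m h1 h2 h3 h4 h5
    obtain ⟨η', hη'⟩ := glue F P' w h h' (A - η - dotL zt (cut F.hj (0 < ·) (F.ρ w m)))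
      (A' + η - dotL zt (F.ρ w m - cut F.hj (0 < ·) (F.ρ w m)))
      (fun y => by
        rw [LinearMap.sub_apply, LinearMap.sub_apply, dotL_apply]
        exact Submodule.sub_mem _ (Submodule.sub_mem _ (h1 y) (h3 y).2)
          (Submodule.smul_mem _ _ (hcut M _).1))
      (fun y => by
        rw [LinearMap.sub_apply, LinearMap.add_apply, dotL_apply]
        exact Submodule.sub_mem _ (Submodule.add_mem _ (h2 y) (h3 y).1)
          (Submodule.smul_mem _ _ (hcut M _).2))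
      (fun v => by
        rw [LinearMap.sub_apply, LinearMap.sub_apply, dotL_apply, hzt, mul_smul, F.tw_cut_ρ, h5]
        abel)
      (fun v => by
        have := h4 v
        rw [LinearMap.add_apply, h5] at this
        rw [LinearMap.sub_apply, LinearMap.add_apply, dotL_apply, hzt, mul_smul, smul_sub,
          F.tw_cut_ρ, F.tw_ρ, zero_sub, smul_neg, ← this]
        abel)
    refine ⟨η', fun y => ?_⟩
    rw [← hd2, ← hη']
    simp only [LinearMap.add_apply, LinearMap.sub_apply, dotL_apply, smul_sub]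
    abel
  obtain ⟨ξ, hξ⟩ := F.sec.liftLin (LinearMap.ker (dS s)).subtype (α ∘ₗ P.d2.vecMulLinear)
    fun y x => ⟨⟨_, c3 _ x (by rw [vecMulLinear_apply, vecMul_vecMul, P.d2d1, vecMul_zero])⟩, rfl⟩
  have hξ' : ∀ y x, (ξ y x : ι → ℤ[K]) = α (y ᵥ* P.d2) x := hξ
  let A := Fintype.linearCombination ℤ[Γ] fun i => cut F.hj (0 < ·) (ξ (Pi.single i 1))
  have hA : ∀ y, A y ∈ Vb j _ χ⁻¹ := fun y => by
    rw [Fintype.linearCombination_apply]
    exact Submodule.sum_mem _ fun i _ => Submodule.smul_mem _ _ (hcut _ _).1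
  have hA' : ∀ y, (ξ - A) y ∈ Vb j _ χ := fun y => by
    rw [lin_apply]
    refine Submodule.sum_mem _ fun i _ => Submodule.smul_mem _ _ ?_
    rw [LinearMap.sub_apply, lc_single]
    exact (hcut _ _).2
  have hξ0 : ∀ v, ξ (v ᵥ* tc w P'.d1) = 0 := fun v => Co.ext fun x => Subtype.ext (by
    rw [hξ', vecMul_vecMul, hdd, vecMul_zero, map_zero]; rfl)
  have hAb : ∀ v, A (v ᵥ* tc w P'.d1) ∈ Vb j _ χ ⊓ Vb j _ χ⁻¹ := fun v => ⟨by
    have := Submodule.neg_mem _ (hA' (v ᵥ* tc w P'.d1))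
    rwa [LinearMap.sub_apply, hξ0, zero_sub, neg_neg] at this, hA _⟩
  obtain ⟨m0, η0, h1, h2⟩ := reduce F w _ y0 hz _ (hAb lam)
  obtain ⟨η, hη⟩ := main _ A (ξ - A)
    (η0 + A ∘ₗ (tc w P'.d1).vecMulLinear ∘ₗ Z.vecMulLinear) m0 hA hA'
    (fun y => Submodule.add_mem _ (h1 y) (hAb _))
    (fun v => by rw [add_sub_cancel, hξ0])
    (fun v => by
      conv_lhs => rw [hZ v, map_add, map_smul, h2]
      rw [LinearMap.add_apply, add_assoc]
      rfl)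
  rw [add_sub_cancel] at hη
  let T : (n2 → ℤ[Γ]) →ₗ[ℤ[Γ]] Co j ℤ[K] := dotL zt (F.ρ w 1) ∘ₗ (tc w P'.e1).vecMulLinear
  have hT : ∀ y, T y = ((y ᵥ* tc w P'.e1) ⬝ᵥ zt) • F.ρ w 1 := fun y => dotL_apply _ _ _
  have hT0 : ∀ y y', y ᵥ* P.d2 = y' ᵥ* P.d2 → T y = T y' := fun y y' e => by
    obtain ⟨z, hz⟩ := ex2 (y - y') (by rw [sub_vecMul, e, sub_self])
    rw [← sub_eq_zero, ← map_sub, hT, ← hz, hzt, mul_smul, F.tw_ρ, smul_zero]
  choose y hy using fun k : LinearMap.ker (dS s) =>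
    P.ex1 ((jr j ∘ k.1) ᵥ* B) (by rw [vecMul_vecMul, c1]) (c2 k.1 k.2)
  let θ : LinearMap.ker (dS s) →ₗ[ℤ[K]] ℤ[K] :=
    { toFun := fun k => T (y k) 1
      map_add' := fun a b => by
        rw [← Co.add_apply, ← map_add, hT0 (y (a + b)) (y a + y b)]
        rw [add_vecMul, hy, hy, hy, ← add_vecMul]
        congr 1
        exact funext fun i => map_add _ _ _
      map_smul' := fun r a => by
        rw [RingHom.id_apply, ← Co.jr_smul, ← map_smul, hT0 (y (r • a)) (jr j r • y a)]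
        rw [smul_vecMul, hy, hy, ← smul_vecMul]
        congr 1
        exact funext fun i => map_mul _ _ _ }
  refine ⟨θ, m0, evl η B - γ, fun k => ?_, fun g => ?_⟩
  · have e1 : ξ (y k ᵥ* tc w P'.e1) 1 = ξ (y k) 1 := Subtype.ext (by
      rw [hξ', hξ', vecMul_vecMul, hed])
    have e2 := congrArg (fun f : Co j _ => f 1) (hη (y k))
    simp only [Co.add_apply] at e2
    rw [e1, F.ρ_nat, ← hT, hy] at e2
    rw [LinearMap.sub_apply, ← add_sub_assoc, evl_apply]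
    change k = T (y k) 1 • m0 + _ - _
    rw [← e2]
    apply Subtype.ext
    rw [Submodule.coe_sub, hξ', hy]
    exact c4 k.1 k.2
  · obtain ⟨z, hz⟩ := hz (j g)
    obtain ⟨η', hη'⟩ := main ℤ[K] 0 0 (-dotL z (F.δ 1)) ((w (j g) : ℤ) • o g - 1)
      (fun _ => Submodule.zero_mem _) (fun _ => Submodule.zero_mem _)
      (fun y => by
        rw [LinearMap.neg_apply, dotL_apply]
        exact Submodule.neg_mem _ (Submodule.smul_mem _ _ (F.δ_mem _)))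
      (fun v => by simp)
      (fun v => by rw [LinearMap.neg_apply, dotL_apply, hz, mul_smul, F.δ_tw]; simp)
    refine ⟨-evl η' B, fun k => ?_⟩
    have e2 := congrArg (fun f : Co j _ => f 1) (hη' (y k))
    simp only [Co.add_apply, add_zero, LinearMap.zero_apply, Co.zero_apply] at e2
    rw [F.ρ_nat, ← hT, hy] at e2
    rw [LinearMap.neg_apply, evl_apply]
    exact eq_neg_of_add_eq_zero_left e2.symm

end

end Pool.Agent.P.MP_5ee5b4_al
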