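import Pool.Agent.P.MP_5ee5b4_al.Flow
import Pool.Agent.P.MP_5ee5b4_al.Star

/-! Subgroups of infinite index have dimension at most one; consequences. -/

namespace Pool.Agent.P.MP_5ee5b4_al

open Pool.Agent.P.MP_6e40fc_al
open scoped MonoidAlgebra

noncomputable section

variable {H K : Type} [Group H] [Group K]

/-- derivations lift along surjections of modules -/
def DerLift (K : Type) [Group K] : Prop :=
  ∀ (A B : Type) [AddCommGroup A] [Module ℤ[K] A] [AddCommGroup B] [Module ℤ[K] B]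
    (π : A →ₗ[ℤ[K]] B), Function.Surjective π → ∀ δ : K → B,
    (∀ g h, δ (g * h) = δ g + o g • δ h) →
      ∃ D : K → A, (∀ g h, D (g * h) = D g + o g • D h) ∧ ∀ g, π (D g) = δ g

theorem exists_symm_gen (hH : Group.FG H) : ∃ T : Finset H,
    Subgroup.closure (T : Set H) = ⊤ ∧ ∀ a ∈ T, a⁻¹ ∈ T := by
  classical
  obtain ⟨S, hS⟩ := hH.1
  refine ⟨S ∪ S.image (·⁻¹), eq_top_iff.2 (hS ▸ Subgroup.closure_mono (by simp)), fun a ha => ?_⟩
  simp only [Finset.mem_union, Finset.mem_image] at ha ⊢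
  rcases ha with ha | ⟨b, hb, rfl⟩
  · exact Or.inr ⟨a, ha, rfl⟩
  · exact Or.inl (by simpa using hb)

theorem Co.smul_apply {j : K →* H} {M : Type} [AddCommGroup M] [Module ℤ[K] M] (r : ℤ[H])
    (f : Co j M) (x : H) : (r • f) x = extAdd (fun g => f (x * g)) r := by
  induction r using zg_induction with
  | ho g => rw [Co.o_smul, extAdd_o]
  | hadd a b ha hb => rw [add_smul, Co.add_apply, map_add, ha, hb]
  | hsmul n a ha => rw [smul_assoc, Co.zsmul_apply, map_zsmul, ha]

theorem strebel (hH : Group.FG H) (h2 : PD2 H) (j : K →* H) (hj : Function.Injective j)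
    (hK : ¬ j.range.FiniteIndex) : DerLift K := by
  intro A B _ _ _ _ π hπ δ hδ
  obtain ⟨T, hT, hT'⟩ := exists_symm_gen hH
  obtain ⟨w, hw⟩ := h2
  have hs : Subgroup.closure (Set.range (Subtype.val : T → H)) = ⊤ := by simpa using hT
  obtain ⟨θ, m0, g, h3, h4⟩ := hw T Subtype.val hs
  choose G hG using h4
  obtain ⟨σ⟩ := exists_sec hj
  have hδ1 : δ 1 = 0 := by simpa using hδ 1 1
  let Δ : (T → ℤ[H]) →ₗ[ℤ[H]] Co j B := Fintype.linearCombination ℤ[H] fun i =>
    Co.mk (fun x => δ (σ.κ (x * i)) - δ (σ.κ x)) fun k x => by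
      rw [mul_assoc, σ.κ_mul, σ.κ_mul, hδ, hδ, smul_sub]; abel
  have hΔ : ∀ v x, Δ v x = extAdd (fun y => δ (σ.κ (x * y))) (dS Subtype.val v) := fun v x => by
    rw [extAdd_dS, Fintype.linearCombination_apply, Co.sum_apply]
    simp only [Co.smul_apply, Co.mk_apply, mul_assoc]
  obtain ⟨Λ, hΛ⟩ := σ.liftLin π Δ fun y x => hπ _
  have hΛ0 : ∀ (k : LinearMap.ker (dS (Subtype.val : T → H))) x, π (Λ k x) = 0 := fun k x => by
    rw [hΛ, hΔ, k.2, map_zero]
  obtain ⟨ω, hω⟩ := σ.lift (LinearMap.ker π).subtype (Λ m0) fun x => ⟨⟨_, hΛ0 m0 x⟩, rfl⟩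
  obtain ⟨Ω, hΩ⟩ := coinv_vanish j hK T hT hT' w ω
  let Λ' : (T → ℤ[H]) →ₗ[ℤ[H]] Co j A := Λ - (∑ a ∈ T, LinearMap.toSpanSingleton ℤ[H] _
    (Co.map j (LinearMap.ker π).subtype (Ω a)) ∘ₗ G a⁻¹ + Λ ∘ₗ Submodule.subtype _ ∘ₗ g)
  have hΛ' : ∀ v, Λ' v = Λ v - (∑ a ∈ T, G a⁻¹ v • Co.map j (LinearMap.ker π).subtype (Ω a) +
      Λ (g v)) := fun v => by
    simp [Λ', LinearMap.sum_apply]
  have h5 : ∀ v, dS Subtype.val v = 0 → Λ' v = 0 := fun v hv => by
    have e := congrArg (fun k : LinearMap.ker (dS (Subtype.val : T → H)) => Λ k) (h3 ⟨v, hv⟩)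
    simp only [Submodule.coe_add, Submodule.coe_smul, map_add, map_smul] at e
    rw [hΛ', e, ← hω, hΩ, map_sum, Finset.smul_sum, sub_eq_zero]
    congr 1
    refine Finset.sum_congr rfl fun a _ => ?_
    rw [map_smul, ← mul_smul, hG]
  have h6 : ∀ v x, π (Λ' v x) = Δ v x := fun v x => by
    rw [hΛ', Co.sub_apply, Co.add_apply, Co.sum_apply, map_sub, map_add, hΛ0, hΛ, map_sum,
      Finset.sum_eq_zero, add_zero, sub_zero]
    intro a _
    rw [← map_smul, Co.map_apply]
    exact (Subtype.prop _ : _ ∈ LinearMap.ker π)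
  choose v hv using exists_dS hs
  refine ⟨fun k => Λ' (v (j k)) 1, fun a b => ?_, fun a => ?_⟩
  · have := h5 (v (j (a * b)) - (v (j a) + o (j a) • v (j b))) (by
      rw [map_sub, map_add, map_smul, hv, hv, hv, smul_eq_mul, mul_sub, o_mul, map_mul]; simp)
    rw [map_sub, sub_eq_zero] at this
    simp only [this, map_add, map_smul, Co.add_apply]
    rw [← jr_o, Co.jr_smul]
  · rw [h6, hΔ, hv, map_sub, ← o_one, extAdd_o, extAdd_o, one_mul, one_mul, σ.κ_j, σ.κ_one, hδ1,
      sub_zero]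

/-- an abelian group with trivial action -/
def Triv (_K X : Type) : Type := X

instance {X : Type} [AddCommGroup X] : AddCommGroup (Triv K X) := inferInstanceAs (AddCommGroup X)

instance {X : Type} [AddCommGroup X] : Module ℤ[K] (Triv K X) :=
  Module.compHom X (aug ℤ K).toRingHom

theorem Triv.o_smul {X : Type} [AddCommGroup X] (g : K) (x : Triv K X) : o g • x = x := by
  change aug ℤ K (o g) • (show X from x) = x
  rw [aug_o, one_smul]

theorem DerLift.sep (h : DerLift K) (hc : ∀ a b : K, a * b = b * a) (x : K) (hx : x ≠ 1) :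
    ∃ D : K →* Multiplicative ℤ, D x ≠ 1 := by
  letI : CommGroup K := { ‹Group K› with mul_comm := hc }
  let π0 : (Additive K →₀ ℤ) →+ Additive K := (Finsupp.linearCombination ℤ id).toAddMonoidHom
  obtain ⟨D, h1, h2⟩ := h (Triv K (Additive K →₀ ℤ)) (Triv K (Additive K))
    (mkLin π0 fun g a => by rw [Triv.o_smul, Triv.o_smul])
    (fun b => ⟨(Finsupp.single b 1 : Additive K →₀ ℤ), by
      change Finsupp.linearCombination ℤ id (Finsupp.single b (1 : ℤ)) = b
      simp⟩) (fun g => (Additive.ofMul g : Additive K)) (fun g h => (congrArg (fun z : Triv K (Additive K) =>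
        (show Triv K (Additive K) from Additive.ofMul g) + z) (Triv.o_smul g _)).symm)
  simp only [Triv.o_smul] at h1
  obtain ⟨b, hb⟩ : ∃ b, (show Additive K →₀ ℤ from D x) b ≠ 0 := by
    by_contra hcon
    have : D x = 0 := Finsupp.ext fun b => not_not.1 fun h => hcon ⟨b, h⟩
    have h3 := h2 x
    rw [this, map_zero] at h3
    exact hx h3.symm
  exact ⟨MonoidHom.mk' (fun g => Multiplicative.ofAdd ((show Additive K →₀ ℤ from D g) b))
    fun g g' => by rw [h1]; rfl, hb⟩

theorem coeff_o_mul (x y : K) (r : ℤ[K]) : (o x * r).coeff y = r.coeff (x⁻¹ * y) := by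
  simp [o]

theorem coeff_mul_o (x y : K) (r : ℤ[K]) : (r * o x).coeff y = r.coeff (y * x⁻¹) := by
  simp [o]

theorem DerLift.vcyc (h : DerLift K) (hK : Group.FG K) [Infinite K] (hN : NF (⊤ : Subgroup K)) :
    ∃ ν : K, (Subgroup.zpowers ν).FiniteIndex := by
  classical
  obtain ⟨T, hT⟩ := hK.1
  have hs : Subgroup.closure (Set.range (Subtype.val : T → K)) = ⊤ := by simpa using hT
  obtain ⟨D, h1, h2⟩ := h _ _ (dS (Subtype.val : T → K)).rangeRestrict
    (LinearMap.surjective_rangeRestrict _) (fun g => ⟨o g - 1, exists_dS hs g⟩) fun g g' =>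
      Subtype.ext (by simp [mul_sub, o_mul])
  have h3 : ∀ g, dS Subtype.val (D g) = o g - 1 := fun g => congrArg Subtype.val (h2 g)
  let F : T → K → ZMod 2 := fun i x => ((D x i).coeff 1 : ℤ)
  have hF : ∀ i x g, F i (x * g) = F i x + ((D g i).coeff x⁻¹ : ℤ) := fun i x g => by
    simp only [F, h1, Pi.add_apply, Pi.smul_apply, smul_eq_mul, MonoidAlgebra.coeff_add,
      Finsupp.add_apply, coeff_o_mul, mul_one, Int.cast_add]
  by_contra hcon
  have hfin : ∀ i, ∃ c, (Function.support fun x => F i x - c).Finite := by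
    intro i
    by_contra hc
    refine hcon (ends hT T.finite_toSet (Y := {x | F i x = 1}) (fun a _ => ?_) (fun h => hc ⟨0, ?_⟩)
      (fun h => hc ⟨1, ?_⟩) hN)
    · refine (((D a i).coeff.support.finite_toSet).preimage (f := fun x => x⁻¹)
        inv_injective.injOn).subset fun x hx => ?_
      by_contra hx'
      simp only [Set.mem_preimage, Finset.mem_coe, Finsupp.mem_support_iff, not_not] at hx'
      exact hx (by simp [hF, hx'])
    · refine h.subset fun x hx => ?_
      have : ∀ a : ZMod 2, a - 0 ≠ 0 → a = 1 := by decide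
      exact this _ hx
    · exact h.subset fun x hx h' => hx (sub_eq_zero.2 h')
  choose c hc using hfin
  let Φ : K → ZMod 2 := fun x => ∑ i : T, ((F i (i * x) - c i) - (F i x - c i))
  have hΦ : ∀ g, g ≠ 1 → Φ g = Φ 1 - 1 := fun g hg => by
    have e := congrArg (fun r : ℤ[K] => ((r.coeff 1 : ℤ) : ZMod 2)) (h3 g)
    simp only [dS_apply, mul_sub, mul_one, MonoidAlgebra.coeff_sub, MonoidAlgebra.coeff_sum,
      Finsupp.sub_apply, Finsupp.finset_sum_apply, coeff_mul_o, one_mul] at e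
    have e1 : (o g).coeff 1 = 0 := by simp [o, hg]
    have e2 : (1 : ℤ[K]).coeff 1 = 1 := by simp [MonoidAlgebra.one_def]
    rw [e1, e2] at e
    have e3 : ∀ i, F i g = F i 1 + ((D g i).coeff 1 : ℤ) := fun i => by
      simpa using hF i 1 g
    push_cast at e
    simp only [Φ, mul_one, hF _ _ g, e3]
    rw [eq_sub_iff_add_eq, ← sub_eq_zero, add_sub_right_comm, ← Finset.sum_sub_distrib,
      add_eq_zero_iff_eq_neg, ← e]
    exact Finset.sum_congr rfl fun i _ => by ring
  have hc' : ∀ i : T, (Function.support fun x => F i (i * x) - c i).Finite := fun i =>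
    (hc i).preimage (f := fun x => (i : K) * x) (mul_right_injective _).injOn
  have hsum : ∑ᶠ x, Φ x = 0 := by
    rw [finsum_sum_comm _ _ fun i _ => ((hc' i).union (hc i)).subset
      (Function.support_sub _ _)]
    refine Finset.sum_eq_zero fun i _ => ?_
    rw [finsum_sub_distrib (hc' i) (hc i), sub_eq_zero]
    exact finsum_comp_equiv (Equiv.mulLeft (i : K)) (f := fun x => F i x - c i)
  obtain ⟨g, hg⟩ := ((Set.finite_iUnion fun i => (hc' i).union (hc i)).insert 1).infinite_compl.nonempty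
  simp only [Set.mem_compl_iff, Set.mem_insert_iff, Set.mem_iUnion, Set.mem_union, not_or,
    not_exists, Function.mem_support, not_not] at hg
  have h4 : Φ g = 0 := Finset.sum_eq_zero fun i _ => by rw [(hg.2 i).1, (hg.2 i).2, sub_zero]
  rw [hΦ g hg.1] at h4
  rw [finsum_eq_single Φ 1 fun x hx => (hΦ x hx).trans h4] at hsum
  rw [hsum] at h4
  exact absurd h4 (by decide)

theorem comm_of_vcyc (htf : ∀ (x : K) (n : ℕ), n ≠ 0 → x ^ n = 1 → x = 1) (ν : K)
    [(Subgroup.zpowers ν).FiniteIndex] (a b : K) : a * b = b * a := by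
  have htf' : ∀ (x : K) (n : ℤ), n ≠ 0 → x ^ n = 1 → x = 1 := fun x n hn h =>
    htf x n.natAbs (by omega) (by rwa [pow_natAbs_eq_one])
  have hle : (Subgroup.zpowers ν).normalCore ≤ Subgroup.center K := fun c hc =>
    Subgroup.mem_center_iff.2 fun g => by
      by_cases hg : g = 1
      · simp [hg]
      obtain ⟨m, hm, -, hm'⟩ := Subgroup.exists_pow_mem_of_index_ne_zero
        (Subgroup.FiniteIndex.index_ne_zero (H := Subgroup.zpowers ν)) g
      obtain ⟨k, hk⟩ := hm'
      obtain ⟨p, hp⟩ := Subgroup.normalCore_le _ hc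
      obtain ⟨q, hq⟩ := hc g
      simp only at hk hp hq
      have hk0 : k ≠ 0 := fun h => hg (htf g m hm.ne' (by rw [← hk, h, zpow_zero]))
      have h1 : c ^ k = g ^ ((m : ℤ) * p) := by
        rw [← hp, zpow_mul, zpow_natCast, ← hk, ← zpow_mul, ← zpow_mul, mul_comm]
      have h2 : (ν ^ (q - p)) ^ k = 1 := by
        rw [← zpow_mul, sub_mul, zpow_sub, zpow_mul, zpow_mul, hq, hp, conj_zpow, h1]
        group
      have h3 := htf' _ k hk0 h2
      rw [zpow_sub, hq, hp, mul_inv_eq_one, mul_inv_eq_iff_eq_mul] at h3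
      exact h3
  haveI : (Subgroup.center K).FiniteIndex := Subgroup.finiteIndex_of_le hle
  have hinj : Function.Injective (MonoidHom.transferCenterPow K) :=
    (injective_iff_map_eq_one _).2 fun g hg => htf g _ Subgroup.FiniteIndex.index_ne_zero (by
      rw [← MonoidHom.transferCenterPow_apply, hg]; rfl)
  exact hinj (by rw [map_mul, map_mul, mul_comm'])

theorem not_finiteIndex_of_finite [Infinite H] (L : Subgroup H) [Finite L] : ¬ L.FiniteIndex :=
  fun _ => not_finite_iff_infinite.2 ‹Infinite H›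
    (Finite.of_equiv _ (Subgroup.groupEquivQuotientProdSubgroup (s := L)).symm)

theorem torsionFree (hH : Group.FG H) (h2 : PD2 H) [Infinite H] (x : H) (n : ℕ) (hn : n ≠ 0)
    (hx : x ^ n = 1) : x = 1 := by
  by_contra hx1
  haveI : Finite (Subgroup.zpowers x) :=
    (isOfFinOrder_iff_pow_eq_one.2 ⟨n, Nat.pos_of_ne_zero hn, hx⟩).finite_zpowers
  obtain ⟨D, hD⟩ := (strebel hH h2 (Subgroup.zpowers x).subtype Subtype.val_injective (by
    rw [Subgroup.range_subtype]; exact not_finiteIndex_of_finite _)).sep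
    (fun a b => mul_comm' a b) ⟨x, Subgroup.mem_zpowers x⟩ fun h => hx1 (congrArg Subtype.val h)
  have : (⟨x, Subgroup.mem_zpowers x⟩ : Subgroup.zpowers x) ^ n = 1 := Subtype.ext hx
  have h3 := congrArg (fun y => (D y).toAdd) this
  simp only [map_pow, toAdd_pow, map_one, toAdd_one, nsmul_eq_mul, mul_eq_zero,
    Nat.cast_eq_zero, hn, false_or] at h3
  exact hD h3

theorem comm_of_infiniteIndex (hH : Group.FG H) (h2 : PD2 H) [Infinite H] (L : Subgroup H)
    (hL : L.FG) (hL' : ¬ L.FiniteIndex) (hN : NF L) {a b : H} (ha : a ∈ L) (hb : b ∈ L) :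
    a * b = b * a := by
  have htf : ∀ (x : L) (n : ℕ), n ≠ 0 → x ^ n = 1 → x = 1 := fun x n hn h =>
    Subtype.ext (torsionFree hH h2 x n hn (congrArg Subtype.val h))
  refine congrArg Subtype.val (?_ : (⟨a, ha⟩ : L) * ⟨b, hb⟩ = ⟨b, hb⟩ * ⟨a, ha⟩)
  rcases finite_or_infinite L with hf | hf
  · rw [htf ⟨a, ha⟩ _ Nat.card_pos.ne' pow_card_eq_one', one_mul, mul_one]
  · obtain ⟨ν, hν⟩ := (strebel hH h2 L.subtype Subtype.val_injective (by
      rwa [Subgroup.range_subtype])).vcyc ((Group.fg_iff_subgroup_fg L).2 hL) fun x _ y _ k0 => by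
        obtain ⟨k, hk, h⟩ := hN x x.2 y y.2 k0
        refine ⟨k, hk, fun h' => h ?_⟩
        have : FreeGroup.lift ![(x : H) ^ (2 * k), (y : H) ^ (2 * k)] =
            L.subtype.comp (FreeGroup.lift ![x ^ (2 * k), y ^ (2 * k)]) :=
          FreeGroup.ext_hom _ _ fun i => by fin_cases i <;> simp
        rw [this]
        exact Subtype.val_injective.comp h'
    exact comm_of_vcyc htf ν _ _

end

end Pool.Agent.P.MP_5ee5b4_al
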