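import Mathlib

/-! Absolute values that separate an element from the roots of unity. -/

namespace Pool.Agent.P.MP_5ee5b4_al

open Cardinal Polynomial

theorem exists_ext (F K L : Type) [CommRing F] [IsDomain F] [Field K] [Field L] [IsAlgClosed L]
    [Algebra F K] [Algebra F L] [FaithfulSMul F K] [FaithfulSMul F L] (hF : #F ≤ ℵ₀)
    (hL : ℵ₀ < #L) (hK : #K ≤ #L) : Nonempty (K →ₐ[F] L) := by
  obtain ⟨ι, x, hx⟩ := exists_isTranscendenceBasis' F K
  obtain ⟨κ, y, hy⟩ := exists_isTranscendenceBasis' F L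
  obtain ⟨j⟩ : Nonempty (ι ↪ κ) := (mk_le_of_injective hx.1.injective).trans
    (hK.trans (IsAlgClosed.cardinal_eq_cardinal_transcendence_basis_of_aleph0_lt' y hy hF hL).le)
  have h1 : AlgebraicIndependent F (y ∘ j) := hy.1.comp j j.injective
  let f : Algebra.adjoin F (Set.range x) →ₐ[F] L :=
    (MvPolynomial.aeval (y ∘ j)).comp hx.1.aevalEquiv.symm.toAlgHom
  let _ := f.toRingHom.toAlgebra
  have : FaithfulSMul (Algebra.adjoin F (Set.range x)) L :=
    (faithfulSMul_iff_algebraMap_injective _ _).2 fun _ _ e =>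
      hx.1.aevalEquiv.symm.injective (h1 e)
  have := hx.isAlgebraic
  let g : K →ₐ[Algebra.adjoin F (Set.range x)] L := IsAlgClosed.lift
  exact ⟨{ g.toRingHom with
    commutes' := fun r => (g.commutes (algebraMap F _ r)).trans (f.commutes r) }⟩

theorem exists_emb {K L : Type} [Field K] [CharZero K] [Field L] [CharZero L] [IsAlgClosed L]
    (hL : ℵ₀ < #L) (hK : #K ≤ #L) (a : K) (t : L)
    (h : ∀ f : ℚ[X], aeval a f = 0 ↔ aeval t f = 0) : ∃ σ : K →+* L, σ a = t := by
  let I := RingHom.ker (aeval a : ℚ[X] →ₐ[ℚ] K).toRingHom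
  have h1 := RingHom.kerLift_injective (aeval a : ℚ[X] →ₐ[ℚ] K).toRingHom
  have h2 := RingHom.lift_injective_of_ker_le_ideal I (f := (aeval t : ℚ[X] →ₐ[ℚ] L).toRingHom)
    (fun f hf => (h f).1 hf) fun f hf => (h f).2 hf
  let _ := (RingHom.kerLift (aeval a : ℚ[X] →ₐ[ℚ] K).toRingHom).toAlgebra
  let _ := (Ideal.Quotient.lift I (aeval t : ℚ[X] →ₐ[ℚ] L).toRingHom
    fun f hf => (h f).1 hf).toAlgebra
  have := h1.isDomain
  have : FaithfulSMul (ℚ[X] ⧸ I) K := (faithfulSMul_iff_algebraMap_injective _ _).2 h1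
  have : FaithfulSMul (ℚ[X] ⧸ I) L := (faithfulSMul_iff_algebraMap_injective _ _).2 h2
  obtain ⟨g⟩ := exists_ext (ℚ[X] ⧸ I) K L ((mk_le_of_surjective Ideal.Quotient.mk_surjective).trans
    (Polynomial.cardinalMk_le_max.trans (by simp))) hL hK
  refine ⟨g, ?_⟩
  have h3 := g.commutes (Ideal.Quotient.mk I X)
  change g (aeval a (X : ℚ[X])) = aeval t (X : ℚ[X]) at h3
  simpa using h3

theorem root_iff {K L : Type} [Field K] [CharZero K] [Field L] [CharZero L] {a : K}
    (ha : IsIntegral ℚ a) {t : L} (ht : aeval t (minpoly ℚ a) = 0) (f : ℚ[X]) :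
    aeval a f = 0 ↔ aeval t f = 0 := by
  have h := minpoly.eq_of_irreducible_of_monic (minpoly.irreducible ha) ht (minpoly.monic ha)
  rw [← minpoly.dvd_iff, ← minpoly.dvd_iff, h]

theorem le_padicAlgCl (l : ℕ) [Fact l.Prime] : 𝔠 ≤ #(PadicAlgCl l) :=
  (continuum_le_cardinal_of_nontriviallyNormedField ℚ_[l]).trans
    (mk_le_of_injective (algebraMap ℚ_[l] (PadicAlgCl l)).injective)

theorem padicAlgCl_le (l : ℕ) [Fact l.Prime] : #(PadicAlgCl l) ≤ 𝔠 := by
  refine (Algebra.IsAlgebraic.cardinalMk_le_max ℚ_[l] _).trans (max_le ?_ aleph0_le_continuum)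
  refine mk_quotient_le.trans ((mk_subtype_le _).trans ?_)
  simp

theorem exists_abs {K : Type} [Field K] [CharZero K] (hK : #K ≤ 𝔠) {a : K}
    (ha : ∀ n, 0 < n → a ^ n ≠ 1) : ∃ v : AbsoluteValue K ℝ, v a ≠ 1 := by
  by_contra! hv
  have key : ∀ (L : Type) [NormedField L] [CharZero L] [IsAlgClosed L], 𝔠 ≤ #L → ∀ t : L,
      (∀ f : ℚ[X], aeval a f = 0 ↔ aeval t f = 0) → ‖t‖ = 1 := fun L _ _ _ hL t h => by
    obtain ⟨σ, rfl⟩ := exists_emb (aleph0_lt_continuum.trans_le hL) (hK.trans hL) a t h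
    exact hv ((NormedField.toAbsoluteValue L).comp σ.injective)
  by_cases h : IsAlgebraic ℚ a
  swap
  · have h1 : ∀ t : ℂ, ¬ IsAlgebraic ℚ t → ‖t‖ = 1 := fun t ht => key ℂ mk_complex.ge t fun f =>
      ⟨fun e => by rw [(transcendental_iff.1 h) f e, map_zero],
        fun e => by rw [(transcendental_iff.1 ht) f e, map_zero]⟩
    have h2 : ¬ IsAlgebraic ℚ ((liouvilleNumber 2 : ℝ) : ℂ) := fun e =>
      transcendental_liouvilleNumber le_rfl ((IsFractionRing.isAlgebraic_iff ℤ ℚ ℝ).2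
        ((isAlgebraic_algebraMap_iff (algebraMap ℝ ℂ).injective).1 e))
    generalize ((liouvilleNumber 2 : ℝ) : ℂ) = t at h2
    have h3 := h1 (2 * t) fun e => h2 (by
      simpa using (isAlgebraic_algebraMap (R := ℚ) (A := ℂ) 2⁻¹).mul e)
    rw [norm_mul, h1 t h2] at h3
    norm_num at h3
  have hi := h.isIntegral
  have h1 : minpoly ℚ a ∈ lifts (algebraMap ℤ ℚ) := (lifts_iff_coeff_lifts _).2 fun n => by
    refine ⟨((minpoly ℚ a).coeff n).num, Rat.coe_int_num_of_den_eq_one ?_⟩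
    by_contra h2
    obtain ⟨l, hl, h3⟩ := Nat.exists_prime_and_dvd h2
    have := Fact.mk hl
    let O : Subring (PadicAlgCl l) :=
      { carrier := {x | ‖x‖ ≤ 1}
        mul_mem' := fun hx hy => (norm_mul _ _).trans_le (mul_le_one₀ hx (norm_nonneg _) hy)
        one_mem' := norm_one.le
        add_mem' := fun hx hy => (IsUltrametricDist.norm_add_le_max _ _).trans (max_le hx hy)
        zero_mem' := norm_zero.trans_le zero_le_one
        neg_mem' := fun hx => (norm_neg _).trans_le hx }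
    obtain ⟨y, hy⟩ := (lifts_iff_coeff_lifts _).1 ((IsAlgClosed.splits ((minpoly ℚ a).map
      (algebraMap ℚ (PadicAlgCl l)))).mem_lift_of_roots_mem_range ((minpoly.monic hi).map _)
      O.subtype fun t ht => ⟨⟨t, (key _ (le_padicAlgCl l) t (root_iff hi (by
        rw [aeval_def, eval₂_eq_eval_map]; exact (mem_roots'.1 ht).2))).le⟩, rfl⟩) n
    have h4 : ‖O.subtype y‖ ≤ 1 := y.2
    rw [hy, coeff_map, IsScalarTower.algebraMap_apply ℚ ℚ_[l], PadicAlgCl.norm_extends] at h4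
    have h5 := PadicInt.isUnit_iff.1 (PadicInt.isUnit_den _ h4)
    exact ((PadicInt.norm_int_lt_one_iff_dvd _).2 (Int.natCast_dvd_natCast.2 h3)).ne
      (by simpa using h5)
  obtain ⟨q, hq, -, hq'⟩ := lifts_and_natDegree_eq_and_monic h1 (minpoly.monic hi)
  have h2 : IsIntegral ℤ a := ⟨q, hq', by
    rw [← aeval_def, ← aeval_map_algebraMap ℚ, hq, minpoly.aeval]⟩
  have := IntermediateField.adjoin.finiteDimensional hi
  have : NumberField (IntermediateField.adjoin ℚ {a}) := ⟨⟩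
  obtain ⟨n, hn, h3⟩ := NumberField.Embeddings.pow_eq_one_of_norm_eq_one
    (IntermediateField.adjoin ℚ {a}) ℂ (x := IntermediateField.AdjoinSimple.gen ℚ a)
    ((isIntegral_algebraMap_iff (B := K) Subtype.val_injective).1 h2) fun φ =>
      key ℂ mk_complex.ge _ (root_iff hi (by
        rw [← IntermediateField.minpoly_gen, ← RingHom.toRatAlgHom_apply, aeval_algHom_apply]
        exact (congrArg _ (minpoly.aeval _ _)).trans (map_zero _)))
  exact ha n hn (congrArg Subtype.val h3)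

end Pool.Agent.P.MP_5ee5b4_al
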