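import Pool.Agent.P.MP_5ee5b4_al.TTow

/-! A smallest subgroup of finite index. -/

namespace Pool.Agent.P.MP_5ee5b4_al

open Subgroup
open scoped commutatorElement

variable {Γ Q : Type} [Group Γ] [Group Q] {p : ℕ}

/-- rank two forces growth of the tower -/
def G2 (p : ℕ) (L : Subgroup Γ) : Prop :=
  ∀ V ≤ L, V.FiniteIndex → Fr p (Fr p V) = Fr p V → (Fr p V).relIndex V ≤ p

theorem Rk.sub (h : Rk p Γ) {H : Subgroup Γ} (hH : H.FiniteIndex) : Rk p H := fun V hV => by
  rw [← relIndex_map_map_of_injective _ _ H.subtype_injective, Fr_map]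
  exact h _ (fi_map hH hV)

theorem G2.sub {L H : Subgroup Γ} (h : G2 p L) (hH : H.FiniteIndex) (hL : H ≤ L) :
    G2 p (⊤ : Subgroup H) := fun V _ hV e => by
  rw [← relIndex_map_map_of_injective _ _ H.subtype_injective, Fr_map]
  exact h _ ((map_subtype_le _).trans hL) (fi_map hH hV) (by rw [← Fr_map, ← Fr_map, e])

theorem sylow_shape [hp : Fact p.Prime] (hA : AB Γ) (hF : NF2 Γ) (hR : Rk p Γ)
    (hG : G2 p (⊤ : Subgroup Γ)) [Finite Q] (φ : Γ →* Q) (hφ : Function.Surjective φ)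
    (S : Subgroup Q) (hS : IsPGroup p S) : ∃ a : Q, ∀ y ∈ S, y ∉ zpowers a →
      p = 2 ∧ ∀ z ∈ S, z ∉ zpowers a → y⁻¹ * z ∈ zpowers a := by
  have hU : (S.comap φ).FiniteIndex := ⟨by
    rw [index_comap_of_surjective _ hφ]; exact FiniteIndex.index_ne_zero⟩
  obtain ⟨m, hm⟩ := (hR.sub hU).stab (hA.sub hU) (hF.sub _)
  have h1 : ∀ n, Ut p (S.comap φ) (m + n) = Ut p (S.comap φ) m := fun n => by
    induction n with
    | zero => rfl
    | succ n ih => exact (congrArg (Fr p) ih).trans hm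
  have h2 := (h1 (Nat.card Q)).ge.trans (It_le_ker (φ.comp (S.comap φ).subtype)
    (hS.to_le (by rintro _ ⟨x, rfl⟩; exact x.2)) (Nat.le_add_left _ m))
  have := (hR.sub hU).fi m
  have hπ := QuotientGroup.mk'_surjective (Ut p (S.comap φ) m)
  obtain ⟨a, ha⟩ := almost_cyclic (pgroup_Ut (p := p) (Γ := S.comap φ) m) fun T hT => by
    have h3 : Fr p (T.comap (QuotientGroup.mk' _)) = Ut p (S.comap φ) m := le_antisymm
      (((Subgroup.map_eq_bot_iff _).1 (by
        rw [Fr_map, map_comap_eq_self_of_surjective hπ T, hT])).trans (QuotientGroup.ker_mk' _).le)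
      (hm.ge.trans (Fr_mono ((QuotientGroup.ker_mk' _).ge.trans (ker_le_comap _ _))))
    rw [← map_comap_eq_self_of_surjective hπ T, ← relIndex_ker, QuotientGroup.ker_mk']
    have h4 := hG.sub hU le_top (T.comap (QuotientGroup.mk' _)) le_top ⟨by
      rw [index_comap_of_surjective _ hπ]; exact FiniteIndex.index_ne_zero⟩ (by rw [h3]; exact hm)
    rwa [h3] at h4
  let ψ := QuotientGroup.lift _ _ h2
  have h3 : ∀ x, x ∈ zpowers a → ψ x ∈ zpowers (ψ a) := fun x hx =>
    ψ.map_zpowers a ▸ mem_map_of_mem ψ hx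
  refine ⟨ψ a, fun y hy h4 => ?_⟩
  obtain ⟨y, rfl⟩ := hφ y
  obtain ⟨h5, h6⟩ := ha (QuotientGroup.mk ⟨y, hy⟩) fun h => h4 (h3 _ h)
  refine ⟨h5, fun z hz h7 => ?_⟩
  obtain ⟨z, rfl⟩ := hφ z
  simpa [ψ] using h3 _ (h6 (QuotientGroup.mk ⟨z, hz⟩) fun h => h7 (h3 _ h))

theorem exists_min (hA : AB Γ) (hF : NF2 Γ) (hR : ∀ p, p.Prime → Rk p Γ)
    (hG : ∀ p, p.Prime → G2 p (⊤ : Subgroup Γ)) :
    ∃ R : Subgroup Γ, R.FiniteIndex ∧ ∀ S : Subgroup Γ, S.FiniteIndex → R ≤ S := by
  obtain ⟨N, h1, h2⟩ : ∃ N : Subgroup Γ, N.FiniteIndex ∧ ∀ (M : Subgroup Γ) [M.Normal]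
      [M.FiniteIndex], M ≤ N → ∀ T ≤ N.map (QuotientGroup.mk' M), IsPGroup 2 T → IsCyclic T := by
    by_cases h : ∀ (M : Subgroup Γ) [M.Normal] [M.FiniteIndex] (P : Sylow 2 (Γ ⧸ M)), IsCyclic P
    · refine ⟨⊤, inferInstance, fun M _ _ _ T _ hT => ?_⟩
      obtain ⟨P, hP⟩ := hT.exists_le_sylow
      have := h M P
      exact isCyclic_of_le hP
    push Not at h
    obtain ⟨N, _, h1, P, hP⟩ := h
    refine ⟨N, h1, fun M _ _ hM T h2 hT => ?_⟩
    obtain ⟨S, hS⟩ := hT.exists_le_sylow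
    obtain ⟨a, ha⟩ := sylow_shape hA hF (hR 2 Nat.prime_two) (hG 2 Nat.prime_two) _
      (QuotientGroup.mk'_surjective M) S S.2
    by_cases h3 : T ≤ zpowers a
    · exact isCyclic_of_le h3
    obtain ⟨y, h4, h5⟩ := SetLike.not_le_iff_exists.1 h3
    let f := QuotientGroup.map M N (MonoidHom.id Γ) hM
    have hf : Function.Surjective f := fun q => by
      obtain ⟨q, rfl⟩ := QuotientGroup.mk_surjective q
      exact ⟨q, rfl⟩
    have h6 : f y = 1 := by
      obtain ⟨y, hy, rfl⟩ := h2 h4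
      exact (QuotientGroup.eq_one_iff y).2 hy
    have : IsCyclic (S.mapSurjective hf) := isCyclic_of_le (H' := zpowers (f a)) (by
      rintro _ ⟨z, hz, rfl⟩
      rw [← f.map_zpowers]
      by_cases h7 : z ∈ zpowers a
      · exact mem_map_of_mem f h7
      · simpa [h6] using mem_map_of_mem f ((ha y (hS h4) h5).2 z hz h7))
    exact absurd (isCyclic_of_surjective _ ((S.mapSurjective hf).equiv P).surjective) hP
  refine ⟨_, hA _ (hA N h1), fun S hS => le_trans ?_ (inf_le_left.trans (normalCore_le S) :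
    S.normalCore ⊓ N.normalCore ≤ S)⟩
  generalize hM : S.normalCore ⊓ N.normalCore = M
  have : M.Normal := hM ▸ inferInstance
  have : M.FiniteIndex := hM ▸ inferInstance
  have : IsZGroup (N.map (QuotientGroup.mk' M)) := ⟨fun p hp P => by
    have := Fact.mk hp
    suffices IsCyclic (P.1.map (Subgroup.subtype _)) from isCyclic_of_surjective _
      (P.1.equivMapOfInjective _ (subtype_injective _)).symm.surjective
    by_cases h : p = 2
    · subst h
      exact h2 M (hM ▸ inf_le_right.trans (normalCore_le N)) _ (map_subtype_le _) (P.2.map _)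
    obtain ⟨a, ha⟩ := sylow_shape hA hF (hR p hp) (hG p hp) _
      (QuotientGroup.mk'_surjective M) _ (P.2.map (Subgroup.subtype _))
    exact isCyclic_of_le (H' := zpowers a) fun y hy => by_contra fun h' => h (ha y hy h').1⟩
  have := IsZGroup.isCyclic_commutator (G := N.map (QuotientGroup.mk' M))
  rw [← comm_map_bot, map_commutator, ← map_subtype_commutator (N.map _), ← map_commutator,
    (commutator_self_eq_bot_iff (H := _root_.commutator _)).2 inferInstance, Subgroup.map_bot]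

end Pool.Agent.P.MP_5ee5b4_al
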