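import Mathlib

/-! Ping-pong for proximal matrices in general position. -/

namespace Pool.Agent.P.MP_5ee5b4_al

open Matrix
open scoped Function Pointwise

variable {Γ : Type} [Group Γ]

theorem ping_pong {α : Type} [MulAction Γ α] (a : Fin 2 → Γ) (X : Fin 2 → Set α)
    (h1 : ∀ i, (X i).Nonempty) (h2 : Pairwise (Disjoint on X))
    (h3 : ∀ i j, i ≠ j → ∀ n : ℤ, n ≠ 0 → ∀ x ∈ X j, a i ^ n • x ∈ X i) :
    Function.Injective (FreeGroup.lift a) := by
  have : FreeGroup.lift a = (Monoid.CoprodI.lift fun i => FreeGroup.lift fun _ => a i).comp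
      (@freeGroupEquivCoprodI (Fin 2)).toMonoidHom := by
    ext i
    simp
  rw [this, MonoidHom.coe_comp]
  refine Function.Injective.comp ?_ (MulEquiv.injective freeGroupEquivCoprodI)
  refine Monoid.CoprodI.lift_injective_of_ping_pong (H := fun _ => FreeGroup Unit)
    (fun i => FreeGroup.lift fun _ => a i) (Or.inr ⟨0, ?_⟩) X h1 h2 fun i j hij => ?_
  · rw [FreeGroup.freeGroupUnitEquivInt.cardinal_eq, Cardinal.mk_int]
    exact (Cardinal.natCast_lt_aleph0 (n := 3)).le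
  · refine FreeGroup.freeGroupUnitEquivInt.forall_congr_left.mpr fun n hn => ?_
    change FreeGroup.lift (fun _ => a i) (FreeGroup.of () ^ n) • X j ⊆ X i
    rw [map_zpow, FreeGroup.lift_apply_of]
    rintro _ ⟨x, hx, rfl⟩
    exact h3 i j hij n (by rintro rfl; exact hn rfl) x hx

theorem abs_sum_le {K ι : Type} [Field K] [Fintype ι] (v : AbsoluteValue K ℝ) (t x : ι → K)
    (s : Finset ι) {B C : ℝ} (hB : 0 ≤ B) (hC : ∑ l, v (t l) ≤ C) (h : ∀ l ∈ s, v (x l) ≤ B) :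
    v (∑ l ∈ s, t l * x l) ≤ C * B := by
  refine (v.sum_le _ _).trans ((Finset.sum_le_sum (g := fun l => v (t l) * B) fun l hl => ?_).trans ?_)
  · rw [map_mul]
    exact mul_le_mul_of_nonneg_left (h l hl) (v.nonneg _)
  · rw [← Finset.sum_mul]
    exact mul_le_mul_of_nonneg_right ((Finset.sum_le_sum_of_subset_of_nonneg (Finset.subset_univ _)
      fun _ _ _ => v.nonneg _).trans hC) hB

theorem proximal {K ι : Type} [Field K] [Fintype ι] [DecidableEq ι] (v : AbsoluteValue K ℝ)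
    (τ : Γ →* Matrix ι ι K) (g h : Γ) (μ : ι → K) (hμ : ∀ j, μ j ≠ 0) (hg : τ g = diagonal μ)
    (e : Bool → ι) (he : e true ≠ e false) (h1 : ∀ j ≠ e true, v (μ j) < v (μ (e true)))
    (h2 : ∀ j ≠ e false, v (μ (e false)) < v (μ j))
    (hh : ∀ a b, τ h (e a) (e b) ≠ 0 ∧ τ h⁻¹ (e a) (e b) ≠ 0) :
    ∃ f : FreeGroup (Fin 2) →* Γ, Function.Injective f := by
  let _ : MulAction Γ (ι → K) :=
    { smul := fun γ x => τ γ *ᵥ x
      one_smul := fun x => by change τ 1 *ᵥ x = x; rw [map_one, one_mulVec]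
      mul_smul := fun a b x => by change τ _ *ᵥ x = τ a *ᵥ τ b *ᵥ x; rw [map_mul, mulVec_mulVec] }
  have hs : ∀ (γ : Γ) (x : ι → K) i, (γ • x) i = ∑ l, τ γ i l * x l := fun _ _ _ => rfl
  let η : Bool → Γ := fun s => cond s h h⁻¹
  obtain ⟨⟨s0, a0, b0⟩, hm⟩ := Finite.exists_min fun z : Bool × Bool × Bool =>
    v (τ (η z.1) (e z.2.1) (e z.2.2))
  have : Nonempty ι := ⟨e true⟩
  obtain ⟨⟨s1, i1⟩, hC⟩ := Finite.exists_max fun z : Bool × ι =>
    ∑ l, v (τ (η z.1) z.2 l)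
  have hm0 : 0 < v (τ (η s0) (e a0) (e b0)) := v.pos (by cases s0 <;> simp [η, hh])
  have hmC := (Finset.single_le_sum (f := fun l => v (τ (η s0) (e a0) l)) (fun _ _ => v.nonneg _)
    (Finset.mem_univ (e b0))).trans (hC (s0, e a0))
  simp only [Prod.forall] at hm hC hmC
  generalize v (τ (η s0) (e a0) (e b0)) = m at hm hm0 hmC
  generalize ∑ l, v (τ (η s1) i1 l) = C at hC hmC
  have hC0 : 0 < C := hm0.trans_le hmC
  obtain ⟨δ, hδ⟩ : ∃ δ, C * δ = m / 4 := ⟨m / 4 / C, by field_simp⟩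
  have hδ0 : 0 < δ := by by_contra! h; nlinarith
  have hδ1 : δ ≤ 1 := by by_contra! h; nlinarith
  let A : Set (ι → K) := {x | ∃ b, x (e b) ≠ 0 ∧ ∀ j ≠ e b, v (x j) ≤ δ * v (x (e b))}
  let M : Set (ι → K) := {x | ∀ b, x (e b) ≠ 0 ∧ ∀ j, 2 * δ * v (x j) ≤ v (x (e b))}
  have hT : ∀ s, ∀ x ∈ A, η s • x ∈ M := fun s x ⟨b, h3, h4⟩ a => by
    have h5 := v.pos h3
    have h6 : m * v (x (e b)) ≤ v ((η s • x) (e a)) + m / 4 * v (x (e b)) := by
      have h7 := abs_sum_le v (τ (η s) (e a)) x (Finset.univ.erase (e b))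
        (mul_pos hδ0 h5).le (hC s (e a)) fun l hl => h4 l (Finset.ne_of_mem_erase hl)
      have h8 := v.sub_le_add ((η s • x) (e a))
        (∑ l ∈ Finset.univ.erase (e b), τ (η s) (e a) l * x l)
      rw [hs, ← Finset.add_sum_erase _ _ (Finset.mem_univ (e b)), add_sub_cancel_right, map_mul,
        Finset.add_sum_erase _ (fun l => τ (η s) (e a) l * x l) (Finset.mem_univ (e b)),
        ← hs] at h8
      rw [← mul_assoc, hδ] at h7
      linarith [mul_le_mul_of_nonneg_right (hm s a b) h5.le]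
    refine ⟨fun h => ?_, fun j => ?_⟩
    · rw [h, map_zero] at h6
      nlinarith
    · have h7 := abs_sum_le v (τ (η s) j) x Finset.univ h5.le (hC s j) fun l _ => by
        by_cases hl : l = e b
        · rw [hl]
        · exact (h4 l hl).trans (mul_le_of_le_one_left h5.le hδ1)
      rw [← hs] at h7
      nlinarith
  let γ : Bool → Γ := fun b => cond b g g⁻¹
  let ν : Bool → ι → K := fun b j => cond b (μ j) (μ j)⁻¹
  have hν : ∀ b, τ (γ b) = diagonal (ν b) := fun b => by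
    cases b
    · have : τ g⁻¹ * (τ g * diagonal fun j => (μ j)⁻¹) = diagonal fun j => (μ j)⁻¹ := by
        rw [← mul_assoc, ← map_mul, inv_mul_cancel, map_one, one_mul]
      rw [hg, diagonal_mul_diagonal] at this
      change τ g⁻¹ = diagonal fun j => (μ j)⁻¹
      simpa [hμ] using this
    · exact hg
  have hν0 : ∀ b j, ν b j ≠ 0 := fun b j => by cases b <;> simp [ν, hμ]
  have hν1 : ∀ b, ∀ j ≠ e b, v (ν b j) / v (ν b (e b)) < 1 := fun b j hj => by
    rw [div_lt_one (v.pos (hν0 _ _))]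
    cases b
    · simpa [ν] using inv_strictAnti₀ (v.pos (hμ _)) (h2 j hj)
    · exact h1 j hj
  obtain ⟨k, hk⟩ : ∃ k : ℕ, ∀ n ≥ k, ∀ b, ∀ j ≠ e b,
      (v (ν b j) / v (ν b (e b))) ^ n ≤ 2 * δ * δ := by
    refine Filter.eventually_atTop.1 (Filter.eventually_all.2 fun b =>
      Filter.eventually_all.2 fun j => Filter.eventually_imp_distrib_left.2 fun hj => ?_)
    exact (tendsto_pow_atTop_nhds_zero_of_lt_one (by positivity) (hν1 b j hj)).eventually_le_const
      (by positivity)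
  have hG : ∀ n : ℤ, n ≠ 0 → ∀ x ∈ M, (g ^ (k + 1)) ^ n • x ∈ A := fun n hn x hx => by
    obtain ⟨b, N, hN, h3⟩ : ∃ b N, k ≤ N ∧ (g ^ (k + 1)) ^ n = γ b ^ N := by
      obtain ⟨n, rfl | rfl⟩ := n.eq_nat_or_neg
      · exact ⟨true, (k + 1) * n, by nlinarith [Int.natCast_pos.1 (by omega : (0 : ℤ) < n)], by
          simp [γ, pow_mul]⟩
      · exact ⟨false, (k + 1) * n, by nlinarith [Int.natCast_pos.1 (by omega : (0 : ℤ) < n)], by
          simp [γ, pow_mul]⟩
    have h4 : ∀ j, (γ b ^ N • x) j = ν b j ^ N * x j := fun j => by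
      change (τ _ *ᵥ x) j = _
      rw [map_pow, hν, diagonal_pow, mulVec_diagonal, Pi.pow_apply]
    rw [h3]
    refine ⟨b, by simp [h4, hν0, (hx b).1], fun j hj => ?_⟩
    have h5 := hk N hN b j hj
    have h6 := (hx b).2 j
    have h7 := pow_pos (v.pos (hν0 b (e b))) N
    rw [div_pow, div_le_iff₀ h7] at h5
    simp only [h4, map_mul, map_pow]
    calc _ ≤ 2 * δ * δ * v (ν b (e b)) ^ N * v (x j) := mul_le_mul_of_nonneg_right h5 (v.nonneg _)
      _ = δ * (v (ν b (e b)) ^ N * (2 * δ * v (x j))) := by ring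
      _ ≤ _ := by gcongr
  have hA : A.Nonempty := ⟨Pi.single (e true) 1, true, by simp, fun j hj => by simp [hj, hδ0.le]⟩
  have hd : Disjoint A (h • A) := Set.disjoint_left.2 fun x ⟨b, h3, h4⟩ ⟨y, hy, h5⟩ => by
    have h6 : x ∈ M := h5 ▸ hT true y hy
    have h7 := h4 (e !b) (by cases b <;> simp [he, he.symm])
    have h8 := (h6 !b).2 (e b)
    nlinarith [mul_pos hδ0 (v.pos h3)]
  refine ⟨_, ping_pong ![g ^ (k + 1), h * g ^ (k + 1) * h⁻¹] ![A, h • A]
    (Fin.forall_fin_two.2 ⟨hA, hA.smul_set⟩) ?_ ?_⟩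
  · exact fun i j hij => by fin_cases i <;> fin_cases j <;> simp_all [Function.onFun, hd.symm]
  · refine Fin.forall_fin_two.2 ⟨Fin.forall_fin_two.2 ⟨fun h => absurd rfl h, ?_⟩,
      Fin.forall_fin_two.2 ⟨fun _ n hn x hx => ?_, fun h => absurd rfl h⟩⟩
    · rintro - n hn _ ⟨y, hy, rfl⟩
      exact hG n hn _ (hT true y hy)
    · refine ⟨_, hG n hn _ (hT false x hx), ?_⟩
      simp [η, mul_smul]

end Pool.Agent.P.MP_5ee5b4_al
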