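import Pool.Agent.P.MP_5ee5b4_al.TAbs
import Pool.Agent.P.MP_5ee5b4_al.TPing

/-! A Tits alternative in dimension at most three. -/

namespace Pool.Agent.P.MP_5ee5b4_al

open Module
open scoped commutatorElement

variable {Γ K : Type} [Group Γ] [Field K]

theorem cover {W : Type} [AddCommGroup W] [Module K W] [Module.Finite K W]
    (π : Representation K Γ W) (w : W) (F : Finset (Submodule K W))
    (hF : ∀ γ, ∃ Z ∈ F, π γ w ∈ Z) :
    ∃ Z ∈ F, ∃ H : Subgroup Γ, H.FiniteIndex ∧ ∃ γ, ∀ h ∈ H, π (h * γ) w ∈ Z := by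
  classical
  let _ : MulAction Γ (Submodule K W) :=
    { smul := fun δ Z => Z.map (π δ)
      one_smul := fun Z => by change Z.map (π 1) = Z; rw [map_one]; exact Z.map_id
      mul_smul := fun a b Z => by
        change Z.map (π _) = (Z.map (π b)).map (π a)
        rw [map_mul]; exact Z.map_comp _ _ }
  let G : Submodule K W → Prop := fun Z =>
    ∃ H : Subgroup Γ, H.FiniteIndex ∧ ∃ γ, ∀ h ∈ H, π (h * γ) w ∈ Z
  suffices h : ∀ d, ∀ F : Finset (Submodule K W), (∀ Z ∈ F, ¬ G Z ∧ finrank K Z < d) →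
      ¬ ∀ γ, ∃ Z ∈ F, π γ w ∈ Z by
    by_contra! h'
    refine h (finrank K W + 1) F (fun Z hZ => ⟨fun ⟨H, h1, γ, h2⟩ => ?_,
      Nat.lt_succ_of_le Z.finrank_le⟩) hF
    obtain ⟨x, h3, h4⟩ := h' Z hZ H h1 γ
    exact h4 (h2 x h3)
  intro d
  induction d with
  | zero => exact fun F h h' => let ⟨Z, h1, _⟩ := h' 1; Nat.not_lt_zero _ (h Z h1).2
  | succ d ih =>
    suffices h : ∀ T : Finset (Submodule K W), (∀ Z ∈ T, ¬ G Z ∧ finrank K Z < d + 1) →
        ∀ F : Finset (Submodule K W), (∀ Z ∈ F, ¬ G Z ∧ finrank K Z < d) →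
        ¬ ∀ γ, ∃ Z ∈ T ∪ F, π γ w ∈ Z from fun T hT => by simpa using h T hT ∅ (by simp)
    intro T
    induction T using Finset.induction_on with
    | empty => exact fun _ F hF => by simpa using ih F hF
    | insert Z T _ ih' =>
      intro hT F hF h
      obtain ⟨h1, h2⟩ := hT Z (Finset.mem_insert_self _ _)
      have h3 := ih' fun Z h => hT Z (Finset.mem_insert_of_mem h)
      obtain ⟨γ, hγ⟩ : ∃ γ, π γ w ∈ Z := by
        by_contra! h4
        refine h3 F hF fun γ => ?_
        obtain ⟨Y, h5, h6⟩ := h γ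
        rw [Finset.insert_union, Finset.mem_insert] at h5
        exact ⟨Y, h5.resolve_left fun e => h4 γ (e ▸ h6), h6⟩
      obtain ⟨δ, hδ⟩ : ∃ δ : Γ, δ • Z ∉ insert Z T ∪ F := by
        by_contra! h4
        refine h1 ⟨MulAction.stabilizer Γ Z, ⟨?_⟩, γ, fun x hx => ?_⟩
        · rw [MulAction.index_stabilizer]
          exact Set.ncard_ne_zero_of_mem (MulAction.mem_orbit_self Z)
            ((Finset.finite_toSet _).subset (by rintro _ ⟨δ, rfl⟩; exact h4 δ))
        · rw [map_mul, ← show x • Z = Z from hx]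
          exact ⟨_, hγ, rfl⟩
      refine h3 (F ∪ (insert Z T ∪ F).image fun Y => Z ⊓ Y.comap (π δ)) (fun Y hY => ?_) fun x => ?_
      · rcases Finset.mem_union.1 hY with hY | hY
        · exact hF Y hY
        obtain ⟨Y, hY', rfl⟩ := Finset.mem_image.1 hY
        refine ⟨fun ⟨H, h4, y, h5⟩ => h1 ⟨H, h4, y, fun a ha => (h5 a ha).1⟩, ?_⟩
        by_contra! h4
        have h5 : Z ⊓ Y.comap (π δ) = Z := Submodule.eq_of_le_of_finrank_le inf_le_left (by omega)
        have h6 : finrank K Y ≤ d := by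
          rcases Finset.mem_union.1 hY' with hY | hY
          · exact Nat.le_of_lt_succ (hT Y hY).2
          · exact (hF Y hY).2.le
        have h7 : finrank K (Z.map (π δ)) = finrank K Z := (Submodule.equivMapOfInjective _
          (Function.LeftInverse.injective (g := π δ⁻¹) fun v => by simp) Z).finrank_eq.symm
        have h8 : Z.map (π δ) = Y := Submodule.eq_of_le_of_finrank_le
          (Submodule.map_le_iff_le_comap.2 (inf_eq_left.1 h5)) (by rw [h5] at h4; omega)
        exact hδ (show Z.map (π δ) ∈ _ from h8 ▸ hY')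
      · obtain ⟨Y, h5, h6⟩ := h x
        rw [Finset.insert_union, Finset.mem_insert] at h5
        rcases h5 with rfl | h5
        · obtain ⟨Y', h7, h8⟩ := h (δ * x)
          rw [map_mul] at h8
          exact ⟨_, Finset.mem_union_right _ (Finset.mem_union_right _
            (Finset.mem_image_of_mem _ h7)), h6, h8⟩
        · exact ⟨Y, by rw [← Finset.union_assoc]; exact Finset.mem_union_left _ h5, h6⟩

variable {V : Type} [AddCommGroup V] [Module K V] [Module.Finite K V]

/-- the subgroup acts irreducibly -/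
def Irr (ρ : Representation K Γ V) (H : Subgroup Γ) : Prop :=
  ∀ W : Submodule K V, (∀ h ∈ H, W ≤ W.comap (ρ h)) → W = ⊥ ∨ W = ⊤

theorem burnside [IsAlgClosed K] [Nontrivial V] (ρ : Representation K Γ V) (h : Irr ρ ⊤)
    (c : K) (hc : ∀ g, LinearMap.trace K V (ρ g) = c) (g : Γ) : ρ g = 1 := by
  classical
  let A := ρ.asAlgebraHom.range
  have : IsSimpleModule A V := (isSimpleModule_iff _ _).2
    { eq_bot_or_eq_top := fun N => by
        simpa using h (N.restrictScalars K) fun x _ v hv =>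
          N.smul_mem (⟨ρ x, MonoidAlgebra.of K Γ x, ρ.asAlgebraHom_of x⟩ : A) hv }
  have h1 : ∀ T : End K V, T ∈ A := fun T => by
    let b := Module.finBasis K V
    obtain ⟨r, hr⟩ := jacobson_density (R := A) (M := V)
      { T with
        map_smul' := fun φ m => by
          obtain ⟨t, rfl⟩ := (IsSimpleModule.algebraMap_end_bijective_of_isAlgClosed K).2 φ
          exact T.map_smul t m } (Finset.univ.image b)
    exact (b.ext fun i => hr _ (Finset.mem_image_of_mem _ (Finset.mem_univ i)) : T = r.1) ▸ r.2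
  have h2 : ∀ T : End K V, LinearMap.trace K V ((ρ g - 1) * T) = 0 := fun T => by
    obtain ⟨r, rfl⟩ := h1 T
    induction r using MonoidAlgebra.induction_on with
    | of x =>
      change LinearMap.trace K V ((ρ g - 1) * ρ.asAlgebraHom _) = 0
      rw [ρ.asAlgebraHom_of, sub_mul, ← map_mul, one_mul, map_sub, hc, hc, sub_self]
    | add a b ha hb => rw [map_add, mul_add, map_add, ha, hb, add_zero]
    | smul t a ha =>
      change LinearMap.trace K V ((ρ g - 1) * ρ.asAlgebraHom _) = 0 at ha ⊢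
      rw [map_smul, mul_smul_comm, map_smul, ha, smul_zero]
  refine sub_eq_zero.1 (LinearMap.ext fun v => (Module.forall_dual_apply_eq_zero_iff K _).1
    fun f => ?_)
  rw [← h2 (f.smulRight v), ← LinearMap.trace_smulRight]
  exact congrArg _ (LinearMap.ext fun u => by simp)

omit [Module.Finite K V] in
theorem Irr.vanish {ρ : Representation K Γ V} {H : Subgroup Γ} (h : Irr ρ H) (f : Dual K V) {u : V}
    (hu : u ≠ 0) (hf : ∀ x ∈ H, f (ρ x u) = 0) (v : V) : f v = 0 := by
  rcases h (⨅ x : H, LinearMap.ker (f ∘ₗ ρ x)) fun x hx v hv => by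
    simp only [Submodule.mem_comap, Submodule.mem_iInf, LinearMap.mem_ker,
      LinearMap.comp_apply] at hv ⊢
    exact fun y => by simpa using hv (y * ⟨x, hx⟩) with h | h
  · exact absurd (h.le (Submodule.mem_iInf _ |>.2 fun x => hf x x.2)) hu
  · simpa using (Submodule.mem_iInf _).1 (h.ge (Submodule.mem_top (x := v))) 1

theorem free_of_eigen (ρ : Representation K Γ V) (h : ∀ H : Subgroup Γ, H.FiniteIndex → Irr ρ H)
    (v : AbsoluteValue K ℝ) {ι : Type} [Fintype ι] (hι : Fintype.card ι = finrank K V) (g : Γ)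
    (μ : ι → K) (h0 : Function.Injective μ) (hμ : ∀ j, End.HasEigenvalue (ρ g) (μ j))
    (e : Bool → ι) (h1 : 1 < v (μ (e true))) (h2 : μ (e false) = (μ (e true))⁻¹)
    (h3 : ∀ j, j ≠ e true → j ≠ e false → μ j = 1) :
    ∃ f : FreeGroup (Fin 2) →* Γ, Function.Injective f := by
  classical
  have : Nonempty ι := ⟨e true⟩
  choose x hx using fun j => (hμ j).exists_hasEigenvector
  let b := basisOfLinearIndependentOfCardEqFinrank
    (End.eigenvectors_linearIndependent' _ μ h0 x hx) hι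
  have hb : ∀ j, ρ g (b j) = μ j • b j := fun j => by simpa [b] using (hx j).apply_eq_smul
  have h4 : v (μ (e false)) < 1 := by rw [h2, map_inv₀]; exact inv_lt_one_of_one_lt₀ h1
  have h5 : μ (e true) ≠ 0 := v.pos_iff.1 (by linarith)
  let π : Representation K Γ (End K V × End K V) :=
    { toFun := fun γ => (LinearMap.mulLeft K (ρ γ)).prodMap (LinearMap.mulRight K (ρ γ⁻¹))
      map_one' := LinearMap.ext fun _ => by simp
      map_mul' := fun _ _ => LinearMap.ext fun _ => by simp [mul_assoc] }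
  let φ : Bool × Bool → Dual K (End K V) := fun z =>
    b.coord (e z.1) ∘ₗ LinearMap.applyₗ (b (e z.2))
  obtain ⟨y, hy⟩ : ∃ y, ∀ a c, φ (a, c) (ρ y) ≠ 0 ∧ φ (a, c) (ρ y⁻¹) ≠ 0 := by
    by_contra! h6
    obtain ⟨Z, hZ, H, h7, γ, h8⟩ := cover π (1, 1)
      (Finset.univ.image (fun z => LinearMap.ker (φ z ∘ₗ LinearMap.fst _ _ _)) ∪
        Finset.univ.image fun z => LinearMap.ker (φ z ∘ₗ LinearMap.snd _ _ _)) fun γ => by
      obtain ⟨a, c, h7⟩ := h6 γ
      by_cases h8 : φ (a, c) (ρ γ) = 0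
      · exact ⟨_, Finset.mem_union_left _ (Finset.mem_image_of_mem _ (Finset.mem_univ (a, c))),
          by simpa [π] using h8⟩
      · exact ⟨_, Finset.mem_union_right _ (Finset.mem_image_of_mem _ (Finset.mem_univ (a, c))),
          by simpa [π] using h7 h8⟩
    rcases Finset.mem_union.1 hZ with hZ | hZ <;> obtain ⟨z, -, rfl⟩ := Finset.mem_image.1 hZ
    · simpa using (h H h7).vanish (b.coord (e z.1)) (u := ρ γ (b (e z.2)))
        (fun e' => b.ne_zero (e z.2) (by simpa using congrArg (ρ γ⁻¹) e'))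
        (fun x hx => by simpa [π, φ] using h8 x hx) (b (e z.1))
    · simpa using (h H h7).vanish (b.coord (e z.1) ∘ₗ ρ γ⁻¹) (b.ne_zero (e z.2))
        (fun x hx => by simpa [π, φ] using h8 x⁻¹ (H.inv_mem hx)) (ρ γ (b (e z.1)))
  refine proximal v ((LinearMap.toMatrixAlgEquiv b).toMonoidHom.comp ρ) g y μ (fun j => ?_)
    (Matrix.ext fun i j => ?_) e (fun h => by rw [h] at h1; linarith) (fun j hj => ?_)
    (fun j hj => ?_) fun a c => by simpa [φ, LinearMap.toMatrixAlgEquiv_apply] using hy a c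
  · exact fun h => b.ne_zero j (by simpa [h] using congrArg (ρ g⁻¹) (hb j))
  · by_cases h : i = j <;> simp [LinearMap.toMatrixAlgEquiv_apply, hb, h]
  · by_cases h : j = e false
    · rw [h]; linarith
    · rwa [h3 j hj h, map_one]
  · by_cases h : j = e true
    · rw [h]; linarith
    · rwa [h3 j h hj, map_one]

/-- all subgroups of finite index have finite abelianization -/
def AB (Γ : Type) [Group Γ] : Prop := ∀ H : Subgroup Γ, H.FiniteIndex → ⁅H, H⁆.FiniteIndex

/-- no free subgroup of rank two -/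
def NF2 (Γ : Type) [Group Γ] : Prop := ¬ ∃ f : FreeGroup (Fin 2) →* Γ, Function.Injective f

theorem fi_map {H : Subgroup Γ} (hH : H.FiniteIndex) {L : Subgroup H} (hL : L.FiniteIndex) :
    (L.map H.subtype).FiniteIndex := ⟨by
  rw [Subgroup.index_map_of_injective _ H.subtype_injective, Subgroup.range_subtype]
  exact mul_ne_zero hL.index_ne_zero hH.index_ne_zero⟩

theorem AB.sub (h : AB Γ) {H : Subgroup Γ} (hH : H.FiniteIndex) : AB H := fun L hL => by
  have := h _ (fi_map hH hL)
  rw [← Subgroup.map_commutator] at this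
  rw [← Subgroup.comap_map_eq_self_of_injective H.subtype_injective ⁅L, L⁆]
  exact Subgroup.instFiniteIndex_subgroupOf _ _

theorem AB.ker (h : AB Γ) {M : Type} [Monoid M] (f : Γ →* M) {H : Subgroup Γ} (hH : H.FiniteIndex)
    (hf : ∀ a ∈ H, ∀ b ∈ H, f a * f b = f b * f a) : f.ker.FiniteIndex :=
  have := h H hH
  Subgroup.finiteIndex_of_le (H := ⁅H, H⁆) (Subgroup.commutator_le.2 fun a ha b hb => by
    rw [MonoidHom.mem_ker, commutatorElement_def, map_mul, map_mul, map_mul, hf a ha b hb,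
      ← map_mul, ← map_mul, ← map_mul]
    simp)

theorem NF2.sub (h : NF2 Γ) (H : Subgroup Γ) : NF2 H := fun ⟨f, hf⟩ =>
  h ⟨H.subtype.comp f, H.subtype_injective.comp hf⟩

theorem tits [IsAlgClosed K] [CharZero K] (hK : Cardinal.mk K ≤ Cardinal.continuum) (n : ℕ) :
    ∀ (Γ V : Type) [Group Γ] [AddCommGroup V] [Module K V] [Module.Finite K V],
      finrank K V = n → n ≤ 3 → AB Γ → NF2 Γ → ∀ ρ : Representation K Γ V,
      (∀ x (ζ : K) m, 0 < m → ζ ^ m = 1 → ζ ≠ 1 → Function.Injective (ρ x - ζ • 1 : End K V)) →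
      (n = 3 → ∀ x, End.HasEigenvalue (ρ x) 1) → (MonoidHom.ker ρ).FiniteIndex := by
  classical
  induction n using Nat.strong_induction_on with | h n ih
  intro Γ V _ _ _ _ hn h3 hA hF ρ hE h1
  have up : ∀ H : Subgroup Γ, H.FiniteIndex → (MonoidHom.ker (ρ.comp H.subtype)).FiniteIndex →
      (MonoidHom.ker ρ).FiniteIndex := fun H hH h =>
    have := fi_map hH h
    Subgroup.finiteIndex_of_le (H := (MonoidHom.ker (ρ.comp H.subtype)).map H.subtype)
      (by rintro _ ⟨x, hx, rfl⟩; exact hx)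
  by_cases hI : ∀ H : Subgroup Γ, H.FiniteIndex → Irr ρ H
  swap
  · simp only [Irr, not_forall, not_or] at hI
    obtain ⟨H, hH, W, hW, h4, h5⟩ := hI
    have h6 : finrank K W < n := hn ▸ Submodule.finrank_lt h5
    have h7 : finrank K (V ⧸ W) < n := by
      have := W.finrank_quotient_add_finrank
      have := Submodule.finrank_eq_zero.not.2 h4
      omega
    let σ := Representation.subrepresentation (ρ.comp H.subtype) W fun x => hW x x.2
    let τ := Representation.quotient (ρ.comp H.subtype) W fun x => hW x x.2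
    have h8 := ih _ h6 H W rfl (by omega) (hA.sub hH) (hF.sub H) σ
      (fun x ζ m a b c u v e => Subtype.ext (hE x ζ m a b c (congrArg Subtype.val e)))
      (by omega)
    have h9 := ih _ h7 H (V ⧸ W) rfl (by omega) (hA.sub hH) (hF.sub H) τ
      (fun x ζ m a b c => LinearMap.injective_iff_surjective.2 fun u => by
        obtain ⟨u, rfl⟩ := W.mkQ_surjective u
        obtain ⟨u, rfl⟩ := LinearMap.injective_iff_surjective.1 (hE x ζ m a b c) u
        exact ⟨W.mkQ u, rfl⟩) (by omega)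
    have h10 : ∀ a ∈ MonoidHom.ker σ ⊓ MonoidHom.ker τ, ∀ b ∈ MonoidHom.ker σ ⊓ MonoidHom.ker τ,
        ∀ v, ρ a (ρ b v - v) = ρ b v - v := fun a ha b hb v =>
      congrArg Subtype.val (LinearMap.congr_fun ha.1
        ⟨_, (Submodule.Quotient.eq W).1 (LinearMap.congr_fun hb.2 (W.mkQ v))⟩)
    refine up H hH ((hA.sub hH).ker _ (H := MonoidHom.ker σ ⊓ MonoidHom.ker τ) inferInstance
      fun a ha b hb => LinearMap.ext fun v => ?_)
    have h11 := h10 a ha b hb v
    have h12 := h10 b hb a ha v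
    rw [map_sub, sub_eq_iff_eq_add] at h11 h12
    exact h11.trans (Eq.trans (by abel) h12.symm)
  rcases subsingleton_or_nontrivial V with hV | hV
  · exact Subgroup.finiteIndex_of_le (H := ⊤) fun x _ => Subsingleton.elim _ _
  have hD := hA.ker (LinearMap.det.comp ρ) (H := ⊤) inferInstance fun _ _ _ _ => mul_comm _ _
  have hc : ∀ x, (ρ x).charpoly.roots.card = n := fun x => by
    rw [← (IsAlgClosed.splits _).natDegree_eq_card_roots, LinearMap.charpoly_natDegree, hn]
  have hr : ∀ x a, a ∈ (ρ x).charpoly.roots ↔ End.HasEigenvalue (ρ x) a := fun x a => by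
    rw [End.hasEigenvalue_iff_isRoot_charpoly, Polynomial.mem_roots (LinearMap.charpoly_monic _).ne_zero]
  by_cases hu : ∀ x ∈ (LinearMap.det.comp ρ).ker, ∀ a ∈ (ρ x).charpoly.roots, a = 1
  · refine up _ hD (Subgroup.finiteIndex_of_le (H := ⊤) fun x _ => burnside _
      (fun W hW => hI _ hD W fun y hy => hW ⟨y, hy⟩ trivial) n (fun y => ?_) x)
    change LinearMap.trace K V (ρ y) = n
    rw [End.trace_eq_sum_roots_charpoly_of_splits (IsAlgClosed.splits _),
      Multiset.eq_replicate.2 ⟨hc y, hu y y.2⟩]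
    simp
  push Not at hu
  obtain ⟨g, hg, a, ha, ha1⟩ := hu
  have hp : (ρ g).charpoly.roots.prod = 1 :=
    (End.det_eq_prod_roots_charpoly_of_splits (IsAlgClosed.splits _)).symm.trans hg
  have ht : ∀ a ∈ (ρ g).charpoly.roots, a ≠ 1 → ∀ m, 0 < m → a ^ m ≠ 1 := fun a ha ha1 m hm h => by
    obtain ⟨v, hv⟩ := ((hr g a).1 ha).exists_hasEigenvector
    exact hv.2 (hE g a m hm h ha1 (by simp [hv.apply_eq_smul]))
  have hi : ∀ a ∈ (ρ g).charpoly.roots, a ≠ 1 → a ≠ 0 ∧ 2 ≤ n ∧ a⁻¹ ∈ (ρ g).charpoly.roots := by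
    intro a ha ha1
    obtain ⟨R, hR⟩ := Multiset.exists_cons_of_mem ha
    have h4 := hc g
    have h5 := fun h => (hr g 1).2 (h1 h g)
    rw [hR] at h4 h5 hp ⊢
    rw [Multiset.prod_cons] at hp
    rw [Multiset.card_cons] at h4
    refine ⟨left_ne_zero_of_mul_eq_one hp, ?_⟩
    obtain h | h | h : R.card = 0 ∨ R.card = 1 ∨ R.card = 2 := by omega
    · rw [Multiset.card_eq_zero.1 h] at hp
      exact absurd (by simpa using hp) ha1
    · obtain ⟨b, rfl⟩ := Multiset.card_eq_one.1 h
      exact ⟨by omega, by simp [← eq_inv_of_mul_eq_one_right (by simpa using hp : a * b = 1)]⟩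
    · obtain ⟨S, rfl⟩ := Multiset.exists_cons_of_mem
        ((Multiset.mem_cons.1 (h5 (by omega))).resolve_left ha1.symm)
      obtain ⟨b, rfl⟩ := Multiset.card_eq_one.1 (by simpa using h : S.card = 1)
      exact ⟨by omega, by simp [← eq_inv_of_mul_eq_one_right (by simpa using hp : a * b = 1)]⟩
  obtain ⟨v, hv⟩ := exists_abs hK (ht a ha ha1)
  obtain ⟨c, hc1, hc2⟩ : ∃ c ∈ (ρ g).charpoly.roots, 1 < v c := by
    rcases lt_or_gt_of_ne hv with h | h
    · exact ⟨_, (hi a ha ha1).2.2, by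
        rw [map_inv₀]; exact (one_lt_inv₀ (v.pos (hi a ha ha1).1)).2 h⟩
    · exact ⟨a, ha, h⟩
  have hc3 : c ≠ 1 := fun h => by simp [h] at hc2
  obtain ⟨hc4, hc5, hc6⟩ := hi c hc1 hc3
  have hc7 : c ≠ c⁻¹ := fun h => ht c hc1 hc3 2 two_pos (by
    rw [sq]; nth_rw 2 [h]; exact mul_inv_cancel₀ hc4)
  refine absurd ?_ hF
  obtain rfl | rfl : n = 2 ∨ n = 3 := by omega
  · refine free_of_eigen ρ hI v (ι := Fin 2) (by simp [hn]) g ![c, c⁻¹]
      (List.nodup_ofFn.1 (by simp [hc7])) (Fin.forall_fin_two.2 ⟨(hr g _).1 hc1, (hr g _).1 hc6⟩)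
      (fun b => cond b 0 1) hc2 rfl fun j h h' => ?_
    fin_cases j
    exacts [absurd rfl h, absurd rfl h']
  · refine free_of_eigen ρ hI v (ι := Fin 3) (by simp [hn]) g ![c, c⁻¹, 1]
      (List.nodup_ofFn.1 (by simp [hc7, hc3])) (fun j => ?_) (fun b => cond b 0 1) hc2 rfl
      fun j h h' => ?_
    · fin_cases j
      exacts [(hr g _).1 hc1, (hr g _).1 hc6, h1 rfl g]
    · fin_cases j
      exacts [absurd rfl h, absurd rfl h', rfl]

end Pool.Agent.P.MP_5ee5b4_al
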