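import Pool.Agent.P.MP_5ee5b4_al.Main3
import Pool.Agent.P.MP_5ee5b4_al.TFin

/-! The dichotomy for normal subgroups without free subgroups. -/

namespace Pool.Agent.P.MP_5ee5b4_al

open Pool.Agent.P.MP_6e40fc_al
open scoped commutatorElement

section

variable {p : ℕ} [hp : Fact p.Prime] {K : Type} [Group K] {d : ℕ}

theorem growth_two (h2 : H2c p K d) {χ : Fin d → K → ZMod p} {x : Fin d → K}
    (hχ : ∀ t, IsHom (χ t)) (hx : ∀ t i, χ t (x i) = if t = i then 1 else 0)
    (hd : 2 ≤ d) (Φ : Subgroup K) (hΦ : ∀ k, k ∈ Φ ↔ ∀ t, χ t k = 0) :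
    ∃ φ : Φ → Fin 1 → ZMod p, IsHom φ ∧ Function.Surjective φ := by
  have hd' : 1 + d ≤ Fintype.card {st : Fin d × Fin d // st.1 ≤ st.2} := by
    rw [← Fintype.card_congr Sym2.sortEquiv, Sym2.card, Fintype.card_fin, Nat.choose_two_right,
      Nat.le_div_iff_mul_le two_pos, Nat.add_sub_cancel]
    nlinarith
  let c : K → K → {st : Fin d × Fin d // st.1 ≤ st.2} → ZMod p := fun k l st =>
    if st.1.1 = st.1.2 then carry (χ st.1.1 k) (χ st.1.1 l) else χ st.1.1 k * χ st.1.2 l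
  obtain ⟨v, b, hb⟩ := h2 _ c fun k l m => funext fun st => by
    simp only [c, Pi.add_apply, hχ _ k l, hχ _ l m]
    split_ifs
    · exact carry_coc _ _ _
    · ring
  set q := (Submodule.span (ZMod p) (Set.range v)).mkQ
  have h3 : ∀ k l, b (k * l) = b k + b l - q (c k l) := fun k l => by
    rw [show q (c k l) = _ from hb k l, sub_sub_cancel]
  have h4 : ∀ k ∈ Φ, ∀ l, b (k * l) = b k + b l := fun k hk l => by
    have : c k l = 0 := funext fun st => by simp [c, (hΦ k).1 hk, carry_zero_left]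
    rw [h3, this, map_zero, sub_zero]
  have h5 : IsHom fun k : Φ => b k := fun k l => h4 k k.2 l
  have h6 := h5.surj (p := p) fun Z hZ => by
    rw [eq_top_iff, ← Submodule.range_mkQ, ← Submodule.map_top, ← (Pi.basisFun _ _).span_eq,
      Submodule.map_span, Submodule.span_le]
    rintro _ ⟨_, ⟨⟨⟨s, t⟩, hst⟩, rfl⟩, rfl⟩
    refine Z.neg_mem_iff.1 ?_
    rcases eq_or_lt_of_le hst with h | h
    · obtain rfl : s = t := h
      have h6 : ∀ j : ℕ, c (x s ^ j) (x s) = carry (j : ZMod p) 1 • Pi.single ⟨(s, s), hst⟩ 1 :=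
        fun j => funext fun ⟨⟨a, e⟩, hae⟩ => by
          simp only [c, (hχ _).pow, hx, Pi.smul_apply, Pi.single_apply, Subtype.mk.injEq,
            Prod.mk.injEq]
          by_cases h1 : a = s <;> by_cases h2 : e = s <;> simp_all [carry_zero_left, eq_comm]
      have h7 : ∀ j : ℕ, j < p → b (x s ^ j) = j • b (x s) := fun j hj => by
        induction j with
        | zero => rw [pow_zero, zero_smul]; exact h5.one
        | succ j ih =>
          rw [pow_succ, h3, ih (by omega), h6, carry, ZMod.val_natCast_of_lt (by omega), ZMod.val_one,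
            Nat.div_eq_of_lt hj, succ_nsmul]
          simp
      obtain ⟨j, hj⟩ := Nat.exists_eq_succ_of_ne_zero hp.out.ne_zero
      have h8 : x s ^ (j + 1) ∈ Φ := (hΦ _).2 fun t => by
        rw [(hχ t).pow, ← Nat.succ_eq_add_one, ← hj, nsmul_eq_mul, ZMod.natCast_self, zero_mul]
      refine mem_of_eq (hZ ⟨_, h8⟩) ?_
      change _ = b (x s ^ (j + 1))
      rw [pow_succ, h3, h7 j (by omega), h6, carry, ZMod.val_natCast_of_lt (by omega), ZMod.val_one,
        ← succ_nsmul, ← Nat.succ_eq_add_one, ← hj, Nat.div_self hp.out.pos,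
        ← Nat.cast_smul_eq_nsmul (ZMod p), ZMod.natCast_self]
      simp [q]
    · have h' : s ≠ t := h.ne
      have h6 : c (x s) (x t) = Pi.single ⟨(s, t), hst⟩ 1 := funext fun ⟨⟨a, e⟩, hae⟩ => by
        simp only [c, hx, Pi.single_apply, Subtype.mk.injEq, Prod.mk.injEq]
        by_cases h1 : a = s <;> by_cases h2 : e = t <;> by_cases h3 : a = e <;>
          simp_all [carry_zero_left, carry_zero_right]
      have h7 : c (x t) (x s) = 0 := funext fun ⟨⟨a, e⟩, hae⟩ => by
        simp only [c, hx, Pi.zero_apply]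
        by_cases h1 : a = t
        · subst h1
          have : e ≠ s := (lt_of_lt_of_le h hae).ne'
          simp [this, h'.symm, carry_zero_right]
        · simp [h1, carry_zero_left]
      have h8 : x s * x t * (x t * x s)⁻¹ ∈ Φ := (hΦ _).2 fun r => by
        rw [hχ, (hχ r).inv, hχ, hχ]; ring
      refine mem_of_eq (hZ ⟨_, h8⟩) ?_
      have h9 := h4 _ h8 (x t * x s)
      rw [inv_mul_cancel_right, h3 (x s), h3 (x t), h6, h7, map_zero, sub_zero] at h9
      rw [eq_sub_of_add_eq h9.symm]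
      simp [q]
      abel
  have h7 := (Submodule.span (ZMod p) (Set.range v)).finrank_quotient_add_finrank
  have h8 := finrank_range_le_card (R := ZMod p) v
  rw [Module.finrank_fintype_fun_eq_card] at h7
  rw [Fintype.card_fin, Set.finrank] at h8
  let L := LinearMap.funLeft (ZMod p) (ZMod p) (Fin.castLE (by omega : 1 ≤ _)) ∘ₗ
    (Module.finBasis (ZMod p) (_ ⧸ Submodule.span (ZMod p) (Set.range v))).equivFun.toLinearMap
  have hL : Function.Surjective L := by
    rw [LinearMap.coe_comp]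
    exact (LinearMap.funLeft_surjective_of_injective _ _ _ (Fin.castLE_injective _)).comp
      (LinearEquiv.surjective _)
  exact ⟨fun k => L (b k), fun k l => by rw [← map_add]; exact congrArg L (h5 k l), hL.comp h6⟩

theorem IsHom.fr {ψ : K → ZMod p} (h : IsHom ψ) : Fr p ⊤ ≤ h.mk.ker :=
  Fr_le_iff.2 ⟨Abelianization.commutator_subset_ker _, fun x _ => by
    change ψ (x ^ p) = 0
    rw [h.pow, nsmul_eq_mul, ZMod.natCast_self, zero_mul]⟩

theorem fr_basis {χ : Fin d → K → ZMod p} {x : Fin d → K} (h1 : ∀ t, IsHom (χ t))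
    (h2 : ∀ t i, χ t (x i) = if t = i then 1 else 0)
    (h3 : ∀ ψ : K → ZMod p, IsHom ψ → ∃ a : Fin d → ZMod p, ∀ k, ψ k = ∑ t, a t * χ t k) :
    (∀ k, k ∈ Fr p ⊤ ↔ ∀ t, χ t k = 0) ∧ (Fr p (⊤ : Subgroup K)).index = p ^ d ∧
      Function.Surjective fun k t => χ t k := by
  have h4 : ∀ k, k ∈ Fr p ⊤ ↔ ∀ t, χ t k = 0 := fun k => ⟨fun h t => (h1 t).fr h, fun h => by
    have := (Subgroup.Normal.quotient_commutative_iff_commutator_le (N := Fr p (⊤ : Subgroup K))).2
      (Fr_le_iff.1 le_rfl).1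
    let _ : CommGroup (K ⧸ Fr p ⊤) := { (inferInstance : Group (K ⧸ Fr p ⊤)) with
      mul_comm := mul_comm' }
    obtain ⟨_⟩ : Nonempty (Module (ZMod p) (Additive (K ⧸ Fr p ⊤))) :=
      ⟨AddCommGroup.zmodModule fun y => by
        obtain ⟨y, rfl⟩ := QuotientGroup.mk_surjective (α := K) y
        exact (QuotientGroup.eq_one_iff (y ^ p)).2 (pow_mem_Fr trivial)⟩
    refine (QuotientGroup.eq_one_iff k).1 ((Module.forall_dual_apply_eq_zero_iff (ZMod p)
      (Additive.ofMul (k : K ⧸ Fr p ⊤))).1 fun f => ?_)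
    obtain ⟨a, ha⟩ := h3 (fun k => f (Additive.ofMul (k : K ⧸ Fr p ⊤))) fun a b =>
      f.map_add (Additive.ofMul (a : K ⧸ Fr p ⊤)) (Additive.ofMul (b : K ⧸ Fr p ⊤))
    simp [ha k, h]⟩
  have h5 : IsHom fun k t => χ t k := fun a b => funext fun t => h1 t a b
  have h6 := h5.surj (p := p) fun Z hZ => by
    rw [eq_top_iff, ← (Pi.basisFun (ZMod p) (Fin d)).span_eq, Submodule.span_le]
    rintro _ ⟨i, rfl⟩
    exact mem_of_eq (hZ (x i)) (funext fun t => by simp [h2, Pi.single_apply])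
  refine ⟨h4, ?_, h6⟩
  rw [show Fr p ⊤ = h5.mk.ker from Subgroup.ext fun k => (h4 k).trans funext_iff.symm,
    Subgroup.index_ker, MonoidHom.range_eq_top.2 h6, Subgroup.card_top,
    Nat.card_congr Multiplicative.toAdd, Nat.card_fun, Nat.card_zmod, Nat.card_eq_fintype_card,
    Fintype.card_fin]

end

variable {Γ : Type} [Group Γ]

theorem Fr_top (p : ℕ) (V : Subgroup Γ) : (Fr p ⊤).map V.subtype = Fr p V := by
  rw [Fr_map, ← MonoidHom.range_eq_map, Subgroup.range_subtype]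

theorem Fr_relIndex (p : ℕ) (V : Subgroup Γ) :
    (Fr p V).relIndex V = (Fr p (⊤ : Subgroup V)).index := by
  rw [← Fr_top, Subgroup.relIndex, Subgroup.subgroupOf,
    Subgroup.comap_map_eq_self_of_injective V.subtype_injective]

theorem rk_of_nf (hG : IsPD 3 Γ) (hN : NF (⊤ : Subgroup Γ)) (p : ℕ) (hp : p.Prime) : Rk p Γ :=
  fun V _ => by
    have := Fact.mk hp
    have := IsPD.fg hG
    obtain ⟨d, χ, x, h1, h2, h3, -⟩ := exists_basis_hom p V
    obtain ⟨-, h4, h5⟩ := fr_basis h1 h2 h3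
    refine ⟨d, not_lt.1 fun h => not_nf_of_rank hG V (fun k t => χ (Fin.castLE h t) k)
      (fun a b => funext fun t => h1 _ a b) ?_ hN, (Fr_relIndex p V).trans h4⟩
    exact (LinearMap.funLeft_surjective_of_injective (ZMod p) (ZMod p) _
      (Fin.castLE_injective h)).comp h5

theorem exists_g2 (hG : IsPD 3 Γ) : ∃ L : Subgroup Γ, L.FiniteIndex ∧ ∀ p, p.Prime → G2 p L := by
  classical
  have := IsPD.fg hG
  obtain ⟨w, hw⟩ := exists_dd hG
  obtain ⟨T, hT, -⟩ := exists_family this 1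
  obtain ⟨hfg, ⟨D⟩⟩ := hw T Subtype.val hT
  refine ⟨w.ker, inferInstance, fun p hp V hV _ h => ?_⟩
  have := Fact.mk hp
  obtain ⟨d, χ, x, h1, h2, h3, -⟩ := exists_basis_hom p V
  obtain ⟨h4, h5, -⟩ := fr_basis h1 h2 h3
  rw [Fr_relIndex, h5]
  refine (Nat.pow_le_pow_right hp.pos (not_lt.1 fun h6 => ?_)).trans (pow_one p).le
  obtain ⟨φ, h7, h8⟩ := growth_two (fun _ _ _ c hc => D.h2c hT hfg V (fun k a => by
    rw [show w k = 1 from hV k.2, Units.val_one, one_smul]) χ h1 h3 c hc) h1 h2 h6 _ h4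
  have h9 : Fr p (⊤ : Subgroup (Fr p (⊤ : Subgroup V))) = ⊤ :=
    Subgroup.map_injective (Subgroup.subtype_injective _) (Subgroup.map_injective
      V.subtype_injective (by
        rw [Fr_top, Fr_map, ← MonoidHom.range_eq_map, Subgroup.range_subtype, Fr_top, h]))
  obtain ⟨k, hk⟩ := h8 1
  have h10 : φ k 0 = 0 := IsHom.fr (ψ := fun k => φ k 0) (fun a b => congrFun (h7 a b) 0)
    (h9.ge trivial)
  rw [hk] at h10
  exact one_ne_zero h10

theorem ab_of_not_vb (hG : IsPD 3 Γ) (h : ¬ VB Γ) : AB Γ := fun H hH => by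
  have := IsPD.fg hG
  rw [← H.map_subtype_commutator]
  refine fi_map hH (by_contra fun h1 => ?_)
  have : Infinite (Abelianization H) :=
    not_finite_iff_infinite.1 fun h2 => h1 (@Subgroup.finiteIndex_of_finite_quotient _ _ _ h2)
  have : Group.FG (Abelianization H) :=
    Group.fg_of_surjective (f := Abelianization.of) QuotientGroup.mk_surjective
  obtain ⟨χ, a, ha⟩ := exists_char (Abelianization H) mul_comm
  obtain ⟨a, rfl⟩ := QuotientGroup.mk_surjective a
  exact h ⟨H, hH, χ.comp Abelianization.of, a, ha⟩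

theorem NoFree.nf2 {N L : Subgroup Γ} (h : NoFree N) (hL : L ≤ N) : NF2 L := fun ⟨f, hf⟩ => by
  have hf' : Function.Injective (L.subtype.comp f) := L.subtype_injective.comp hf
  have h2 := h (L.subtype.comp f).range (by rintro _ ⟨x, rfl⟩; exact hL (f x).2)
    (IsFreeGroup.ofMulEquiv (MonoidHom.ofInjective hf'))
    ⟨_, FreeGroup.of 0, rfl⟩ ⟨_, FreeGroup.of 1, rfl⟩
  have h3 : (FreeGroup.of 0 * FreeGroup.of 1 : FreeGroup (Fin 2)) =
      FreeGroup.of 1 * FreeGroup.of 0 := hf' (by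
    rw [map_mul, map_mul]; exact congrArg Subtype.val h2)
  exact absurd h3 (by decide)

theorem residual_final (hG : IsPD3 Γ) (N : Subgroup Γ) (hn : N.Normal) (hN : NoFree N) :
    (∃ K : Subgroup N, K.FiniteIndex ∧ Group.IsSolvable K) ∨
      ∃ T : Subgroup Γ, T.Normal ∧ T ≤ N ∧ T ≠ ⊥ ∧ (∀ S : Subgroup T, S.FiniteIndex → S = ⊤) ∧
        (T.FiniteIndex ∨ (¬ N.FiniteIndex ∧ T = ⁅N, N⁆)) := by
  by_cases hi : N.FiniteIndex
  swap
  · refine (infinite_index_final hG N hn hN hi).imp_right fun ⟨_, h1, _, h2⟩ =>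
      ⟨_, inferInstance, N.commutator_le_self, h1, fun S _ => ?_, Or.inr ⟨hi, rfl⟩⟩
    have := (h2 _ N.commutator_le_self).2.2.1 _ _ (QuotientGroup.mk'_surjective S.normalCore)
    refine eq_top_iff.2 (le_trans (Subgroup.map_injective (Subgroup.subtype_injective _) ?_).ge
      ((Subgroup.Normal.quotient_commutative_iff_commutator_le.1 inferInstance).trans
        S.normalCore_le))
    rw [Subgroup.map_subtype_commutator, (h2 N le_rfl).2.1, ← MonoidHom.range_eq_map,
      Subgroup.range_subtype]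
  have h1 := NF.top hN.nf
  by_cases h2 : VB Γ
  · exact Or.inl ((h2.vs hG h1).sub N)
  obtain ⟨L, h3, h4⟩ := exists_g2 (Γ := Γ) hG
  have h5 : (L ⊓ N).FiniteIndex := inferInstance
  obtain ⟨R, h6, h7⟩ := exists_min ((ab_of_not_vb hG h2).sub h5) (hN.nf2 inf_le_right)
    (fun p hp => (rk_of_nf hG h1 p hp).sub h5) fun p hp => (h4 p hp).sub h5 inf_le_left
  have h8 := fi_map h5 h6
  have h9 : ∀ S : Subgroup Γ, S.FiniteIndex → R.map (L ⊓ N).subtype ≤ S := fun S _ =>
    Subgroup.map_le_iff_le_comap.2 (h7 _ (Subgroup.instFiniteIndex_subgroupOf _ _))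
  generalize R.map (L ⊓ N).subtype = T at h8 h9
  by_cases h10 : T = ⊥
  · subst h10
    refine Or.inl ⟨_, Subgroup.instFiniteIndex_subgroupOf ⊥ N, ?_⟩
    rw [Subgroup.bot_subgroupOf]
    infer_instance
  refine Or.inr ⟨T, (T.normalCore_le.antisymm (h9 _ inferInstance)) ▸ inferInstance, h9 N hi, h10,
    fun S hS => eq_top_iff.2 fun x _ => ?_, Or.inl h8⟩
  obtain ⟨y, h11, h12⟩ := h9 _ (fi_map h8 hS) x.2
  exact (Subtype.ext h12 : y = x) ▸ h11

end Pool.Agent.P.MP_5ee5b4_al
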