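import Mathlib

/-! Integral matrices of actions on homocyclic groups and their limits. -/

namespace Pool.Agent.P.MP_5ee5b4_al

open Matrix Filter Topology

variable {Γ B : Type} [Group Γ] [AddCommGroup B] {p r k : ℕ} [hp : Fact p.Prime]

theorem exists_basis (E : Type) [AddCommGroup E] (h0 : ∀ x : E, p • x = 0)
    (h : Nat.card E = p ^ r) : ∃ e : Fin r → E, (∀ y, ∃ a : Fin r → ℤ, y = ∑ i, a i • e i) ∧
      ∀ a : Fin r → ℤ, ∑ i, a i • e i = 0 → ∀ i, (p : ℤ) ∣ a i := by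
  obtain ⟨_⟩ : Nonempty (Module (ZMod p) E) := ⟨AddCommGroup.zmodModule h0⟩
  have : Finite E := Nat.finite_of_card_ne_zero (h ▸ pow_ne_zero r hp.out.ne_zero :)
  have h1 := Module.natCard_eq_pow_finrank (K := ZMod p) (V := E)
  rw [Nat.card_zmod] at h1
  let e := Module.finBasisOfFinrankEq (ZMod p) E
    (Nat.pow_right_injective hp.out.two_le (h1.symm.trans h))
  refine ⟨e, fun y => ⟨fun i => (e.repr y i).cast, ?_⟩, fun a ha i =>
    (ZMod.intCast_zmod_eq_zero_iff_dvd _ p).1 (Fintype.linearIndependent_iff.1 e.linearIndependent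
      (fun i => (a i : ZMod p)) (by simpa only [Int.cast_smul_eq_zsmul] using ha) i)⟩
  simp only [← Int.cast_smul_eq_zsmul (ZMod p), ZMod.intCast_cast, ZMod.cast_id', id, e.sum_repr]

theorem exists_coord (hk : ∀ b : B, p ^ k • b = 0)
    (h1 : (nsmulAddMonoidHom p : B →+ B).range.index = p ^ r)
    (hJ : ∀ l < k, ∀ b : B, (∃ c, p ^ (l + 1) • c = p • b) → ∃ c, p ^ l • c = b) :
    ∃ β : (Fin r → ℤ) →ₗ[ℤ] B, Function.Surjective β ∧
      ∀ l ≤ k, ∀ a, (∃ c, p ^ l • c = β a) → ∀ i, (p : ℤ) ^ l ∣ a i := by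
  let N := (nsmulAddMonoidHom p : B →+ B).range
  obtain ⟨e, he, he'⟩ := exists_basis (B ⧸ N) (fun x => by
    obtain ⟨x, rfl⟩ := QuotientAddGroup.mk_surjective x
    exact (QuotientAddGroup.eq_zero_iff _).2 ⟨x, rfl⟩) h1
  choose x hx using fun i => QuotientAddGroup.mk'_surjective N (e i)
  let β := Fintype.linearCombination ℤ x
  have h3 : ∀ a, QuotientAddGroup.mk' N (β a) = ∑ i, a i • e i := fun a => by
    simp only [β, Fintype.linearCombination_apply, map_sum, map_zsmul, hx]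
  have h4 : ∀ l b, ∃ a c, b = β a + p ^ l • c := fun l => by
    induction l with
    | zero => exact fun b => ⟨0, b, by simp⟩
    | succ l ih =>
      intro b
      obtain ⟨a', ha'⟩ := he (QuotientAddGroup.mk' N b)
      obtain ⟨c, hc⟩ : b - β a' ∈ N := QuotientAddGroup.eq_iff_sub_mem.1 (ha'.trans (h3 a').symm)
      obtain ⟨a, d, rfl⟩ := ih c
      refine ⟨a' + p • a, d, (eq_add_of_sub_eq' hc.symm).trans ?_⟩
      rw [nsmulAddMonoidHom_apply, map_add, map_nsmul, pow_succ', mul_smul, smul_add, add_assoc]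
  refine ⟨β, fun b => ?_, fun l => ?_⟩
  · obtain ⟨a, c, h⟩ := h4 k b
    exact ⟨a, by rw [h, hk, add_zero]⟩
  induction l with
  | zero => simp
  | succ l ih =>
    intro hl a ⟨c, hc⟩
    have h5 := he' a ((h3 a).symm.trans ((QuotientAddGroup.eq_zero_iff _).2
      ⟨p ^ l • c, by rw [← hc, pow_succ', mul_smul]; rfl⟩))
    choose a' ha' using h5
    obtain rfl : a = p • a' := funext fun i => by simp [ha']
    intro i
    rw [pow_succ', Pi.smul_apply, nsmul_eq_mul]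
    exact mul_dvd_mul_left _ (ih (by omega) a' (hJ l hl _ ⟨c, hc.trans (map_nsmul β _ _)⟩) i)

theorem exists_mat (hk : ∀ b : B, p ^ k • b = 0)
    (h1 : (nsmulAddMonoidHom p : B →+ B).range.index = p ^ r)
    (hJ : ∀ l < k, ∀ b : B, (∃ c, p ^ (l + 1) • c = p • b) → ∃ c, p ^ l • c = b)
    (c : Γ → B →+ B) (hc : ∀ γ δ b, c (γ * δ) b = c γ (c δ b)) :
    ∃ A : Γ → Matrix (Fin r) (Fin r) ℤ,
      (∀ γ δ i m, (p : ℤ) ^ k ∣ (A (γ * δ) - A γ * A δ) i m) ∧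
      (∀ l ≤ k, ∀ γ, (∀ i m, (p : ℤ) ^ l ∣ (A γ - 1) i m) ↔ ∀ b, ∃ d, p ^ l • d = c γ b - b) ∧
      ∀ γ b, (¬ ∃ d, p ^ 1 • d = b) → c γ b = b → (p : ℤ) ^ k ∣ (A γ - 1).det := by
  obtain ⟨β, h2, h3⟩ := exists_coord hk h1 hJ
  choose L hL using fun γ => Module.projective_lifting_property β ((c γ).toIntLinearMap ∘ₗ β) h2
  have h4 : ∀ γ a, β (LinearMap.toMatrix' (L γ) *ᵥ a) = c γ (β a) := fun γ a => by
    rw [← toLin'_apply, toLin'_toMatrix']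
    exact LinearMap.congr_fun (hL γ) a
  have h5 : ∀ l a, (∀ i, (p : ℤ) ^ l ∣ a i) → ∃ d, p ^ l • d = β a := fun l a h => by
    choose a' ha' using h
    exact ⟨β a', by rw [← map_nsmul]; exact congrArg β (funext fun i => by simp [ha'])⟩
  have h6 : ∀ l ≤ k, ∀ X : Matrix (Fin r) (Fin r) ℤ, (∀ i m, (p : ℤ) ^ l ∣ X i m) ↔
      ∀ a, ∃ d, p ^ l • d = β (X *ᵥ a) := fun l hl X =>
    ⟨fun h a => h5 l _ fun i => Finset.dvd_sum (s := Finset.univ) fun m _ => (h i m).mul_right (a m),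
      fun h i m => by simpa using h3 l hl _ (h (Pi.single m 1)) i⟩
  refine ⟨fun γ => LinearMap.toMatrix' (L γ), fun γ δ => (h6 k le_rfl _).2 fun a => ⟨0, ?_⟩,
    fun l hl γ => ?_, fun γ b h7 h8 => ?_⟩
  · rw [sub_mulVec, ← mulVec_mulVec, map_sub, h4, h4, h4, hc, sub_self, smul_zero]
  · simp only [h6 l hl, sub_mulVec, map_sub, h4, one_mulVec, h2.forall]
  · obtain ⟨a, rfl⟩ := h2 b
    obtain ⟨i, hi⟩ : ∃ i, ¬ (p : ℤ) ∣ a i := by
      by_contra! h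
      exact h7 (h5 1 a fun i => by simpa using h i)
    have h9 := h3 k le_rfl ((LinearMap.toMatrix' (L γ) - 1) *ᵥ a)
      ⟨0, by rw [sub_mulVec, map_sub, h4, h8, one_mulVec, sub_self, smul_zero]⟩
    have h10 : (p : ℤ) ^ k ∣ ((LinearMap.toMatrix' (L γ) - 1).adjugate *ᵥ
        (LinearMap.toMatrix' (L γ) - 1) *ᵥ a) i := Finset.dvd_sum (s := Finset.univ) fun m _ =>
      (h9 m).mul_left ((LinearMap.toMatrix' (L γ) - 1).adjugate i m)
    rw [mulVec_mulVec, adjugate_mul, smul_mulVec, one_mulVec] at h10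
    exact (Nat.prime_iff_prime_int.1 hp.out).pow_dvd_of_dvd_mul_right _ hi h10

theorem lim_le {f : ℕ → ℤ} {z : ℤ_[p]} (h : Tendsto (fun k => (f k : ℤ_[p])) (hyperfilter ℕ) (𝓝 z))
    (l : ℕ) (h' : ∀ k ≥ l, (p : ℤ) ^ l ∣ f k) : ‖z‖ ≤ (p : ℝ) ^ (-l : ℤ) :=
  le_of_tendsto h.norm (Nat.hyperfilter_le_atTop (eventually_atTop.2 ⟨l, fun k hk =>
    PadicInt.norm_int_le_pow_iff_dvd.2 (h' k hk)⟩))

theorem lim_zero {f : ℕ → ℤ} {z : ℤ_[p]} (h : Tendsto (fun k => (f k : ℤ_[p])) (hyperfilter ℕ) (𝓝 z))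
    (h' : ∀ k, (p : ℤ) ^ k ∣ f k) : z = 0 := by
  refine norm_le_zero_iff.1 (ge_of_tendsto' (tendsto_pow_atTop_nhds_zero_of_lt_one
    (r := (p : ℝ)⁻¹) (by positivity) (inv_lt_one_of_one_lt₀ (by exact_mod_cast hp.out.one_lt)))
    fun l => ?_)
  simpa using lim_le h l fun k hk => (pow_dvd_pow _ hk).trans (h' k)

theorem exists_lim (A : ℕ → Γ → Matrix (Fin r) (Fin r) ℤ)
    (h1 : ∀ k γ δ i m, (p : ℤ) ^ k ∣ (A k (γ * δ) - A k γ * A k δ) i m)
    (h2 : ∀ k i m, (p : ℤ) ^ k ∣ (A k 1 - 1) i m) :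
    ∃ ρ : Γ →* Matrix (Fin r) (Fin r) ℤ_[p],
      (∀ γ l, (∀ k ≥ l, ∀ i m, (p : ℤ) ^ l ∣ (A k γ - 1) i m) →
        ∀ i m, ‖(ρ γ - 1) i m‖ ≤ (p : ℝ) ^ (-l : ℤ)) ∧
      (∀ γ, (∀ k, (p : ℤ) ^ k ∣ (A k γ - 1).det) → (ρ γ - 1).det = 0) ∧
      ∀ γ, ρ γ = 1 → ∀ l, ∃ k ≥ l, ∀ i m, (p : ℤ) ^ l ∣ (A k γ - 1) i m := by
  let φ := (Int.castRingHom ℤ_[p]).mapMatrix (m := Fin r)
  have : CompactSpace (Matrix (Fin r) (Fin r) ℤ_[p]) :=
    inferInstanceAs (CompactSpace (Fin r → Fin r → ℤ_[p]))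
  choose ρ _ hρ using fun γ => isCompact_univ.ultrafilter_le_nhds
    ((hyperfilter ℕ).map fun k => φ (A k γ)) (by simp)
  replace hρ : ∀ γ, Tendsto (fun k => φ (A k γ)) (hyperfilter ℕ) (𝓝 (ρ γ)) := hρ
  have h3 : ∀ {X : ℕ → Matrix (Fin r) (Fin r) ℤ} {Y}, Tendsto (fun k => φ (X k)) (hyperfilter ℕ) (𝓝 Y) →
      ∀ i m, Tendsto (fun k => (X k i m : ℤ_[p])) (hyperfilter ℕ) (𝓝 (Y i m)) := fun h i m =>
    tendsto_pi_nhds.1 (tendsto_pi_nhds.1 h i) m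
  have h4 : ∀ γ, Tendsto (fun k => φ (A k γ - 1)) (hyperfilter ℕ) (𝓝 (ρ γ - 1)) := fun γ => by
    simpa only [map_sub, map_one] using (hρ γ).sub_const 1
  refine ⟨{ toFun := ρ
            map_one' := sub_eq_zero.1 (Matrix.ext fun i m => lim_zero (h3 (h4 1) i m) (h2 · i m))
            map_mul' := fun γ δ => sub_eq_zero.1 (Matrix.ext fun i m =>
              lim_zero (h3 (X := fun k => A k (γ * δ) - A k γ * A k δ) ?_ i m) (h1 · γ δ i m)) },
    fun γ l h i m => lim_le (h3 (h4 γ) i m) l fun k hk => h k hk i m, fun γ h => lim_zero ?_ h,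
    fun γ h l => ?_⟩
  · simpa only [map_sub, map_mul] using (hρ _).sub ((hρ γ).mul (hρ δ))
  · have := ((continuous_id.matrix_det).tendsto _).comp (h4 γ)
    exact this.congr fun k => ((Int.castRingHom ℤ_[p]).map_det _).symm
  · have h5 : ∀ᶠ k in hyperfilter ℕ, ∀ i m, (p : ℤ) ^ l ∣ (A k γ - 1) i m :=
      eventually_all.2 fun i => eventually_all.2 fun m => by
        have h5 := (h3 (h4 γ) i m).norm
        rw [show ρ γ = 1 from h, sub_self, Matrix.zero_apply, norm_zero] at h5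
        exact (h5.eventually_le_const (zpow_pos (by exact_mod_cast hp.out.pos) _)).mono
          fun k => PadicInt.norm_int_le_pow_iff_dvd.1
    exact (Eventually.and (Nat.hyperfilter_le_atTop (eventually_ge_atTop l)) h5).exists

theorem root_eq_one (X : Matrix (Fin r) (Fin r) (PadicAlgCl p))
    (h : ∀ (n : ℕ) i m, ‖(X ^ n - 1 : Matrix _ _ _) i m‖ ≤ (p : ℝ) ^ (-(2 : ℕ) : ℤ)) {ζ : PadicAlgCl p} {m : ℕ}
    (hm : 0 < m) (h1 : ζ ^ m = 1) {v : Fin r → PadicAlgCl p} (hv : v ≠ 0) (h2 : X *ᵥ v = ζ • v) :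
    ζ = 1 := by
  have h0 : (0 : ℝ) ≤ (p : ℝ) ^ (-(2 : ℕ) : ℤ) := by positivity
  have h3 : ∀ n, ‖1 - ζ ^ n‖ ≤ (p : ℝ) ^ (-(2 : ℕ) : ℤ) := fun n => by
    have h3 : X ^ n *ᵥ v = ζ ^ n • v := by
      induction n with
      | zero => simp
      | succ n ih => rw [pow_succ, ← mulVec_mulVec, h2, mulVec_smul, ih, smul_smul, pow_succ']
    have h4 : ‖(X ^ n - 1) *ᵥ v‖ ≤ (p : ℝ) ^ (-(2 : ℕ) : ℤ) * ‖v‖ :=
      (pi_norm_le_iff_of_nonneg (by positivity)).2 fun i =>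
        IsUltrametricDist.norm_sum_le_of_forall_le_of_nonneg (s := Finset.univ)
          (f := fun m => (X ^ n - 1 : Matrix _ _ _) i m * v m) (by positivity) fun m _ =>
          (norm_mul _ _).trans_le (mul_le_mul (h n i m) (norm_le_pi_norm v m) (norm_nonneg _) h0)
    rw [sub_mulVec, h3, one_mulVec, ← one_smul (PadicAlgCl p) v, smul_smul, mul_one, ← sub_smul,
      norm_smul, norm_sub_rev, one_smul] at h4
    exact le_of_mul_le_mul_right h4 (norm_pos_iff.2 hv)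
  by_contra h4
  obtain ⟨q, hq, c, hc⟩ := Nat.exists_prime_and_dvd (orderOf_eq_one_iff.not.2 h4)
  have h5 := (isOfFinOrder_iff_pow_eq_one.2 ⟨m, hm, h1⟩).orderOf_pos
  have h6 : ζ ^ c ≠ 1 := pow_ne_one_of_lt_orderOf (by rintro rfl; omega)
    (by nlinarith [hq.two_le, Nat.pos_of_mul_pos_left (hc ▸ h5)])
  have h7 : ∑ i ∈ Finset.range q, (ζ ^ c) ^ i = 0 := by
    have := geom_sum_mul (ζ ^ c) q
    rw [← pow_mul, mul_comm c, ← hc, pow_orderOf_eq_one, sub_self] at this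
    exact (mul_eq_zero.1 this).resolve_right (sub_ne_zero.2 h6)
  have h8 : ‖∑ i ∈ Finset.range q, (1 - (ζ ^ c) ^ i)‖ ≤ (p : ℝ) ^ (-(2 : ℕ) : ℤ) :=
    IsUltrametricDist.norm_sum_le_of_forall_le_of_nonneg h0 fun i _ => pow_mul ζ c i ▸ h3 _
  rw [Finset.sum_sub_distrib, h7, sub_zero, Finset.sum_const, Finset.card_range, nsmul_one,
    ← map_natCast (algebraMap ℚ_[p] (PadicAlgCl p)), PadicAlgCl.norm_extends, ← Int.cast_natCast,
    Padic.norm_int_le_pow_iff_dvd, ← Nat.cast_pow, Int.natCast_dvd_natCast] at h8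
  exact hp.out.ne_one (hq.squarefree p (sq p ▸ h8) |> Nat.isUnit_iff.1)

end Pool.Agent.P.MP_5ee5b4_al
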