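import Mathlib

/-! The Frattini tower and finite groups of prime power order. -/

namespace Pool.Agent.P.MP_5ee5b4_al

open Subgroup
open scoped commutatorElement

variable {Γ Q : Type} [Group Γ] [Group Q] {p : ℕ}

/-- commutators and powers -/
def Fr (p : ℕ) (V : Subgroup Γ) : Subgroup Γ := ⁅V, V⁆ ⊔ closure ((· ^ p) '' V)

theorem Fr_le_iff {V W : Subgroup Γ} : Fr p V ≤ W ↔ ⁅V, V⁆ ≤ W ∧ ∀ x ∈ V, x ^ p ∈ W := by
  simp [Fr, Set.subset_def]

theorem Fr_le (V : Subgroup Γ) : Fr p V ≤ V :=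
  Fr_le_iff.2 ⟨V.commutator_le_self, fun _ h => V.pow_mem h _⟩

theorem pow_mem_Fr {V : Subgroup Γ} {x : Γ} (h : x ∈ V) : x ^ p ∈ Fr p V :=
  (Fr_le_iff.1 le_rfl).2 x h

theorem Fr_mono {V W : Subgroup Γ} (h : V ≤ W) : Fr p V ≤ Fr p W :=
  Fr_le_iff.2 ⟨(commutator_mono h h).trans le_sup_left, fun _ hx => pow_mem_Fr (h hx)⟩

theorem Fr_map (f : Γ →* Q) (V : Subgroup Γ) : (Fr p V).map f = Fr p (V.map f) := by
  simp only [Fr, Subgroup.map_sup, map_commutator, MonoidHom.map_closure, coe_map, Set.image_image,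
    map_pow]

instance Fr_normal (V : Subgroup Γ) [h : V.Normal] : (Fr p V).Normal := ⟨fun n hn g =>
  Fr_mono (V := V.map (MulAut.conj g).toMonoidHom) (by rintro _ ⟨x, hx, rfl⟩; exact h.1 x hx g)
    ((Fr_map (MulAut.conj g).toMonoidHom V).le ⟨n, hn, rfl⟩)⟩

/-- the Frattini tower -/
def It (p : ℕ) (V : Subgroup Γ) : ℕ → Subgroup Γ
  | 0 => V
  | i + 1 => Fr p (It p V i)

instance It_normal (V : Subgroup Γ) [h : V.Normal] : ∀ i, (It p V i).Normal
  | 0 => h
  | i + 1 => @Fr_normal _ _ _ _ (It_normal V i)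

theorem It_add (V : Subgroup Γ) (i : ℕ) : ∀ j, It p (It p V i) j = It p V (i + j)
  | 0 => rfl
  | j + 1 => congrArg (Fr p) (It_add V i j)

theorem It_map (f : Γ →* Q) (V : Subgroup Γ) : ∀ i, (It p V i).map f = It p (V.map f) i
  | 0 => rfl
  | i + 1 => (Fr_map f _).trans (congrArg (Fr p) (It_map f V i))

theorem It_anti (V : Subgroup Γ) : Antitone (It p V) := antitone_nat_of_succ_le fun _ => Fr_le _

theorem pow_mem_It {V : Subgroup Γ} {x : Γ} (h : x ∈ V) : ∀ i, x ^ p ^ i ∈ It p V i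
  | 0 => by rwa [pow_zero, pow_one]
  | i + 1 => by rw [pow_succ, pow_mul]; exact pow_mem_Fr (pow_mem_It h i)

theorem comm_of_bot {S T : Subgroup Γ} (h : ⁅S, T⁆ = ⊥) {x y : Γ} (hx : x ∈ S) (hy : y ∈ T) :
    Commute x y := commutatorElement_eq_one_iff_commute.1 (h.le (commutator_mem_commutator hx hy))

theorem bot_of_comm {S T : Subgroup Γ} (h : ∀ x ∈ S, ∀ y ∈ T, Commute x y) : ⁅S, T⁆ = ⊥ :=
  eq_bot_iff.2 (commutator_le.2 fun x hx y hy => (h x hx y hy).commutator_eq)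

/-- the power map of an abelian subgroup -/
def powHom {S : Subgroup Γ} (h : ⁅S, S⁆ = ⊥) (n : ℕ) : S →* Γ :=
  MonoidHom.mk' (fun x => x ^ n) fun a b => (comm_of_bot h a.2 b.2).mul_pow n

theorem It_ab {S : Subgroup Γ} (h : ⁅S, S⁆ = ⊥) : ∀ l, It p S l = (powHom h (p ^ l)).range
  | 0 => le_antisymm (fun x hx => ⟨⟨x, hx⟩, by simp [powHom]⟩)
      (by rintro _ ⟨x, rfl⟩; exact pow_mem_It x.2 0)
  | l + 1 => le_antisymm (Fr_le_iff.2 ⟨((commutator_mono (It_anti S l.zero_le)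
      (It_anti S l.zero_le)).trans h.le).trans bot_le, fun x hx => by
        obtain ⟨y, rfl⟩ := (It_ab h l).le hx
        exact ⟨y, pow_mul (y : Γ) _ _⟩⟩) (by rintro _ ⟨x, rfl⟩; exact pow_mem_It x.2 _)

theorem card_le_pow [Finite Q] {c : ℕ} (h : ∀ S : Subgroup Q, Fr p S = ⊥ → Nat.card S ≤ c) (k : ℕ) :
    ∀ S : Subgroup Q, ⁅S, S⁆ = ⊥ → (∀ x ∈ S, x ^ p ^ k = 1) → Nat.card S ≤ c ^ k := by
  induction k with
  | zero =>
    intro S _ h2
    rw [show S = ⊥ from eq_bot_iff.2 fun x hx => by simpa using h2 x hx]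
    simp
  | succ k ih =>
    intro S h1 h2
    have h3 : (powHom h1 p).range ≤ S := by rintro _ ⟨x, rfl⟩; exact S.pow_mem x.2 p
    rw [← (powHom h1 p).ker.card_mul_index, index_ker, pow_succ',
      ← card_map_of_injective S.subtype_injective]
    refine Nat.mul_le_mul (h _ (eq_bot_iff.2 (Fr_le_iff.2 ⟨(commutator_mono (map_subtype_le _)
      (map_subtype_le _)).trans h1.le, ?_⟩)))
      (ih _ (eq_bot_iff.2 ((commutator_mono h3 h3).trans h1.le)) ?_)
    · rintro _ ⟨x, hx, rfl⟩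
      exact hx
    · rintro _ ⟨x, rfl⟩
      exact (pow_mul _ _ _).symm.trans (pow_succ' p k ▸ h2 x x.2)

theorem pow_emb [Finite Q] [hQ : Group.IsNilpotent Q] (V : Subgroup Q) (q : ℕ)
    (h : ∀ N : Subgroup Q, N.Normal → ⁅N, N⁆ = ⊥ → (∀ x ∈ N, x ^ q = 1) → ⁅N, V⁆ = ⊥)
    (N : Subgroup Q) : N.Normal → N ≤ V → (∀ x ∈ N, x ^ q = 1) → ⁅N, V⁆ = ⊥ := by
  induction N using WellFoundedLT.induction with | ind N ih
  intro h1 h2 h3
  refine bot_of_comm fun x hx y hy => ?_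
  have h4 : normalClosure {x} ≤ N := normalClosure_le_normal (by simpa)
  rcases h4.lt_or_eq with h5 | h5
  · exact comm_of_bot (ih _ h5 inferInstance (h4.trans h2) fun z hz => h3 z (h4 hz))
      (subset_normalClosure rfl) hy
  rcases (commutator_le_left N ⊤).lt_or_eq with h6 | h6
  · have h7 := ih _ h6 inferInstance (h6.le.trans h2) fun z hz => h3 z (h6.le hz)
    have h8 : ∀ z ∈ N, Commute x z → ∀ u ∈ N, Commute u z := fun z hz e u hu => by
      refine ((closure_le (centralizer {z})).2 (fun a ha => ?_) (h5.ge hu) z rfl).symm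
      obtain ⟨b, hb, ha'⟩ := Group.mem_conjugatesOfSet_iff.1 ha
      obtain ⟨g, rfl⟩ := isConj_iff.1 ha'
      rw [show b = x from hb]
      rintro _ rfl
      rw [show g * x * g⁻¹ = x * ⁅x⁻¹, g⁆ by simp [commutatorElement_def, mul_assoc]]
      exact (e.mul_left (comm_of_bot h7 (commutator_mem_commutator (N.inv_mem hx) trivial)
        (h2 hz))).symm
    exact comm_of_bot (h N h1 (bot_of_comm fun u hu z hz =>
      h8 z hz (h8 x hx rfl z hz).symm u hu) h3) hx hy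
  · obtain ⟨n, hn⟩ := Subgroup.nilpotent_iff_lowerCentralSeries.1 hQ
    have h7 : ∀ n, N ≤ Subgroup.lowerCentralSeries ⊤ n := fun n => by
      induction n with
      | zero => exact le_top
      | succ n ih => exact h6.ge.trans (commutator_mono ih le_rfl)
    rw [show x = 1 from hn.le (h7 n hx)]
    exact Commute.one_left y

variable [hp : Fact p.Prime]

theorem Fr_lt [Finite Q] {S : Subgroup Q} (h : IsPGroup p S) (h' : S ≠ ⊥) : Fr p S < S := by
  obtain ⟨n, hn, h1⟩ := h.nontrivial_iff_card.1 (S.nontrivial_iff_ne_bot.2 h')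
  obtain ⟨n, rfl⟩ := Nat.exists_eq_succ_of_ne_zero hn.ne'
  obtain ⟨M, hM⟩ := Sylow.exists_subgroup_card_pow_prime p (n := n)
    (h1 ▸ pow_dvd_pow p n.le_succ : p ^ n ∣ Nat.card S)
  have h2 : M.index = p := Nat.eq_of_mul_eq_mul_left (pow_pos hp.out.pos n)
    (by rw [← pow_succ, ← h1, ← hM, M.card_mul_index])
  have : M.Normal := normal_of_index_eq_minFac_card (by rw [h1, h2, hp.out.pow_minFac hn.ne'])
  have : IsCyclic (S ⧸ M) := isCyclic_of_prime_card h2
  refine lt_of_le_of_lt (b := M.map S.subtype) (Fr_le_iff.2 ⟨?_, fun x hx =>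
    ⟨⟨x, hx⟩ ^ p, h2 ▸ M.pow_index_mem _, rfl⟩⟩) ((map_subtype_le M).lt_of_ne fun e => ?_)
  · rw [← S.map_subtype_commutator]
    exact map_mono (Normal.quotient_commutative_iff_commutator_le.1 inferInstance)
  · have h3 := card_map_of_injective (K := M) S.subtype_injective
    rw [e, h1, hM] at h3
    exact n.succ_ne_self (Nat.pow_right_injective hp.out.two_le h3)

theorem It_le_ker [Finite Q] (φ : Γ →* Q) (h : IsPGroup p φ.range) {n : ℕ} (hn : Nat.card Q ≤ n) :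
    It p ⊤ n ≤ φ.ker := by
  have h1 : ∀ i, It p φ.range i = ⊥ ∨ Nat.card (It p φ.range i) + i ≤ Nat.card Q := fun i => by
    induction i with
    | zero => exact Or.inr (card_le_card_group _)
    | succ i ih =>
      by_cases h2 : It p φ.range i = ⊥
      · exact Or.inl (eq_bot_iff.2 ((Fr_le _).trans h2.le))
      have h3 := Fr_lt (h.to_le (It_anti _ i.zero_le)) h2
      have h4 := (card_le_of_le h3.le).lt_of_ne fun e => h3.ne (eq_of_le_of_card_ge h3.le e.ge)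
      exact Or.inr (((Nat.succ_add_eq_add_succ _ _).ge.trans (Nat.add_le_add_right h4 i)).trans
        (ih.resolve_left h2))
  rw [← Subgroup.map_eq_bot_iff, It_map, ← MonoidHom.range_eq_map]
  refine (h1 n).resolve_right fun h2 => ?_
  have := Nat.card_pos (α := It p φ.range n)
  omega

theorem sup_zpowers_comm {A : Subgroup Q} (h : ⁅A, A⁆ = ⊥) {z : Q} (hz : z ∈ centralizer A) :
    ⁅A ⊔ zpowers z, A ⊔ zpowers z⁆ = ⊥ := by
  have h1 := zpowers_le_of_mem hz
  exact commutator_eq_bot_iff_le_centralizer.2 (sup_le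
    (le_centralizer_iff.1 (sup_le (commutator_eq_bot_iff_le_centralizer.1 h) h1))
    (le_centralizer_iff.1 (sup_le (le_centralizer_iff.1 h1) (le_centralizer _))))

theorem exists_self_centralizing [Finite Q] [hQ : Group.IsNilpotent Q] : ∃ A : Subgroup Q,
    A.Normal ∧ ⁅A, A⁆ = ⊥ ∧ centralizer A ≤ A := by
  obtain ⟨A, ⟨h1, h2⟩, h3⟩ := exists_maximal_of_wellFoundedGT
    (fun A : Subgroup Q => A.Normal ∧ ⁅A, A⁆ = ⊥) ⟨⊥, inferInstance, commutator_bot_left _⟩
  obtain ⟨n, hn⟩ := hQ.nilpotent'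
  suffices h : ∀ n, ∀ z ∈ Subgroup.upperCentralSeries Q n, z ∈ centralizer (A : Set Q) → z ∈ A from
    ⟨A, h1, h2, fun z hz => h n z (hn.ge trivial) hz⟩
  intro n
  induction n with
  | zero => exact fun z hz _ => (bot_le : ⊥ ≤ A) hz
  | succ n ih =>
    intro z h4 h5
    refine h3 (y := A ⊔ zpowers z) ⟨⟨fun x hx g => ?_⟩, sup_zpowers_comm h2 h5⟩ le_sup_left
      (mem_sup_right (mem_zpowers z))
    refine (sup_le (fun a ha => mem_sup_left (h1.1 a ha g)) (zpowers_le_of_mem ?_) :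
      _ ≤ (A ⊔ zpowers z).comap (MulAut.conj g).toMonoidHom) hx
    change g * z * g⁻¹ ∈ A ⊔ zpowers z
    rw [show g * z * g⁻¹ = ⁅z, g⁆⁻¹ * z by simp [commutatorElement_def, mul_assoc]]
    exact mul_mem_sup (A.inv_mem (ih _ (h4 g)
      (commutator_le_left _ ⊤ (commutator_mem_commutator h5 trivial)))) (mem_zpowers z)

theorem tate {n : ℕ} {s u : ℤ} (h1 : ¬ (p : ℤ) ^ n ∣ s - 1) (h2 : (p : ℤ) ∣ s - 1)
    (h3 : (p : ℤ) ^ n ∣ u * (s - 1)) (h4 : ∀ t, ¬ (p : ℤ) ^ n ∣ (∑ i ∈ Finset.range p, s ^ i) * t + u) :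
    p = 2 ∧ (p : ℤ) ^ n ∣ s + 1 := by
  have hP : Prime (p : ℤ) := Nat.prime_iff_prime_int.1 hp.out
  obtain ⟨a, s', h5, h6⟩ := WfDvdMonoid.max_power_factor' (a₀ := s - 1) (x := (p : ℤ))
    (fun h => h1 (h ▸ dvd_zero _)) hP.not_isUnit
  obtain ⟨c, rfl⟩ : ∃ c, n = a + c + 1 := Nat.exists_eq_add_of_lt
    (not_le.1 fun h => h1 (h6 ▸ (pow_dvd_pow _ h).mul_right _))
  rw [h6, mul_left_comm, add_assoc, pow_add, mul_dvd_mul_iff_left (pow_ne_zero _ hP.ne_zero)] at h3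
  have h7 := hP.pow_dvd_of_dvd_mul_right _ h5 h3
  have h8 : (p : ℤ) ^ (c + 2) ∣ ∑ i ∈ Finset.range p, s ^ i := by
    by_contra h8
    obtain ⟨b, N, h9, h10⟩ := WfDvdMonoid.max_power_factor' (a₀ := ∑ i ∈ Finset.range p, s ^ i)
      (x := (p : ℤ)) (fun h => h8 (h ▸ dvd_zero _)) hP.not_isUnit
    obtain ⟨v, rfl⟩ := (pow_dvd_pow _ (Nat.le_of_lt_succ
      (not_le.1 fun h => h8 (h10 ▸ (pow_dvd_pow _ h).mul_right _)))).trans h7
    obtain ⟨d, e, h11⟩ := ((hP.coprime_iff_not_dvd.2 h9).pow_left (m := a + c + 1))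
    exact h4 (-v * e) ⟨p ^ b * v * d, by rw [h10]; linear_combination (-(p : ℤ) ^ b * v) * h11⟩
  obtain rfl : p = 2 := by
    by_contra h
    have h9 := emultiplicity_geom_sum₂_eq_one hP (hp.out.odd_of_ne_two h) h2
      fun e => hP.not_dvd_one (by simpa using dvd_sub e h2)
    simp only [one_pow, mul_one] at h9
    have h10 := pow_dvd_iff_le_emultiplicity.1 ((pow_dvd_pow _ (by omega : 2 ≤ c + 2)).trans h8)
    rw [h9] at h10
    exact absurd h10 (by decide)
  rw [Finset.sum_range_succ, Finset.sum_range_one, pow_zero, pow_one, add_comm 1] at h8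
  refine ⟨rfl, (pow_dvd_pow _ ?_).trans h8⟩
  by_contra h
  have h9 : ((2 : ℕ) : ℤ) ^ 2 ∣ s - 1 := h6 ▸ (pow_dvd_pow _ (by omega)).mul_right _
  have h10 := (pow_dvd_pow _ (by omega : 2 ≤ c + 2)).trans h8
  omega

theorem almost_cyclic [Finite Q] (hQ : IsPGroup p Q)
    (h : ∀ S : Subgroup Q, Fr p S = ⊥ → Nat.card S ≤ p) :
    ∃ a : Q, ∀ y ∉ zpowers a, p = 2 ∧ ∀ z ∉ zpowers a, y⁻¹ * z ∈ zpowers a := by
  have := hQ.isNilpotent
  obtain ⟨A, hA, h1, h2⟩ := exists_self_centralizing (Q := Q)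
  obtain ⟨a, rfl⟩ : ∃ a, zpowers a = A := by
    let _ : CommGroup A := { (inferInstance : Group A) with
      mul_comm := fun a b => Subtype.ext (comm_of_bot h1 a.2 b.2) }
    obtain ⟨k, hk⟩ := isPGroup_iff_exponent_eq_pow.1 (hQ.to_subgroup A)
    refine (Subgroup.isCyclic_iff_exists_zpowers_eq_top A).1 (IsCyclic.of_exponent_eq_card (le_antisymm
      (Nat.le_of_dvd Nat.card_pos Group.exponent_dvd_nat_card) (hk ▸ card_le_pow h k A h1 ?_)))
    exact fun x hx => congrArg Subtype.val (hk ▸ Monoid.pow_exponent_eq_one (⟨x, hx⟩ : A))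
  have h3 : ∀ x, x * a * x⁻¹ = a → x ∈ zpowers a := fun x hx => h2 (by
    rintro _ ⟨i, rfl⟩
    exact (Commute.zpow_right (mul_inv_eq_iff_eq_mul.1 hx) i).symm)
  obtain ⟨n, hn⟩ := IsPGroup.iff_orderOf.1 hQ a
  have hd : ∀ i j : ℤ, a ^ i = a ^ j ↔ (p : ℤ) ^ n ∣ j - i := fun i j => by
    rw [zpow_eq_zpow_iff_modEq, hn, Int.modEq_iff_dvd, Nat.cast_pow]
  have hc : ∀ (x : Q) (s : ℤ), a ^ s = x * a * x⁻¹ → ∀ (i : ℕ) (t : ℤ),
      x ^ i * a ^ t = a ^ (s ^ i * t) * x ^ i := fun x s hs i => by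
    induction i with
    | zero => simp
    | succ i ih =>
      intro t
      rw [pow_succ', mul_assoc, ih, pow_succ' s, mul_assoc s, zpow_mul a s, hs, conj_zpow]
      simp [mul_assoc]
  have h4 : ∀ x ∉ zpowers a, x ^ p ∈ zpowers a → p = 2 ∧ x * a * x⁻¹ = a⁻¹ := fun x hx ⟨u, hu⟩ => by
    obtain ⟨s, hs⟩ := hA.1 a (mem_zpowers a) x
    dsimp only at hu hs
    have h4 : ¬ (p : ℤ) ^ n ∣ s - 1 := fun e => hx (h3 x (by rw [← hs, ← (hd _ _).2 e, zpow_one]))
    obtain ⟨n, rfl⟩ := Nat.exists_eq_succ_of_ne_zero (n := n) (by rintro rfl; simp at h4)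
    have h5 : (p : ℤ) ∣ s - 1 := by
      have h5 := hc x s hs p 1
      rw [← hu, ← zpow_add, ← zpow_add, hd] at h5
      have h6 := (ZMod.intCast_zmod_eq_zero_iff_dvd _ p).2 ((dvd_pow_self _ n.succ_ne_zero).trans h5)
      refine (ZMod.intCast_zmod_eq_zero_iff_dvd _ p).1 ?_
      push_cast at h6 ⊢
      rw [ZMod.pow_card] at h6
      linear_combination h6
    obtain ⟨h6, h7⟩ := tate h4 h5 (u := u) (by
      have h6 := hc x s hs 1 u
      rw [pow_one, hu, ← pow_succ', pow_succ, mul_left_inj, ← hu, hd] at h6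
      convert h6 using 1
      ring) fun t ht => by
      have h6 : ∀ i : ℕ, (a ^ t * x) ^ i = a ^ ((∑ j ∈ Finset.range i, s ^ j) * t) * x ^ i :=
        fun i => by
          induction i with
          | zero => simp
          | succ i ih => rw [pow_succ, ih, mul_assoc, ← mul_assoc (x ^ i), hc x s hs,
              Finset.sum_range_succ, add_mul, zpow_add, pow_succ, mul_assoc, mul_assoc]
      have h7 : (a ^ t * x) ^ p = 1 := by
        rw [h6, ← hu, ← zpow_add, ← (hd 0 _).2 (by rwa [sub_zero]), zpow_zero]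
      have h8 := sup_zpowers_comm (A := zpowers (a ^ p ^ n)) (z := a ^ t * x)
        (commutator_self_eq_bot_iff.2 inferInstance) (by
          rintro _ ⟨i, rfl⟩
          refine (Commute.zpow_right (Commute.mul_left (((Commute.refl a).zpow_left _).pow_right _)
            ?_) i).symm
          have h8 := hc x s hs 1 (p ^ n : ℕ)
          rwa [pow_one, pow_one, ← (hd (p ^ n : ℕ) (s * (p ^ n : ℕ))).2 (by
            rw [← sub_one_mul, pow_succ']
            exact mul_dvd_mul h5 (by simp)), zpow_natCast] at h8)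
      have h9 : Nat.card (zpowers (a ^ p ^ n)) = p := by
        rw [Nat.card_zpowers, orderOf_pow_of_dvd (pow_pos hp.out.pos n).ne'
          (hn ▸ pow_dvd_pow p n.le_succ), hn, pow_succ, Nat.mul_div_cancel_left _ (pow_pos hp.out.pos n)]
      have h10 := eq_of_le_of_card_ge le_sup_left ((h _ (eq_bot_iff.2 (Fr_le_iff.2 ⟨h8.le,
        fun y hy => ?_⟩))).trans h9.ge)
      · exact hx ((mul_mem_cancel_left (zpow_mem_zpowers a t)).1 (zpowers_le_of_mem
          (npow_mem_zpowers a _) (h10.ge (mem_sup_right (mem_zpowers _)))))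
      obtain ⟨y, h10, rfl⟩ := (sup_le (zpowers_le_of_mem ⟨⟨_, mem_sup_left (mem_zpowers _)⟩, by
        change (a ^ p ^ n) ^ p = 1
        rw [← pow_mul, ← pow_succ, ← hn, pow_orderOf_eq_one], rfl⟩)
        (zpowers_le_of_mem ⟨⟨_, mem_sup_right (mem_zpowers _)⟩, h7, rfl⟩) :
          _ ≤ (powHom h8 p).ker.map (Subgroup.subtype _)) hy
      exact h10
    exact ⟨h6, by rw [← hs, ← (hd (-1) s).2 (by rwa [sub_neg_eq_add]), zpow_neg_one]⟩
  have h5 : ∀ k, ∀ y ∉ zpowers a, y ^ p ^ k ∈ zpowers a → p = 2 ∧ y * a * y⁻¹ = a⁻¹ := fun k => by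
    induction k with
    | zero => exact fun y h1 h2 => absurd (by simpa using h2) h1
    | succ k ih =>
      intro y h6 h7
      refine h4 y h6 (by_contra fun h8 => ?_)
      obtain ⟨rfl, h9⟩ := ih _ h8 (by rwa [← pow_mul, ← pow_succ'])
      obtain ⟨s, hs⟩ := hA.1 a (mem_zpowers a) y
      have h10 := hc y s hs 2 1
      rw [zpow_one, ← mul_inv_eq_iff_eq_mul, h9, ← zpow_neg_one, hd] at h10
      by_cases h11 : 2 ≤ n
      · have h12 := (pow_dvd_pow _ h11).trans h10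
        obtain ⟨m, rfl | rfl⟩ := Int.even_or_odd' s <;> ring_nf at h12 <;> omega
      · refine h8 (h3 _ (h9.trans ?_))
        rw [← zpow_neg_one, ← zpow_one a, ← zpow_mul, hd]
        exact (pow_dvd_pow _ (by omega : n ≤ 1)).trans (by norm_num)
  refine ⟨a, fun y hy => ?_⟩
  have h6 : ∀ y ∉ zpowers a, p = 2 ∧ y * a * y⁻¹ = a⁻¹ := fun y hy =>
    let ⟨k, hk⟩ := hQ y
    h5 k y hy (hk ▸ one_mem _)
  refine ⟨(h6 y hy).1, fun z hz => h3 _ ?_⟩
  calc _ = y⁻¹ * (z * a * z⁻¹) * y := by group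
    _ = a := by rw [(h6 z hz).2, ← (h6 y hy).2]; group

end Pool.Agent.P.MP_5ee5b4_al
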