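import Pool.Agent.P.MP_5ee5b4_al.TLin
import Pool.Agent.P.MP_5ee5b4_al.TPg
import Pool.Agent.P.MP_5ee5b4_al.TMat

/-! The Frattini tower of a group of rank three stabilizes. -/

namespace Pool.Agent.P.MP_5ee5b4_al

open Subgroup Matrix
open scoped commutatorElement

variable {Γ : Type} [Group Γ] {p : ℕ}

/-- the rank is at most three -/
def Rk (p : ℕ) (Γ : Type) [Group Γ] : Prop :=
  ∀ V : Subgroup Γ, V.FiniteIndex → ∃ d ≤ 3, (Fr p V).relIndex V = p ^ d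

/-- the tower of the whole group -/
abbrev Ut (p : ℕ) (Γ : Type) [Group Γ] (i : ℕ) : Subgroup Γ := It p ⊤ i

theorem pow_mem_Ut {i : ℕ} {x : Γ} (h : x ∈ Ut p Γ i) (m : ℕ) : x ^ p ^ m ∈ Ut p Γ (i + m) :=
  (It_add ⊤ i m).le (pow_mem_It h m)

theorem commute_mk {W : Subgroup Γ} [W.Normal] {x y : Γ} (h : ⁅x, y⁆ ∈ W) :
    Commute (QuotientGroup.mk' W x) (QuotientGroup.mk' W y) :=
  commutatorElement_eq_one_iff_commute.1 ((map_commutatorElement _ x y).symm.trans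
    ((QuotientGroup.eq_one_iff _).2 h))

theorem comm_map_bot {W S T : Subgroup Γ} [W.Normal] :
    ⁅S.map (QuotientGroup.mk' W), T.map (QuotientGroup.mk' W)⁆ = ⊥ ↔ ⁅S, T⁆ ≤ W := by
  rw [← map_commutator, Subgroup.map_eq_bot_iff, QuotientGroup.ker_mk']

theorem pow_inj {i₀ : ℕ} (h2 : ∀ j ≥ i₀, ⁅Ut p Γ j, Ut p Γ i₀⁆ ≤ Ut p Γ (j + 2))
    (hI : ∀ j ≥ i₀, ∀ x ∈ Ut p Γ j, x ^ p ∈ Ut p Γ (j + 2) → x ∈ Ut p Γ (j + 1)) {i : ℕ}
    (hi : i₀ ≤ i) {x y : Γ} (hx : x ∈ Ut p Γ i) (hy : y ∈ Ut p Γ i) (k : ℕ)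
    (h : (x ^ p)⁻¹ * y ^ p ∈ Ut p Γ (i + k + 1)) : x⁻¹ * y ∈ Ut p Γ (i + k) := by
  induction k with
  | zero => exact mul_mem (inv_mem hx) hy
  | succ k ih =>
    have h3 := ih (It_anti ⊤ (by omega) h)
    refine hI (i + k) (by omega) _ h3 ((QuotientGroup.eq_one_iff _).1 ?_)
    have h4 := (commute_mk (h2 (i + k) (by omega)
      (commutator_mem_commutator h3 (It_anti ⊤ hi hx)))).symm.mul_pow p
    rw [← map_mul, mul_inv_cancel_left, ← map_pow, ← map_pow, ← map_pow] at h4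
    exact (mul_eq_left.1 (h4.symm.trans (QuotientGroup.eq.2 h).symm))

theorem pow_inj' {i₀ : ℕ} (h2 : ∀ j ≥ i₀, ⁅Ut p Γ j, Ut p Γ i₀⁆ ≤ Ut p Γ (j + 2))
    (hI : ∀ j ≥ i₀, ∀ x ∈ Ut p Γ j, x ^ p ∈ Ut p Γ (j + 2) → x ∈ Ut p Γ (j + 1))
    {x y : Γ} (hx : x ∈ Ut p Γ i₀) (hy : y ∈ Ut p Γ i₀) (l m : ℕ)
    (h : (x ^ p ^ m)⁻¹ * y ^ p ^ m ∈ Ut p Γ (i₀ + m + l)) : x⁻¹ * y ∈ Ut p Γ (i₀ + l) := by
  induction m with
  | zero => simpa using h
  | succ m ih =>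
    refine ih (pow_inj h2 hI (by omega) (pow_mem_Ut hx m) (pow_mem_Ut hy m) l ?_)
    rw [← pow_mul, ← pow_mul, ← pow_succ]
    exact It_anti ⊤ (by omega) h

variable [hp : Fact p.Prime]

theorem Rk.fi (h : Rk p Γ) : ∀ i, (Ut p Γ i).FiniteIndex
  | 0 => inferInstanceAs (⊤ : Subgroup Γ).FiniteIndex
  | i + 1 => ⟨by
    obtain ⟨d, -, hd⟩ := h _ (h.fi i)
    exact (relIndex_mul_index (Fr_le _)).symm.trans_ne
      (mul_ne_zero (hd.trans_ne (pow_ne_zero _ hp.out.ne_zero)) (h.fi i).1)⟩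

omit hp in
theorem pgroup_Ut (m : ℕ) : IsPGroup p (Γ ⧸ Ut p Γ m) := fun x => by
  obtain ⟨x, rfl⟩ := QuotientGroup.mk_surjective x
  exact ⟨m, (QuotientGroup.eq_one_iff (x ^ p ^ m)).2 (pow_mem_It (mem_top x) m)⟩

theorem Rk.pe (h : Rk p Γ) (k : ℕ) : ∃ n, ∀ j ≥ n, ⁅Ut p Γ j, Ut p Γ n⁆ ≤ Ut p Γ (j + k) := by
  refine ⟨((p ^ 3) ^ k).factorial, fun j hj => comm_map_bot.1 ?_⟩
  have := h.fi (j + k)
  have hP := pgroup_Ut (p := p) (Γ := Γ) (j + k)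
  have := hP.isNilpotent
  have hπ := QuotientGroup.mk'_surjective (Ut p Γ (j + k))
  refine pow_emb _ (p ^ k) (fun N _ h1 h2 => bot_of_comm ?_) _ (Normal.map inferInstance _ hπ)
    (map_mono (It_anti ⊤ hj)) ?_
  · have h3 := card_le_pow (c := p ^ 3) (fun S hS => ?_) k N h1 h2
    · rintro x hx _ ⟨y, hy, rfl⟩
      have h4 := It_le_ker ((MulAut.conjNormal (H := N)).comp (QuotientGroup.mk' _))
        ((hP.of_surjective _ (MulAut.conjNormal (H := N)).rangeRestrict_surjective).to_le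
          (by rintro _ ⟨x, rfl⟩; exact ⟨_, rfl⟩))
        ((Nat.card_le_card_of_injective _ MulEquiv.toEquiv_injective).trans
          (Nat.card_perm.trans_le (Nat.factorial_le h3))) hy
      exact (mul_inv_eq_iff_eq_mul.1 (congrArg (fun e : MulAut N => (e ⟨x, hx⟩).1) h4)).symm
    · obtain ⟨d, h3, h4⟩ := h (S.comap (QuotientGroup.mk' _)) ⟨by
        rw [index_comap_of_surjective _ hπ]; exact FiniteIndex.index_ne_zero⟩
      rw [← map_comap_eq_self_of_surjective hπ S, ← relIndex_ker]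
      refine (relIndex_le_of_le_left ?_ (h4.trans_ne (pow_ne_zero _ hp.out.ne_zero))).trans
        (h4.trans_le (Nat.pow_le_pow_right hp.out.pos h3))
      rw [← Subgroup.map_eq_bot_iff, Fr_map, map_comap_eq_self_of_surjective hπ S, hS]
  · rintro _ ⟨x, hx, rfl⟩
    exact (QuotientGroup.eq_one_iff (x ^ p ^ k)).2 (pow_mem_Ut hx k)

theorem Rk.step (h : Rk p Γ) {j : ℕ} (hj : ⁅Ut p Γ j, Ut p Γ j⁆ ≤ Ut p Γ (j + 2)) :
    (Ut p Γ (j + 2)).relIndex (Ut p Γ (j + 1)) ≤ (Ut p Γ (j + 1)).relIndex (Ut p Γ j) ∧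
    ((Ut p Γ (j + 1)).relIndex (Ut p Γ j) ≤ (Ut p Γ (j + 2)).relIndex (Ut p Γ (j + 1)) →
      ∀ x ∈ Ut p Γ j, x ^ p ∈ Ut p Γ (j + 2) → x ∈ Ut p Γ (j + 1)) := by
  have := h.fi (j + 1)
  have h1 := comm_map_bot.2 hj
  let θ := (powHom h1 (p ^ 1)).comp ((QuotientGroup.mk' _).subgroupMap (Ut p Γ j))
  have h2 : θ.ker.index = (Ut p Γ (j + 2)).relIndex (Ut p Γ (j + 1)) := by
    rw [index_ker, MonoidHom.range_comp, MonoidHom.range_eq_top.2 (MonoidHom.subgroupMap_surjective _ _),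
      ← MonoidHom.range_eq_map, ← It_ab, ← It_map, ← relIndex_ker, QuotientGroup.ker_mk', It_add]
  have h3 : ∀ x : Ut p Γ j, x ∈ θ.ker ↔ x.1 ^ p ∈ Ut p Γ (j + 2) := fun x => by
    rw [← QuotientGroup.eq_one_iff (x.1 ^ p)]
    exact iff_of_eq (congrArg (fun n => ((x.1 ^ n : Γ) : Γ ⧸ Ut p Γ (j + 2)) = 1) (pow_one p))
  have h4 : (Ut p Γ (j + 1)).subgroupOf (Ut p Γ j) ≤ θ.ker := fun x hx => (h3 x).2 (pow_mem_Fr hx)
  refine ⟨h2 ▸ index_antitone h4, fun h5 x hx h6 => ?_⟩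
  exact (h4.eq_of_not_lt fun h7 => (index_strictAnti h7).not_ge (h2 ▸ h5)).ge ((h3 ⟨x, hx⟩).2 h6)

theorem level {i₀ j k r : ℕ} (h2 : ∀ j ≥ i₀, ⁅Ut p Γ j, Ut p Γ i₀⁆ ≤ Ut p Γ (j + 2))
    (hI : ∀ j ≥ i₀, ∀ x ∈ Ut p Γ j, x ^ p ∈ Ut p Γ (j + 2) → x ∈ Ut p Γ (j + 1)) (hj : i₀ ≤ j)
    (hk : ⁅Ut p Γ j, Ut p Γ j⁆ ≤ Ut p Γ (j + (k + 1)))
    (hr : (Ut p Γ (j + 1)).relIndex (Ut p Γ j) = p ^ r) :
    ∃ A : Γ → Matrix (Fin r) (Fin r) ℤ,
      (∀ γ δ i m, (p : ℤ) ^ k ∣ (A (γ * δ) - A γ * A δ) i m) ∧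
      (∀ l ≤ k, ∀ γ, (∀ i m, (p : ℤ) ^ l ∣ (A γ - 1) i m) ↔
        ∀ x ∈ Ut p Γ j, x⁻¹ * (γ * x * γ⁻¹) ∈ Ut p Γ (j + l)) ∧
      ∀ γ, ∀ y ∈ Ut p Γ j, y ∉ Ut p Γ (j + 1) → y⁻¹ * (γ * y * γ⁻¹) ∈ Ut p Γ (j + (k + 1)) →
        (p : ℤ) ^ k ∣ (A γ - 1).det := by
  let π := QuotientGroup.mk' (Ut p Γ (j + (k + 1)))
  let S := (Ut p Γ j).map π
  have hS : ⁅S, S⁆ = ⊥ := comm_map_bot.2 hk
  have : S.Normal := Normal.map inferInstance _ (QuotientGroup.mk'_surjective _)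
  let _ : CommGroup S := { (inferInstance : Group S) with
    mul_comm := fun a b => Subtype.ext (comm_of_bot hS a.2 b.2) }
  let f : Additive (Ut p Γ j) →+ Additive S := MonoidHom.toAdditive (π.subgroupMap (Ut p Γ j))
  have hf : Function.Surjective f := π.subgroupMap_surjective _
  have hb : ∀ l ≤ k + 1, ∀ x, (∃ c, p ^ l • c = f x) ↔ x.toMul.1 ∈ Ut p Γ (j + l) := fun l hl x => by
    constructor
    · rintro ⟨c, hc⟩
      obtain ⟨y, rfl⟩ := hf c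
      exact (mul_mem_cancel_left (inv_mem (pow_mem_Ut y.toMul.2 l))).1 (It_anti ⊤ (by omega)
        (QuotientGroup.eq.1 (congrArg (fun z : Additive S => z.toMul.1) hc)))
    · intro h
      obtain ⟨y, hy⟩ := ((It_map π _ l).trans (It_ab hS l)).le ⟨_, (It_add ⊤ j l).ge h, rfl⟩
      exact ⟨Additive.ofMul y, Subtype.ext hy⟩
  let c : Γ → Additive S →+ Additive S := fun γ =>
    MonoidHom.toAdditive (MulAut.conjNormal (π γ)).toMonoidHom
  have hc : ∀ γ x, c γ (f x) - f x = f (Additive.ofMul ⟨x.toMul.1⁻¹ * (γ * x.toMul.1 * γ⁻¹),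
      mul_mem (inv_mem x.toMul.2) (Normal.conj_mem inferInstance _ x.toMul.2 γ)⟩) := fun γ x => by
    rw [sub_eq_neg_add]; rfl
  obtain ⟨A, h3, h4, h5⟩ := exists_mat (B := Additive S) (k := k + 1) (r := r) (fun b => by
    obtain ⟨x, rfl⟩ := hf b
    exact Subtype.ext ((QuotientGroup.eq_one_iff (x.toMul.1 ^ p ^ (k + 1))).2
      (pow_mem_Ut x.toMul.2 _))) (by
    rw [← AddSubgroup.index_comap_of_surjective _ hf, ← hr, relIndex, ← index_toAddSubgroup]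
    exact congrArg _ (AddSubgroup.ext fun x => by
      simpa [mem_subgroupOf] using hb 1 (by omega) x)) (fun l hl b h => by
    obtain ⟨x, rfl⟩ := hf b
    rw [← map_nsmul, hb _ hl] at h
    rw [hb _ hl.le]
    simpa using pow_inj h2 hI hj (one_mem _) x.toMul.2 l (by simpa [add_assoc] using h)) c fun γ δ b => by
      simp only [c, map_mul]; rfl
  refine ⟨A, fun γ δ i m => (pow_dvd_pow _ k.le_succ).trans (h3 γ δ i m), fun l hl γ => ?_,
    fun γ y h6 h7 h8 => (pow_dvd_pow _ k.le_succ).trans (h5 γ (f (Additive.ofMul ⟨y, h6⟩))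
      ((hb 1 (by omega) _).not.2 h7) (sub_eq_zero.1 ((hc _ _).trans
        (Subtype.ext ((QuotientGroup.eq_one_iff _).2 h8)))))⟩
  simp only [h4 l (by omega), hf.forall, hc, hb l (by omega)]
  exact ⟨fun h x hx => h (Additive.ofMul ⟨x, hx⟩), fun h x => h _ x.toMul.2⟩

theorem Rk.stab (h : Rk p Γ) (hA : AB Γ) (hF : NF2 Γ) : ∃ m, Ut p Γ (m + 1) = Ut p Γ m := by
  by_contra! hU
  choose n hn using h.pe
  let e : ℕ → ℕ := fun j => (Ut p Γ (j + 1)).relIndex (Ut p Γ j)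
  have h0 : ∀ k, ∀ j ≥ n k, ⁅Ut p Γ j, Ut p Γ j⁆ ≤ Ut p Γ (j + k) := fun k j hj =>
    (commutator_mono le_rfl (It_anti ⊤ hj)).trans (hn k j hj)
  obtain ⟨i₀, h1, he⟩ : ∃ i₀ ≥ n 2, ∀ j ≥ i₀, e j = e i₀ := by
    obtain ⟨⟨i₀, h1⟩, h2⟩ := exists_minimalFor_of_wellFoundedLT (fun _ : {j // n 2 ≤ j} => True)
      (fun j => e j) ⟨⟨_, le_rfl⟩, trivial⟩
    have h3 : ∀ j ≥ i₀, e j ≤ e i₀ := fun j hj => by
      induction j, hj using Nat.le_induction with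
      | base => exact le_rfl
      | succ j hj ih => exact (h.step (h0 2 j (by omega))).1.trans ih
    exact ⟨i₀, h1, fun j hj => (h3 j hj).antisymm (h2.2 (j := ⟨j, by omega⟩) trivial (h3 j hj))⟩
  have h2 : ∀ j ≥ i₀, ⁅Ut p Γ j, Ut p Γ i₀⁆ ≤ Ut p Γ (j + 2) := fun j hj =>
    (commutator_mono le_rfl (It_anti ⊤ h1)).trans (hn 2 j (by omega))
  have hI : ∀ j ≥ i₀, ∀ x ∈ Ut p Γ j, x ^ p ∈ Ut p Γ (j + 2) → x ∈ Ut p Γ (j + 1) := fun j hj =>
    (h.step (h0 2 j (by omega))).2 ((he j hj).trans (he (j + 1) (by omega)).symm).le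
  obtain ⟨r, hr3, hr⟩ := h _ (h.fi i₀)
  choose A hA1 hA2 hA3 using fun k => level (j := i₀ + n (k + 1)) (k := k) h2 hI (by omega)
    (h0 _ _ (by omega)) ((he _ (by omega)).trans hr)
  obtain ⟨ρ, h3, h4, h5⟩ := exists_lim A hA1 fun k => (hA2 k k le_rfl 1).2 fun x _ => by simp
  let φ := (algebraMap ℚ_[p] (PadicAlgCl p)).comp (algebraMap ℤ_[p] ℚ_[p])
  have hφ : ∀ z, ‖φ z‖ = ‖z‖ := fun z => PadicAlgCl.norm_extends p _
  let σ : Representation (PadicAlgCl p) (Ut p Γ i₀) (Fin r → PadicAlgCl p) :=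
    (toLinAlgEquiv' (R := PadicAlgCl p)).toMonoidHom.comp
      (φ.mapMatrix.toMonoidHom.comp (ρ.comp (Ut p Γ i₀).subtype))
  have hσ : ∀ x v, σ x v = φ.mapMatrix (ρ x) *ᵥ v := fun x v => toLinAlgEquiv'_apply _ _
  have h6 := tits (padicAlgCl_le p) r _ _ (by simp) hr3 (hA.sub (h.fi i₀)) (hF.sub _) σ
    (fun x ζ m hm h6 h7 => (injective_iff_map_eq_zero _).2 fun v hv => by_contra fun h8 =>
      h7 (root_eq_one (φ.mapMatrix (ρ x)) (fun s i m => ?_) hm h6 h8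
        (by simpa [hσ, sub_eq_zero] using hv))) fun _ x => ?_
  · have h7 := hA _ (fi_map (h.fi i₀) h6)
    generalize hH : (MonoidHom.ker σ).map (Ut p Γ i₀).subtype = H at h7
    have h8 : ∀ l, ⁅H, H⁆ ≤ Ut p Γ (i₀ + l) := fun l => by
      rw [← hH, commutator_le]
      rintro _ ⟨x, hx, rfl⟩ _ ⟨y, hy, rfl⟩
      obtain ⟨k, h8, h9⟩ := h5 y (Matrix.map_injective (show Function.Injective φ from
        (algebraMap ℚ_[p] _).injective.comp Subtype.val_injective)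
          ((toLinAlgEquiv'.injective (hy.trans (map_one _).symm)).trans
            (map_one φ.mapMatrix).symm)) l
      have h10 := (hA2 k l h8 _).1 h9 _ (pow_mem_Ut (inv_mem x.2) (n (k + 1)))
      rw [← conj_pow] at h10
      simpa [commutatorElement_def, mul_assoc] using pow_inj' h2 hI (inv_mem x.2)
        (Normal.conj_mem inferInstance _ (inv_mem x.2) _) l _ h10
    have h9 : StrictMono fun l => (Ut p Γ l).index := strictMono_nat_of_lt_succ fun l =>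
      have := h.fi (l + 1)
      index_strictAnti ((Fr_le _).lt_of_ne (hU l))
    have h10 := (h9.id_le _).trans (index_antitone (h8 (⁅H, H⁆.index + 1)))
    simp only [id] at h10
    omega
  · rw [← map_pow, ← map_pow, ← map_one φ.mapMatrix, ← map_sub]
    refine (hφ _).trans_le (h3 _ 2 (fun k hk => (hA2 k 2 hk _).2 fun y hy => ?_) i m)
    simpa [commutatorElement_def, mul_assoc] using h2 _ (by omega)
      (commutator_mem_commutator (inv_mem hy) (pow_mem x.2 s))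
  · have h6 : ∀ j ≥ i₀, x.1 ∈ Ut p Γ j ∨ ∃ y ∈ Ut p Γ j, y ∉ Ut p Γ (j + 1) ∧ Commute x.1 y :=
      fun j hj => by
        induction j, hj using Nat.le_induction with
        | base => exact Or.inl x.2
        | succ j hj ih =>
          by_cases h6 : x.1 ∈ Ut p Γ (j + 1)
          · exact Or.inl h6
          obtain ⟨y, h7, h8, h9⟩ := ih.elim (fun h => ⟨_, h, h6, Commute.refl _⟩) id
          exact Or.inr ⟨_, pow_mem_Fr h7, fun h => h8 (hI j hj y h7 h), h9.pow_right p⟩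
    obtain ⟨v, h7, h8⟩ := exists_mulVec_eq_zero_iff.2 (show (φ.mapMatrix (ρ x - 1)).det = 0 by
      rw [← φ.map_det, h4 _ fun k => ?_, map_zero]
      rcases h6 (i₀ + n (k + 1)) (by omega) with h7 | ⟨y, h7, h8, h9⟩
      · obtain ⟨y, h8, h9⟩ := SetLike.exists_of_lt ((Fr_le _).lt_of_ne (hU (i₀ + n (k + 1))))
        refine hA3 k _ y h8 h9 ?_
        simpa [commutatorElement_def, mul_assoc] using h0 _ _ (by omega)
          (commutator_mem_commutator (inv_mem h8) h7)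
      · exact hA3 k _ y h7 h8 (by simp [h9.eq]))
    refine Module.End.hasEigenvalue_of_hasEigenvector (x := v)
      ⟨Module.End.mem_eigenspace_iff.2 ?_, h7⟩
    rw [map_sub, map_one, sub_mulVec, one_mulVec, sub_eq_zero] at h8
    rw [hσ, h8, one_smul]

end Pool.Agent.P.MP_5ee5b4_al
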