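import Pool.Agent.P.MP_5ee5b4_al.Sanov
import Pool.Agent.P.MP_5ee5b4_al.Main

/-! Groups all of whose subgroups have split central extensions and no free subgroups. -/

namespace Pool.Agent.P.MP_5ee5b4_al

open Pool.Agent.P.MP_6e40fc_al
open scoped MonoidAlgebra commutatorElement

variable {H K : Type} [Group H] [Group K]

/-- all subgroups have split central extensions of prime order and there is no free subgroup -/
def Tame (H : Type) [Group H] : Prop :=
  ∀ (K : Type) [Group K] (j : K →* H), Function.Injective j → CL K ∧ NF (⊤ : Subgroup K)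

theorem Tame.sub (h : Tame H) (L : Subgroup H) : Tame L :=
  fun K _ j hj => h K (L.subtype.comp j) (Subtype.val_injective.comp hj)

theorem CL.of_equiv (h : CL H) (e : K ≃* H) : CL K := fun p _ c hc => by
  obtain ⟨b, hb⟩ := h p (fun x y => c (e.symm x) (e.symm y)) fun x y z => by
    simpa using hc (e.symm x) (e.symm y) (e.symm z)
  exact ⟨fun x => b (e x), fun x y => by simpa using hb (e x) (e y)⟩

theorem tame_of {Γ : Type} [Group Γ] {N : Subgroup Γ} (h : ∀ K ≤ N, CL K) (h' : NF N) : Tame N :=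
  fun _ _ j hj => by
    have hi : Function.Injective (N.subtype.comp j) := Subtype.val_injective.comp hj
    exact ⟨(h _ (by rintro _ ⟨k, rfl⟩; exact (j k).2)).of_equiv (MonoidHom.ofInjective hi),
      (h'.comap _ hi).mono fun k _ => (j k).2⟩

theorem Tame.rk1 (h : Tame K) [Group.FG K] :
    ∃ χ : K →* Multiplicative ℤ, χ.ker = commutator K := by
  classical
  obtain ⟨h1, h2⟩ := h K (MonoidHom.id K) Function.injective_id
  have : Group.FG (Abelianization K) := Group.fg_of_surjective (f := Abelianization.of)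
    QuotientGroup.mk_surjective
  obtain ⟨n, ι, _, p, hp, e, ⟨E⟩⟩ :=
    AddCommGroup.equiv_free_prod_directSum_zmod (Additive (Abelianization K))
  let φ := fun k : K => E (Additive.ofMul (Abelianization.of k))
  have φ1 : ∀ k l, φ (k * l) = φ k + φ l := fun k l => by simp [φ]
  have φ2 : Function.Surjective φ := E.surjective.comp QuotientGroup.mk_surjective
  have φ3 : ∀ k, φ k = 0 ↔ k ∈ commutator K := fun k =>
    (map_eq_zero_iff E E.injective).trans (QuotientGroup.eq_one_iff k)
  have he : ∀ i, e i = 0 := fun i => by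
    by_contra h0
    have := Fact.mk (hp i)
    have hp0 := (hp i).pos
    obtain ⟨θ, hθ⟩ := h1.lift (p := p i) (AddMonoidHom.toMultiplicative (ZMod.castHom
      (Dvd.intro (p i) rfl : p i ^ e i ∣ p i ^ e i * p i) (ZMod (p i ^ e i))).toAddMonoidHom)
      (ZMod.castHom_surjective (Dvd.intro (p i) rfl)) (Multiplicative.ofAdd ((p i ^ e i : ℕ) : ZMod _))
      (fun x => mul_comm _ _) (by
        rw [orderOf_ofAdd_eq_addOrderOf, ZMod.addOrderOf_coe _ (by positivity),
          Nat.gcd_mul_right_left, Nat.mul_div_cancel_left _ (by positivity)])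
      (fun x => by
        obtain ⟨m, hm⟩ := ZMod.intCast_surjective x.toAdd
        obtain rfl : x = Multiplicative.ofAdd (m : ZMod _) := hm.symm
        change ZMod.castHom (Dvd.intro (p i) rfl : p i ^ e i ∣ p i ^ e i * p i) (ZMod (p i ^ e i))
          (m : ZMod _) = 0 ↔ _
        rw [map_intCast, ZMod.intCast_zmod_eq_zero_iff_dvd]
        constructor
        · rintro ⟨c, rfl⟩
          exact ⟨c, by simp [← ofAdd_zsmul, mul_comm]⟩
        · rintro ⟨c, hc⟩
          have h3 : ((c * (p i ^ e i : ℕ) : ℤ) : ZMod (p i ^ e i * p i)) = m := by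
            simpa [← ofAdd_zsmul] using hc
          have h4 := congrArg (ZMod.castHom (Dvd.intro (p i) rfl : p i ^ e i ∣ p i ^ e i * p i)
            (ZMod (p i ^ e i))) h3
          rw [map_intCast, map_intCast, Int.cast_mul, Int.cast_natCast, ZMod.natCast_self,
            mul_zero, eq_comm, ZMod.intCast_zmod_eq_zero_iff_dvd] at h4
          exact h4)
      (MonoidHom.mk' (fun k => Multiplicative.ofAdd ((φ k).2 i)) fun k l => by rw [φ1]; rfl)
    obtain ⟨a, ha⟩ := φ2 (0, DirectSum.of _ i 1)
    have h3 : θ (a ^ p i ^ e i) = 1 := Abelianization.commutator_subset_ker θ ((φ3 _).1 (by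
      have : φ (a ^ p i ^ e i) = (p i ^ e i) • φ a := by simp [φ]
      rw [this, ha, Prod.smul_mk, smul_zero, ← map_nsmul, nsmul_eq_mul, ZMod.natCast_self, zero_mul,
        map_zero]
      rfl))
    obtain ⟨m, hm⟩ := ZMod.intCast_surjective (θ a).toAdd
    have h4 : (((p i ^ e i : ℕ) * m : ℤ) : ZMod (p i ^ e i * p i)) = 0 := by
      rw [Int.cast_mul, hm, Int.cast_natCast, ← nsmul_eq_mul, ← toAdd_pow, ← map_pow, h3, toAdd_one]
    have h5 : ((m - 1 : ℤ) : ZMod (p i ^ e i)) = 0 := by
      have := hθ a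
      change ZMod.castHom (Dvd.intro (p i) rfl : p i ^ e i ∣ p i ^ e i * p i) (ZMod (p i ^ e i))
        (θ a).toAdd = (φ a).2 i at this
      rw [← hm, map_intCast, ha, DirectSum.of_eq_same] at this
      rw [Int.cast_sub, this, Int.cast_one, sub_self]
    rw [ZMod.intCast_zmod_eq_zero_iff_dvd] at h4 h5
    rw [Nat.cast_mul, mul_dvd_mul_iff_left (by positivity)] at h4
    have h6 := (dvd_sub h4 ((Int.natCast_dvd_natCast.2 (dvd_pow_self _ h0)).trans h5))
    rw [sub_sub_cancel] at h6
    exact (hp i).one_lt.ne' (Nat.dvd_one.1 (Int.natCast_dvd_natCast.1 h6))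
  have hn : Subsingleton (Fin n) := ⟨fun i j => by_contra fun hij => by
    obtain ⟨a, ha⟩ := φ2 (Finsupp.single i 1, 0)
    obtain ⟨b, hb⟩ := φ2 (Finsupp.single j 1, 0)
    exact h1.not_pair h2 a b (fun k => (φ k).1 i) (fun k => (φ k).1 j)
      (fun k l => by simp [φ1]) (fun k l => by simp [φ1]) (by simp [ha]) (by simp [hb, hij])
      (by simp [ha, Ne.symm hij]) (by simp [hb])⟩
  refine ⟨MonoidHom.mk' (fun k => Multiplicative.ofAdd (∑ i, (φ k).1 i)) fun k l => by
    simp [φ1, Finset.sum_add_distrib], Subgroup.ext fun k => ?_⟩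
  rw [← φ3]
  change ∑ i, (φ k).1 i = 0 ↔ _
  refine ⟨fun h3 => Prod.ext (Finsupp.ext fun i => ?_) (DFinsupp.ext fun i => ?_),
    fun h3 => by simp [h3]⟩
  · rwa [Fintype.sum_subsingleton _ i] at h3
  · have : Subsingleton (ZMod (p i ^ e i)) := by rw [he, pow_zero]; infer_instance
    exact Subsingleton.elim _ _

theorem lv_of_finiteIndex (ψ : K →* Multiplicative ℤ) (M : Subgroup K) [M.FiniteIndex]
    (h : ∀ x ∈ M, lv ψ x = 0) (k : K) : lv ψ k = 0 := by
  obtain ⟨m, hm, -, hm'⟩ := Subgroup.exists_pow_mem_of_index_ne_zero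
    (Subgroup.FiniteIndex.index_ne_zero (H := M)) k
  have := h _ hm'
  rw [lv_pow] at this
  exact (mul_eq_zero.1 this).resolve_left (by omega)

theorem Tame.act (h : Tame K) [Group.FG K] (M : Subgroup K) [hM : M.Normal] [M.FiniteIndex] :
    ⁅(⊤ : Subgroup K), M⁆ ≤ ⁅M, M⁆ := by
  obtain ⟨ψ, hψ⟩ := h.rk1
  obtain ⟨χ0, hχ0⟩ := (h.sub M).rk1
  have h1 : ∀ x : M, x ∈ commutator M → (x : K) ∈ ⁅M, M⁆ := fun x hx => by
    rw [← M.map_subtype_commutator]
    exact ⟨x, hx, rfl⟩
  by_cases h0 : ∀ x, lv χ0 x = 0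
  · exact fun x hx => h1 ⟨x, Subgroup.commutator_le_right _ _ hx⟩ (hχ0 ▸ (lv_eq_zero _).1 (h0 _))
  obtain ⟨x0, hx0⟩ := not_forall.1 h0
  obtain ⟨χ, t, ht, hχ⟩ := exists_normalized χ0 hx0
  rw [hχ0] at hχ
  let c : K →* MulAut M := MulAut.conjNormal
  have h2 : ∀ k x, lv χ (c k x) = lv χ x * lv χ (c k t) := fun k x => by
    have h3 : x * t ^ (-lv χ x) ∈ commutator M := hχ ▸ (lv_eq_zero _).1 (by simp [ht])
    have h4 := Abelianization.commutator_subset_ker (χ.comp (c k).toMonoidHom) h3
    have h5 : lv χ (c k (x * t ^ (-lv χ x))) = 0 := (lv_eq_zero _).2 h4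
    rw [map_mul, map_zpow, lv_mul, lv_zpow] at h5
    linear_combination h5
  let u : K →* ℤ :=
    { toFun := fun k => lv χ (c k t)
      map_one' := by simp [ht]
      map_mul' := fun k l => by rw [map_mul, MulAut.mul_apply, h2, mul_comm] }
  have h3 : ∀ k, u k = 1 := fun k => by
    rcases Int.isUnit_iff.1 (u.toHomUnits k).isUnit with h3 | h3
    · exact h3
    have h4 : ∀ x ∈ M, lv ψ x = 0 := fun x hx => by
      have h5 : c k ⟨x, hx⟩ * ⟨x, hx⟩ ∈ commutator M := hχ ▸ (lv_eq_zero _).1 (by
        rw [lv_mul, h2, show lv χ (c k t) = -1 from h3]; ring)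
      have h6 := (lv_eq_zero ψ).2 (hψ.ge (Subgroup.commutator_mono le_top le_top (h1 _ h5)))
      simp only [c, Subgroup.coe_mul, MulAut.conjNormal_apply, lv_mul, lv_inv] at h6
      omega
    have h5 := Abelianization.commutator_subset_ker u.toHomUnits
      (hψ ▸ (lv_eq_zero ψ).1 (lv_of_finiteIndex ψ M h4 k))
    exact congrArg Units.val h5
  refine Subgroup.commutator_le.2 fun k _ x hx => h1 (c k ⟨x, hx⟩ * (⟨x, hx⟩ : M)⁻¹) ?_
  refine hχ ▸ (lv_eq_zero _).1 ?_
  rw [lv_mul, h2, show lv χ (c k t) = 1 from h3 k, lv_inv]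
  ring

theorem Tame.cyclic_of_solvable (P : Type) [Group P] [Finite P] [Group.IsSolvable P] :
    ∀ (K : Type) [Group K] [Group.FG K], Tame K → ∀ φ : K →* P, Function.Surjective φ →
      IsCyclic P := by
  induction hn : Nat.card P using Nat.strong_induction_on generalizing P with
  | _ n ih =>
  intro K _ _ h φ hφ
  rcases subsingleton_or_nontrivial P with hs | hs
  · exact isCyclic_of_subsingleton
  let M := (commutator P).comap φ
  have : M.FiniteIndex := ⟨by
    rw [Subgroup.index_comap_of_surjective _ hφ]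
    exact Subgroup.FiniteIndex.index_ne_zero⟩
  have h1 : IsCyclic (commutator P) := ih _ (by
    rw [← hn]
    exact (Subgroup.card_le_card_group _).lt_of_ne fun h =>
      (Group.IsSolvable.commutator_lt_top_of_nontrivial P).ne (Subgroup.eq_top_of_card_eq _ h)) _ rfl M
    (h.sub M) (φ.subgroupComap _) (φ.subgroupComap_surjective_of_surjective _ hφ)
  have h2 : ⁅(⊤ : Subgroup P), commutator P⁆ = ⊥ := by
    have := Subgroup.map_mono (f := φ) (h.act M)
    rw [Subgroup.map_commutator, Subgroup.map_commutator, Subgroup.map_comap_eq_self_of_surjective hφ,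
      Subgroup.map_top_of_surjective _ hφ] at this
    refine le_bot_iff.1 (this.trans (Subgroup.commutator_le.2 fun a ha b hb => ?_))
    exact commutatorElement_eq_one_iff_mul_comm.2 (congrArg Subtype.val
      (IsCyclic.isMulCommutative.is_comm.comm (⟨a, ha⟩ : commutator P) ⟨b, hb⟩))
  obtain ⟨χ, hχ⟩ := h.rk1
  have h3 : IsCyclic (Abelianization P) := by
    have : IsCyclic (K ⧸ χ.ker) := isCyclic_of_injective _ (QuotientGroup.kerLift_injective χ)
    refine isCyclic_of_surjective (QuotientGroup.lift χ.ker (Abelianization.of.comp φ)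
      (hχ ▸ Abelianization.commutator_subset_ker _)) fun y => ?_
    obtain ⟨y, rfl⟩ := QuotientGroup.mk_surjective y
    obtain ⟨y, rfl⟩ := hφ y
    exact ⟨y, rfl⟩
  have h4 := (Abelianization.of (G := P)).isMulCommutative_of_isCyclic_of_ker_le_center (by
    rw [Abelianization.ker_of]
    refine fun x hx => Subgroup.mem_center_iff.2 fun g => commutatorElement_eq_one_iff_mul_comm.1 ?_
    exact Subgroup.mem_bot.1 (h2 ▸ Subgroup.commutator_mem_commutator (Subgroup.mem_top g) hx))
  refine isCyclic_of_injective Abelianization.of ?_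
  rw [← MonoidHom.ker_eq_bot_iff, Abelianization.ker_of, eq_bot_iff]
  exact Subgroup.commutator_le.2 fun a _ b _ =>
    commutatorElement_eq_one_iff_mul_comm.2 (h4.is_comm.comm a b)

theorem Tame.cyclic (h : Tame K) (P : Type) [Group P] [Finite P] (φ : K →* P)
    (hφ : Function.Surjective φ) : IsCyclic P := by
  choose s hs using hφ
  let L := Subgroup.closure (Set.range s)
  have : Group.FG L := Group.closure_finite_fg _
  have h1 : Function.Surjective (φ.comp L.subtype) := fun y =>
    ⟨⟨s y, Subgroup.subset_closure ⟨y, rfl⟩⟩, hs y⟩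
  have : IsZGroup P := ⟨fun p hp S => by
    have := Fact.mk hp
    have := S.isPGroup'.isNilpotent
    have : ((S : Subgroup P).comap (φ.comp L.subtype)).FiniteIndex := ⟨by
      rw [Subgroup.index_comap_of_surjective _ h1]
      exact Subgroup.FiniteIndex.index_ne_zero⟩
    exact Tame.cyclic_of_solvable _ _ ((h.sub L).sub _) _
      (MonoidHom.subgroupComap_surjective_of_surjective _ _ h1)⟩
  exact Tame.cyclic_of_solvable _ _ (h.sub L) _ h1

end Pool.Agent.P.MP_5ee5b4_al
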