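import Pool.Agent.P.MP_5ee5b4_al.Co
import Pool.Agent.P.MP_5ee5b4_al.Pres2

/-! Vanishing of the second cohomology with one-sided coefficients. -/

namespace Pool.Agent.P.MP_5ee5b4_al

open Pool.Agent.P.MP_6e40fc_al Matrix
open scoped MonoidAlgebra

noncomputable section

set_option linter.unusedSectionVars false

variable {K Γ : Type} [Group K] [Group Γ] {j : K →* Γ} {M : Type} [AddCommGroup M] [Module ℤ[K] M]
  {χ : Γ →* Multiplicative ℤ}

/-- restriction to a set of levels -/
def cut (hj : ∀ k, lv χ (j k) = 0) (p : ℤ → Prop) [DecidablePred p] : Co j M →+ Co j M where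
  toFun f := Co.mk (fun x => if p (lv χ x) then f x else 0) fun k x => by
    rw [lv_mul, hj, zero_add, f.equiv]
    split_ifs <;> simp
  map_zero' := Co.ext fun x => by simp
  map_add' f g := Co.ext fun x => by
    simp only [Co.mk_apply, Co.add_apply]
    split_ifs <;> simp

theorem cut_apply (hj : ∀ k, lv χ (j k) = 0) (p : ℤ → Prop) [DecidablePred p] (f : Co j M) (x : Γ) :
    cut hj p f x = if p (lv χ x) then f x else 0 := rfl

variable (j M χ) in
/-- functions vanishing at high levels -/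
def Vb : Submodule ℤ[Γ] (Co j M) where
  carrier := {f | ∃ k : ℤ, ∀ x, k < lv χ x → f x = 0}
  add_mem' := by
    rintro f g ⟨k, hk⟩ ⟨l, hl⟩
    exact ⟨max k l, fun x hx => by
      rw [Co.add_apply, hk x (by omega), hl x (by omega), add_zero]⟩
  zero_mem' := ⟨0, fun _ _ => rfl⟩
  smul_mem' r f := by
    rintro ⟨k, hk⟩
    induction r using zg_induction with
    | ho g => exact ⟨k - lv χ g, fun x hx => by rw [Co.o_smul, hk _ (by rw [lv_mul]; omega)]⟩
    | hadd a b ha hb =>
      obtain ⟨k, hk⟩ := ha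
      obtain ⟨l, hl⟩ := hb
      exact ⟨max k l, fun x hx => by
        rw [add_smul, Co.add_apply, hk x (by omega), hl x (by omega), add_zero]⟩
    | hsmul n a ha =>
      obtain ⟨k, hk⟩ := ha
      exact ⟨k, fun x hx => by rw [smul_assoc, Co.zsmul_apply, hk x hx, smul_zero]⟩

theorem hahn_smul (g : Γ) (y : HahnModule ℤ ℤ[Γ] (Co j M)) (i : ℤ) (x : Γ) :
    ((HahnModule.of ℤ[Γ]).symm (iota χ (o g) • y)).coeff i x =
      ((HahnModule.of ℤ[Γ]).symm y).coeff (i - lv χ g) (x * g) := by
  have := HahnModule.coeff_single_smul_vadd (r := o g) (x := y) (a := i - lv χ g) (b := lv χ g)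
  rw [vadd_eq_add, add_sub_cancel] at this
  rw [iota_o]
  exact (congrArg (fun f : Co j M => f x) this).trans (Co.o_smul _ _ _)

/-- the series of level components -/
def til (hj : ∀ k, lv χ (j k) = 0) : Vb j M χ →+ HahnModule ℤ ℤ[Γ] (Co j M) where
  toFun f := HahnModule.of ℤ[Γ] (HahnSeries.ofSuppBddBelow
    (fun i => cut hj (fun l => l = -i) f.1) (by
      obtain ⟨k, hk⟩ := f.2
      refine ⟨-k, fun i hi => ?_⟩
      by_contra hlt
      refine hi (Co.ext fun x => ?_)
      rw [cut_apply]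
      split_ifs with h
      · exact hk x (by omega)
      · rfl))
  map_zero' := HahnModule.ext _ _ (funext fun i => map_zero (cut hj fun l => l = -i))
  map_add' f g := HahnModule.ext _ _ (funext fun i => map_add (cut hj fun l => l = -i) f.1 g.1)

theorem til_coeff (hj : ∀ k, lv χ (j k) = 0) (f : Vb j M χ) (i : ℤ) (x : Γ) :
    ((HahnModule.of ℤ[Γ]).symm (til hj f)).coeff i x = if lv χ x = -i then f.1 x else 0 := rfl

theorem til_smul (hj : ∀ k, lv χ (j k) = 0) (r : ℤ[Γ]) (f : Vb j M χ) :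
    til hj (r • f) = iota χ r • til hj f := by
  induction r using zg_induction with
  | ho g =>
    refine HahnModule.ext _ _ (funext fun i => Co.ext fun x => ?_)
    rw [hahn_smul, til_coeff, til_coeff, Submodule.coe_smul, Co.o_smul, lv_mul]
    exact if_congr (by omega) rfl rfl
  | hadd a b ha hb => rw [add_smul, map_add, map_add, add_smul, ha, hb]
  | hsmul n a ha => rw [smul_assoc, map_zsmul, map_zsmul, smul_assoc, ha]

/-- the diagonal part of a series -/
def dia (hj : ∀ k, lv χ (j k) = 0) : HahnModule ℤ ℤ[Γ] (Co j M) →+ Co j M where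
  toFun y := Co.mk (fun x => ((HahnModule.of ℤ[Γ]).symm y).coeff (-lv χ x) x) fun k x => by
    rw [lv_mul, hj, zero_add, Co.equiv]
  map_zero' := Co.ext fun _ => rfl
  map_add' _ _ := Co.ext fun _ => rfl

theorem dia_apply (hj : ∀ k, lv χ (j k) = 0) (y : HahnModule ℤ ℤ[Γ] (Co j M)) (x : Γ) :
    dia hj y x = ((HahnModule.of ℤ[Γ]).symm y).coeff (-lv χ x) x := rfl

theorem dia_smul (hj : ∀ k, lv χ (j k) = 0) (r : ℤ[Γ]) (y : HahnModule ℤ ℤ[Γ] (Co j M)) :
    dia hj (iota χ r • y) = r • dia hj y := by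
  induction r using zg_induction with
  | ho g =>
    refine Co.ext fun x => ?_
    rw [dia_apply, hahn_smul, Co.o_smul, dia_apply, lv_mul, neg_add']
  | hadd a b ha hb => rw [map_add, add_smul, map_add, add_smul, ha, hb]
  | hsmul n a ha => rw [map_zsmul, smul_assoc, map_zsmul, smul_assoc, ha]

theorem dia_til (hj : ∀ k, lv χ (j k) = 0) (f : Vb j M χ) : dia hj (til hj f) = f.1 :=
  Co.ext fun x => by rw [dia_apply, til_coeff, if_pos (neg_neg _).symm]

theorem lin_apply {R A n : Type} [Ring R] [AddCommGroup A] [Module R A] [Fintype n] [DecidableEq n]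
    (f : (n → R) →ₗ[R] A) (y : n → R) : f y = ∑ i, y i • f (Pi.single i 1) := by
  rw [LinearMap.pi_apply_eq_sum_univ]
  refine Finset.sum_congr rfl fun i _ => ?_
  congr 2
  funext k
  simp [Pi.single_apply, eq_comm]

variable {n0 n1 n2 m0 : Type} [Fintype n0] [Fintype n1] [Fintype n2] [Fintype m0]
  [DecidableEq n0] [DecidableEq n1] [DecidableEq n2] [DecidableEq m0]

theorem vanish (hj : ∀ k, lv χ (j k) = 0) (P' : PRes Γ m0 n2 n1) (w : Γ →* ℤˣ)
    (h : AllPrinc (iota χ⁻¹)) (A : (n2 → ℤ[Γ]) →ₗ[ℤ[Γ]] Co j M) (hA : ∀ y, A y ∈ Vb j M χ)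
    (hA0 : ∀ v, A (v ᵥ* tc w P'.d1) = 0) :
    ∃ η : (n1 → ℤ[Γ]) →ₗ[ℤ[Γ]] Co j M, ∀ y, A (y ᵥ* tc w P'.e1) = η (y ᵥ* tc w P'.d2) := by
  obtain ⟨s0, s1, hs⟩ := P'.split_of_allPrinc _ h
  have hs' : ∀ a b, iota χ (tc w P'.e1 a b) = ∑ c, sig w (s0 c a) * iota χ (tc w P'.d1 c b) +
      ∑ c, iota χ (tc w P'.d2 a c) * sig w (s1 b c) := by
    intro a b
    have := congrArg (sig w) (congrFun (congrFun hs b) a)
    simp only [mul_apply, map_apply, Matrix.add_apply, map_add, map_sum, sig_mul, sig_iota] at this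
    exact this
  let a : n2 → HahnModule ℤ ℤ[Γ] (Co j M) := fun b => til hj ⟨A (Pi.single b 1), hA _⟩
  have ha : ∀ y, til hj ⟨A y, hA y⟩ = ∑ b, iota χ (y b) • a b := by
    intro y
    simp only [a, ← til_smul, ← map_sum]
    congr 1
    apply Subtype.ext
    simp only [Submodule.coe_sum, Submodule.coe_smul]
    exact lin_apply A y
  have h0 : ∀ c, ∑ b, iota χ (tc w P'.d1 c b) • a b = 0 := by
    intro c
    rw [← ha, ← map_zero (til hj)]
    congr 1
    apply Subtype.ext
    have := hA0 (Pi.single c 1)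
    rwa [single_one_vecMul] at this
  let η := Fintype.linearCombination ℤ[Γ] fun c => dia hj (∑ b, sig w (s1 b c) • a b)
  have : A ∘ₗ (tc w P'.e1).vecMulLinear = η ∘ₗ (tc w P'.d2).vecMulLinear := lin_ext fun i => by
    simp only [LinearMap.comp_apply, vecMulLinear_apply, single_one_vecMul]
    have h1 : _ = A ((tc w P'.e1).row i) := dia_til hj ⟨A ((tc w P'.e1).row i), hA _⟩
    rw [← h1, ha, Fintype.linearCombination_apply]
    simp only [← dia_smul hj, ← map_sum]
    congr 1
    simp only [row_apply, hs', add_smul, Finset.sum_smul, mul_smul, Finset.sum_add_distrib,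
      Finset.smul_sum]
    rw [Finset.sum_comm, Finset.sum_comm (f := fun b c =>
      iota χ (tc w P'.d2 i c) • sig w (s1 b c) • a b)]
    simp only [← Finset.smul_sum, h0, smul_zero, Finset.sum_const_zero, zero_add]
  exact ⟨η, fun y => LinearMap.congr_fun this y⟩

end

end Pool.Agent.P.MP_5ee5b4_al
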